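import Pool.Agent.Q183.AM.Cartan8

/-!
Truncated counting functions at points with divisible intersection numbers.
-/

set_option autoImplicit false

namespace Pool.Agent.Q183.AM

open Pool.Agent.Q183.AR
open NumberField Height IsDedekindDomain

variable {K : Type} [Field K] [NumberField K] {n : ℕ} {I : Type} [Fintype I]

omit [NumberField K] in
open Classical in
theorem finsum_off (T : Set (HeightOneSpectrum (𝓞 K))) (f : HeightOneSpectrum (𝓞 K) → ℝ)
    (S : Finset (HeightOneSpectrum (𝓞 K))) (h : ∀ v, v ∉ S → f v = 0) :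
    ∑ᶠ (v : HeightOneSpectrum (𝓞 K)) (_ : v ∉ T), f v = ∑ v ∈ S, if v ∉ T then f v else 0 := by
  rw [finsum_eq_sum_of_support_subset (s := S)]
  · exact Finset.sum_congr rfl fun v _ => finsum_eq_if
  · intro v hv
    by_contra hcon
    apply hv
    show ∑ᶠ (_ : v ∉ T), f v = 0
    rw [h v hcon]
    exact finsum_zero

/-- the sum of the local heights at the primes -/
theorem sum_lam_le (b x : Fin (n + 1) → 𝓞 K) (hne : ∑ k, b k * x k ≠ 0)
    (S : Finset (HeightOneSpectrum (𝓞 K))) :
    ∑ v ∈ S, lam v (fun k => (b k : K)) (fun k => (x k : K)) ≤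
      logHeight (fun k => (x k : K)) + logHeight (fun k => (b k : K)) +
        Module.finrank ℚ K * Real.log (n + 1) := by
  classical
  set L : 𝓞 K := ∑ k, b k * x k with hL
  have hLK : ∑ k, (b k : K) * (x k : K) = (L : K) := by
    simp only [hL, map_sum, map_mul]
  have hL0 : (L : K) ≠ 0 := RingOfIntegers.coe_ne_zero_iff.mpr hne
  have hx0 : x ≠ 0 := by
    intro h0
    apply hne
    rw [hL]
    exact Finset.sum_eq_zero fun k _ => by rw [h0, Pi.zero_apply, mul_zero]
  have hb0 : b ≠ 0 := by
    intro h0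
    apply hne
    rw [hL]
    exact Finset.sum_eq_zero fun k _ => by rw [h0, Pi.zero_apply, zero_mul]
  obtain ⟨kx, hkx⟩ : ∃ k, x k ≠ 0 := by
    by_contra hcon
    push Not at hcon
    exact hx0 (funext hcon)
  obtain ⟨kb, hkb⟩ : ∃ k, b k ≠ 0 := by
    by_contra hcon
    push Not at hcon
    exact hb0 (funext hcon)
  have sizpos : ∀ (y : Fin (n + 1) → 𝓞 K) (k : Fin (n + 1)), y k ≠ 0 → ∀ v : HeightOneSpectrum (𝓞 K),
      0 < siz v (fun k => (y k : K)) := fun y k hk v =>
    lt_of_lt_of_le (FinitePlace.pos_iff.2 (RingOfIntegers.coe_ne_zero_iff.mpr hk))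
      (le_siz v (fun k => (y k : K)) k)
  -- a finite set which contains all the supports
  set F : 𝓞 K := L * (x kx * b kb) with hF
  have hF0 : F ≠ 0 := mul_ne_zero hne (mul_ne_zero hkx hkb)
  set S' : Finset (HeightOneSpectrum (𝓞 K)) := S ∪ (finite_dvd hF0).toFinset with hS'
  have hout : ∀ v, v ∉ S' → L ∉ v.asIdeal ∧ x kx ∉ v.asIdeal ∧ b kb ∉ v.asIdeal := by
    intro v hv
    have h1 : F ∉ v.asIdeal := fun h => hv (Finset.mem_union_right _
      ((finite_dvd hF0).mem_toFinset.2 h))
    refine ⟨fun h => h1 (Ideal.mul_mem_right _ _ h), fun h => h1 ?_, fun h => h1 ?_⟩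
    · exact Ideal.mul_mem_left _ _ (Ideal.mul_mem_right _ _ h)
    · exact Ideal.mul_mem_left _ _ (Ideal.mul_mem_left _ _ h)
  have siz1 : ∀ (y : Fin (n + 1) → 𝓞 K) (k : Fin (n + 1)) (v : HeightOneSpectrum (𝓞 K)),
      y k ∉ v.asIdeal → siz v (fun k => (y k : K)) = 1 := by
    intro y k v hk
    refine le_antisymm (siz_le_one v _) ?_
    rw [← norm_eq_one v hk]
    exact le_siz v (fun k => (y k : K)) k
  have hlam0 : ∀ v, 0 ≤ lam v (fun k => (b k : K)) (fun k => (x k : K)) := fun v =>
    lam_nonneg v (by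
      rw [hLK]
      exact hL0)
  have hlamS : ∑ v ∈ S, lam v (fun k => (b k : K)) (fun k => (x k : K)) ≤
      ∑ v ∈ S', lam v (fun k => (b k : K)) (fun k => (x k : K)) :=
    Finset.sum_le_sum_of_subset_of_nonneg Finset.subset_union_left fun v _ _ => hlam0 v
  refine hlamS.trans ?_
  have hsplit : ∀ v, lam v (fun k => (b k : K)) (fun k => (x k : K)) =
      Real.log (siz v (fun k => (x k : K))) + Real.log (siz v (fun k => (b k : K))) -
        Real.log (FinitePlace.mk v (L : K)) := by
    intro v
    unfold lam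
    rw [hLK, Real.log_div (mul_pos (sizpos x kx hkx v) (sizpos b kb hkb v)).ne'
      (FinitePlace.pos_iff.2 hL0).ne', Real.log_mul (sizpos x kx hkx v).ne'
      (sizpos b kb hkb v).ne']
  simp only [hsplit]
  rw [Finset.sum_sub_distrib, Finset.sum_add_distrib]
  -- the sums are finite sums
  have hsum : ∀ (y : Fin (n + 1) → 𝓞 K) (k : Fin (n + 1)), (∀ v, v ∉ S' → y k ∉ v.asIdeal) →
      ∑ v ∈ S', Real.log (siz v (fun k => (y k : K))) =
        ∑ᶠ v : HeightOneSpectrum (𝓞 K), Real.log (⨆ k, FinitePlace.mk v (y k : K)) := by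
    intro y k hy
    symm
    refine finsum_eq_sum_of_support_subset _ fun v hv => ?_
    by_contra hcon
    apply hv
    show Real.log (siz v (fun k => (y k : K))) = 0
    rw [siz1 y k v (hy v hcon), Real.log_one]
  rw [hsum x kx fun v hv => (hout v hv).2.1, hsum b kb fun v hv => (hout v hv).2.2]
  have hx1 := logHeight_sum x hx0
  have hb1 := logHeight_sum b hb0
  -- the norm of the value
  have hN1 : ∑ v ∈ S', Real.log (FinitePlace.mk v (L : K)) =
      -Real.log |((Algebra.norm ℚ (L : K) : ℚ) : ℝ)| := by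
    have h1 : ∑ v ∈ S', Real.log (FinitePlace.mk v (L : K)) =
        -∑ v ∈ S', cv v (Ideal.span {L}) * Real.log (Ideal.absNorm v.asIdeal) := by
      rw [← Finset.sum_neg_distrib]
      refine Finset.sum_congr rfl fun v _ => ?_
      rw [norm_cv v hne, Real.log_inv, Real.log_pow]
    rw [h1, norm_span, log_cv (fun h0 => hne (Ideal.span_singleton_eq_bot.1 h0)) S']
    intro v hv
    by_contra hcon
    exact (hout v hcon).1 (Ideal.dvd_span_singleton.1 hv)
  have hN2 : Real.log |((Algebra.norm ℚ (L : K) : ℚ) : ℝ)| =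
      ∑ w : InfinitePlace K, (w.mult : ℝ) * Real.log (w (L : K)) := by
    have h1 := InfinitePlace.prod_eq_abs_norm (K := K) (L : K)
    have h2 : |((Algebra.norm ℚ (L : K) : ℚ) : ℝ)| = ∏ w : InfinitePlace K, w (L : K) ^ w.mult := by
      rw [h1]
      push_cast
      rfl
    rw [h2, Real.log_prod fun w _ => pow_ne_zero _ (InfinitePlace.pos_iff.2 hL0).ne']
    exact Finset.sum_congr rfl fun w _ => Real.log_pow _ _
  have hwle : ∀ w : InfinitePlace K, Real.log (w (L : K)) ≤
      Real.log (⨆ k, w (x k : K)) + Real.log (⨆ k, w (b k : K)) + Real.log (n + 1) := by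
    intro w
    have px : 0 < ⨆ k, w (x k : K) := lt_of_lt_of_le
      (InfinitePlace.pos_iff.2 (RingOfIntegers.coe_ne_zero_iff.mpr hkx))
      (le_ciSup (f := fun k => w (x k : K)) (Set.finite_range _).bddAbove kx)
    have pb : 0 < ⨆ k, w (b k : K) := lt_of_lt_of_le
      (InfinitePlace.pos_iff.2 (RingOfIntegers.coe_ne_zero_iff.mpr hkb))
      (le_ciSup (f := fun k => w (b k : K)) (Set.finite_range _).bddAbove kb)
    have pn : (0 : ℝ) < n + 1 := by positivity
    rw [← Real.log_mul px.ne' pb.ne', ← Real.log_mul (mul_pos px pb).ne' pn.ne']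
    refine Real.log_le_log (InfinitePlace.pos_iff.2 hL0) ?_
    rw [← hLK]
    calc w (∑ k, (b k : K) * (x k : K)) ≤ ∑ k, w ((b k : K) * (x k : K)) :=
          w.1.sum_le _ _
      _ ≤ ∑ _k : Fin (n + 1), (⨆ k, w (x k : K)) * ⨆ k, w (b k : K) := by
          refine Finset.sum_le_sum fun k _ => ?_
          rw [map_mul, mul_comm]
          exact mul_le_mul (le_ciSup (f := fun k => w (x k : K)) (Set.finite_range _).bddAbove k)
            (le_ciSup (f := fun k => w (b k : K)) (Set.finite_range _).bddAbove k)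
            (apply_nonneg _ _) px.le
      _ = _ := by
          rw [Finset.sum_const, Finset.card_univ, Fintype.card_fin, nsmul_eq_mul]
          push_cast
          ring
  have hmult : ∑ w : InfinitePlace K, (w.mult : ℝ) = Module.finrank ℚ K := by
    exact_mod_cast InfinitePlace.sum_mult_eq (K := K)
  have h2 : ∑ w : InfinitePlace K, (w.mult : ℝ) * Real.log (w (L : K)) ≤
      ∑ w : InfinitePlace K, (w.mult : ℝ) * Real.log (⨆ k, w (x k : K)) +
      ∑ w : InfinitePlace K, (w.mult : ℝ) * Real.log (⨆ k, w (b k : K)) +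
        Module.finrank ℚ K * Real.log (n + 1) := by
    rw [← hmult, Finset.sum_mul, ← Finset.sum_add_distrib, ← Finset.sum_add_distrib]
    refine Finset.sum_le_sum fun w _ => ?_
    have h3 := mul_le_mul_of_nonneg_left (hwle w) (Nat.cast_nonneg (α := ℝ) w.mult)
    linarith
  rw [hN1]
  rw [hN2]
  linarith

/-- the truncated counting function of some of the hyperplanes -/
noncomputable def NtrB (T : Set (HeightOneSpectrum (𝓞 K))) (m : ℕ) (B : Finset I)
    (a : I → Fin (n + 1) → K) (x : Fin (n + 1) → K) : ℝ :=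
  ∑ᶠ (v : HeightOneSpectrum (𝓞 K)) (_ : v ∉ T),
    ∑ i ∈ B, min (lam v (a i) x) (m * Real.log (Ideal.absNorm v.asIdeal))

open Classical in
/-- **The truncated counting function at integral points of root stacks.** -/
theorem trunc_split (T : Set (HeightOneSpectrum (𝓞 K))) (m : ℕ) (B : Finset I)
    (a : I → Fin (n + 1) → 𝓞 K) (x : Fin (n + 1) → 𝓞 K) (hne : ∀ i, ∑ k, a i k * x k ≠ 0)
    (o : I → ℕ) (ho : ∀ i, 0 < o i)
    (hint : ∀ v, v ∉ T → ∀ i, i ∉ B → ∃ k : ℕ, lam v (fun k => (a i k : K)) (fun k => (x k : K)) =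
      (o i * k : ℕ) * Real.log (Ideal.absNorm v.asIdeal)) :
    Ntr T m (fun i k => (a i k : K)) (fun k => (x k : K)) ≤
      NtrB T m B (fun i k => (a i k : K)) (fun k => (x k : K)) +
      ∑ i ∈ Finset.univ \ B, min 1 ((m : ℝ) / o i) *
        (logHeight (fun k => (x k : K)) + logHeight (fun k => (a i k : K)) +
          Module.finrank ℚ K * Real.log (n + 1)) := by
  have hLK : ∀ i, ∑ k, (a i k : K) * (x k : K) = ((∑ k, a i k * x k : 𝓞 K) : K) := fun i => by
    simp only [map_sum, map_mul]
  have hlam0 : ∀ v i, 0 ≤ lam v (fun k => (a i k : K)) (fun k => (x k : K)) := fun v i =>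
    lam_nonneg v (by
      rw [hLK]
      exact RingOfIntegers.coe_ne_zero_iff.mpr (hne i))
  -- a finite set of primes
  have hfin : ∀ i, {v : HeightOneSpectrum (𝓞 K) |
      lam v (fun k => (a i k : K)) (fun k => (x k : K)) ≠ 0}.Finite := by
    intro i
    obtain ⟨k, hk⟩ : ∃ k, a i k * x k ≠ 0 := by
      by_contra hcon
      push Not at hcon
      exact hne i (Finset.sum_eq_zero fun k _ => hcon k)
    have hak : a i k ≠ 0 := fun h0 => hk (by rw [h0, zero_mul])
    have hxk : x k ≠ 0 := fun h0 => hk (by rw [h0, mul_zero])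
    have hF0 : (∑ k, a i k * x k) * (x k * a i k) ≠ 0 :=
      mul_ne_zero (hne i) (mul_ne_zero hxk hak)
    refine (finite_dvd hF0).subset fun v hv => ?_
    by_contra hcon
    apply hv
    have h1 : (∑ k, a i k * x k) ∉ v.asIdeal := fun h => hcon (Ideal.mul_mem_right _ _ h)
    have h2 : x k ∉ v.asIdeal := fun h => hcon
      (Ideal.mul_mem_left _ _ (Ideal.mul_mem_right _ _ h))
    have h3 : a i k ∉ v.asIdeal := fun h => hcon
      (Ideal.mul_mem_left _ _ (Ideal.mul_mem_left _ _ h))
    have sx : siz v (fun k => (x k : K)) = 1 := by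
      refine le_antisymm (siz_le_one v _) ?_
      rw [← norm_eq_one v h2]
      exact le_siz v (fun k => (x k : K)) k
    have sa : siz v (fun k => (a i k : K)) = 1 := by
      refine le_antisymm (siz_le_one v _) ?_
      rw [← norm_eq_one v h3]
      exact le_siz v (fun k => (a i k : K)) k
    unfold lam
    rw [hLK, norm_eq_one v h1, sx, sa, mul_one, div_one, Real.log_one]
  set S : Finset (HeightOneSpectrum (𝓞 K)) := Finset.univ.biUnion fun i => (hfin i).toFinset with hS
  have hSout : ∀ v, v ∉ S → ∀ i, lam v (fun k => (a i k : K)) (fun k => (x k : K)) = 0 := by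
    intro v hv i
    by_contra h0
    exact hv (Finset.mem_biUnion.2 ⟨i, Finset.mem_univ _, (hfin i).mem_toFinset.2 h0⟩)
  have hmin0 : ∀ v, v ∉ S → ∀ i, min (lam v (fun k => (a i k : K)) (fun k => (x k : K)))
      (m * Real.log (Ideal.absNorm v.asIdeal)) = 0 := by
    intro v hv i
    rw [hSout v hv i]
    exact min_eq_left (mul_nonneg (Nat.cast_nonneg _) (log_Nv_pos v).le)
  have e1 : Ntr T m (fun i k => (a i k : K)) (fun k => (x k : K)) = ∑ v ∈ S, if v ∉ T then
      ∑ i, min (lam v (fun k => (a i k : K)) (fun k => (x k : K)))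
        (m * Real.log (Ideal.absNorm v.asIdeal)) else 0 :=
    finsum_off T _ S fun v hv => Finset.sum_eq_zero fun i _ => hmin0 v hv i
  have e2 : NtrB T m B (fun i k => (a i k : K)) (fun k => (x k : K)) = ∑ v ∈ S, if v ∉ T then
      ∑ i ∈ B, min (lam v (fun k => (a i k : K)) (fun k => (x k : K)))
        (m * Real.log (Ideal.absNorm v.asIdeal)) else 0 :=
    finsum_off T _ S fun v hv => Finset.sum_eq_zero fun i _ => hmin0 v hv i
  rw [e1, e2]
  have e3 : ∀ v, (if v ∉ T then ∑ i, min (lam v (fun k => (a i k : K)) (fun k => (x k : K)))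
        (m * Real.log (Ideal.absNorm v.asIdeal)) else 0) ≤
      (if v ∉ T then ∑ i ∈ B, min (lam v (fun k => (a i k : K)) (fun k => (x k : K)))
        (m * Real.log (Ideal.absNorm v.asIdeal)) else 0) +
      ∑ i ∈ Finset.univ \ B, min 1 ((m : ℝ) / o i) *
        lam v (fun k => (a i k : K)) (fun k => (x k : K)) := by
    intro v
    by_cases hv : v ∉ T
    · rw [if_pos hv, if_pos hv, ← Finset.sum_sdiff (Finset.subset_univ B), add_comm]
      refine add_le_add_right (Finset.sum_le_sum fun i hi => ?_) _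
      obtain ⟨k, hk⟩ := hint v hv i (Finset.mem_sdiff.1 hi).2
      have hlog := log_Nv_pos v
      have hoi : (0 : ℝ) < o i := by exact_mod_cast ho i
      set l := lam v (fun k => (a i k : K)) (fun k => (x k : K)) with hl
      rcases le_total 1 ((m : ℝ) / o i) with h1 | h1
      · rw [min_eq_left h1, one_mul]
        exact min_le_left _ _
      · rw [min_eq_right h1]
        rcases Nat.eq_zero_or_pos k with hk0 | hk0
        · have hl0 : l = 0 := by rw [hk, hk0, mul_zero, Nat.cast_zero, zero_mul]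
          rw [hl0, mul_zero]
          exact min_le_left _ _
        · refine (min_le_right _ _).trans ?_
          have h2 : (m : ℝ) / o i * l = m * k * Real.log (Ideal.absNorm v.asIdeal) := by
            rw [hk]
            push_cast
            field_simp
          rw [h2]
          have h3 : (1 : ℝ) ≤ k := by exact_mod_cast hk0
          have h4 : (m : ℝ) * 1 ≤ m * k := mul_le_mul_of_nonneg_left h3 (Nat.cast_nonneg _)
          have h5 := mul_le_mul_of_nonneg_right h4 hlog.le
          linarith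
    · rw [if_neg hv, if_neg hv, zero_add]
      exact Finset.sum_nonneg fun i _ => mul_nonneg (le_min zero_le_one (by positivity)) (hlam0 v i)
  refine (Finset.sum_le_sum fun v _ => e3 v).trans ?_
  rw [Finset.sum_add_distrib, Finset.sum_comm]
  refine add_le_add_right (Finset.sum_le_sum fun i _ => ?_) _
  rw [← Finset.mul_sum]
  refine mul_le_mul_of_nonneg_left ?_ (le_min zero_le_one (by positivity))
  exact sum_lam_le (a i) x (hne i) S

end Pool.Agent.Q183.AM
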