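import Pool.Agent.Q183.AM.J3

/-!
Three terms with sum zero: the height and the product of the bases, for all classes.
-/

set_option autoImplicit false

namespace Pool.Agent.Q183.AM

open Pool.Agent.Q183.AR
open NumberField Height IsDedekindDomain
open Pool.Agent.W223.CV (cc)
open Pool.Agent.Q103.SDV (Bad)

variable {K : Type} [Field K] [NumberField K] {J : Type} [Fintype J]

/-- the product of the norms of the bases with unequal exponents is at least one -/
theorem one_le_prod {κ μ : Fin 3 → 𝓞 K} {g : J → ℕ → 𝓞 K} {e : Fin 3 → J → ℕ} {s : ℕ}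
    (h : ∀ i, term κ μ g e i s ≠ 0) :
    1 ≤ ∏ j ∈ unequal e, |((Algebra.norm ℚ (g j s : K) : ℚ) : ℝ)| := by
  classical
  refine Finset.prod_induction (fun j => |((Algebra.norm ℚ (g j s : K) : ℚ) : ℝ)|)
    (fun x : ℝ => 1 ≤ x) (fun a b ha hb => one_le_mul_of_one_le_of_one_le ha hb) (le_refl 1)
    fun j hj => ?_
  have hgj : g j s ≠ 0 := by
    intro h0
    have h6 := (Finset.mem_filter.1 hj).2
    have h7 : ∀ i, e i j = 0 := by
      intro i
      by_contra h8
      apply h i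
      show κ i * μ i ^ s * ∏ j, g j s ^ e i j = 0
      rw [Finset.prod_eq_zero (Finset.mem_univ j) (by rw [h0, zero_pow h8]), mul_zero]
    exact h6 ⟨(h7 0).trans (h7 1).symm, (h7 1).trans (h7 2).symm⟩
  rw [norm_span]
  exact_mod_cast Nat.one_le_iff_ne_zero.2 fun h0 => hgj (Ideal.span_singleton_eq_bot.1
    (Ideal.absNorm_eq_zero_iff.1 h0))

/-- the inequality for the height of three terms -/
theorem mlog3 (𝓜 : Mode) (g : J → ℕ → 𝓞 K)
    (hg : ∀ j, ∃ E : LinearRecurrence (𝓞 K), E.IsSolution (g j)) (κ μ : Fin 3 → 𝓞 K)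
    (hμ : ∀ i, μ i ≠ 0) (e : Fin 3 → J → ℕ) (hsum : ∀ t, ∑ i, term κ μ g e i t = 0) :
    𝓜.A fun C s => (∀ i, term κ μ g e i s ≠ 0) →
      logHeight (fun i => (term κ μ g e i s : K)) ≤
        Real.log (∏ j ∈ unequal e, |((Algebra.norm ℚ (g j s : K) : ℚ) : ℝ)|) +
          Real.log (max C 1) := by
  classical
  have mono : MonoC fun C s => (∀ i, term κ μ g e i s ≠ 0) →
      logHeight (fun i => (term κ μ g e i s : K)) ≤
        Real.log (∏ j ∈ unequal e, |((Algebra.norm ℚ (g j s : K) : ℚ) : ℝ)|) +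
          Real.log (max C 1) := by
    intro C C' s hCC h1 h2
    have h7 : Real.log (max C 1) ≤ Real.log (max C' 1) :=
      Real.log_le_log (lt_of_lt_of_le one_pos (le_max_right _ _)) (max_le_max hCC (le_refl _))
    have := h1 h2
    linarith
  obtain ⟨M, hM, h⟩ := mheight3 𝓜 g hg κ μ hμ e hsum
  refine 𝓜.ofCls hM (fun ρ => ?_) mono
  rcases h ρ with ⟨c₀, c₁, z, hc, h1⟩ | h1
  · refine 𝓜.large (mulHeight ![c₁, c₀, -(c₀ + c₁)]) z (fun C C' s hCC h2 h3 =>
        mono C C' s hCC (h2 h3)) fun s hs hsρ hne => ?_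
    have h4 := h1 s hs hsρ
    have hK : ∀ k, (term κ μ g e k s : K) ≠ 0 := fun k => RingOfIntegers.coe_ne_zero_iff.mpr (hne k)
    have h5 : (term κ μ g e 0 s : K) + (term κ μ g e 1 s : K) + (term κ μ g e 2 s : K) = 0 := by
      have := hsum s
      rw [Fin.sum_univ_three] at this
      exact_mod_cast congrArg (algebraMap (𝓞 K) K) this
    have hc0 : c₀ ≠ 0 := by
      rintro rfl
      rw [zero_mul] at h4
      have h6 : c₁ = 0 := (mul_eq_zero.1 h4.symm).resolve_right (hK 1)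
      rcases hc with hc | hc
      · exact hc rfl
      · exact hc h6
    have h6 : (fun i => (term κ μ g e i s : K)) =
        ((term κ μ g e 1 s : K) / c₀) • ![c₁, c₀, -(c₀ + c₁)] := by
      have e0 : (term κ μ g e 0 s : K) = (term κ μ g e 1 s : K) / c₀ * c₁ := by
        field_simp
        linear_combination h4
      have e2 : (term κ μ g e 2 s : K) = (term κ μ g e 1 s : K) / c₀ * (-(c₀ + c₁)) := by
        field_simp
        linear_combination c₀ * h5 - h4
      funext i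
      rw [Pi.smul_apply, smul_eq_mul]
      fin_cases i
      · exact e0
      · exact (div_mul_cancel₀ _ hc0).symm
      · exact e2
    rw [h6, logHeight_smul_eq_logHeight _ (div_ne_zero (hK 1) hc0), logHeight_eq_log_mulHeight]
    have h7 := Real.log_nonneg (one_le_prod hne)
    have h8 : Real.log (mulHeight ![c₁, c₀, -(c₀ + c₁)]) ≤
        Real.log (max (mulHeight ![c₁, c₀, -(c₀ + c₁)]) 1) :=
      Real.log_le_log (lt_of_lt_of_le one_pos (one_le_mulHeight _)) (le_max_left _ _)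
    linarith
  · refine 𝓜.imp h1 (fun C => C) 0 PolyB.id (fun C C' s hCC h2 h3 => mono C C' s hCC (h2 h3))
      fun C s hC _ h2 hsρ hne => ?_
    obtain ⟨-, hh⟩ := h2 hsρ
    have hPr := one_le_prod hne
    have hC0 : 0 < C := by linarith
    have h3 : Real.log (mulHeight fun i => (term κ μ g e i s : K)) ≤
        Real.log (C * ∏ j ∈ unequal e, |((Algebra.norm ℚ (g j s : K) : ℚ) : ℝ)|) :=
      Real.log_le_log (lt_of_lt_of_le one_pos (one_le_mulHeight _)) hh
    rw [Real.log_mul hC0.ne' (by positivity)] at h3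
    rw [logHeight_eq_log_mulHeight, max_eq_left hC]
    linarith

/-- products of bases which are nearly squarefree, with further bases -/
theorem near_rad' (κ μ : Fin 3 → 𝓞 K) (hμ : ∀ i, μ i ≠ 0) (g : J → ℕ → 𝓞 K) (e : Fin 3 → J → ℕ) :
    ∃ B : ℝ, 0 ≤ B ∧ ∀ s, (∀ i, term κ μ g e i s ≠ 0) → ∀ S : Finset J, unequal e ⊆ S →
      (∏ j ∈ S, g j s) ≠ 0 → ∀ 𝔞 𝔟 : Ideal (𝓞 K),
      Ideal.span {∏ j ∈ S, g j s} = 𝔞 * 𝔟 → Squarefree 𝔞 → IsCoprime 𝔞 𝔟 →
      Real.log (∏ j ∈ unequal e, |((Algebra.norm ℚ (g j s : K) : ℚ) : ℝ)|) ≤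
        cc ∅ (Bad fun i => term κ μ g e i s) + Real.log (Ideal.absNorm 𝔟) + B := by
  classical
  obtain ⟨B, hB, h⟩ := near_rad κ μ hμ g e
  refine ⟨B, hB, fun s hs S hS h0 𝔞 𝔟 hab hsq hcop => ?_⟩
  have hb0 : 𝔟 ≠ ⊥ := by
    rintro rfl
    apply h0
    rw [Ideal.mul_bot] at hab
    exact Ideal.span_singleton_eq_bot.1 hab
  have h1 : Ideal.span {∏ j ∈ unequal e, g j s} ∣ 𝔞 * 𝔟 := by
    rw [← hab, ← Finset.prod_sdiff hS, ← Ideal.span_singleton_mul_span_singleton]
    exact Dvd.intro_left _ rfl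
  obtain ⟨𝔞', 𝔟', ha', hb', h2⟩ := exists_dvd_and_dvd_of_dvd_mul h1
  have h3 := h s hs 𝔞' 𝔟' h2 (hsq.squarefree_of_dvd ha')
    ((hcop.of_isCoprime_of_dvd_left ha').of_isCoprime_of_dvd_right hb')
  have hb'0 : 𝔟' ≠ ⊥ := fun h4 => hb0 (by
    rw [h4] at hb'
    exact zero_dvd_iff.1 hb')
  have h4 : Real.log (Ideal.absNorm 𝔟') ≤ Real.log (Ideal.absNorm 𝔟) := by
    have h5' : 0 < Ideal.absNorm 𝔟' := Nat.pos_of_ne_zero fun h5 =>
      hb'0 (Ideal.absNorm_eq_zero_iff.1 h5)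
    refine Real.log_le_log (by exact_mod_cast h5') ?_
    have h6 : Ideal.absNorm 𝔟' ∣ Ideal.absNorm 𝔟 := Ideal.absNorm_dvd_absNorm_of_le
      (Ideal.dvd_iff_le.1 hb')
    exact_mod_cast Nat.le_of_dvd (Nat.pos_of_ne_zero fun h5 =>
      hb0 (Ideal.absNorm_eq_zero_iff.1 h5)) h6
  linarith

end Pool.Agent.Q183.AM
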