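import Pool.Agent.Q183.AM.Core

/-!
Exponential polynomials and hyperplanes in general position, for most arguments.
-/

set_option autoImplicit false

namespace Pool.Agent.Q183.AM

open AddMonoidAlgebra Filter
open Pool.Agent.Q183.AR

variable {L : Type} [Field L] [NumberField L] {r n : ℕ}

theorem D_iter_smul {E : Type} [Field E] {r : ℕ} (ℓ : Ex r →+ ℤ) (c : E) (F : EP E r) (k : ℕ) :
    (D ℓ)^[k] (c • F) = c • (D ℓ)^[k] F := by
  ext m
  rw [coeff_D_iter, AddMonoidAlgebra.coeff_smul, Finsupp.smul_apply,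
    AddMonoidAlgebra.coeff_smul, Finsupp.smul_apply, coeff_D_iter]
  simp only [smul_eq_mul]
  ring

/-- upper bounds of Wronskians by the functions -/
theorem Mode.wubF (𝓜 : Mode) {γ : Fin r → Lˣ} (hγ : Ind γ) (τ : L →+* ℂ) {N : ℕ}
    (F : Fin N → EP L r) (ℓ : Ex r →+ ℤ) :
    𝓜.A fun C s => ‖τ (ev γ (Matrix.of fun (i k : Fin N) => (D ℓ)^[(k : ℕ)] (F i)).det s)‖ ≤
      C * ∏ j, ‖τ (ev γ (F j) s)‖ := by
  classical
  refine 𝓜.imp (𝓜.wub hγ τ F ℓ 1 (by rw [Matrix.det_one]; exact one_ne_zero)) (fun C => C) 0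
    PolyB.id (fun C C' s hCC h => h.trans (mul_le_mul_of_nonneg_right hCC
    (Finset.prod_nonneg fun _ _ => norm_nonneg _))) fun C s _ _ h => h.trans (le_of_eq ?_)
  congr 1
  refine Finset.prod_congr rfl fun j _ => ?_
  congr 1
  rw [Finset.sum_eq_single j]
  · rw [Matrix.one_apply_eq, Int.cast_one, one_mul]
  · intro b _ hb
    rw [Matrix.one_apply_ne hb.symm, Int.cast_zero, zero_mul]
  · intro h0
    exact absurd (Finset.mem_univ _) h0

section Gen

variable {I : Type} [Fintype I]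

omit [NumberField L] in
/-- the Wronskian of linear forms -/
theorem wr_forms (ℓ : Ex r →+ ℤ) (X : Fin (n + 1) → EP L r) (a : Fin (n + 1) → Fin (n + 1) → L)
    (F : Fin (n + 1) → EP L r) (hF : ∀ i, ∑ k, a i k • X k = F i) :
    (Matrix.of fun (i k : Fin (n + 1)) => (D ℓ)^[(k : ℕ)] (F i)).det =
      (Matrix.of a).det • (Matrix.of fun (i k : Fin (n + 1)) => (D ℓ)^[(k : ℕ)] (X i)).det := by
  have h1 : (Matrix.of fun (i k : Fin (n + 1)) => (D ℓ)^[(k : ℕ)] (F i)) =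
      (Matrix.of a).map (algebraMap L (EP L r)) *
        Matrix.of fun (i k : Fin (n + 1)) => (D ℓ)^[(k : ℕ)] (X i) := by
    ext1 i k
    rw [Matrix.mul_apply]
    simp only [Matrix.of_apply, Matrix.map_apply]
    rw [← hF i, D_iter_sum]
    refine Finset.sum_congr rfl fun m _ => ?_
    rw [D_iter_smul, Algebra.smul_def]
  rw [h1, Matrix.det_mul, ← RingHom.mapMatrix_apply, ← RingHom.map_det, Algebra.smul_def]

open Classical in
/-- **The inequality for hyperplanes in general position**, for most arguments. -/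
theorem hypcore (𝓜 : Mode) {γ : Fin r → Lˣ} (hγ : Ind γ) {J : Type} [Fintype J]
    (X : Fin (n + 1) → EP L r) (hX : LinearIndependent L X) (a : I → Fin (n + 1) → L)
    (ha : ∀ i k, IsIntegral ℤ (a i k))
    (hgen : ∀ B : Fin (n + 1) ↪ I, (Matrix.of fun i k => a (B i) k).det ≠ 0)
    (G : J → EP L r) (U : I → EP L r) (hG : ∀ j, G j ∈ Bi γ)
    (hU : ∀ (ℓ : Ex r →+ ℤ) i, ∃ u : ℤ, D ℓ (U i) = (u : EP L r) * U i)
    (e : I → J → ℕ) (x : J → ℕ)
    (hx : ∀ j, ∀ B : Fin (n + 1) ↪ I, ∑ k : Fin (n + 1), min (e (B k) j) k ≤ x j)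
    (hxe : ∀ j, x j ≠ 0 → ∃ i, e i j ≠ 0)
    (hL : ∀ i, ∑ k, a i k • X k = U i * ∏ j, G j ^ e i j)
    (hne : ∀ i, U i * ∏ j, G j ^ e i j ≠ 0) :
    𝓜.A fun C s => (∀ i, ev γ (U i) s * ∏ j, ev γ (G j) s ^ e i j ≠ 0) ∧
      ∀ v : (Fin (n + 1) ↪ I) → L, (∀ B, IsIntegral ℤ (v B)) →
        ∑ B : Fin (n + 1) ↪ I, v B * ∏ i ∈ Finset.univ \ Finset.univ.map B,
          (ev γ (U i) s * ∏ j, ev γ (G j) s ^ e i j) ≠ 0 →
        ∀ B : (L →ₐ[ℚ] ℂ) → (Fin (n + 1) ↪ I),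
          ∏ i, Nt (ev γ (U i) s * ∏ j, ev γ (G j) s ^ e i j) ≤
            C * (Nt (∏ j, ev γ (G j) s ^ x j) *
              Nt (∑ B : Fin (n + 1) ↪ I, v B * ∏ i ∈ Finset.univ \ Finset.univ.map B,
                (ev γ (U i) s * ∏ j, ev γ (G j) s ^ e i j))) *
              ∏ τ : L →ₐ[ℚ] ℂ, ∏ k : Fin (n + 1),
                ‖τ (ev γ (U (B τ k)) s * ∏ j, ev γ (G j) s ^ e (B τ k) j)‖ := by
  set A : I → EP L r := fun i => U i * ∏ j, G j ^ e i j with hAdef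
  set l : I → ℕ → L := fun i s => ev γ (U i) s * ∏ j, ev γ (G j) s ^ e i j with hl
  have hev : ∀ i s, ev γ (A i) s = l i s := by
    intro i s
    simp only [hAdef, hl, map_mul, map_prod, map_pow, Pi.mul_apply, Finset.prod_apply, Pi.pow_apply]
  -- the Wronskian
  obtain ⟨ℓ, hℓ⟩ := exists_sep (Finset.univ.biUnion fun i => (X i).coeff.support)
  set W : EP L r := (Matrix.of fun (i k : Fin (n + 1)) => (D ℓ)^[(k : ℕ)] (X i)).det with hW
  have hWne : W ≠ 0 := wr_ne hX (S := Finset.univ.biUnion fun i => (X i).coeff.support)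
    (fun i => Finset.subset_biUnion_of_mem (fun i => (X i).coeff.support) (Finset.mem_univ _)) hℓ
  set d : (Fin (n + 1) ↪ I) → L := fun B => (Matrix.of fun i k => a (B i) k).det with hd
  have hdW : ∀ B : Fin (n + 1) ↪ I,
      (Matrix.of fun (i k : Fin (n + 1)) => (D ℓ)^[(k : ℕ)] (A (B i))).det = d B • W := fun B =>
    wr_forms ℓ X (fun i k => a (B i) k) (fun i => A (B i)) fun i => hL (B i)
  -- divisibility
  have hH : ∀ B : Fin (n + 1) ↪ I, ∃ H ∈ Bi γ, (∏ j, G j ^ x j) * (d B • W) =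
      (∏ k : Fin (n + 1), A (B k)) * H := by
    intro B
    have h1 := Wi_dvd (N := n + 1) ℓ hG (U := Fin.cons 1 fun k => U (B k)) (fun i => by
      refine Fin.cases ?_ (fun k => ?_) i
      · refine ⟨0, ?_⟩
        rw [Fin.cons_zero, Int.cast_zero, zero_mul]
        exact (D ℓ).map_one_eq_zero
      · rw [Fin.cons_succ]
        exact hU ℓ (B k)) (Fin.cons (fun _ => 0) fun k => e (B k)) x (i0 := 0) (fun j σ => by
      refine le_trans (le_of_eq ?_) (hx j (σ.toEmbedding.trans B))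
      refine Finset.sum_congr rfl fun k _ => ?_
      rw [Fin.succAbove_zero, Fin.cons_succ]
      rfl)
    obtain ⟨H, hH, h2⟩ := h1
    refine ⟨H, hH, ?_⟩
    rw [← hdW]
    have e1 : Wi ℓ (fun i => (Fin.cons 1 fun k => U (B k) : Fin (n + 1 + 1) → EP L r) i *
        ∏ j, G j ^ (Fin.cons (fun _ => 0) fun k => e (B k) : Fin (n + 1 + 1) → J → ℕ) i j) 0 =
        (Matrix.of fun (i k : Fin (n + 1)) => (D ℓ)^[(k : ℕ)] (A (B i))).det := by
      rfl
    rw [← e1]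
    exact h2
  choose H hHB hH using hH
  choose dn hdn0 hdn using fun B => Bi_int (hHB B)
  set d' : ℤ := ∏ B, dn B with hd'
  have hd'0 : d' ≠ 0 := Finset.prod_ne_zero_iff.2 fun B _ => hdn0 B
  have hd'' : ∀ B t, IsIntegral ℤ ((d' : L) * ev γ (H B) t) := by
    intro B t
    have h1 : (d' : L) = ((∏ k ∈ Finset.univ.erase B, dn k : ℤ) : L) * (dn B : L) := by
      rw [hd', ← Finset.mul_prod_erase _ _ (Finset.mem_univ B)]
      push_cast
      ring
    rw [h1, mul_assoc]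
    exact (isIntegral_algebraMap (R := ℤ) (x := (∏ k ∈ Finset.univ.erase B, dn k : ℤ))).mul (hdn B t)
  have hd'L : (d' : L) ≠ 0 := by exact_mod_cast hd'0
  have hdint : ∀ B, IsIntegral ℤ (d B) := by
    intro B
    simp only [hd]
    rw [Matrix.det_apply]
    refine IsIntegral.sum _ fun σ _ => ?_
    rcases Int.units_eq_one_or (Equiv.Perm.sign σ) with h | h
    · rw [h, one_smul]
      exact IsIntegral.prod _ fun i _ => ha _ _
    · rw [h, Units.neg_smul, one_smul]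
      exact (IsIntegral.prod _ fun i _ => ha _ _).neg
  -- the complementary determinants
  set dc : (Fin (n + 1) ↪ I) → L := fun B => ∏ B' ∈ Finset.univ.erase B, d B' with hdc
  have hdc1 : ∀ B, dc B * d B = ∏ B', d B' := fun B => by
    rw [mul_comm]
    exact Finset.mul_prod_erase _ _ (Finset.mem_univ B)
  have hD0 : (∏ B', d B') ≠ 0 := Finset.prod_ne_zero_iff.2 fun B _ => hgen B
  -- most arguments
  have c1 : 𝓜.A fun _ s => ∀ i, ev γ (A i) s ≠ 0 :=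
    𝓜.all (fun i => 𝓜.ne hγ (hne i)) fun i C C' s _ h => h
  have c2 : 𝓜.A fun _ s => ev γ W s ≠ 0 := 𝓜.ne hγ hWne
  have m3' : ∀ p : (L →ₐ[ℚ] ℂ) × (Fin (n + 1) ↪ I), MonoC fun C s =>
      ‖(p.1 : L →+* ℂ) (ev γ W s)‖ ≤ C * ∏ k, ‖(p.1 : L →+* ℂ) (ev γ (A (p.2 k)) s)‖ :=
    fun p C C' s hCC h => h.trans
      (mul_le_mul_of_nonneg_right hCC (Finset.prod_nonneg fun _ _ => norm_nonneg _))
  have m3 : MonoC fun C s => ∀ p : (L →ₐ[ℚ] ℂ) × (Fin (n + 1) ↪ I),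
      ‖(p.1 : L →+* ℂ) (ev γ W s)‖ ≤ C * ∏ k, ‖(p.1 : L →+* ℂ) (ev γ (A (p.2 k)) s)‖ :=
    fun C C' s hCC h p => m3' p C C' s hCC (h p)
  have c3 : 𝓜.A fun C s => ∀ p : (L →ₐ[ℚ] ℂ) × (Fin (n + 1) ↪ I),
      ‖(p.1 : L →+* ℂ) (ev γ W s)‖ ≤ C * ∏ k, ‖(p.1 : L →+* ℂ) (ev γ (A (p.2 k)) s)‖ := by
    refine 𝓜.all (fun p => ?_) m3'
    have hdp : (p.1 : L →+* ℂ) (d p.2) ≠ 0 := (_root_.map_ne_zero _).2 (hgen p.2)
    have hdp' : 0 < ‖(p.1 : L →+* ℂ) (d p.2)‖ := norm_pos_iff.2 hdp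
    refine 𝓜.imp (𝓜.wubF hγ (p.1 : L →+* ℂ) (fun k => A (p.2 k)) ℓ)
      (fun C => ‖(p.1 : L →+* ℂ) (d p.2)‖⁻¹ * C) 0
      ((PolyB.const _).mul PolyB.id (fun C hC => by linarith)) (m3' p) fun C s _ _ h => ?_
    rw [hdW, map_smul, Pi.smul_apply, smul_eq_mul, map_mul, norm_mul] at h
    rw [mul_assoc, ← div_eq_inv_mul, le_div_iff₀ hdp', mul_comm]
    exact h
  refine 𝓜.imp (𝓜.and c1 (𝓜.and c2 c3 (fun _ _ _ _ h => h) m3) (fun _ _ _ _ h => h)
      (fun C C' s hCC h => ⟨h.1, m3 C C' s hCC h.2⟩))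
    (fun C => (Nt (d' : L) * Nt (∏ B', d B')) * C ^ Fintype.card (L →ₐ[ℚ] ℂ)) 0
    ((PolyB.const _).mul (PolyB.id.pow (fun C hC => by linarith) _)
      (fun C hC => pow_nonneg (by linarith) _)) ?_ ?_
  · rintro C C' s hCC ⟨h1, h2⟩
    refine ⟨h1, fun v hv hδ B => (h2 v hv hδ B).trans ?_⟩
    refine mul_le_mul_of_nonneg_right (mul_le_mul_of_nonneg_right hCC
      (mul_nonneg (Nt_nonneg _) (Nt_nonneg _)))
      (Finset.prod_nonneg fun _ _ => Finset.prod_nonneg fun _ _ => norm_nonneg _)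
  rintro C s hC - ⟨has, hWs, hWub⟩
  have has' : ∀ i, l i s ≠ 0 := fun i => by
    rw [← hev]
    exact has i
  refine ⟨has', fun v hv hδ B => ?_⟩
  set Q : L := ∏ j, ev γ (G j) s ^ x j with hQ
  set δ := ∑ B : Fin (n + 1) ↪ I, v B * ∏ i ∈ Finset.univ \ Finset.univ.map B, l i s with hδdef
  -- the main identity
  set y : L := ∑ B : Fin (n + 1) ↪ I, v B * dc B * ev γ (H B) s with hy
  have hid : Q * (∏ B', d B') * δ * ev γ W s = (∏ i, l i s) * y := by
    rw [hδdef, hy, Finset.mul_sum, Finset.mul_sum, Finset.sum_mul]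
    refine Finset.sum_congr rfl fun B _ => ?_
    have h1 := congrArg (fun F => ev γ F s) (hH B)
    simp only [map_mul, map_prod, map_pow, map_smul, Pi.mul_apply, Finset.prod_apply, Pi.pow_apply,
      Pi.smul_apply, smul_eq_mul, hev] at h1
    have h3 : ∏ i, l i s = (∏ i ∈ Finset.univ \ Finset.univ.map B, l i s) *
        ∏ k : Fin (n + 1), l (B k) s := by
      rw [← Finset.prod_sdiff (Finset.subset_univ (Finset.univ.map B)), Finset.prod_map]
    rw [h3, ← hdc1 B]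
    change (∏ j, ev γ (G j) s ^ x j) * (d B * ev γ W s) = _ at h1
    rw [← hQ] at h1
    linear_combination (v B * dc B * ∏ i ∈ Finset.univ \ Finset.univ.map B, l i s) * h1
  have hdcint : ∀ B, IsIntegral ℤ (dc B) := fun B => IsIntegral.prod _ fun B' _ => hdint B'
  have hyint : IsIntegral ℤ ((d' : L) * y) := by
    rw [hy, Finset.mul_sum]
    refine IsIntegral.sum _ fun B _ => ?_
    have : (d' : L) * (v B * dc B * ev γ (H B) s) = v B * dc B * (d' * ev γ (H B) s) := by ring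
    rw [this]
    exact ((hv B).mul (hdcint B)).mul (hd'' B s)
  have hQ0 : Q ≠ 0 := by
    intro h0
    obtain ⟨j, _, hj⟩ := Finset.prod_eq_zero_iff.1 h0
    have hxj : x j ≠ 0 := fun h0 => by
      rw [h0, pow_zero] at hj
      exact one_ne_zero hj
    have hgj : ev γ (G j) s = 0 := (pow_eq_zero_iff hxj).1 hj
    obtain ⟨i, hi⟩ := hxe j hxj
    apply has' i
    simp only [hl]
    rw [Finset.prod_eq_zero (Finset.mem_univ j) (by rw [hgj, zero_pow hi]), mul_zero]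
  have hyne : y ≠ 0 := by
    intro h0
    rw [h0, mul_zero] at hid
    exact mul_ne_zero (mul_ne_zero (mul_ne_zero hQ0 hD0) hδ) hWs hid
  set Z := ∏ τ : L →ₐ[ℚ] ℂ, ∏ k : Fin (n + 1), ‖τ (l (B τ k) s)‖ with hZ
  have hZ0 : 0 ≤ Z := Finset.prod_nonneg fun _ _ => Finset.prod_nonneg fun _ _ => norm_nonneg _
  have hNW : Nt (ev γ W s) ≤ C ^ Fintype.card (L →ₐ[ℚ] ℂ) * Z := by
    have e1 : C ^ Fintype.card (L →ₐ[ℚ] ℂ) = ∏ _τ : L →ₐ[ℚ] ℂ, C := by
      rw [Finset.prod_const, Finset.card_univ]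
    unfold Nt
    rw [e1, hZ, ← Finset.prod_mul_distrib]
    refine Finset.prod_le_prod (fun τ _ => norm_nonneg _) fun τ _ => ?_
    refine (hWub (τ, B τ)).trans (le_of_eq ?_)
    congr 1
    refine Finset.prod_congr rfl fun k _ => ?_
    rw [hev]
    rfl
  have h1 := congrArg (fun z => Nt (z * (d' : L))) hid
  simp only [Nt_mul] at h1
  rw [Nt_prod Finset.univ (fun i => l i s)] at h1
  have h2 := one_le_Nt hyint (mul_ne_zero hd'L hyne)
  rw [Nt_mul] at h2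
  have h3 : 0 ≤ ∏ i, Nt (l i s) := Finset.prod_nonneg fun i _ => Nt_nonneg _
  calc ∏ i, Nt (l i s) ≤ (∏ i, Nt (l i s)) * (Nt (d' : L) * Nt y) :=
        le_mul_of_one_le_right h3 h2
    _ = (∏ i, Nt (l i s)) * Nt y * Nt (d' : L) := by ring
    _ = (Nt (d' : L) * Nt (∏ B', d B')) * (Nt Q * Nt δ) * Nt (ev γ W s) := by
      rw [← h1]
      ring
    _ ≤ (Nt (d' : L) * Nt (∏ B', d B')) * (Nt Q * Nt δ) *
        (C ^ Fintype.card (L →ₐ[ℚ] ℂ) * Z) :=
      mul_le_mul_of_nonneg_left hNW (mul_nonneg (mul_nonneg (Nt_nonneg _) (Nt_nonneg _))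
        (mul_nonneg (Nt_nonneg _) (Nt_nonneg _)))
    _ = _ := by ring

end Gen

end Pool.Agent.Q183.AM
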