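import Pool.Agent.Q183.AM.Cartan9

/-!
The truncated inequality in explicit form.
-/

set_option autoImplicit false

namespace Pool.Agent.Q183.AM

open Pool.Agent.Q183.AR
open NumberField Height IsDedekindDomain

variable {K : Type} [Field K] [NumberField K] {n : ℕ} {I J : Type} [Fintype I] [Fintype J]

/-- **The truncated inequality** for almost all arguments and for all arguments, outside finitely many
hyperplanes (none for `n = 1`). -/
theorem zall (hI : n + 1 ≤ Fintype.card I) (g : J → ℕ → 𝓞 K)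
    (hg : ∀ j, ∃ E : LinearRecurrence (𝓞 K), E.IsSolution (g j))
    (X : Fin (n + 1) → ℕ → 𝓞 K) (hX : ∀ k, ∃ E : LinearRecurrence (𝓞 K), E.IsSolution (X k))
    (a : I → Fin (n + 1) → 𝓞 K)
    (hgen : ∀ B : Fin (n + 1) ↪ I, (Matrix.of fun i k => a (B i) k).det ≠ 0)
    (κ μ : I → 𝓞 K) (hμ : ∀ i, μ i ≠ 0) (e : I → J → ℕ)
    (hL : ∀ i t, ∑ k, a i k * X k t = hval κ μ g e i t) :
    ∃ Z : Set (Fin (n + 1) → K), Z.Finite ∧ (∀ c ∈ Z, c ≠ 0) ∧ (n = 1 → Z = ∅) ∧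
      ∀ T : Set (HeightOneSpectrum (𝓞 K)), T.Finite →
        (∀ η : ℝ, 0 < η → ∃ (C : ℝ) (T' z : ℕ), 0 ≤ C ∧ ∀ t N : ℕ, z ≤ t → T' ≤ N →
          (({s | t ≤ s ∧ s < t + N ∧ ¬ ((∀ c ∈ Z, ∑ k, c k * (X k s : K) ≠ 0) →
            (∀ i, hval κ μ g e i s ≠ 0) → TIneq T a g e X (Real.exp C) s)}.ncard : ℕ) : ℝ) ≤
            η * N) ∧
        ∀ ε : ℝ, 0 < ε → ∃ C : ℝ, 0 ≤ C ∧ ∀ s : ℕ, (∀ c ∈ Z, ∑ k, c k * (X k s : K) ≠ 0) →
          (∀ i, hval κ μ g e i s ≠ 0) → TIneq T a g e X (Real.exp (C + ε * s)) s := by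
  classical
  obtain ⟨Z, hZ1, hZ2, hZ3, hA, hE⟩ : ∃ Z : Set (Fin (n + 1) → K), Z.Finite ∧ (∀ c ∈ Z, c ≠ 0) ∧
      (n = 1 → Z = ∅) ∧
      (∀ T : Set (HeightOneSpectrum (𝓞 K)), T.Finite →
        mAA.A fun C s => (∀ c ∈ Z, ∑ k, c k * (X k s : K) ≠ 0) →
          (∀ i, hval κ μ g e i s ≠ 0) → TIneq T a g e X C s) ∧
      (∀ T : Set (HeightOneSpectrum (𝓞 K)), T.Finite →
        mEE.A fun C s => (∀ c ∈ Z, ∑ k, c k * (X k s : K) ≠ 0) →
          (∀ i, hval κ μ g e i s ≠ 0) → TIneq T a g e X C s) := by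
    have mono : ∀ (T : Set (HeightOneSpectrum (𝓞 K))) (Z : Set (Fin (n + 1) → K)),
        MonoC fun C s => (∀ c ∈ Z, ∑ k, c k * (X k s : K) ≠ 0) →
          (∀ i, hval κ μ g e i s ≠ 0) → TIneq T a g e X C s :=
      fun T Z C C' s hCC h1 h2 h3 => tineq_mono T a g e X C C' s hCC (h1 h2 h3)
    by_cases hn : n = 1
    · subst hn
      refine ⟨∅, Set.finite_empty, fun c hc => absurd hc (Set.notMem_empty c), fun _ => rfl,
        fun T hT => ?_, fun T hT => ?_⟩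
      · exact mAA.imp (hlog1 mAA hI g hg X hX a hgen κ μ hμ e hL T hT)
          (fun C => C) 0 PolyB.id (mono T ∅) fun C s _ _ h _ => h
      · exact mEE.imp (hlog1 mEE hI g hg X hX a hgen κ μ hμ e hL T hT)
          (fun C => C) 0 PolyB.id (mono T ∅) fun C s _ _ h _ => h
    · obtain ⟨Z1, a1, a2, a3⟩ := hlog' mAA hI g hg X hX a hgen κ μ hμ e hL
      obtain ⟨Z2, b1, b2, b3⟩ := hlog' mEE hI g hg X hX a hgen κ μ hμ e hL
      refine ⟨Z1 ∪ Z2, a1.union b1, ?_, fun h => absurd h hn, fun T hT => ?_, fun T hT => ?_⟩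
      · rintro c (hc | hc)
        · exact a2 c hc
        · exact b2 c hc
      · exact mAA.imp (a3 T hT) (fun C => C) 0 PolyB.id
          (mono T _) fun C s _ _ h h' _ => (h fun c hc => h' c (Or.inl hc)).2
      · exact mEE.imp (b3 T hT) (fun C => C) 0 PolyB.id
          (mono T _) fun C s _ _ h h' _ => (h fun c hc => h' c (Or.inr hc)).2
  refine ⟨Z, hZ1, hZ2, hZ3, fun T hT => ?_⟩
  have mono : MonoC fun C s => (∀ c ∈ Z, ∑ k, c k * (X k s : K) ≠ 0) →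
      (∀ i, hval κ μ g e i s ≠ 0) → TIneq T a g e X C s :=
    fun C C' s hCC h1 h2 h3 => tineq_mono T a g e X C C' s hCC (h1 h2 h3)
  have triv : ∀ s, ∃ C, (∀ c ∈ Z, ∑ k, c k * (X k s : K) ≠ 0) →
      (∀ i, hval κ μ g e i s ≠ 0) → TIneq T a g e X C s := by
    intro s
    set A : ℝ := ((Fintype.card I : ℝ) - (n + 1)) * logHeight (fun k => (X k s : K)) with hA
    refine ⟨Real.exp |A|, fun _ hne => ?_⟩
    have h3 := le_abs_self A
    unfold TIneq
    rw [max_eq_left (Real.one_le_exp (abs_nonneg _)), Real.log_exp]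
    refine ⟨?_, fun 𝔞 𝔟 _ _ _ => ?_⟩
    · have h1 := sum_nonneg' (n := n) hne
      linarith
    · have h1 := Ntr_nonneg T n (fun i k => (a i k : K))
        (fun k => (X k s : K)) (fun i => by
          have h6 : ∑ k, (a i k : K) * (X k s : K) = ((∑ k, a i k * X k s : 𝓞 K) : K) := by
            simp only [map_sum, map_mul]
          rw [h6, hL]
          exact RingOfIntegers.coe_ne_zero_iff.mpr (hne i))
      have h2 : 0 ≤ (((n + 1).choose 2 : ℕ) : ℝ) * Real.log (Ideal.absNorm 𝔟) :=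
        mul_nonneg (Nat.cast_nonneg _) (Real.log_natCast_nonneg _)
      linarith
  exact ⟨fun η hη => aa_form (hA T hT) η hη, fun ε hε => ee_form (hE T hT) mono triv ε hε⟩

omit [NumberField K] in
/-- points off the hyperplanes of the divisor -/
theorem off_of (hI : n + 1 ≤ Fintype.card I) {g : J → ℕ → 𝓞 K} {X : Fin (n + 1) → ℕ → 𝓞 K}
    {a : I → Fin (n + 1) → 𝓞 K} {κ μ : I → 𝓞 K} {e : I → J → ℕ}
    (hL : ∀ i t, ∑ k, a i k * X k t = hval κ μ g e i t) {s : ℕ}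
    (hs : ∀ i, ∑ k, (a i k : K) * (X k s : K) ≠ 0) :
    (∀ i, hval κ μ g e i s ≠ 0) ∧ (fun k => X k s) ≠ 0 := by
  have h1 : ∀ i, ∑ k, (a i k : K) * (X k s : K) = ((∑ k, a i k * X k s : 𝓞 K) : K) := fun i => by
    simp only [map_sum, map_mul]
  refine ⟨fun i h0 => ?_, fun h0 => ?_⟩
  · apply hs i
    rw [h1, hL i s, h0]
    exact map_zero (algebraMap (𝓞 K) K)
  · obtain ⟨B⟩ : Nonempty (Fin (n + 1) ↪ I) := by
      rw [Function.Embedding.nonempty_iff_card_le, Fintype.card_fin]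
      exact hI
    apply hs (B 0)
    refine Finset.sum_eq_zero fun k _ => ?_
    have h2 : X k s = 0 := congrFun h0 k
    have h3 : (X k s : K) = 0 := by
      rw [h2]
      exact map_zero (algebraMap (𝓞 K) K)
    rw [h3, mul_zero]

end Pool.Agent.Q183.AM
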