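import Pool.Agent.Q183.AM.Cartan10

/-!
The counting function truncated at the level one.
-/

set_option autoImplicit false

namespace Pool.Agent.Q183.AM

open Pool.Agent.Q183.AR
open NumberField Height IsDedekindDomain

variable {K : Type} [Field K] [NumberField K] {n : ℕ} {I J : Type} [Fintype I] [Fintype J]

/-- the counting function of the divisor truncated at the level one: each prime outside `T` at
which the point meets the divisor counts once -/
noncomputable def Non (T : Set (HeightOneSpectrum (𝓞 K))) (a : I → Fin (n + 1) → K)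
    (x : Fin (n + 1) → K) : ℝ :=
  ∑ᶠ (v : HeightOneSpectrum (𝓞 K)) (_ : v ∉ T),
    min (Real.log (Ideal.absNorm v.asIdeal)) (∑ i, lam v (a i) x)

open Classical in
/-- **Products of bases which are nearly squarefree**: the bound by the counting function truncated
at the level one. -/
theorem near_one (hI : n + 1 ≤ Fintype.card I) (a : I → Fin (n + 1) → 𝓞 K)
    (hgen : ∀ B : Fin (n + 1) ↪ I, (Matrix.of fun i k => a (B i) k).det ≠ 0)
    (κ μ : I → 𝓞 K) (hμ : ∀ i, μ i ≠ 0) (g : J → ℕ → 𝓞 K) (e : I → J → ℕ)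
    (T : Set (HeightOneSpectrum (𝓞 K))) (hT : T.Finite) (M : ℕ) (hM : ∀ j, hloss n e j ≤ M) :
    ∃ B : ℝ, 0 ≤ B ∧ ∀ (s : ℕ) (x : Fin (n + 1) → 𝓞 K),
      (∀ i, ∑ k, a i k * x k = κ i * μ i ^ s * ∏ j, g j s ^ e i j) →
      (∀ i, κ i * μ i ^ s * ∏ j, g j s ^ e i j ≠ 0) → ∀ 𝔞 𝔟 : Ideal (𝓞 K),
      Ideal.span {∏ j ∈ hun e, g j s} = 𝔞 * 𝔟 → Squarefree 𝔞 → IsCoprime 𝔞 𝔟 →
      Real.log (∏ j, |((Algebra.norm ℚ (g j s : K) : ℚ) : ℝ)| ^ hloss n e j) ≤
        M * Non T (fun i k => (a i k : K)) (fun k => (x k : K)) +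
          ((n + 1).choose 2 : ℕ) * Real.log (Ideal.absNorm 𝔟) + B := by
  by_cases hκ : ∀ i, κ i ≠ 0
  swap
  · push Not at hκ
    obtain ⟨i, hi⟩ := hκ
    refine ⟨0, le_refl 0, fun s x _ hs => absurd ?_ (hs i)⟩
    rw [hi, zero_mul, zero_mul]
  set D : 𝓞 K := ∏ B : Fin (n + 1) ↪ I, (Matrix.of fun i k => a (B i) k).det with hD
  have hD0 : D ≠ 0 := Finset.prod_ne_zero_iff.2 fun B _ => hgen B
  set Y0 : 𝓞 K := D * ∏ i, (κ i * μ i) with hY0
  have hY00 : Y0 ≠ 0 := mul_ne_zero hD0 (Finset.prod_ne_zero_iff.2 fun i _ =>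
    mul_ne_zero (hκ i) (hμ i))
  set Bd : Finset (HeightOneSpectrum (𝓞 K)) := (finite_dvd hY00).toFinset ∪ hT.toFinset with hBd
  set H : ℕ := (n + 1).choose 2 with hH
  have hsum0 : 0 ≤ ∑ v ∈ Bd, Real.log (Ideal.absNorm v.asIdeal) :=
    Finset.sum_nonneg fun v _ => (log_Nv_pos v).le
  refine ⟨H * ∑ v ∈ Bd, Real.log (Ideal.absNorm v.asIdeal), by positivity, ?_⟩
  intro s x hL hne 𝔞 𝔟 hab hsq hcop
  -- the bases are not zero
  have hg0 : ∀ j ∈ hun e, g j s ≠ 0 := by
    intro j hj h0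
    obtain ⟨i, i', hii⟩ := (Finset.mem_filter.1 hj).2
    have h1 : ∀ i, e i j = 0 := by
      intro i
      by_contra h2
      apply hne i
      rw [Finset.prod_eq_zero (Finset.mem_univ j) (by rw [h0, zero_pow h2]), mul_zero]
    exact hii ((h1 i).trans (h1 i').symm)
  have hP0 : ∏ j ∈ hun e, g j s ≠ 0 := Finset.prod_ne_zero_iff.2 hg0
  have hab0 : 𝔞 * 𝔟 ≠ ⊥ := by
    rw [← hab]
    exact fun h0 => hP0 (Ideal.span_singleton_eq_bot.1 h0)
  have ha0 : 𝔞 ≠ ⊥ := fun h0 => hab0 (by rw [h0, Ideal.bot_mul])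
  have hb0 : 𝔟 ≠ ⊥ := fun h0 => hab0 (by rw [h0, Ideal.mul_bot])
  set l : I → 𝓞 K := fun i => ∑ k, a i k * x k with hl
  have hl0 : ∀ i, l i ≠ 0 := fun i => by
    simp only [hl]
    rw [hL]
    exact hne i
  set Y : 𝓞 K := Y0 * (∏ i, l i) * ∏ j ∈ hun e, g j s with hY
  have hYne : Y ≠ 0 := mul_ne_zero (mul_ne_zero hY00 (Finset.prod_ne_zero_iff.2 fun i _ => hl0 i)) hP0
  set S0 : Finset (HeightOneSpectrum (𝓞 K)) := (finite_dvd hYne).toFinset ∪ Bd with hS0
  have hmemY : ∀ v : HeightOneSpectrum (𝓞 K), Y ∈ v.asIdeal → v ∈ S0 := fun v hv =>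
    Finset.mem_union_left _ ((finite_dvd hYne).mem_toFinset.2 hv)
  have hBdS : Bd ⊆ S0 := Finset.subset_union_right
  -- the local terms
  set F : HeightOneSpectrum (𝓞 K) → ℝ := fun v =>
    min (Real.log (Ideal.absNorm v.asIdeal))
      (∑ i, lam v (fun k => (a i k : K)) (fun k => (x k : K))) with hF
  have hlK : ∀ i, ∑ k, (a i k : K) * (x k : K) = (l i : K) := by
    intro i
    simp only [hl, map_sum, map_mul]
  have hF0 : ∀ v, 0 ≤ F v := by
    intro v
    refine le_min (log_Nv_pos v).le (Finset.sum_nonneg fun i _ => lam_nonneg v ?_)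
    rw [hlK]
    exact RingOfIntegers.coe_ne_zero_iff.mpr (hl0 i)
  -- the sizes away from the bad primes
  have hdet : ∀ v : HeightOneSpectrum (𝓞 K), Y0 ∉ v.asIdeal → ∀ B : Fin (n + 1) ↪ I,
      (Matrix.of fun i k => a (B i) k).det ∉ v.asIdeal := by
    intro v hv B h0
    apply hv
    rw [hY0]
    refine Ideal.mul_mem_right _ _ ?_
    rw [hD, ← Finset.mul_prod_erase _ _ (Finset.mem_univ B)]
    exact Ideal.mul_mem_right _ _ h0
  have hsza : ∀ v : HeightOneSpectrum (𝓞 K), Y0 ∉ v.asIdeal → ∀ i,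
      siz v (fun k => (a i k : K)) = 1 := by
    intro v hv i
    obtain ⟨B, hB⟩ := exists_emb hI i
    have := siz_coeff v a B (hdet v hv B)
    rwa [hB] at this
  have hlx : ∀ (v : HeightOneSpectrum (𝓞 K)) i,
      FinitePlace.mk v (l i : K) ≤ siz v (fun k => (x k : K)) := by
    intro v i
    have h1 := form_le v (fun k => (a i k : K)) (fun k => (x k : K))
    rw [hlK] at h1
    exact h1.trans (mul_le_of_le_one_right (siz_nonneg _ _) (siz_le_one v _))
  -- the local terms vanish away from a finite set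
  have hFS : ∀ v, v ∉ S0 → F v = 0 := by
    intro v hv
    have h1 : Y ∉ v.asIdeal := fun h => hv (hmemY v h)
    have h2 : Y0 ∉ v.asIdeal := fun h => h1 (by
      rw [hY, mul_assoc]
      exact Ideal.mul_mem_right _ _ h)
    have h3 : ∀ i, l i ∉ v.asIdeal := fun i h => h1 (by
      rw [hY]
      refine Ideal.mul_mem_right _ _ (Ideal.mul_mem_left _ _ ?_)
      rw [← Finset.mul_prod_erase _ _ (Finset.mem_univ i)]
      exact Ideal.mul_mem_right _ _ h)
    have h6 : ∑ i, lam v (fun k => (a i k : K)) (fun k => (x k : K)) = 0 := by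
      refine Finset.sum_eq_zero fun i _ => ?_
      have h4 : FinitePlace.mk v (l i : K) = 1 := norm_eq_one v (h3 i)
      have h5 : siz v (fun k => (x k : K)) = 1 :=
        le_antisymm (siz_le_one v _) (h4 ▸ hlx v i)
      unfold lam
      rw [hlK, h4, h5, hsza v h2 i, mul_one, div_one, Real.log_one]
    simp only [hF]
    rw [h6]
    exact min_eq_right (log_Nv_pos v).le
  have hN : Non T (fun i k => (a i k : K)) (fun k => (x k : K)) =
      ∑ v ∈ S0, if v ∉ T then F v else 0 := by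
    unfold Non
    rw [finsum_eq_sum_of_support_subset (s := S0)]
    · refine Finset.sum_congr rfl fun v _ => ?_
      rw [finsum_eq_if]
    · intro v hv
      by_contra hcon
      apply hv
      show ∑ᶠ (_ : v ∉ T), F v = 0
      rw [hFS v hcon]
      exact finsum_zero
  -- the norms of the bases
  have hgj : Real.log (∏ j, |((Algebra.norm ℚ (g j s : K) : ℚ) : ℝ)| ^ hloss n e j) =
      ∑ v ∈ S0, (∑ j ∈ hun e, (hloss n e j * cv v (Ideal.span {g j s}) : ℕ)) *
        Real.log (Ideal.absNorm v.asIdeal) := by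
    have h1 : ∏ j, |((Algebra.norm ℚ (g j s : K) : ℚ) : ℝ)| ^ hloss n e j =
        ∏ j ∈ hun e, (Ideal.absNorm (Ideal.span {g j s}) : ℝ) ^ hloss n e j := by
      rw [← Finset.prod_subset (Finset.subset_univ (hun e))]
      · refine Finset.prod_congr rfl fun j _ => ?_
        rw [norm_span]
      · intro j _ hj
        rw [hloss_zero hj, pow_zero]
    have hs0 : ∀ j ∈ hun e, Ideal.span {g j s} ≠ ⊥ := fun j hj h0 =>
      hg0 j hj (Ideal.span_singleton_eq_bot.1 h0)
    rw [h1, Real.log_prod]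
    · have h2 : ∀ j ∈ hun e, Real.log ((Ideal.absNorm (Ideal.span {g j s}) : ℝ) ^ hloss n e j) =
          ∑ v ∈ S0, ((hloss n e j * cv v (Ideal.span {g j s}) : ℕ) : ℝ) *
            Real.log (Ideal.absNorm v.asIdeal) := by
        intro j hj
        rw [Real.log_pow, log_cv (hs0 j hj) S0, Finset.mul_sum]
        · refine Finset.sum_congr rfl fun v _ => ?_
          push_cast
          ring
        · intro v hv
          apply hmemY
          rw [hY]
          refine Ideal.mul_mem_left _ _ ?_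
          rw [← Finset.mul_prod_erase _ _ hj]
          exact Ideal.mul_mem_right _ _ (Ideal.dvd_span_singleton.1 hv)
      rw [Finset.sum_congr rfl h2, Finset.sum_comm]
      refine Finset.sum_congr rfl fun v _ => ?_
      push_cast
      rw [Finset.sum_mul]
    · intro j hj
      refine pow_ne_zero _ ?_
      have h3 : Ideal.absNorm (Ideal.span {g j s}) ≠ 0 := fun h0 =>
        hs0 j hj (Ideal.absNorm_eq_zero_iff.1 h0)
      exact_mod_cast h3
  have hNb : Real.log (Ideal.absNorm 𝔟) =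
      ∑ v ∈ S0, cv v 𝔟 * Real.log (Ideal.absNorm v.asIdeal) := by
    refine log_cv hb0 S0 fun v hv => ?_
    apply hmemY
    rw [hY]
    refine Ideal.mul_mem_left _ _ ?_
    rw [← Ideal.dvd_span_singleton, hab]
    exact Dvd.dvd.mul_left hv _
  have hBs : ∑ v ∈ Bd, Real.log (Ideal.absNorm v.asIdeal) =
      ∑ v ∈ S0, if v ∈ Bd then Real.log (Ideal.absNorm v.asIdeal) else 0 := by
    rw [Finset.sum_ite_mem, Finset.inter_eq_right.2 hBdS]
  rw [hgj, hN, hNb, hBs, Finset.mul_sum, Finset.mul_sum, Finset.mul_sum,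
    ← Finset.sum_add_distrib, ← Finset.sum_add_distrib]
  refine Finset.sum_le_sum fun v _ => ?_
  -- the inequality at one prime
  have hlog := log_Nv_pos v
  have hcsum : ∑ j ∈ hun e, cv v (Ideal.span {g j s}) = cv v 𝔞 + cv v 𝔟 := by
    rw [← cv_prod v _ _ hg0, hab, cv_mul v ha0 hb0]
  have hle1 : ∑ j ∈ hun e, hloss n e j * cv v (Ideal.span {g j s}) ≤ H * (cv v 𝔞 + cv v 𝔟) := by
    rw [← hcsum, Finset.mul_sum]
    exact Finset.sum_le_sum fun j _ => Nat.mul_le_mul_right _ (hloss_le e j)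
  have hF' : 0 ≤ (M : ℝ) * if v ∉ T then F v else 0 := by
    refine mul_nonneg (Nat.cast_nonneg _) ?_
    by_cases hv : v ∉ T
    · rw [if_pos hv]
      exact hF0 v
    · rw [if_neg hv]
  rcases Nat.eq_zero_or_pos (cv v 𝔞) with h𝔞 | h𝔞
  · -- the prime does not divide the squarefree part
    rw [h𝔞, zero_add] at hle1
    have h1 : ((∑ j ∈ hun e, (hloss n e j * cv v (Ideal.span {g j s}) : ℕ)) : ℝ) ≤
        H * cv v 𝔟 := by exact_mod_cast hle1
    have h2 := mul_le_mul_of_nonneg_right h1 hlog.le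
    have h3 : 0 ≤ if v ∈ Bd then Real.log (Ideal.absNorm v.asIdeal) else 0 := by
      split_ifs
      · exact hlog.le
      · exact le_refl 0
    have h4 : 0 ≤ (H : ℝ) * if v ∈ Bd then Real.log (Ideal.absNorm v.asIdeal) else 0 :=
      mul_nonneg (Nat.cast_nonneg _) h3
    push_cast at h2 ⊢
    linarith
  have h𝔟 : cv v 𝔟 = 0 := cv_coprime v ha0 hb0 hcop h𝔞
  have h𝔞1 : cv v 𝔞 = 1 := le_antisymm (cv_le_one v ha0 hsq) h𝔞
  rw [h𝔟, h𝔞1, add_zero] at hcsum hle1
  rw [h𝔟, Nat.cast_zero, zero_mul, mul_zero, add_zero]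
  by_cases hvB : v ∈ Bd
  · rw [if_pos hvB]
    have h1 : ((∑ j ∈ hun e, (hloss n e j * cv v (Ideal.span {g j s}) : ℕ)) : ℝ) ≤
        H * 1 := by exact_mod_cast hle1
    have h2 := mul_le_mul_of_nonneg_right h1 hlog.le
    push_cast at h2 ⊢
    linarith
  rw [if_neg hvB, mul_zero, add_zero]
  have hvT : v ∉ T := fun h => hvB (Finset.mem_union_right _ (hT.mem_toFinset.2 h))
  have hvY0 : Y0 ∉ v.asIdeal := fun h => hvB (Finset.mem_union_left _
    ((finite_dvd hY00).mem_toFinset.2 h))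
  rw [if_pos hvT]
  -- the base which is divisible by the prime
  obtain ⟨j0, hj0, hj0c⟩ : ∃ j0 ∈ hun e, cv v (Ideal.span {g j0 s}) ≠ 0 := by
    by_contra hcon
    push Not at hcon
    rw [Finset.sum_eq_zero hcon] at hcsum
    exact absurd hcsum (by norm_num)
  have hsplit : cv v (Ideal.span {g j0 s}) +
      ∑ j ∈ (hun e).erase j0, cv v (Ideal.span {g j s}) = 1 :=
    (Finset.add_sum_erase (hun e) (fun j => cv v (Ideal.span {g j s})) hj0).trans hcsum
  have hc1 : cv v (Ideal.span {g j0 s}) = 1 := by omega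
  have hc0 : ∀ j ∈ (hun e).erase j0, cv v (Ideal.span {g j s}) = 0 := by
    have h1 : ∑ j ∈ (hun e).erase j0, cv v (Ideal.span {g j s}) = 0 := by omega
    exact Finset.sum_eq_zero_iff.1 h1
  have hlhs : ∑ j ∈ hun e, hloss n e j * cv v (Ideal.span {g j s}) = hloss n e j0 := by
    rw [← Finset.add_sum_erase (hun e) (fun j => hloss n e j * cv v (Ideal.span {g j s})) hj0,
      hc1, mul_one, Finset.sum_eq_zero, add_zero]
    intro j hj
    rw [hc0 j hj, mul_zero]
  set Nv : ℝ := ((Ideal.absNorm v.asIdeal : ℕ) : ℝ) with hNv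
  have hNv1 : 1 < Nv := one_lt_Nv v
  have hNv0 : 0 < Nv := by linarith
  -- the sizes of the bases
  have hfg1 : ∀ j ∈ hun e, j ≠ j0 → FinitePlace.mk v (g j s : K) = 1 := by
    intro j hj hjj
    rw [norm_cv v (hg0 j hj), hc0 j (Finset.mem_erase.2 ⟨hjj, hj⟩), pow_zero, inv_one]
  have hfg0 : FinitePlace.mk v (g j0 s : K) = Nv⁻¹ := by
    rw [norm_cv v (hg0 j0 hj0), hc1, pow_one]
  set q : ℝ := ∏ j, FinitePlace.mk v (g j s : K) ^ hmn e j with hq
  have hli : ∀ i, FinitePlace.mk v (l i : K) = q * (Nv ^ (e i j0 - hmn e j0))⁻¹ := by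
    intro i
    have h1 : (l i : K) = (κ i : K) * (μ i : K) ^ s * ∏ j, (g j s : K) ^ e i j := by
      simp only [hl]
      rw [hL i]
      simp only [map_mul, map_pow, map_prod]
    have hκμ : κ i * μ i ∉ v.asIdeal := by
      intro h0
      apply hvY0
      rw [hY0]
      refine Ideal.mul_mem_left _ _ ?_
      rw [← Finset.mul_prod_erase _ _ (Finset.mem_univ i)]
      exact Ideal.mul_mem_right _ _ h0
    have hκv : FinitePlace.mk v (κ i : K) = 1 :=
      norm_eq_one v fun h0 => hκμ (Ideal.mul_mem_right _ _ h0)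
    have hμv : FinitePlace.mk v (μ i : K) = 1 :=
      norm_eq_one v fun h0 => hκμ (Ideal.mul_mem_left _ _ h0)
    rw [h1, map_mul, map_mul, map_pow, map_prod, hκv, hμv, one_pow, one_mul, one_mul]
    simp only [map_pow]
    have h2 : ∏ j, FinitePlace.mk v (g j s : K) ^ e i j =
        q * ∏ j, FinitePlace.mk v (g j s : K) ^ (e i j - hmn e j) := by
      rw [hq, ← Finset.prod_mul_distrib]
      refine Finset.prod_congr rfl fun j _ => ?_
      rw [← pow_add, Nat.add_sub_cancel' (hmn_le e i j)]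
    rw [h2]
    congr 1
    rw [Finset.prod_eq_single j0]
    · rw [hfg0, inv_pow]
    · intro j _ hjj
      by_cases hj : j ∈ hun e
      · rw [hfg1 j hj hjj, one_pow]
      · rw [eq_hmn hj i, Nat.sub_self, pow_zero]
    · intro h0
      exact absurd (Finset.mem_univ _) h0
  have hq0 : 0 ≤ q := Finset.prod_nonneg fun j _ => pow_nonneg (apply_nonneg _ _) _
  obtain ⟨Bz⟩ : Nonempty (Fin (n + 1) ↪ I) := by
    rw [Function.Embedding.nonempty_iff_card_le, Fintype.card_fin]
    exact hI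
  have hne' : Nonempty I := ⟨Bz 0⟩
  -- the size of the point
  have hxq : siz v (fun k => (x k : K)) = q := by
    refine le_antisymm ?_ ?_
    · refine siz_le_of_forms v a x Bz (hdet v hvY0 Bz) hq0 fun i => ?_
      have h1 := hli (Bz i)
      simp only [hl] at h1
      rw [h1]
      refine mul_le_of_le_one_right hq0 (inv_le_one_of_one_le₀ (one_le_pow₀ hNv1.le))
    · obtain ⟨i0, hi0⟩ := exists_eq_ciInf_of_finite (f := fun i => e i j0)
      have h1 := hlx v i0
      rw [hli i0] at h1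
      have h2 : e i0 j0 - hmn e j0 = 0 := by
        have h3 : e i0 j0 = hmn e j0 := hi0
        rw [h3, Nat.sub_self]
      rwa [h2, pow_zero, inv_one, mul_one] at h1
  have hqpos : 0 < q := by
    have h1 : 0 < FinitePlace.mk v (l (Bz 0) : K) :=
      FinitePlace.pos_iff.2 (RingOfIntegers.coe_ne_zero_iff.mpr (hl0 _))
    rw [← hxq]
    exact lt_of_lt_of_le h1 (hlx v _)
  have hlam : ∀ i, lam v (fun k => (a i k : K)) (fun k => (x k : K)) =
      (e i j0 - hmn e j0 : ℕ) * Real.log Nv := by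
    intro i
    unfold lam
    rw [hlK, hxq, hsza v hvY0 i, hli i, mul_one, ← Real.log_pow]
    congr 1
    have h1 : Nv ^ (e i j0 - hmn e j0) ≠ 0 := pow_ne_zero _ hNv0.ne'
    field_simp
  rcases Nat.eq_zero_or_pos (hloss n e j0) with h0 | h0
  · have h7 : ((∑ j ∈ hun e, (hloss n e j * cv v (Ideal.span {g j s}) : ℕ) : ℕ) : ℝ) = 0 := by
      rw [hlhs, h0, Nat.cast_zero]
    have h8 : 0 ≤ (M : ℝ) * F v := mul_nonneg (Nat.cast_nonneg _) (hF0 v)
    push_cast at h7 ⊢
    rw [h7, zero_mul]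
    exact h8
  have hFv : F v = Real.log Nv := by
    simp only [hF]
    refine min_eq_left ?_
    obtain ⟨i, hi⟩ := hloss_ne h0.ne'
    have h2 : (1 : ℝ) ≤ (e i j0 - hmn e j0 : ℕ) := by exact_mod_cast Nat.one_le_iff_ne_zero.2 hi
    have h3 : Real.log Nv ≤ lam v (fun k => (a i k : K)) (fun k => (x k : K)) := by
      rw [hlam i]
      exact le_mul_of_one_le_left hlog.le h2
    refine h3.trans (Finset.single_le_sum
      (f := fun i => lam v (fun k => (a i k : K)) (fun k => (x k : K))) (fun i _ => ?_)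
      (Finset.mem_univ i))
    refine lam_nonneg v ?_
    rw [hlK]
    exact RingOfIntegers.coe_ne_zero_iff.mpr (hl0 i)
  rw [hFv]
  have h5 : ((∑ j ∈ hun e, (hloss n e j * cv v (Ideal.span {g j s}) : ℕ) : ℕ) : ℝ) ≤ (M : ℝ) := by
    rw [hlhs]
    exact_mod_cast hM j0
  have h6 := mul_le_mul_of_nonneg_right h5 hlog.le
  push_cast at h6 ⊢
  exact h6

end Pool.Agent.Q183.AM
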