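import Pool.Agent.Q183.AM.Cartan

/-!
Points with coordinates in linear recurrences over number fields and hyperplanes in general
position, for most arguments.
-/

set_option autoImplicit false

namespace Pool.Agent.Q183.AM

open Polynomial
open Pool.Agent.Q183.AR

variable {n : ℕ} {I J : Type} [Fintype I] [Fintype J]

/-- an injection into a large set through a given element -/
theorem exists_emb {I : Type} [Fintype I] (h : n + 1 ≤ Fintype.card I) (i : I) :
    ∃ B : Fin (n + 1) ↪ I, B 0 = i := by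
  classical
  obtain ⟨B⟩ : Nonempty (Fin (n + 1) ↪ I) := by
    rw [Function.Embedding.nonempty_iff_card_le, Fintype.card_fin]
    exact h
  exact ⟨B.trans (Equiv.swap (B 0) i).toEmbedding, Equiv.swap_apply_left _ _⟩

open Classical in
/-- **The inequality for linear recurrences and hyperplanes**, for most arguments. -/
theorem hmain (𝓜 : Mode) {R K : Type} [CommRing R] [Algebra.IsIntegral ℤ R] [Field K] [NumberField K]
    [Algebra R K] (hI : n + 1 ≤ Fintype.card I) (g : J → ℕ → R)
    (hg : ∀ j, ∃ E : LinearRecurrence R, E.IsSolution (g j))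
    (X : Fin (n + 1) → ℕ → R) (hX : ∀ k, ∃ E : LinearRecurrence R, E.IsSolution (X k))
    (a : I → Fin (n + 1) → R)
    (hgen : ∀ B : Fin (n + 1) ↪ I, algebraMap R K (Matrix.of fun i k => a (B i) k).det ≠ 0)
    (κ μ : I → R) (hμ : ∀ i, algebraMap R K (μ i) ≠ 0)
    (e : I → J → ℕ) (m : J → ℕ) (x : J → ℕ) (hm : ∀ i j, m j ≤ e i j)
    (hx : ∀ j, ∀ B : Fin (n + 1) ↪ I, ∑ k : Fin (n + 1), min (e (B k) j - m j) k ≤ x j)
    (hxe : ∀ j, x j ≠ 0 → ∃ i, e i j - m j ≠ 0)
    (hL : ∀ i t, ∑ k, a i k * X k t = κ i * μ i ^ t * ∏ j, g j t ^ e i j) :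
    ∃ M : ℕ, 0 < M ∧ ∀ ρ : ℕ,
      (∃ (c : Fin (n + 1) → K) (z : ℕ), c ≠ 0 ∧ ∀ t, z ≤ t → t ≡ ρ [MOD M] →
        ∑ k, c k * algebraMap R K (X k t) = 0) ∨
      𝓜.A fun C s => s ≡ ρ [MOD M] →
        (∀ i, algebraMap R K (κ i * μ i ^ s * ∏ j, g j s ^ e i j) ≠ 0) ∧
        ∀ v : (Fin (n + 1) ↪ I) → R,
          algebraMap R K (∑ B : Fin (n + 1) ↪ I, v B * ∏ i ∈ Finset.univ \ Finset.univ.map B,
            (κ i * μ i ^ s * ∏ j, g j s ^ e i j)) ≠ 0 →
            ∀ B : (K →ₐ[ℚ] ℂ) → (Fin (n + 1) ↪ I),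
            ∏ i, ∏ σ : K →ₐ[ℚ] ℂ, ‖σ (algebraMap R K (κ i * μ i ^ s * ∏ j, g j s ^ e i j))‖ ≤
              C * (∏ σ : K →ₐ[ℚ] ℂ, ‖σ (algebraMap R K ((∏ j, g j s ^ x j) *
                ∑ B : Fin (n + 1) ↪ I, v B * ∏ i ∈ Finset.univ \ Finset.univ.map B,
                  (κ i * μ i ^ s * ∏ j, g j s ^ e i j)))‖) *
                ∏ σ : K →ₐ[ℚ] ℂ, ∏ k : Fin (n + 1), ‖σ (algebraMap R K
                  (κ (B σ k) * μ (B σ k) ^ s * ∏ j, g j s ^ e (B σ k) j))‖ := by
  choose E hE using hg
  choose EX hEX using hX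
  let E' : J ⊕ Fin (n + 1) → LinearRecurrence R := Sum.elim E EX
  let g' : J ⊕ Fin (n + 1) → ℕ → R := Sum.elim g X
  have hE' : ∀ j, (E' j).IsSolution (g' j) := by
    rintro (j | k)
    · exact hE j
    · exact hEX k
  set P : K[X] := ∏ j, (E' j).charPoly.map (algebraMap R K) with hP
  have hP0 : P ≠ 0 := (monic_prod_of_monic _ _ fun j _ => ((E' j).charPoly_monic.map _)).ne_zero
  obtain ⟨L, iF, iN, iG, iA, hsplit⟩ := exists_gal K P
  let ι : R →+* L := (algebraMap K L).comp (algebraMap R K)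
  have hsplit' : ∀ j, ((E' j).charPoly.map ι).Splits := by
    intro j
    have h1 : (E' j).charPoly.map ι = ((E' j).charPoly.map (algebraMap R K)).map (algebraMap K L) := by
      rw [Polynomial.map_map]
    rw [h1]
    refine hsplit.of_dvd (Polynomial.map_ne_zero hP0) (Polynomial.map_dvd _ ?_)
    exact Finset.dvd_prod_of_mem _ (Finset.mem_univ j)
  have hμL : ∀ i, ι (μ i) ≠ 0 := fun i => (_root_.map_ne_zero (algebraMap K L)).2 (hμ i)
  obtain ⟨z, M, r, γ, nn, hM, hγ, hn, hrep⟩ := rep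
    (ι := J ⊕ Fin (n + 1)) (κ := I)
    (fun j t => ι (g' j t)) (fun j => (E' j).charPoly.map ι)
    (fun j => ((E' j).charPoly_monic.map _).ne_zero) hsplit'
    (fun j y hy => root_int _ (E' j).charPoly_monic hy)
    (fun j => kill ι (E' j) (hE' j))
    (fun i => ι (μ i)) hμL
  refine ⟨M, hM, fun ρ => ?_⟩
  obtain ⟨G', hGB', hG'⟩ := hrep (ρ + (M - 1) * z)
  have hs : ∀ t, M * t + (ρ + (M - 1) * z + z) = M * (t + z) + ρ := by
    intro t
    have h1 : (M - 1) * z + z = M * z := by
      have h2 : M = (M - 1) + 1 := by omega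
      conv_rhs => rw [h2]
      ring
    rw [mul_add, ← h1]
    ring
  simp only [hs] at hG'
  let G : J → EP L r := fun j => G' (Sum.inl j)
  let Y : Fin (n + 1) → EP L r := fun k => G' (Sum.inr k)
  have hG : ∀ j t, ev γ (G j) t = ι (g j (M * (t + z) + ρ)) := fun j t => hG' (Sum.inl j) t
  have hY : ∀ k t, ev γ (Y k) t = ι (X k (M * (t + z) + ρ)) := fun k t => hG' (Sum.inr k) t
  have hGB : ∀ j, G j ∈ Bi γ := fun j => hGB' _
  let U : I → EP L r := fun i =>
    AddMonoidAlgebra.single (nn i, 0) (ι (κ i * μ i ^ (M * z + ρ)))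
  have hU : ∀ i t, ev γ (U i) t = ι (κ i * μ i ^ (M * (t + z) + ρ)) := by
    intro i t
    simp only [U]
    rw [ev_single, pow_zero, one_mul, hn]
    rw [← map_pow, ← map_pow, ← map_mul]
    congr 1
    rw [← pow_mul, mul_assoc, ← pow_add]
    congr 2
    ring
  let A : I → EP L r := fun i => U i * ∏ j, G j ^ e i j
  have hA : ∀ i t, ev γ (A i) t =
      ι (κ i * μ i ^ (M * (t + z) + ρ) * ∏ j, g j (M * (t + z) + ρ) ^ e i j) := by
    intro i t
    simp only [A, map_mul, map_prod, map_pow, Pi.mul_apply, Finset.prod_apply, Pi.pow_apply, hG, hU]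
  let τ0 : L →ₐ[ℚ] ℂ := IsAlgClosed.lift
  let a' : I → Fin (n + 1) → L := fun i k => ι (a i k)
  have hLA : ∀ i, ∑ k, a' i k • Y k = A i := by
    intro i
    rw [← sub_eq_zero]
    refine ev_eq_zero hγ (τ0 : L →+* ℂ) fun t => ?_
    rw [map_sub, Pi.sub_apply, map_sum, Finset.sum_apply, hA, ← hL i]
    simp only [map_smul, Pi.smul_apply, hY, smul_eq_mul, a', map_sum, map_mul, sub_self]
  by_cases hind : LinearIndependent L Y
  · -- independent case
    right
    have hrow : ∀ i, ∃ k, a' i k ≠ 0 := by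
      intro i
      obtain ⟨B, hB⟩ := exists_emb hI i
      by_contra hcon
      push Not at hcon
      apply hgen B
      have h1 : algebraMap K L (algebraMap R K (Matrix.of fun i k => a (B i) k).det) = 0 := by
        change ι _ = 0
        rw [RingHom.map_det]
        refine Matrix.det_eq_zero_of_row_eq_zero 0 fun k => ?_
        rw [RingHom.mapMatrix_apply, Matrix.map_apply, Matrix.of_apply, hB]
        exact hcon k
      exact (_root_.map_eq_zero _).1 h1
    have hne : ∀ i, A i ≠ 0 := by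
      intro i h0
      rw [← hLA] at h0
      obtain ⟨k, hk⟩ := hrow i
      exact hk (Fintype.linearIndependent_iff.1 hind _ h0 k)
    have hgen' : ∀ B : Fin (n + 1) ↪ I, (Matrix.of fun i k => a' (B i) k).det ≠ 0 := by
      intro B h0
      apply hgen B
      have h1 : algebraMap K L (algebraMap R K (Matrix.of fun i k => a (B i) k).det) = 0 := by
        change ι _ = 0
        rw [RingHom.map_det]
        exact h0
      exact (_root_.map_eq_zero _).1 h1
    have haint : ∀ i k, IsIntegral ℤ (a' i k) := fun i k =>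
      (Algebra.IsIntegral.isIntegral (R := ℤ) (a i k)).map (ι : R →+* L).toIntAlgHom
    -- the common factor
    let Q : EP L r := ∏ j, G j ^ m j
    let A' : I → EP L r := fun i => U i * ∏ j, G j ^ (e i j - m j)
    have hQA : ∀ i, A i = Q * A' i := by
      intro i
      simp only [A, A', Q]
      have h1 : ∏ j, G j ^ e i j = (∏ j, G j ^ m j) * ∏ j, G j ^ (e i j - m j) := by
        rw [← Finset.prod_mul_distrib]
        refine Finset.prod_congr rfl fun j _ => ?_
        rw [← pow_add, Nat.add_sub_cancel' (hm i j)]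
      rw [h1]
      ring
    have hQ0 : Q ≠ 0 := by
      obtain ⟨B⟩ : Nonempty (Fin (n + 1) ↪ I) := by
        rw [Function.Embedding.nonempty_iff_card_le, Fintype.card_fin]
        exact hI
      intro h0
      exact hne (B 0) (by rw [hQA, h0, zero_mul])
    have hA'0 : ∀ i, A' i ≠ 0 := by
      intro i h0
      exact hne i (by rw [hQA, h0, mul_zero])
    -- the coordinates divided by the common factor
    obtain ⟨B0⟩ : Nonempty (Fin (n + 1) ↪ I) := by
      rw [Function.Embedding.nonempty_iff_card_le, Fintype.card_fin]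
      exact hI
    set D0 : Matrix (Fin (n + 1)) (Fin (n + 1)) L := Matrix.of fun i k => a' (B0 i) k with hD0
    have hD0u : IsUnit D0.det := isUnit_iff_ne_zero.2 (hgen' B0)
    let Y' : Fin (n + 1) → EP L r := fun k => ∑ i, D0⁻¹ k i • A' (B0 i)
    have hYY : ∀ k, Y k = Q * Y' k := by
      intro k
      simp only [Y']
      rw [Finset.mul_sum]
      have h1 : ∀ i, Q * (D0⁻¹ k i • A' (B0 i)) = D0⁻¹ k i • ∑ l, a' (B0 i) l • Y l := by
        intro i
        rw [mul_smul_comm, ← hQA, hLA]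
      simp only [h1, Finset.smul_sum, smul_smul]
      rw [Finset.sum_comm]
      simp only [← Finset.sum_smul]
      have h2 : ∀ l, ∑ i, D0⁻¹ k i * a' (B0 i) l = (1 : Matrix _ _ L) k l := by
        intro l
        rw [← Matrix.nonsing_inv_mul D0 hD0u, Matrix.mul_apply]
        rfl
      simp only [h2]
      rw [Finset.sum_eq_single k]
      · rw [Matrix.one_apply_eq, one_smul]
      · intro b _ hb
        rw [Matrix.one_apply_ne hb.symm, zero_smul]
      · intro h0
        exact absurd (Finset.mem_univ _) h0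
    have hind' : LinearIndependent L Y' := by
      rw [Fintype.linearIndependent_iff] at hind ⊢
      intro c hc
      refine hind c ?_
      have h1 : ∑ k, c k • Y k = Q * ∑ k, c k • Y' k := by
        rw [Finset.mul_sum]
        refine Finset.sum_congr rfl fun k _ => ?_
        rw [hYY, mul_smul_comm]
      rw [h1, hc, mul_zero]
    have hLA' : ∀ i, ∑ k, a' i k • Y' k = A' i := by
      intro i
      by_contra h0
      refine ep_mul_ne hQ0 (sub_ne_zero.2 h0) ?_
      rw [mul_sub, ← hQA, ← hLA i, Finset.mul_sum, ← Finset.sum_sub_distrib]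
      refine Finset.sum_eq_zero fun k _ => ?_
      rw [hYY, mul_smul_comm, sub_self]
    have hcore := hypcore 𝓜 hγ Y' hind' a' haint hgen' G U hGB (fun ℓ i => ⟨_, D_single_U ℓ _ _⟩)
      (fun i j => e i j - m j) x hx hxe hLA' hA'0
    have hQne : 𝓜.A fun _ s => ev γ Q s ≠ 0 := 𝓜.ne hγ hQ0
    refine 𝓜.cls (z := z) hM (𝓜.and hcore hQne ?_ (fun _ _ _ _ h => h)) ?_ ?_
    · intro C C' s hCC h
      refine ⟨h.1, fun v h1 h2 B => (h.2 v h1 h2 B).trans ?_⟩
      exact mul_le_mul_of_nonneg_right (mul_le_mul_of_nonneg_right hCC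
        (mul_nonneg (Nt_nonneg _) (Nt_nonneg _)))
        (Finset.prod_nonneg fun _ _ => Finset.prod_nonneg fun _ _ => norm_nonneg _)
    · intro C C' s hCC h
      refine ⟨h.1, fun v h1 B => (h.2 v h1 B).trans ?_⟩
      exact mul_le_mul_of_nonneg_right (mul_le_mul_of_nonneg_right hCC
        (Finset.prod_nonneg fun _ _ => norm_nonneg _))
        (Finset.prod_nonneg fun _ _ => Finset.prod_nonneg fun _ _ => norm_nonneg _)
    rintro C s' hC ⟨⟨h3, h4⟩, hq⟩
    set s := M * (s' + z) + ρ with hsdef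
    set p := ev γ Q s' with hp
    have hgv : ∀ j, ev γ (G j) s' = ι (g j s) := fun j => hG j s'
    simp only [hgv] at h3 h4
    set b : I → L := fun i => ev γ (U i) s' * ∏ j, ι (g j s) ^ (e i j - m j) with hb
    set l : I → R := fun i => κ i * μ i ^ s * ∏ j, g j s ^ e i j with hl
    have hval : ∀ i, ι (l i) = p * b i := by
      intro i
      simp only [hl]
      rw [hsdef, ← hA i s', hQA, map_mul, Pi.mul_apply]
      simp only [A', hb, map_mul, map_prod, map_pow, Pi.mul_apply, Finset.prod_apply, Pi.pow_apply,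
        hp, hgv]
    refine ⟨fun i h0 => ?_, fun v hδ B => ?_⟩
    · have h5 : ι (l i) = 0 := by
        change algebraMap K L (algebraMap R K _) = 0
        rw [h0, map_zero]
      rw [hval] at h5
      exact mul_ne_zero hq (h3 i) h5
    set q := Fintype.card I with hqdef
    have hcard : ∀ B : Fin (n + 1) ↪ I, (Finset.univ \ Finset.univ.map B).card = q - (n + 1) := by
      intro B
      rw [Finset.card_sdiff_of_subset (Finset.subset_univ _), Finset.card_map, Finset.card_univ,
        Finset.card_univ, Fintype.card_fin]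
    have hδι : ι (∑ B : Fin (n + 1) ↪ I, v B * ∏ i ∈ Finset.univ \ Finset.univ.map B, l i) =
        p ^ (q - (n + 1)) *
          ∑ B : Fin (n + 1) ↪ I, ι (v B) * ∏ i ∈ Finset.univ \ Finset.univ.map B, b i := by
      rw [map_sum, Finset.mul_sum]
      refine Finset.sum_congr rfl fun B _ => ?_
      rw [map_mul, map_prod]
      simp only [hval]
      rw [Finset.prod_mul_distrib, Finset.prod_const, hcard]
      ring
    have hδ' : ι (∑ B : Fin (n + 1) ↪ I, v B * ∏ i ∈ Finset.univ \ Finset.univ.map B, l i) ≠ 0 := by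
      change algebraMap K L (algebraMap R K _) ≠ 0
      rw [_root_.map_ne_zero]
      exact hδ
    have h8 : ∑ B : Fin (n + 1) ↪ I, ι (v B) * ∏ i ∈ Finset.univ \ Finset.univ.map B, b i ≠ 0 := by
      intro h0
      rw [hδι, h0, mul_zero] at hδ'
      exact hδ' rfl
    have h5 := h4 (fun B => ι (v B)) (fun B => (Algebra.IsIntegral.isIntegral (R := ℤ) (v B)).map
        (ι : R →+* L).toIntAlgHom) h8 (fun τ => B (τ.domRestrict K))
    set d := Module.finrank K L with hd
    have hd0 : 0 < d := by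
      have : FiniteDimensional K L := FiniteDimensional.right ℚ K L
      exact Module.finrank_pos
    have hNt : ∀ y : R, Nt (ι y) = (∏ σ : K →ₐ[ℚ] ℂ, ‖σ (algebraMap R K y)‖) ^ d := by
      intro y
      rw [← prod_restrict (L := L) (fun σ => ‖σ (algebraMap R K y)‖)]
      rfl
    have hp0 : 0 < Nt p := Nt_pos hq
    set X1 := ∏ i, ∏ σ : K →ₐ[ℚ] ℂ, ‖σ (algebraMap R K (l i))‖ with hX1
    set Y1 := ∏ σ : K →ₐ[ℚ] ℂ, ‖σ (algebraMap R K ((∏ j, g j s ^ x j) *
        ∑ B : Fin (n + 1) ↪ I, v B * ∏ i ∈ Finset.univ \ Finset.univ.map B, l i))‖ with hY1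
    set Y3 := ∏ σ : K →ₐ[ℚ] ℂ, ∏ k : Fin (n + 1), ‖σ (algebraMap R K (l (B σ k)))‖ with hY3
    have hY10 : 0 ≤ Y1 := Finset.prod_nonneg fun _ _ => norm_nonneg _
    have hY30 : 0 ≤ Y3 := Finset.prod_nonneg fun _ _ => Finset.prod_nonneg fun _ _ => norm_nonneg _
    have e1 : Nt p ^ q * ∏ i, Nt (b i) = X1 ^ d := by
      rw [hX1, ← Finset.prod_pow]
      have : ∀ i, (∏ σ : K →ₐ[ℚ] ℂ, ‖σ (algebraMap R K (l i))‖) ^ d = Nt p * Nt (b i) := by
        intro i
        rw [← hNt, hval, Nt_mul]
      simp only [this]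
      rw [Finset.prod_mul_distrib, Finset.prod_const, Finset.card_univ]
    have e2 : Nt p ^ (q - (n + 1)) * (Nt (∏ j, ι (g j s) ^ x j) *
        Nt (∑ B : Fin (n + 1) ↪ I, ι (v B) * ∏ i ∈ Finset.univ \ Finset.univ.map B, b i)) =
          Y1 ^ d := by
      rw [← hNt, map_mul, hδι, Nt_mul, Nt_mul, Nt_pow, map_prod]
      simp only [map_pow]
      ring
    have e4 : Nt p ^ (n + 1) * (∏ τ : L →ₐ[ℚ] ℂ, ∏ k : Fin (n + 1),
        ‖τ (b (B (τ.domRestrict K) k))‖) = Y3 ^ d := by
      rw [hY3, ← prod_restrict (L := L) (fun σ => ∏ k : Fin (n + 1),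
        ‖σ (algebraMap R K (l (B σ k)))‖)]
      unfold Nt
      rw [← Finset.prod_pow, ← Finset.prod_mul_distrib]
      refine Finset.prod_congr rfl fun τ _ => ?_
      have e5 : ∀ k, ‖(τ.domRestrict K) (algebraMap R K (l (B (τ.domRestrict K) k)))‖ =
          ‖τ p‖ * ‖τ (b (B (τ.domRestrict K) k))‖ := by
        intro k
        have e6 : (τ.domRestrict K) (algebraMap R K (l (B (τ.domRestrict K) k))) =
            τ (ι (l (B (τ.domRestrict K) k))) := rfl
        rw [e6, hval, map_mul, norm_mul]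
      simp only [e5]
      rw [Finset.prod_mul_distrib, Finset.prod_const, Finset.card_univ, Fintype.card_fin]
    have h9 : X1 ^ d ≤ C * Y1 ^ d * Y3 ^ d := by
      rw [← e1, ← e2, ← e4]
      have hq' : Nt p ^ q = Nt p ^ (q - (n + 1)) * Nt p ^ (n + 1) := by
        rw [← pow_add, Nat.sub_add_cancel hI]
      calc Nt p ^ q * ∏ i, Nt (b i) ≤ Nt p ^ q *
            (C * (Nt (∏ j, ι (g j s) ^ x j) *
              Nt (∑ B : Fin (n + 1) ↪ I, ι (v B) * ∏ i ∈ Finset.univ \ Finset.univ.map B, b i)) *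
              ∏ τ : L →ₐ[ℚ] ℂ, ∏ k : Fin (n + 1), ‖τ (b (B (τ.domRestrict K) k))‖) :=
            mul_le_mul_of_nonneg_left h5 (pow_nonneg hp0.le _)
        _ = _ := by rw [hq']; ring
    have h10 : X1 ^ d ≤ (C * Y1 * Y3) ^ d := by
      refine h9.trans ?_
      rw [mul_pow, mul_pow]
      refine mul_le_mul_of_nonneg_right (mul_le_mul_of_nonneg_right ?_
        (pow_nonneg hY10 _)) (pow_nonneg hY30 _)
      exact le_self_pow₀ hC hd0.ne'
    exact le_of_pow_le_pow_left₀ hd0.ne' (by positivity) h10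
  · -- dependent case
    left
    rw [Fintype.linearIndependent_iff] at hind
    push Not at hind
    obtain ⟨c, hc, k0, hk0⟩ := hind
    have : ∃ f : L →ₗ[K] K, f (c k0) ≠ 0 := by
      by_contra hcon
      push Not at hcon
      exact hk0 ((Module.forall_dual_apply_eq_zero_iff K (c k0)).1 hcon)
    obtain ⟨f, hf⟩ := this
    refine ⟨fun k => f (c k), M * z + ρ, ?_, fun t ht htm => ?_⟩
    · intro h0
      exact hf (congrFun h0 k0)
    · obtain ⟨t', ht'⟩ : ∃ t', t = M * (t' + z) + ρ := by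
        have h1 : (M * z + ρ) ≡ t [MOD M] := by
          refine Nat.ModEq.trans ?_ htm.symm
          have : M * z + ρ ≡ 0 + ρ [MOD M] :=
            Nat.ModEq.add_right ρ ((Nat.modEq_zero_iff_dvd).2 (dvd_mul_right M _))
          rwa [zero_add] at this
        obtain ⟨t', ht'⟩ := (Nat.modEq_iff_dvd' ht).1 h1
        refine ⟨t', ?_⟩
        rw [mul_add]
        omega
      have h1 := congrArg (fun F : EP L r => ev γ F t') hc
      simp only [map_sum, map_smul, map_zero, Finset.sum_apply, Pi.smul_apply, Pi.zero_apply, hY,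
        ← ht', smul_eq_mul] at h1
      have h2 := congrArg f h1
      rw [map_sum, map_zero] at h2
      rw [← h2]
      refine Finset.sum_congr rfl fun k _ => ?_
      have h3 : c k * ι (X k t) = (algebraMap R K (X k t)) • c k := by
        rw [Algebra.smul_def, mul_comm]
        rfl
      rw [h3, map_smul, smul_eq_mul, mul_comm]

end Pool.Agent.Q183.AM
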