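import Pool.Agent.Q183.AM.Cor
import Pool.Agent.Q183.AR.AbcN

/-!
The inequality over number fields for most arguments, in the ideal form and with heights.
-/

set_option autoImplicit false

namespace Pool.Agent.Q183.AM

open Pool.Agent.Q183.AR
open NumberField Height

variable {K : Type} [Field K] [NumberField K] {J : Type} [Fintype J] {N : ℕ}

/-- the multiplicity of a base with respect to the term `i` -/
def lossI (e : Fin (N + 1) → J → ℕ) (i : Fin (N + 1)) (j : J) : ℕ :=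
  (Finset.univ : Finset (Equiv.Perm (Fin N))).sup fun σ =>
    ∑ k : Fin N, min (e (i.succAbove (σ k)) j - mn e j) k

theorem le_lossI (e : Fin (N + 1) → J → ℕ) (i : Fin (N + 1)) (j : J) (σ : Equiv.Perm (Fin N)) :
    ∑ k : Fin N, min (e (i.succAbove (σ k)) j - mn e j) k ≤ lossI e i j :=
  Finset.le_sup (f := fun σ : Equiv.Perm (Fin N) =>
    ∑ k : Fin N, min (e (i.succAbove (σ k)) j - mn e j) (k : ℕ)) (Finset.mem_univ σ)

theorem lossI_le (e : Fin (N + 1) → J → ℕ) (i : Fin (N + 1)) (j : J) : lossI e i j ≤ loss e j :=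
  Finset.sup_le fun σ _ => le_loss e j i σ

/-- the terms, multiplied by the powers of the bases -/
def tml (κ μ : Fin (N + 1) → 𝓞 K) (g : J → ℕ → 𝓞 K) (e : Fin (N + 1) → J → ℕ) (i : Fin (N + 1))
    (t : ℕ) : 𝓞 K := trm κ μ g e i t * ∏ j, g j t ^ lossI e i j

theorem mono_mul {f g : ℕ → ℝ} (hg : ∀ s, 0 ≤ g s) : MonoC fun C s => f s ≤ C * g s :=
  fun _ _ s hCC h => h.trans (mul_le_mul_of_nonneg_right hCC (hg s))

/-- **The inequality over number fields**, for most arguments, in the ideal form. -/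
theorem mideal (𝓜 : Mode) (hN : 0 < N) (g : J → ℕ → 𝓞 K)
    (hg : ∀ j, ∃ E : LinearRecurrence (𝓞 K), E.IsSolution (g j)) (κ μ : Fin (N + 1) → 𝓞 K)
    (hμ : ∀ i, μ i ≠ 0) (e : Fin (N + 1) → J → ℕ) (hsum : ∀ t, ∑ i, trm κ μ g e i t = 0) :
    ∃ M : ℕ, 0 < M ∧ ∀ ρ : ℕ,
      (∃ (c : Fin (N + 1) → K) (z : ℕ), c (Fin.last N) = 0 ∧ c ≠ 0 ∧ ∀ t, z ≤ t → t ≡ ρ [MOD M] →
        ∑ i, c i * (trm κ μ g e i t : K) = 0) ∨
      𝓜.A fun C s => s ≡ ρ [MOD M] → (∀ i, trm κ μ g e i s ≠ 0) ∧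
        mulHeight (fun i => (trm κ μ g e i s : K)) *
            Ideal.absNorm (Ideal.span (Set.range fun i => trm κ μ g e i s)) ≤
          C * Ideal.absNorm (Ideal.span (Set.range fun i => tml κ μ g e i s)) := by
  classical
  obtain ⟨B, hB, hmink⟩ := mink K
  have hinj : Function.Injective (algebraMap (𝓞 K) K) := RingOfIntegers.coe_injective
  obtain ⟨M, hM, h⟩ := mabc 𝓜 (R := 𝓞 K) (K := K) hN g hg κ μ
    (fun i h0 => hμ i (hinj (h0.trans (map_zero _).symm))) e (mn e) (lossI e) (mn_le e)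
    (fun i0 j σ => le_lossI e i0 j σ) (fun t => by
      have := hsum t
      simp only [trm] at this
      rw [this, map_zero])
  refine ⟨M, hM, fun ρ => ?_⟩
  rcases h ρ with ⟨c, z, hc0, hc1, hc2⟩ | h1
  · exact Or.inl ⟨c, z, hc0, hc1, hc2⟩
  · right
    refine 𝓜.imp h1 (fun C => max B 1 * C) 0 (PolyB.mul (PolyB.const _) PolyB.id
      (fun C hC => by linarith)) (fun C C' s hCC h hs => ⟨(h hs).1, (h hs).2.trans
        (mul_le_mul_of_nonneg_right hCC (Nat.cast_nonneg _))⟩) fun C s hC _ h2 hs => ?_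
    obtain ⟨h3, h4⟩ := h2 hs
    have hne : ∀ i, trm κ μ g e i s ≠ 0 := by
      intro i h0
      apply h3 i
      change algebraMap (𝓞 K) K (trm κ μ g e i s) = 0
      rw [h0, map_zero]
    refine ⟨hne, ?_⟩
    set a : Fin (N + 1) → 𝓞 K := fun i => trm κ μ g e i s with ha
    set b : Fin (N + 1) → 𝓞 K := fun i => tml κ μ g e i s with hb
    have ha0 : a ≠ 0 := fun h0 => hne 0 (congrFun h0 0)
    -- the bases with positive multiplicity are not zero
    have hg0 : ∀ i j, e i j ≠ 0 → g j s ≠ 0 := by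
      intro i j hij h0
      apply hne i
      unfold trm
      rw [Finset.prod_eq_zero (Finset.mem_univ j) (by rw [h0, zero_pow hij]), mul_zero]
    have hb0 : b 0 ≠ 0 := by
      refine mul_ne_zero (hne 0) (Finset.prod_ne_zero_iff.2 fun j _ => ?_)
      by_cases hj : lossI e 0 j = 0
      · rw [hj, pow_zero]
        exact one_ne_zero
      · refine pow_ne_zero _ ?_
        obtain ⟨i, hi⟩ := loss_ne (e := e) (j := j) (fun h0 => hj (Nat.le_zero.1
          ((lossI_le e 0 j).trans (le_of_eq h0))))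
        refine hg0 i j fun h0 => hi ?_
        have := mn_le e i j
        omega
    have hI : Ideal.span (Set.range b) ≠ ⊥ := by
      intro h0
      apply hb0
      have h5 : b 0 ∈ Ideal.span (Set.range b) := Ideal.subset_span ⟨0, rfl⟩
      rw [h0] at h5
      exact h5
    obtain ⟨δ, hδ, hδ0, hδn⟩ := hmink _ hI
    obtain ⟨v, hv⟩ := (Ideal.mem_span_range_iff_exists_fun (v := b)).1 hδ
    have hvδ : ∑ i, v i * (κ i * μ i ^ s * ∏ j, g j s ^ e i j) * ∏ j, g j s ^ lossI e i j = δ := by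
      rw [← hv]
      refine Finset.sum_congr rfl fun i _ => ?_
      rw [mul_assoc]
      rfl
    have h1 : ∀ σ : K →ₐ[ℚ] ℂ, ∃ i, ⨆ i, ‖σ (a i : K)‖ = ‖σ (a i : K)‖ := by
      intro σ
      obtain ⟨i, hi⟩ := exists_eq_ciSup_of_finite (f := fun i => ‖σ (a i : K)‖)
      exact ⟨i, hi.symm⟩
    choose η hη using h1
    have h2 := height_eq a ha0
    simp only [hη] at h2
    have h5 := h4 v (by
      rw [hvδ]
      intro h0
      exact hδ0 (hinj (h0.trans (map_zero _).symm))) η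
    rw [hvδ] at h5
    have h6 : ∏ σ : K →ₐ[ℚ] ℂ, ‖σ (algebraMap (𝓞 K) K δ)‖ =
        |((Algebra.norm ℚ (δ : K) : ℚ) : ℝ)| := by
      rw [← norm_emb]
    rw [h6] at h5
    change mulHeight (fun i => (a i : K)) * Ideal.absNorm (Ideal.span (Set.range a)) ≤ _
    rw [h2]
    have hC0 : 0 ≤ C := by linarith
    calc ∏ σ : K →ₐ[ℚ] ℂ, ‖σ (a (η σ) : K)‖ ≤ C * |((Algebra.norm ℚ (δ : K) : ℚ) : ℝ)| := h5
      _ ≤ C * (B * Ideal.absNorm (Ideal.span (Set.range b))) := mul_le_mul_of_nonneg_left hδn hC0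
      _ ≤ C * (max B 1 * Ideal.absNorm (Ideal.span (Set.range b))) :=
        mul_le_mul_of_nonneg_left (mul_le_mul_of_nonneg_right (le_max_left _ _)
          (Nat.cast_nonneg _)) hC0
      _ = _ := by ring

/-- **The inequality over number fields**, for most arguments, with heights. -/
theorem mheight (𝓜 : Mode) (hN : 0 < N) (g : J → ℕ → 𝓞 K)
    (hg : ∀ j, ∃ E : LinearRecurrence (𝓞 K), E.IsSolution (g j)) (κ μ : Fin (N + 1) → 𝓞 K)
    (hμ : ∀ i, μ i ≠ 0) (e : Fin (N + 1) → J → ℕ) (hsum : ∀ t, ∑ i, trm κ μ g e i t = 0) :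
    ∃ M : ℕ, 0 < M ∧ ∀ ρ : ℕ,
      (∃ (c : Fin (N + 1) → K) (z : ℕ), c (Fin.last N) = 0 ∧ c ≠ 0 ∧ ∀ t, z ≤ t → t ≡ ρ [MOD M] →
        ∑ i, c i * (trm κ μ g e i t : K) = 0) ∨
      𝓜.A fun C s => s ≡ ρ [MOD M] → (∀ i, trm κ μ g e i s ≠ 0) ∧
        mulHeight (fun i => (trm κ μ g e i s : K)) ≤
          C * ∏ j, |((Algebra.norm ℚ (g j s : K) : ℚ) : ℝ)| ^ loss e j := by
  classical
  obtain ⟨M, hM, h⟩ := mideal 𝓜 hN g hg κ μ hμ e hsum
  refine ⟨M, hM, fun ρ => ?_⟩
  rcases h ρ with h1 | h1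
  · exact Or.inl h1
  right
  refine 𝓜.imp h1 (fun C => C) 0 PolyB.id (fun C C' s hCC h hs => ⟨(h hs).1, (h hs).2.trans
    (mul_le_mul_of_nonneg_right hCC (Finset.prod_nonneg fun _ _ => pow_nonneg (abs_nonneg _) _))⟩)
    fun C s hC _ h2 hs => ?_
  obtain ⟨hne, h3⟩ := h2 hs
  refine ⟨hne, ?_⟩
  set a : Fin (N + 1) → 𝓞 K := fun i => trm κ μ g e i s with ha
  have hI : Ideal.span (Set.range a) ≠ ⊥ := by
    intro h0
    apply hne 0
    have h5 : a 0 ∈ Ideal.span (Set.range a) := Ideal.subset_span ⟨0, rfl⟩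
    rw [h0] at h5
    exact h5
  have hI0 : (0 : ℝ) < Ideal.absNorm (Ideal.span (Set.range a)) := by
    exact_mod_cast Nat.pos_of_ne_zero fun h0 => hI (Ideal.absNorm_eq_zero_iff.1 h0)
  have hg0 : ∀ j, loss e j ≠ 0 → g j s ≠ 0 := by
    intro j hj h0
    obtain ⟨i, hi⟩ := loss_ne hj
    apply hne i
    have := mn_le e i j
    unfold trm
    rw [Finset.prod_eq_zero (Finset.mem_univ j) (by rw [h0, zero_pow (by omega)]), mul_zero]
  set X : 𝓞 K := ∏ j, g j s ^ loss e j with hX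
  have hX0 : X ≠ 0 := Finset.prod_ne_zero_iff.2 fun j _ => by
    by_cases hj : loss e j = 0
    · rw [hj, pow_zero]
      exact one_ne_zero
    · exact pow_ne_zero _ (hg0 j hj)
  have hXn : (Ideal.absNorm (Ideal.span {X}) : ℝ) =
      ∏ j, |((Algebra.norm ℚ (g j s : K) : ℚ) : ℝ)| ^ loss e j := by
    rw [← norm_span, hX]
    have h4 : ((∏ j, g j s ^ loss e j : 𝓞 K) : K) = ∏ j, (g j s : K) ^ loss e j := by
      push_cast
      rfl
    rw [h4, map_prod]
    simp only [map_pow]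
    push_cast
    rw [Finset.abs_prod]
    simp only [abs_pow]
  have hle : Ideal.span {X} * Ideal.span (Set.range a) ≤
      Ideal.span (Set.range fun i => tml κ μ g e i s) := by
    rw [Ideal.span_mul_span', Ideal.span_le]
    rintro y ⟨x1, hx1, x2, ⟨i, rfl⟩, rfl⟩
    rw [Set.mem_singleton_iff] at hx1
    subst hx1
    have h4 : X * a i = (∏ j, g j s ^ (loss e j - lossI e i j)) * tml κ μ g e i s := by
      unfold tml
      rw [hX]
      have h5 : ∏ j, g j s ^ loss e j = (∏ j, g j s ^ (loss e j - lossI e i j)) *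
          ∏ j, g j s ^ lossI e i j := by
        rw [← Finset.prod_mul_distrib]
        refine Finset.prod_congr rfl fun j _ => ?_
        rw [← pow_add, Nat.sub_add_cancel (lossI_le e i j)]
      rw [h5]
      ring
    show X * a i ∈ _
    rw [h4]
    exact Ideal.mul_mem_left _ _ (Ideal.subset_span ⟨i, rfl⟩)
  have hnorm : (Ideal.absNorm (Ideal.span (Set.range fun i => tml κ μ g e i s)) : ℝ) ≤
      Ideal.absNorm (Ideal.span {X}) * Ideal.absNorm (Ideal.span (Set.range a)) := by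
    have h4 := Ideal.absNorm_dvd_absNorm_of_le hle
    rw [map_mul] at h4
    have h5 : 0 < Ideal.absNorm (Ideal.span {X}) * Ideal.absNorm (Ideal.span (Set.range a)) := by
      refine Nat.mul_pos (Nat.pos_of_ne_zero fun h0 => hX0 (Ideal.span_singleton_eq_bot.1
        (Ideal.absNorm_eq_zero_iff.1 h0))) ?_
      exact_mod_cast hI0
    exact_mod_cast Nat.le_of_dvd h5 h4
  have h4 : mulHeight (fun i => (a i : K)) * Ideal.absNorm (Ideal.span (Set.range a)) ≤
      (C * Ideal.absNorm (Ideal.span {X})) * Ideal.absNorm (Ideal.span (Set.range a)) := by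
    refine h3.trans ?_
    rw [mul_assoc]
    exact mul_le_mul_of_nonneg_left hnorm (by linarith)
  have h5 := le_of_mul_le_mul_right h4 hI0
  rw [hXn] at h5
  exact h5

end Pool.Agent.Q183.AM
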