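import Pool.Agent.Q183.AM.Cartan2
import Pool.Agent.Q183.AM.KV

/-!
The height of a point with coordinates in linear recurrences and hyperplanes in general position.
-/

set_option autoImplicit false

namespace Pool.Agent.Q183.AM

open Pool.Agent.Q183.AR
open NumberField Height

/-- an injection whose range contains a given set -/
theorem exists_emb_superset {n : ℕ} {I : Type} [Fintype I] (h : n + 1 ≤ Fintype.card I) (T : Finset I)
    (hT : T.card ≤ n + 1) : ∃ B : Fin (n + 1) ↪ I, T ⊆ Finset.univ.map B := by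
  classical
  obtain ⟨t, ht1, ht2⟩ := Finset.exists_superset_card_eq hT h
  let eq := t.equivFinOfCardEq ht2
  refine ⟨eq.symm.toEmbedding.trans (Function.Embedding.subtype _), fun i hi => ?_⟩
  rw [Finset.mem_map]
  refine ⟨eq ⟨i, ht1 hi⟩, Finset.mem_univ _, ?_⟩
  simp

/-- **Few linear forms in general position are small.** -/
theorem arch {n : ℕ} {I : Type} [Fintype I] (hI : n + 1 ≤ Fintype.card I) (a : I → Fin (n + 1) → ℂ)
    (hgen : ∀ B : Fin (n + 1) ↪ I, (Matrix.of fun i k => a (B i) k).det ≠ 0) :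
    ∃ c : ℝ, 0 < c ∧ ∀ x : Fin (n + 1) → ℂ, ∃ B : Fin (n + 1) ↪ I,
      ∀ i, i ∉ Finset.univ.map B → c * (⨆ k, ‖x k‖) ≤ ‖∑ k, a i k * x k‖ := by
  classical
  set A : (Fin (n + 1) ↪ I) → Matrix (Fin (n + 1)) (Fin (n + 1)) ℂ :=
    fun B => Matrix.of fun i k => a (B i) k with hA
  set S : ℝ := 1 + ∑ B : Fin (n + 1) ↪ I, ∑ k, ∑ i, ‖(A B)⁻¹ k i‖ with hS
  have hS0 : 0 ≤ ∑ B : Fin (n + 1) ↪ I, ∑ k, ∑ i, ‖(A B)⁻¹ k i‖ :=
    Finset.sum_nonneg fun _ _ => Finset.sum_nonneg fun _ _ => Finset.sum_nonneg fun _ _ => norm_nonneg _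
  have hSpos : 0 < S := by linarith
  refine ⟨S⁻¹, inv_pos.2 hSpos, fun x => ?_⟩
  set t := S⁻¹ * ⨆ k, ‖x k‖ with ht
  set T : Finset I := Finset.univ.filter fun i => ‖∑ k, a i k * x k‖ < t with hT
  have hcard : T.card ≤ n + 1 := by
    by_contra hcon
    push Not at hcon
    obtain ⟨T', hT'1, hT'2⟩ := Finset.exists_subset_card_eq hcon.le
    let eq := T'.equivFinOfCardEq hT'2
    let B : Fin (n + 1) ↪ I := eq.symm.toEmbedding.trans (Function.Embedding.subtype _)
    have hB : ∀ i, ‖∑ k, a (B i) k * x k‖ < t := by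
      intro i
      have h1 : B i ∈ T := hT'1 (eq.symm i).2
      exact (Finset.mem_filter.1 h1).2
    have ht0 : 0 < t := lt_of_le_of_lt (norm_nonneg _) (hB 0)
    have hu : IsUnit (A B).det := isUnit_iff_ne_zero.2 (hgen B)
    have hx : ∀ k, x k = ∑ i, (A B)⁻¹ k i * ∑ l, a (B i) l * x l := by
      intro k
      simp only [Finset.mul_sum, ← mul_assoc]
      rw [Finset.sum_comm]
      simp only [← Finset.sum_mul]
      have h2 : ∀ l, ∑ i, (A B)⁻¹ k i * a (B i) l = (1 : Matrix _ _ ℂ) k l := by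
        intro l
        rw [← Matrix.nonsing_inv_mul (A B) hu, Matrix.mul_apply]
        rfl
      simp only [h2]
      rw [Finset.sum_eq_single k]
      · rw [Matrix.one_apply_eq, one_mul]
      · intro b _ hb
        rw [Matrix.one_apply_ne hb.symm, zero_mul]
      · intro h0
        exact absurd (Finset.mem_univ _) h0
    have hle : ∀ k, ‖x k‖ ≤ (S - 1) * t := by
      intro k
      rw [hx k]
      calc ‖∑ i, (A B)⁻¹ k i * ∑ l, a (B i) l * x l‖ ≤ ∑ i, ‖(A B)⁻¹ k i‖ * t := by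
            refine (norm_sum_le _ _).trans (Finset.sum_le_sum fun i _ => ?_)
            rw [norm_mul]
            exact mul_le_mul_of_nonneg_left (hB i).le (norm_nonneg _)
        _ = (∑ i, ‖(A B)⁻¹ k i‖) * t := by rw [Finset.sum_mul]
        _ ≤ (S - 1) * t := by
            refine mul_le_mul_of_nonneg_right ?_ ht0.le
            have h3 : ∑ i, ‖(A B)⁻¹ k i‖ ≤ ∑ k, ∑ i, ‖(A B)⁻¹ k i‖ :=
              Finset.single_le_sum (f := fun k => ∑ i, ‖(A B)⁻¹ k i‖)
                (fun _ _ => Finset.sum_nonneg fun _ _ => norm_nonneg _) (Finset.mem_univ k)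
            have h4 : ∑ k, ∑ i, ‖(A B)⁻¹ k i‖ ≤ ∑ B : Fin (n + 1) ↪ I, ∑ k, ∑ i, ‖(A B)⁻¹ k i‖ :=
              Finset.single_le_sum (f := fun B => ∑ k, ∑ i, ‖(A B)⁻¹ k i‖)
                (fun _ _ => Finset.sum_nonneg fun _ _ => Finset.sum_nonneg fun _ _ => norm_nonneg _)
                (Finset.mem_univ B)
            rw [hS]
            linarith
    have h5 : (⨆ k, ‖x k‖) ≤ (S - 1) * t := ciSup_le hle
    have h6 : (⨆ k, ‖x k‖) = S * t := by
      rw [ht, mul_inv_cancel_left₀ hSpos.ne']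
    rw [h6] at h5
    nlinarith
  obtain ⟨B, hB⟩ := exists_emb_superset hI T hcard
  refine ⟨B, fun i hi => ?_⟩
  by_contra hcon
  push Not at hcon
  exact hi (hB (Finset.mem_filter.2 ⟨Finset.mem_univ _, hcon⟩))

section Ideals

variable {R : Type} [CommRing R] {n : ℕ} {I : Type} [Fintype I] [DecidableEq I]

omit [Fintype I] [DecidableEq I] in
/-- the coordinates times the product of the determinants are in the ideal of the linear forms -/
theorem coord_mem (a : I → Fin (n + 1) → R) (x : Fin (n + 1) → R) (B : Fin (n + 1) ↪ I)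
    (𝔠 : Ideal R) (h : ∀ i, ∑ k, a (B i) k * x k ∈ 𝔠) (k : Fin (n + 1)) :
    (Matrix.of fun i k => a (B i) k).det * x k ∈ 𝔠 := by
  set A : Matrix (Fin (n + 1)) (Fin (n + 1)) R := Matrix.of fun i k => a (B i) k with hA
  have h1 : A.adjugate.mulVec (A.mulVec x) = A.det • x := by
    rw [Matrix.mulVec_mulVec, Matrix.adjugate_mul, Matrix.smul_mulVec, Matrix.one_mulVec]
  have h2 := congrFun h1 k
  rw [Pi.smul_apply, smul_eq_mul] at h2
  rw [← h2]
  show ∑ i, A.adjugate k i * (∑ l, a (B i) l * x l) ∈ 𝔠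
  exact Ideal.sum_mem _ fun i _ => Ideal.mul_mem_left _ _ (h i)

omit [Fintype I] in
/-- **Products of linear forms in general position.** -/
theorem span_pow_le (a : I → Fin (n + 1) → R) (x : Fin (n + 1) → R) (D : R)
    (hD : ∀ B : Fin (n + 1) ↪ I, (Matrix.of fun i k => a (B i) k).det ∣ D) (m : ℕ) :
    ∀ T : Finset I, T.card = n + 1 + m →
      (Ideal.span {D} * Ideal.span (Set.range x)) ^ m ≤
        Ideal.span {z | ∃ B : Finset I, B ⊆ T ∧ B.card = n + 1 ∧
          z = ∏ i ∈ T \ B, ∑ k, a i k * x k} := by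
  induction m with
  | zero =>
    intro T hT
    have h1 : Ideal.span {z | ∃ B : Finset I, B ⊆ T ∧ B.card = n + 1 ∧
        z = ∏ i ∈ T \ B, ∑ k, a i k * x k} = ⊤ := by
      rw [Ideal.eq_top_iff_one]
      refine Ideal.subset_span ⟨T, subset_rfl, hT, ?_⟩
      rw [Finset.sdiff_self, Finset.prod_empty]
    rw [h1]
    exact le_top
  | succ m ih =>
    intro T hT
    set 𝔠 := Ideal.span {z | ∃ B : Finset I, B ⊆ T ∧ B.card = n + 1 ∧
          z = ∏ i ∈ T \ B, ∑ k, a i k * x k} with h𝔠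
    -- the ideal of the forms
    have h1 : Ideal.span {D} * Ideal.span (Set.range x) ≤
        Ideal.span ((fun i => ∑ k, a i k * x k) '' (T : Set I)) := by
      rw [Ideal.span_mul_span', Ideal.span_le]
      rintro _ ⟨d, hd, _, ⟨k, rfl⟩, rfl⟩
      rw [Set.mem_singleton_iff] at hd
      subst hd
      obtain ⟨T', hT'1, hT'2⟩ := Finset.exists_subset_card_eq
        (show n + 1 ≤ T.card by omega)
      let eq := T'.equivFinOfCardEq hT'2
      let B : Fin (n + 1) ↪ I := eq.symm.toEmbedding.trans (Function.Embedding.subtype _)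
      have hB : ∀ i, B i ∈ T := fun i => hT'1 (eq.symm i).2
      obtain ⟨d', hd'⟩ := hD B
      have h2 := coord_mem a x B (Ideal.span ((fun i => ∑ k, a i k * x k) '' (T : Set I)))
        (fun i => Ideal.subset_span ⟨B i, hB i, rfl⟩) k
      have h3 : d * x k = d' * ((Matrix.of fun i k => a (B i) k).det * x k) := by
        rw [hd']
        ring
      show d * x k ∈ _
      rw [h3]
      exact Ideal.mul_mem_left _ _ h2
    rw [pow_succ]
    refine (Ideal.mul_mono (le_refl _) h1).trans ?_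
    rw [Ideal.mul_le]
    intro r hr s hs
    refine Submodule.span_induction (p := fun s _ => r * s ∈ 𝔠) ?_ ?_ ?_ ?_ hs
    · rintro _ ⟨i, hi, rfl⟩
      have hi' : i ∈ T := hi
      have hcard : (T.erase i).card = n + 1 + m := by
        rw [Finset.card_erase_of_mem hi', hT]
        omega
      have hr' := ih (T.erase i) hcard hr
      refine Submodule.span_induction (p := fun r _ => r * (∑ k, a i k * x k) ∈ 𝔠) ?_ ?_ ?_ ?_ hr'
      · rintro _ ⟨B, hB1, hB2, rfl⟩
        have hiB : i ∉ B := fun h => Finset.notMem_erase i T (hB1 h)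
        refine Ideal.subset_span ⟨B, hB1.trans (Finset.erase_subset _ _), hB2, ?_⟩
        have h4 : T \ B = insert i (T.erase i \ B) := by
          ext j
          simp only [Finset.mem_sdiff, Finset.mem_insert, Finset.mem_erase]
          constructor
          · rintro ⟨h5, h6⟩
            rcases eq_or_ne j i with h7 | h7
            · exact Or.inl h7
            · exact Or.inr ⟨⟨h7, h5⟩, h6⟩
          · rintro (h5 | ⟨⟨h5, h6⟩, h7⟩)
            · subst h5
              exact ⟨hi', hiB⟩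
            · exact ⟨h6, h7⟩
        have h5 : i ∉ T.erase i \ B := fun h => Finset.notMem_erase i T (Finset.mem_sdiff.1 h).1
        show (∏ i ∈ T.erase i \ B, ∑ k, a i k * x k) * (∑ k, a i k * x k) = _
        rw [h4, Finset.prod_insert h5, mul_comm]
      · rw [zero_mul]
        exact Ideal.zero_mem _
      · intro y z _ _ hy hz
        rw [add_mul]
        exact Ideal.add_mem _ hy hz
      · intro c y _ hy
        rw [smul_eq_mul, mul_assoc]
        exact Ideal.mul_mem_left _ _ hy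
    · rw [mul_zero]
      exact Ideal.zero_mem _
    · intro y z _ _ hy hz
      rw [mul_add]
      exact Ideal.add_mem _ hy hz
    · intro c y _ hy
      rw [smul_eq_mul, mul_left_comm]
      exact Ideal.mul_mem_left _ _ hy

/-- the ideal of the complementary products, with injections -/
theorem span_emb (f : I → R) :
    Ideal.span {z | ∃ B : Finset I, B ⊆ Finset.univ ∧ B.card = n + 1 ∧
      z = ∏ i ∈ Finset.univ \ B, f i} ≤
    Ideal.span (Set.range fun B : Fin (n + 1) ↪ I => ∏ i ∈ Finset.univ \ Finset.univ.map B, f i) := by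
  rw [Ideal.span_le]
  rintro _ ⟨T, -, hT, rfl⟩
  let eq := T.equivFinOfCardEq hT
  let B : Fin (n + 1) ↪ I := eq.symm.toEmbedding.trans (Function.Embedding.subtype _)
  have hB : Finset.univ.map B = T := by
    ext i
    rw [Finset.mem_map]
    constructor
    · rintro ⟨j, _, rfl⟩
      exact (eq.symm j).2
    · intro hi
      refine ⟨eq ⟨i, hi⟩, Finset.mem_univ _, ?_⟩
      simp [B]
  refine Ideal.subset_span ⟨B, ?_⟩
  show ∏ i ∈ Finset.univ \ Finset.univ.map B, f i = _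
  rw [hB]

end Ideals

section Height

variable {K : Type} [Field K] [NumberField K] {n : ℕ} {I J : Type} [Fintype I] [Fintype J]

/-- the least exponent -/
noncomputable def hmn (e : I → J → ℕ) (j : J) : ℕ := ⨅ i, e i j

omit [Fintype I] [Fintype J] in
theorem hmn_le (e : I → J → ℕ) (i : I) (j : J) : hmn e j ≤ e i j :=
  ciInf_le (OrderBot.bddBelow _) i

/-- the truncated multiplicity of a base: the largest value of the sum of the
`min (e (B k) j - min_i e i j) k`, over all injections `B` -/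
noncomputable def hloss (n : ℕ) (e : I → J → ℕ) (j : J) : ℕ :=
  ⨆ B : Fin (n + 1) ↪ I, ∑ k : Fin (n + 1), min (e (B k) j - hmn e j) k

omit [Fintype J] in
theorem le_hloss (e : I → J → ℕ) (j : J) (B : Fin (n + 1) ↪ I) :
    ∑ k : Fin (n + 1), min (e (B k) j - hmn e j) k ≤ hloss n e j := by
  classical
  exact le_ciSup (f := fun B : Fin (n + 1) ↪ I => ∑ k : Fin (n + 1), min (e (B k) j - hmn e j) k)
    (Set.finite_range _).bddAbove B

omit [Fintype J] in
theorem hloss_ne {e : I → J → ℕ} {j : J} (h : hloss n e j ≠ 0) : ∃ i, e i j - hmn e j ≠ 0 := by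
  classical
  by_contra hcon
  push Not at hcon
  apply h
  unfold hloss
  rcases isEmpty_or_nonempty (Fin (n + 1) ↪ I) with h1 | h1
  · rw [iSup_of_empty', Nat.sSup_def]
    · exact bot_unique (Nat.find_le fun k hk => absurd hk (by simp))
    · exact ⟨0, by simp⟩
  · apply le_antisymm _ (Nat.zero_le _)
    refine ciSup_le fun B => ?_
    simp only [hcon, Nat.zero_min, Finset.sum_const_zero, le_refl]

open Classical in
/-- **The inequality for the height of a point with coordinates in linear recurrences**, for most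
arguments, when the values of linear forms in general position are products of recurrences. -/
theorem hheight (𝓜 : Mode) (hI : n + 1 ≤ Fintype.card I) (g : J → ℕ → 𝓞 K)
    (hg : ∀ j, ∃ E : LinearRecurrence (𝓞 K), E.IsSolution (g j))
    (X : Fin (n + 1) → ℕ → 𝓞 K) (hX : ∀ k, ∃ E : LinearRecurrence (𝓞 K), E.IsSolution (X k))
    (a : I → Fin (n + 1) → 𝓞 K)
    (hgen : ∀ B : Fin (n + 1) ↪ I, (Matrix.of fun i k => a (B i) k).det ≠ 0)
    (κ μ : I → 𝓞 K) (hμ : ∀ i, μ i ≠ 0) (e : I → J → ℕ)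
    (hL : ∀ i t, ∑ k, a i k * X k t = κ i * μ i ^ t * ∏ j, g j t ^ e i j) :
    ∃ M : ℕ, 0 < M ∧ ∀ ρ : ℕ,
      (∃ (c : Fin (n + 1) → K) (z : ℕ), c ≠ 0 ∧ ∀ t, z ≤ t → t ≡ ρ [MOD M] →
        ∑ k, c k * (X k t : K) = 0) ∨
      𝓜.A fun C s => s ≡ ρ [MOD M] →
        (∀ i, κ i * μ i ^ s * ∏ j, g j s ^ e i j ≠ 0) ∧
        mulHeight (fun k => (X k s : K)) ^ (Fintype.card I - (n + 1)) ≤
          C * ∏ j, |((Algebra.norm ℚ (g j s : K) : ℚ) : ℝ)| ^ hloss n e j := by
  obtain ⟨B0, hB0, hmink⟩ := mink K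
  have hinj : Function.Injective (algebraMap (𝓞 K) K) := RingOfIntegers.coe_injective
  obtain ⟨M, hM, h⟩ := hmain 𝓜 (R := 𝓞 K) (K := K) hI g hg X hX a
    (fun B h0 => hgen B (hinj (h0.trans (map_zero _).symm))) κ μ
    (fun i h0 => hμ i (hinj (h0.trans (map_zero _).symm))) e (hmn e) (hloss n e) (hmn_le e)
    (fun j B => le_hloss e j B) (fun j hj => hloss_ne hj) hL
  refine ⟨M, hM, fun ρ => ?_⟩
  rcases h ρ with ⟨c, z, hc1, hc2⟩ | h1
  · exact Or.inl ⟨c, z, hc1, hc2⟩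
  right
  -- the archimedean constants
  have harch : ∀ σ : K →ₐ[ℚ] ℂ, ∃ c : ℝ, 0 < c ∧ ∀ x : Fin (n + 1) → ℂ, ∃ B : Fin (n + 1) ↪ I,
      ∀ i, i ∉ Finset.univ.map B → c * (⨆ k, ‖x k‖) ≤ ‖∑ k, σ (a i k : K) * x k‖ := by
    intro σ
    refine arch hI (fun i k => σ (a i k : K)) fun B h0 => hgen B ?_
    let f : 𝓞 K →+* ℂ := (σ : K →+* ℂ).comp (algebraMap (𝓞 K) K)
    have hf : Function.Injective f := (σ : K →+* ℂ).injective.comp hinj
    have h2 : f (Matrix.of fun i k => a (B i) k).det = 0 := by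
      rw [RingHom.map_det]
      exact h0
    exact hf (h2.trans (map_zero _).symm)
  choose cσ hcσ hBσ using harch
  set m := Fintype.card I - (n + 1) with hm
  set D : 𝓞 K := ∏ B : Fin (n + 1) ↪ I, (Matrix.of fun i k => a (B i) k).det with hD
  have hD0 : D ≠ 0 := Finset.prod_ne_zero_iff.2 fun B _ => hgen B
  have hDd : ∀ B : Fin (n + 1) ↪ I, (Matrix.of fun i k => a (B i) k).det ∣ D := fun B =>
    Finset.dvd_prod_of_mem _ (Finset.mem_univ B)
  set c0 : ℝ := ∏ σ : K →ₐ[ℚ] ℂ, cσ σ ^ m with hc0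
  have hc0pos : 0 < c0 := Finset.prod_pos fun σ _ => pow_pos (hcσ σ) _
  set ND : ℝ := (Ideal.absNorm (Ideal.span {D}) : ℝ) ^ m with hND
  have hND0 : 0 ≤ ND := pow_nonneg (Nat.cast_nonneg _) _
  refine 𝓜.imp h1 (fun C => (c0⁻¹ * B0 * ND) * C) 0 (PolyB.mul (PolyB.const _) PolyB.id
    (fun C hC => by linarith)) (fun C C' s hCC h hs => ⟨(h hs).1, (h hs).2.trans
      (mul_le_mul_of_nonneg_right hCC (Finset.prod_nonneg fun _ _ =>
        pow_nonneg (abs_nonneg _) _))⟩) fun C s hC _ h2 hs => ?_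
  obtain ⟨h3, h4⟩ := h2 hs
  set l : I → 𝓞 K := fun i => κ i * μ i ^ s * ∏ j, g j s ^ e i j with hl
  have hne : ∀ i, l i ≠ 0 := by
    intro i h0
    apply h3 i
    change algebraMap (𝓞 K) K (l i) = 0
    rw [h0, map_zero]
  refine ⟨hne, ?_⟩
  set x : Fin (n + 1) → 𝓞 K := fun k => X k s with hx
  have hlx : ∀ i, ∑ k, a i k * x k = l i := fun i => hL i s
  obtain ⟨Bz⟩ : Nonempty (Fin (n + 1) ↪ I) := by
    rw [Function.Embedding.nonempty_iff_card_le, Fintype.card_fin]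
    exact hI
  have hx0 : x ≠ 0 := by
    intro h0
    apply hne (Bz 0)
    rw [← hlx, h0]
    simp
  set 𝔵 : Ideal (𝓞 K) := Ideal.span (Set.range x) with h𝔵
  have h𝔵0 : 𝔵 ≠ ⊥ := by
    intro h0
    apply hx0
    funext k
    have h5 : x k ∈ 𝔵 := Ideal.subset_span ⟨k, rfl⟩
    rw [h0] at h5
    exact h5
  have hN𝔵 : (0 : ℝ) < Ideal.absNorm 𝔵 := by
    exact_mod_cast Nat.pos_of_ne_zero fun h0 => h𝔵0 (Ideal.absNorm_eq_zero_iff.1 h0)
  -- the ideal of the complementary products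
  set cp : (Fin (n + 1) ↪ I) → 𝓞 K := fun B => ∏ i ∈ Finset.univ \ Finset.univ.map B, l i with hcp
  set 𝔠 : Ideal (𝓞 K) := Ideal.span (Set.range cp) with h𝔠
  have h𝔠0 : 𝔠 ≠ ⊥ := by
    intro h0
    have h5 : cp Bz ∈ 𝔠 := Ideal.subset_span ⟨Bz, rfl⟩
    rw [h0] at h5
    exact Finset.prod_ne_zero_iff.2 (fun i _ => hne i) h5
  have hle : (Ideal.span {D} * 𝔵) ^ m ≤ 𝔠 := by
    have h5 := span_pow_le a x D hDd m Finset.univ (by
      rw [Finset.card_univ, hm]
      omega)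
    refine h5.trans ?_
    have h6 := span_emb (n := n) (fun i => ∑ k, a i k * x k)
    simp only [hlx] at h6 ⊢
    exact h6
  have hN𝔠 : (Ideal.absNorm 𝔠 : ℝ) ≤ ND * (Ideal.absNorm 𝔵 : ℝ) ^ m := by
    have h5 := Ideal.absNorm_dvd_absNorm_of_le hle
    rw [map_pow, map_mul] at h5
    have h6 : 0 < (Ideal.absNorm (Ideal.span {D}) * Ideal.absNorm 𝔵) ^ m := by
      refine pow_pos (Nat.mul_pos (Nat.pos_of_ne_zero fun h0 => hD0
        (Ideal.span_singleton_eq_bot.1 (Ideal.absNorm_eq_zero_iff.1 h0))) ?_) _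
      exact_mod_cast hN𝔵
    have h7 := Nat.le_of_dvd h6 h5
    rw [hND, ← mul_pow]
    exact_mod_cast h7
  obtain ⟨δ, hδ, hδ0, hδn⟩ := hmink _ h𝔠0
  obtain ⟨v, hv⟩ := (Ideal.mem_span_range_iff_exists_fun (v := cp)).1 hδ
  choose Bx hBx using fun σ : K →ₐ[ℚ] ℂ => hBσ σ (fun k => σ (x k : K))
  have h5 := h4 v (by
    change algebraMap (𝓞 K) K (∑ B, v B * cp B) ≠ 0
    rw [hv]
    intro h0
    exact hδ0 (hinj (h0.trans (map_zero _).symm))) Bx
  change _ ≤ C * (∏ σ : K →ₐ[ℚ] ℂ, ‖σ (algebraMap (𝓞 K) K ((∏ j, g j s ^ hloss n e j) *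
    ∑ B, v B * cp B))‖) * _ at h5
  rw [hv] at h5
  set G : 𝓞 K := ∏ j, g j s ^ hloss n e j with hG
  set P : ℝ := ∏ σ : K →ₐ[ℚ] ℂ, ∏ k : Fin (n + 1), ‖σ (algebraMap (𝓞 K) K (l (Bx σ k)))‖ with hP
  have hσne : ∀ (σ : K →ₐ[ℚ] ℂ) i, 0 < ‖σ (algebraMap (𝓞 K) K (l i))‖ := by
    intro σ i
    rw [norm_pos_iff]
    intro h0
    exact h3 i ((_root_.map_eq_zero _).1 h0)
  have hP0 : 0 < P := Finset.prod_pos fun σ _ => Finset.prod_pos fun k _ => hσne σ _
  -- the archimedean estimate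
  have h6 : (∏ σ : K →ₐ[ℚ] ℂ, (cσ σ * ⨆ k, ‖σ (x k : K)‖) ^ m) * P ≤
      ∏ i, ∏ σ : K →ₐ[ℚ] ℂ, ‖σ (algebraMap (𝓞 K) K (l i))‖ := by
    rw [Finset.prod_comm, hP, ← Finset.prod_mul_distrib]
    refine Finset.prod_le_prod (fun σ _ => mul_nonneg (pow_nonneg (mul_nonneg (hcσ σ).le
      (Real.iSup_nonneg fun _ => norm_nonneg _)) _)
      (Finset.prod_nonneg fun _ _ => norm_nonneg _)) fun σ _ => ?_
    rw [← Finset.prod_sdiff (Finset.subset_univ (Finset.univ.map (Bx σ))), Finset.prod_map]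
    refine mul_le_mul_of_nonneg_right ?_ (Finset.prod_nonneg fun _ _ => norm_nonneg _)
    have hcard : (Finset.univ \ Finset.univ.map (Bx σ)).card = m := by
      rw [Finset.card_sdiff_of_subset (Finset.subset_univ _), Finset.card_map, Finset.card_univ,
        Finset.card_univ, Fintype.card_fin]
    rw [← hcard, ← Finset.prod_const]
    refine Finset.prod_le_prod (fun i _ => mul_nonneg (hcσ σ).le
      (Real.iSup_nonneg fun _ => norm_nonneg _)) fun i hi => ?_
    have h7 := hBx σ i (Finset.mem_sdiff.1 hi).2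
    refine h7.trans (le_of_eq ?_)
    congr 1
    rw [← hlx, map_sum, map_sum]
    refine Finset.sum_congr rfl fun k _ => ?_
    rw [map_mul, map_mul]
  have h7 : ∏ σ : K →ₐ[ℚ] ℂ, (cσ σ * ⨆ k, ‖σ (x k : K)‖) ^ m ≤
      C * ∏ σ : K →ₐ[ℚ] ℂ, ‖σ (algebraMap (𝓞 K) K (G * δ))‖ :=
    le_of_mul_le_mul_right (h6.trans h5) hP0
  have h8 := height_eq x hx0
  have h9 : ∏ σ : K →ₐ[ℚ] ℂ, (cσ σ * ⨆ k, ‖σ (x k : K)‖) ^ m =
      c0 * (mulHeight (fun k => (x k : K)) * Ideal.absNorm 𝔵) ^ m := by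
    rw [h8, hc0, ← Finset.prod_pow, ← Finset.prod_mul_distrib]
    refine Finset.prod_congr rfl fun σ _ => ?_
    rw [mul_pow]
  have h10 : ∏ σ : K →ₐ[ℚ] ℂ, ‖σ (algebraMap (𝓞 K) K (G * δ))‖ =
      (∏ j, |((Algebra.norm ℚ (g j s : K) : ℚ) : ℝ)| ^ hloss n e j) *
        |((Algebra.norm ℚ (δ : K) : ℚ) : ℝ)| := by
    rw [norm_emb, map_mul, map_mul]
    push_cast
    rw [abs_mul]
    congr 1
    rw [hG, map_prod, map_prod]
    push_cast
    rw [Finset.abs_prod]
    refine Finset.prod_congr rfl fun j _ => ?_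
    rw [map_pow]
    push_cast
    rw [abs_pow]
  rw [h9, h10] at h7
  set H := mulHeight (fun k => (x k : K)) with hH
  set NG : ℝ := ∏ j, |((Algebra.norm ℚ (g j s : K) : ℚ) : ℝ)| ^ hloss n e j with hNG
  have hNG0 : 0 ≤ NG := Finset.prod_nonneg fun _ _ => pow_nonneg (abs_nonneg _) _
  have hC0 : 0 ≤ C := by linarith
  have h11 : c0 * H ^ m * (Ideal.absNorm 𝔵 : ℝ) ^ m ≤
      (C * NG * B0 * ND) * (Ideal.absNorm 𝔵 : ℝ) ^ m := by
    calc c0 * H ^ m * (Ideal.absNorm 𝔵 : ℝ) ^ m = c0 * (H * Ideal.absNorm 𝔵) ^ m := by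
          rw [mul_pow]
          ring
      _ ≤ C * (NG * |((Algebra.norm ℚ (δ : K) : ℚ) : ℝ)|) := h7
      _ ≤ C * (NG * (B0 * (ND * (Ideal.absNorm 𝔵 : ℝ) ^ m))) := by
          refine mul_le_mul_of_nonneg_left (mul_le_mul_of_nonneg_left ?_ hNG0) hC0
          exact hδn.trans (mul_le_mul_of_nonneg_left hN𝔠 hB0.le)
      _ = _ := by ring
  have h12 := le_of_mul_le_mul_right h11 (pow_pos hN𝔵 m)
  have h13 : H ^ m ≤ c0⁻¹ * (C * NG * B0 * ND) := by
    rw [← div_eq_inv_mul, le_div_iff₀ hc0pos, mul_comm]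
    exact h12
  refine h13.trans (le_of_eq ?_)
  ring

end Height

end Pool.Agent.Q183.AM
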