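import Pool.Agent.Q183.AM.Cartan3

/-!
Truncated counting functions and products which are nearly squarefree.
-/

set_option autoImplicit false

namespace Pool.Agent.Q183.AM

open Pool.Agent.Q183.AR
open NumberField Height IsDedekindDomain

section Val

variable {K : Type} [Field K] [NumberField K]

open Classical in
/-- the multiplicity of a prime in an ideal -/
noncomputable def cv (v : HeightOneSpectrum (𝓞 K)) (I : Ideal (𝓞 K)) : ℕ :=
  (Associates.mk v.asIdeal).count (Associates.mk I).factors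

theorem cv_mul (v : HeightOneSpectrum (𝓞 K)) {I J : Ideal (𝓞 K)} (hI : I ≠ ⊥) (hJ : J ≠ ⊥) :
    cv v (I * J) = cv v I + cv v J := by
  classical
  unfold cv
  rw [← Associates.mk_mul_mk]
  exact Associates.count_mul (Associates.mk_ne_zero.2 hI) (Associates.mk_ne_zero.2 hJ)
    v.associates_irreducible

theorem cv_pos_iff (v : HeightOneSpectrum (𝓞 K)) {I : Ideal (𝓞 K)} (hI : I ≠ ⊥) :
    0 < cv v I ↔ v.asIdeal ∣ I := by
  classical
  rw [Nat.pos_iff_ne_zero]
  exact Associates.count_ne_zero_iff_dvd hI v.irreducible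

theorem pow_dvd_iff (v : HeightOneSpectrum (𝓞 K)) {I : Ideal (𝓞 K)} (hI : I ≠ ⊥) (k : ℕ) :
    v.asIdeal ^ k ∣ I ↔ k ≤ cv v I := by
  classical
  unfold cv
  rw [← Associates.prime_pow_dvd_iff_le (Associates.mk_ne_zero.2 hI) v.associates_irreducible,
    ← Associates.mk_pow, Associates.mk_le_mk_iff_dvd]

theorem cv_le_one (v : HeightOneSpectrum (𝓞 K)) {I : Ideal (𝓞 K)} (hI : I ≠ ⊥)
    (hsq : Squarefree I) : cv v I ≤ 1 := by
  by_contra hcon
  push Not at hcon
  have h1 : v.asIdeal ^ 2 ∣ I := (pow_dvd_iff v hI 2).2 hcon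
  rw [sq] at h1
  have h2 := hsq _ h1
  exact v.isPrime.ne_top (Ideal.isUnit_iff.1 h2)

theorem cv_coprime (v : HeightOneSpectrum (𝓞 K)) {I J : Ideal (𝓞 K)} (hI : I ≠ ⊥) (hJ : J ≠ ⊥)
    (h : IsCoprime I J) (h1 : 0 < cv v I) : cv v J = 0 := by
  by_contra hcon
  have h2 := (cv_pos_iff v hI).1 h1
  have h3 := (cv_pos_iff v hJ).1 (Nat.pos_of_ne_zero hcon)
  have h4 : IsUnit v.asIdeal := h.isUnit_of_dvd' h2 h3
  exact v.isPrime.ne_top (Ideal.isUnit_iff.1 h4)

theorem cv_prod (v : HeightOneSpectrum (𝓞 K)) {J : Type} (S : Finset J) (f : J → 𝓞 K)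
    (hf : ∀ j ∈ S, f j ≠ 0) :
    cv v (Ideal.span {∏ j ∈ S, f j}) = ∑ j ∈ S, cv v (Ideal.span {f j}) := by
  classical
  induction S using Finset.induction_on with
  | empty =>
    rw [Finset.prod_empty, Finset.sum_empty]
    by_contra hcon
    have h1 : Ideal.span {(1 : 𝓞 K)} ≠ ⊥ := by
      rw [Ideal.span_singleton_one]
      exact top_ne_bot
    have h2 := (cv_pos_iff v h1).1 (Nat.pos_of_ne_zero hcon)
    rw [Ideal.span_singleton_one, ← Ideal.one_eq_top] at h2
    exact v.isPrime.ne_top (Ideal.isUnit_iff.1 (isUnit_of_dvd_one h2))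
  | insert a S ha ih =>
    rw [Finset.prod_insert ha, Finset.sum_insert ha, ← Ideal.span_singleton_mul_span_singleton,
      cv_mul, ih fun j hj => hf j (Finset.mem_insert_of_mem hj)]
    · exact fun h0 => hf a (Finset.mem_insert_self _ _) (Ideal.span_singleton_eq_bot.1 h0)
    · exact fun h0 => Finset.prod_ne_zero_iff.2 (fun j hj => hf j (Finset.mem_insert_of_mem hj))
        (Ideal.span_singleton_eq_bot.1 h0)

theorem one_lt_Nv (v : HeightOneSpectrum (𝓞 K)) : (1 : ℝ) < Ideal.absNorm v.asIdeal := by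
  exact_mod_cast NumberField.HeightOneSpectrum.one_lt_absNorm v

theorem log_Nv_pos (v : HeightOneSpectrum (𝓞 K)) : 0 < Real.log (Ideal.absNorm v.asIdeal) :=
  Real.log_pos (one_lt_Nv v)

theorem norm_cv (v : HeightOneSpectrum (𝓞 K)) {y : 𝓞 K} (hy : y ≠ 0) :
    FinitePlace.mk v (y : K) = ((Ideal.absNorm v.asIdeal : ℝ) ^ cv v (Ideal.span {y}))⁻¹ := by
  classical
  have h := NumberField.HeightOneSpectrum.embedding_mul_absNorm K v hy
  have h1 : (Ideal.absNorm (v.maxPowDividing (Ideal.span {y})) : ℝ) =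
      (Ideal.absNorm v.asIdeal : ℝ) ^ cv v (Ideal.span {y}) := by
    unfold HeightOneSpectrum.maxPowDividing
    rw [map_pow, Nat.cast_pow]
    rfl
  rw [h1] at h
  exact eq_inv_of_mul_eq_one_left h

theorem norm_le_one (v : HeightOneSpectrum (𝓞 K)) (y : 𝓞 K) : FinitePlace.mk v (y : K) ≤ 1 :=
  FinitePlace.norm_le_one K v y

theorem norm_eq_one (v : HeightOneSpectrum (𝓞 K)) {y : 𝓞 K} (hy : y ∉ v.asIdeal) :
    FinitePlace.mk v (y : K) = 1 :=
  (FinitePlace.norm_eq_one_iff_notMem K v y).2 hy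

theorem log_cv {I : Ideal (𝓞 K)} (hI : I ≠ ⊥) (S : Finset (HeightOneSpectrum (𝓞 K)))
    (hS : ∀ v : HeightOneSpectrum (𝓞 K), v.asIdeal ∣ I → v ∈ S) :
    Real.log (Ideal.absNorm I) = ∑ v ∈ S, cv v I * Real.log (Ideal.absNorm v.asIdeal) := by
  classical
  have h1 := Ideal.finprod_heightOneSpectrum_factorization hI
  have h2 : ∏ᶠ v : HeightOneSpectrum (𝓞 K), v.maxPowDividing I = ∏ v ∈ S, v.maxPowDividing I := by
    refine finprod_eq_prod_of_mulSupport_subset _ fun v hv => ?_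
    refine hS v ?_
    rw [← cv_pos_iff v hI]
    by_contra hcon
    apply hv
    show v.maxPowDividing I = 1
    unfold HeightOneSpectrum.maxPowDividing
    have : (Associates.mk v.asIdeal).count (Associates.mk I).factors = 0 :=
      Nat.eq_zero_of_not_pos hcon
    rw [this, pow_zero]
  rw [h2] at h1
  conv_lhs => rw [← h1]
  rw [map_prod, Nat.cast_prod, Real.log_prod]
  · refine Finset.sum_congr rfl fun v _ => ?_
    unfold HeightOneSpectrum.maxPowDividing
    rw [map_pow, Nat.cast_pow, Real.log_pow]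
    rfl
  · intro v _
    unfold HeightOneSpectrum.maxPowDividing
    rw [map_pow, Nat.cast_pow]
    exact pow_ne_zero _ (by linarith [one_lt_Nv v])

theorem sum_le (v : HeightOneSpectrum (𝓞 K)) {ι : Type} (S : Finset ι) (f : ι → K) {M : ℝ}
    (hM : 0 ≤ M) (h : ∀ i ∈ S, FinitePlace.mk v (f i) ≤ M) :
    FinitePlace.mk v (∑ i ∈ S, f i) ≤ M := by
  refine Finset.sum_induction f (fun y => FinitePlace.mk v y ≤ M) (fun a b ha hb => ?_) ?_ h
  · exact (FinitePlace.add_le _ a b).trans (max_le ha hb)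
  · rw [map_zero]
    exact hM

end Val

section Local

variable {K : Type} [Field K] [NumberField K] {n : ℕ} {I J : Type} [Fintype I] [Fintype J]

/-- the size of a vector at a prime -/
noncomputable def siz (v : HeightOneSpectrum (𝓞 K)) (x : Fin (n + 1) → K) : ℝ :=
  ⨆ k, FinitePlace.mk v (x k)

/-- the local height of a hyperplane at a prime -/
noncomputable def lam (v : HeightOneSpectrum (𝓞 K)) (b x : Fin (n + 1) → K) : ℝ :=
  Real.log (siz v x * siz v b / FinitePlace.mk v (∑ k, b k * x k))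

/-- the truncated counting function: the sum of the local heights of the hyperplanes, truncated at
`m` times the size of the prime, over the primes outside `T` -/
noncomputable def Ntr (T : Set (HeightOneSpectrum (𝓞 K))) (m : ℕ) (a : I → Fin (n + 1) → K)
    (x : Fin (n + 1) → K) : ℝ :=
  ∑ᶠ (v : HeightOneSpectrum (𝓞 K)) (_ : v ∉ T),
    ∑ i, min (lam v (a i) x) (m * Real.log (Ideal.absNorm v.asIdeal))

theorem le_siz (v : HeightOneSpectrum (𝓞 K)) (x : Fin (n + 1) → K) (k : Fin (n + 1)) :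
    FinitePlace.mk v (x k) ≤ siz v x :=
  le_ciSup (f := fun k => FinitePlace.mk v (x k)) (Set.finite_range _).bddAbove k

theorem siz_nonneg (v : HeightOneSpectrum (𝓞 K)) (x : Fin (n + 1) → K) : 0 ≤ siz v x :=
  (apply_nonneg _ _).trans (le_siz v x 0)

theorem form_le (v : HeightOneSpectrum (𝓞 K)) (b x : Fin (n + 1) → K) :
    FinitePlace.mk v (∑ k, b k * x k) ≤ siz v x * siz v b := by
  refine sum_le v _ _ (mul_nonneg (siz_nonneg _ _) (siz_nonneg _ _)) fun k _ => ?_
  rw [map_mul, mul_comm]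
  exact mul_le_mul (le_siz v x k) (le_siz v b k) (apply_nonneg _ _) (siz_nonneg _ _)

theorem lam_nonneg (v : HeightOneSpectrum (𝓞 K)) {b x : Fin (n + 1) → K}
    (h : ∑ k, b k * x k ≠ 0) : 0 ≤ lam v b x := by
  refine Real.log_nonneg ?_
  rw [one_le_div (FinitePlace.pos_iff.2 h)]
  exact form_le v b x

theorem siz_le_one (v : HeightOneSpectrum (𝓞 K)) (b : Fin (n + 1) → 𝓞 K) :
    siz v (fun k => (b k : K)) ≤ 1 := ciSup_le fun k => norm_le_one v (b k)

omit [Fintype I] in
/-- away from the primes which divide a determinant, the size is the largest size of the forms -/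
theorem siz_le_of_forms (v : HeightOneSpectrum (𝓞 K)) (a : I → Fin (n + 1) → 𝓞 K)
    (x : Fin (n + 1) → 𝓞 K) (B : Fin (n + 1) ↪ I)
    (hB : (Matrix.of fun i k => a (B i) k).det ∉ v.asIdeal) {M : ℝ} (hM : 0 ≤ M)
    (h : ∀ i, FinitePlace.mk v ((∑ k, a (B i) k * x k : 𝓞 K) : K) ≤ M) :
    siz v (fun k => (x k : K)) ≤ M := by
  refine ciSup_le fun k => ?_
  set A : Matrix (Fin (n + 1)) (Fin (n + 1)) (𝓞 K) := Matrix.of fun i k => a (B i) k with hA
  have h1 : A.adjugate.mulVec (A.mulVec x) = A.det • x := by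
    rw [Matrix.mulVec_mulVec, Matrix.adjugate_mul, Matrix.smul_mulVec, Matrix.one_mulVec]
  have h2 : A.det * x k = ∑ i, A.adjugate k i * (∑ l, a (B i) l * x l) := (congrFun h1 k).symm
  have h3 : FinitePlace.mk v (algebraMap (𝓞 K) K (A.det * x k)) = FinitePlace.mk v (x k : K) := by
    rw [map_mul, map_mul, norm_eq_one v hB, one_mul]
  rw [← h3, h2, map_sum]
  refine sum_le v _ _ hM fun i _ => ?_
  rw [map_mul, map_mul]
  calc FinitePlace.mk v (algebraMap (𝓞 K) K (A.adjugate k i)) *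
        FinitePlace.mk v (algebraMap (𝓞 K) K (∑ l, a (B i) l * x l)) ≤ 1 * M :=
        mul_le_mul (norm_le_one v _) (h i) (apply_nonneg _ _) zero_le_one
    _ = M := one_mul M

omit [Fintype I] in
/-- away from the primes which divide a determinant, the forms have size one -/
theorem siz_coeff (v : HeightOneSpectrum (𝓞 K)) (a : I → Fin (n + 1) → 𝓞 K)
    (B : Fin (n + 1) ↪ I) (hB : (Matrix.of fun i k => a (B i) k).det ∉ v.asIdeal) :
    siz v (fun k => (a (B 0) k : K)) = 1 := by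
  refine le_antisymm (siz_le_one v _) ?_
  by_contra hcon
  push Not at hcon
  apply hB
  have h1 : ∀ k, a (B 0) k ∈ v.asIdeal := by
    intro k
    rw [← FinitePlace.norm_lt_one_iff_mem K v]
    exact lt_of_le_of_lt (le_siz v (fun k => (a (B 0) k : K)) k) hcon
  rw [Matrix.det_succ_row_zero]
  refine Ideal.sum_mem _ fun k _ => ?_
  rw [mul_assoc, mul_left_comm]
  exact Ideal.mul_mem_right _ _ (h1 k)

open Classical in
/-- the bases whose exponents in the forms are not all equal -/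
noncomputable def hun (e : I → J → ℕ) : Finset J := Finset.univ.filter fun j => ∃ i i', e i j ≠ e i' j

theorem eq_hmn {e : I → J → ℕ} {j : J} (hj : j ∉ hun e) (i : I) : e i j = hmn e j := by
  classical
  have h1 : ∀ i', e i' j = e i j := by
    intro i'
    by_contra h
    exact hj (Finset.mem_filter.2 ⟨Finset.mem_univ _, i', i, h⟩)
  have : Nonempty I := ⟨i⟩
  unfold hmn
  simp only [h1, ciInf_const]

theorem hloss_zero {e : I → J → ℕ} {j : J} (hj : j ∉ hun e) : hloss n e j = 0 := by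
  by_contra h
  obtain ⟨i, hi⟩ := hloss_ne h
  apply hi
  rw [eq_hmn hj i, Nat.sub_self]

omit [Fintype I] [Fintype J] in
theorem hloss_le (e : I → J → ℕ) (j : J) : hloss n e j ≤ (n + 1).choose 2 := by
  classical
  unfold hloss
  refine ciSup_le' fun B => ?_
  calc ∑ k : Fin (n + 1), min (e (B k) j - hmn e j) k ≤ ∑ k : Fin (n + 1), (k : ℕ) :=
        Finset.sum_le_sum fun k _ => min_le_right _ _
    _ = (n + 1).choose 2 := by
      rw [Finset.sum_fin_eq_sum_range, Finset.sum_congr rfl fun i hi => dif_pos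
        (Finset.mem_range.1 hi), Finset.sum_range_id, Nat.choose_two_right]

omit [Fintype J] in
theorem hloss_le_sum (e : I → J → ℕ) (j : J) : hloss n e j ≤ ∑ i, min (e i j - hmn e j) n := by
  classical
  unfold hloss
  refine ciSup_le' fun B => ?_
  calc ∑ k : Fin (n + 1), min (e (B k) j - hmn e j) k ≤
        ∑ k : Fin (n + 1), min (e (B k) j - hmn e j) n :=
        Finset.sum_le_sum fun k _ => min_le_min (le_refl _) (Nat.lt_succ_iff.1 k.2)
    _ = ∑ i ∈ Finset.univ.map B, min (e i j - hmn e j) n := by rw [Finset.sum_map]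
    _ ≤ ∑ i, min (e i j - hmn e j) n := Finset.sum_le_sum_of_subset (Finset.subset_univ _)

open Classical in
/-- **Products of bases which are nearly squarefree**: the bound by the truncated counting
function. -/
theorem near_trunc (hI : n + 1 ≤ Fintype.card I) (a : I → Fin (n + 1) → 𝓞 K)
    (hgen : ∀ B : Fin (n + 1) ↪ I, (Matrix.of fun i k => a (B i) k).det ≠ 0)
    (κ μ : I → 𝓞 K) (hμ : ∀ i, μ i ≠ 0) (g : J → ℕ → 𝓞 K) (e : I → J → ℕ)
    (T : Set (HeightOneSpectrum (𝓞 K))) (hT : T.Finite) :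
    ∃ B : ℝ, 0 ≤ B ∧ ∀ (s : ℕ) (x : Fin (n + 1) → 𝓞 K),
      (∀ i, ∑ k, a i k * x k = κ i * μ i ^ s * ∏ j, g j s ^ e i j) →
      (∀ i, κ i * μ i ^ s * ∏ j, g j s ^ e i j ≠ 0) → ∀ 𝔞 𝔟 : Ideal (𝓞 K),
      Ideal.span {∏ j ∈ hun e, g j s} = 𝔞 * 𝔟 → Squarefree 𝔞 → IsCoprime 𝔞 𝔟 →
      Real.log (∏ j, |((Algebra.norm ℚ (g j s : K) : ℚ) : ℝ)| ^ hloss n e j) ≤
        Ntr T n (fun i k => (a i k : K)) (fun k => (x k : K)) +
          ((n + 1).choose 2 : ℕ) * Real.log (Ideal.absNorm 𝔟) + B := by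
  by_cases hκ : ∀ i, κ i ≠ 0
  swap
  · push Not at hκ
    obtain ⟨i, hi⟩ := hκ
    refine ⟨0, le_refl 0, fun s x _ hs => absurd ?_ (hs i)⟩
    rw [hi, zero_mul, zero_mul]
  set D : 𝓞 K := ∏ B : Fin (n + 1) ↪ I, (Matrix.of fun i k => a (B i) k).det with hD
  have hD0 : D ≠ 0 := Finset.prod_ne_zero_iff.2 fun B _ => hgen B
  set Y0 : 𝓞 K := D * ∏ i, (κ i * μ i) with hY0
  have hY00 : Y0 ≠ 0 := mul_ne_zero hD0 (Finset.prod_ne_zero_iff.2 fun i _ =>
    mul_ne_zero (hκ i) (hμ i))
  set Bd : Finset (HeightOneSpectrum (𝓞 K)) := (finite_dvd hY00).toFinset ∪ hT.toFinset with hBd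
  set H : ℕ := (n + 1).choose 2 with hH
  have hsum0 : 0 ≤ ∑ v ∈ Bd, Real.log (Ideal.absNorm v.asIdeal) :=
    Finset.sum_nonneg fun v _ => (log_Nv_pos v).le
  refine ⟨H * ∑ v ∈ Bd, Real.log (Ideal.absNorm v.asIdeal), by positivity, ?_⟩
  intro s x hL hne 𝔞 𝔟 hab hsq hcop
  -- the bases are not zero
  have hg0 : ∀ j ∈ hun e, g j s ≠ 0 := by
    intro j hj h0
    obtain ⟨i, i', hii⟩ := (Finset.mem_filter.1 hj).2
    have h1 : ∀ i, e i j = 0 := by
      intro i
      by_contra h2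
      apply hne i
      rw [Finset.prod_eq_zero (Finset.mem_univ j) (by rw [h0, zero_pow h2]), mul_zero]
    exact hii ((h1 i).trans (h1 i').symm)
  have hP0 : ∏ j ∈ hun e, g j s ≠ 0 := Finset.prod_ne_zero_iff.2 hg0
  have hab0 : 𝔞 * 𝔟 ≠ ⊥ := by
    rw [← hab]
    exact fun h0 => hP0 (Ideal.span_singleton_eq_bot.1 h0)
  have ha0 : 𝔞 ≠ ⊥ := fun h0 => hab0 (by rw [h0, Ideal.bot_mul])
  have hb0 : 𝔟 ≠ ⊥ := fun h0 => hab0 (by rw [h0, Ideal.mul_bot])
  set l : I → 𝓞 K := fun i => ∑ k, a i k * x k with hl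
  have hl0 : ∀ i, l i ≠ 0 := fun i => by
    simp only [hl]
    rw [hL]
    exact hne i
  set Y : 𝓞 K := Y0 * (∏ i, l i) * ∏ j ∈ hun e, g j s with hY
  have hYne : Y ≠ 0 := mul_ne_zero (mul_ne_zero hY00 (Finset.prod_ne_zero_iff.2 fun i _ => hl0 i)) hP0
  set S0 : Finset (HeightOneSpectrum (𝓞 K)) := (finite_dvd hYne).toFinset ∪ Bd with hS0
  have hmemY : ∀ v : HeightOneSpectrum (𝓞 K), Y ∈ v.asIdeal → v ∈ S0 := fun v hv =>
    Finset.mem_union_left _ ((finite_dvd hYne).mem_toFinset.2 hv)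
  have hBdS : Bd ⊆ S0 := Finset.subset_union_right
  -- the local terms
  set F : HeightOneSpectrum (𝓞 K) → ℝ := fun v =>
    ∑ i, min (lam v (fun k => (a i k : K)) (fun k => (x k : K)))
      (n * Real.log (Ideal.absNorm v.asIdeal)) with hF
  have hlK : ∀ i, ∑ k, (a i k : K) * (x k : K) = (l i : K) := by
    intro i
    simp only [hl, map_sum, map_mul]
  have hF0 : ∀ v, 0 ≤ F v := by
    intro v
    refine Finset.sum_nonneg fun i _ => le_min (lam_nonneg v ?_) (mul_nonneg (Nat.cast_nonneg _)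
      (log_Nv_pos v).le)
    rw [hlK]
    exact RingOfIntegers.coe_ne_zero_iff.mpr (hl0 i)
  -- the sizes away from the bad primes
  have hdet : ∀ v : HeightOneSpectrum (𝓞 K), Y0 ∉ v.asIdeal → ∀ B : Fin (n + 1) ↪ I,
      (Matrix.of fun i k => a (B i) k).det ∉ v.asIdeal := by
    intro v hv B h0
    apply hv
    rw [hY0]
    refine Ideal.mul_mem_right _ _ ?_
    rw [hD, ← Finset.mul_prod_erase _ _ (Finset.mem_univ B)]
    exact Ideal.mul_mem_right _ _ h0
  have hsza : ∀ v : HeightOneSpectrum (𝓞 K), Y0 ∉ v.asIdeal → ∀ i,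
      siz v (fun k => (a i k : K)) = 1 := by
    intro v hv i
    obtain ⟨B, hB⟩ := exists_emb hI i
    have := siz_coeff v a B (hdet v hv B)
    rwa [hB] at this
  have hlx : ∀ (v : HeightOneSpectrum (𝓞 K)) i,
      FinitePlace.mk v (l i : K) ≤ siz v (fun k => (x k : K)) := by
    intro v i
    have h1 := form_le v (fun k => (a i k : K)) (fun k => (x k : K))
    rw [hlK] at h1
    exact h1.trans (mul_le_of_le_one_right (siz_nonneg _ _) (siz_le_one v _))
  -- the local terms vanish away from a finite set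
  have hFS : ∀ v, v ∉ S0 → F v = 0 := by
    intro v hv
    have h1 : Y ∉ v.asIdeal := fun h => hv (hmemY v h)
    have h2 : Y0 ∉ v.asIdeal := fun h => h1 (by
      rw [hY, mul_assoc]
      exact Ideal.mul_mem_right _ _ h)
    have h3 : ∀ i, l i ∉ v.asIdeal := fun i h => h1 (by
      rw [hY]
      refine Ideal.mul_mem_right _ _ (Ideal.mul_mem_left _ _ ?_)
      rw [← Finset.mul_prod_erase _ _ (Finset.mem_univ i)]
      exact Ideal.mul_mem_right _ _ h)
    refine Finset.sum_eq_zero fun i _ => ?_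
    have h4 : FinitePlace.mk v (l i : K) = 1 := norm_eq_one v (h3 i)
    have h5 : siz v (fun k => (x k : K)) = 1 :=
      le_antisymm (siz_le_one v _) (h4 ▸ hlx v i)
    unfold lam
    rw [hlK, h4, h5, hsza v h2 i, mul_one, div_one, Real.log_one]
    exact min_eq_left (mul_nonneg (Nat.cast_nonneg _) (log_Nv_pos v).le)
  have hN : Ntr T n (fun i k => (a i k : K)) (fun k => (x k : K)) =
      ∑ v ∈ S0, if v ∉ T then F v else 0 := by
    unfold Ntr
    rw [finsum_eq_sum_of_support_subset (s := S0)]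
    · refine Finset.sum_congr rfl fun v _ => ?_
      rw [finsum_eq_if]
    · intro v hv
      by_contra hcon
      apply hv
      show ∑ᶠ (_ : v ∉ T), F v = 0
      rw [hFS v hcon]
      exact finsum_zero
  -- the norms of the bases
  have hgj : Real.log (∏ j, |((Algebra.norm ℚ (g j s : K) : ℚ) : ℝ)| ^ hloss n e j) =
      ∑ v ∈ S0, (∑ j ∈ hun e, (hloss n e j * cv v (Ideal.span {g j s}) : ℕ)) *
        Real.log (Ideal.absNorm v.asIdeal) := by
    have h1 : ∏ j, |((Algebra.norm ℚ (g j s : K) : ℚ) : ℝ)| ^ hloss n e j =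
        ∏ j ∈ hun e, (Ideal.absNorm (Ideal.span {g j s}) : ℝ) ^ hloss n e j := by
      rw [← Finset.prod_subset (Finset.subset_univ (hun e))]
      · refine Finset.prod_congr rfl fun j _ => ?_
        rw [norm_span]
      · intro j _ hj
        rw [hloss_zero hj, pow_zero]
    have hs0 : ∀ j ∈ hun e, Ideal.span {g j s} ≠ ⊥ := fun j hj h0 =>
      hg0 j hj (Ideal.span_singleton_eq_bot.1 h0)
    rw [h1, Real.log_prod]
    · have h2 : ∀ j ∈ hun e, Real.log ((Ideal.absNorm (Ideal.span {g j s}) : ℝ) ^ hloss n e j) =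
          ∑ v ∈ S0, ((hloss n e j * cv v (Ideal.span {g j s}) : ℕ) : ℝ) *
            Real.log (Ideal.absNorm v.asIdeal) := by
        intro j hj
        rw [Real.log_pow, log_cv (hs0 j hj) S0, Finset.mul_sum]
        · refine Finset.sum_congr rfl fun v _ => ?_
          push_cast
          ring
        · intro v hv
          apply hmemY
          rw [hY]
          refine Ideal.mul_mem_left _ _ ?_
          rw [← Finset.mul_prod_erase _ _ hj]
          exact Ideal.mul_mem_right _ _ (Ideal.dvd_span_singleton.1 hv)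
      rw [Finset.sum_congr rfl h2, Finset.sum_comm]
      refine Finset.sum_congr rfl fun v _ => ?_
      push_cast
      rw [Finset.sum_mul]
    · intro j hj
      refine pow_ne_zero _ ?_
      have h3 : Ideal.absNorm (Ideal.span {g j s}) ≠ 0 := fun h0 =>
        hs0 j hj (Ideal.absNorm_eq_zero_iff.1 h0)
      exact_mod_cast h3
  have hNb : Real.log (Ideal.absNorm 𝔟) =
      ∑ v ∈ S0, cv v 𝔟 * Real.log (Ideal.absNorm v.asIdeal) := by
    refine log_cv hb0 S0 fun v hv => ?_
    apply hmemY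
    rw [hY]
    refine Ideal.mul_mem_left _ _ ?_
    rw [← Ideal.dvd_span_singleton, hab]
    exact Dvd.dvd.mul_left hv _
  have hBs : ∑ v ∈ Bd, Real.log (Ideal.absNorm v.asIdeal) =
      ∑ v ∈ S0, if v ∈ Bd then Real.log (Ideal.absNorm v.asIdeal) else 0 := by
    rw [Finset.sum_ite_mem, Finset.inter_eq_right.2 hBdS]
  rw [hgj, hN, hNb, hBs, Finset.mul_sum, Finset.mul_sum, ← Finset.sum_add_distrib,
    ← Finset.sum_add_distrib]
  refine Finset.sum_le_sum fun v _ => ?_
  -- the inequality at one prime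
  have hlog := log_Nv_pos v
  have hcsum : ∑ j ∈ hun e, cv v (Ideal.span {g j s}) = cv v 𝔞 + cv v 𝔟 := by
    rw [← cv_prod v _ _ hg0, hab, cv_mul v ha0 hb0]
  have hle1 : ∑ j ∈ hun e, hloss n e j * cv v (Ideal.span {g j s}) ≤ H * (cv v 𝔞 + cv v 𝔟) := by
    rw [← hcsum, Finset.mul_sum]
    exact Finset.sum_le_sum fun j _ => Nat.mul_le_mul_right _ (hloss_le e j)
  have hF' : 0 ≤ if v ∉ T then F v else 0 := by
    by_cases hv : v ∉ T
    · rw [if_pos hv]
      exact hF0 v
    · rw [if_neg hv]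
  rcases Nat.eq_zero_or_pos (cv v 𝔞) with h𝔞 | h𝔞
  · -- the prime does not divide the squarefree part
    rw [h𝔞, zero_add] at hle1
    have h1 : ((∑ j ∈ hun e, (hloss n e j * cv v (Ideal.span {g j s}) : ℕ)) : ℝ) ≤
        H * cv v 𝔟 := by exact_mod_cast hle1
    have h2 := mul_le_mul_of_nonneg_right h1 hlog.le
    have h3 : 0 ≤ if v ∈ Bd then Real.log (Ideal.absNorm v.asIdeal) else 0 := by
      split_ifs
      · exact hlog.le
      · exact le_refl 0
    have h4 : 0 ≤ (H : ℝ) * if v ∈ Bd then Real.log (Ideal.absNorm v.asIdeal) else 0 :=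
      mul_nonneg (Nat.cast_nonneg _) h3
    push_cast at h2 ⊢
    linarith
  have h𝔟 : cv v 𝔟 = 0 := cv_coprime v ha0 hb0 hcop h𝔞
  have h𝔞1 : cv v 𝔞 = 1 := le_antisymm (cv_le_one v ha0 hsq) h𝔞
  rw [h𝔟, h𝔞1, add_zero] at hcsum hle1
  rw [h𝔟, Nat.cast_zero, zero_mul, mul_zero, add_zero]
  by_cases hvB : v ∈ Bd
  · rw [if_pos hvB]
    have h1 : ((∑ j ∈ hun e, (hloss n e j * cv v (Ideal.span {g j s}) : ℕ)) : ℝ) ≤
        H * 1 := by exact_mod_cast hle1
    have h2 := mul_le_mul_of_nonneg_right h1 hlog.le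
    push_cast at h2 ⊢
    linarith
  rw [if_neg hvB, mul_zero, add_zero]
  have hvT : v ∉ T := fun h => hvB (Finset.mem_union_right _ (hT.mem_toFinset.2 h))
  have hvY0 : Y0 ∉ v.asIdeal := fun h => hvB (Finset.mem_union_left _
    ((finite_dvd hY00).mem_toFinset.2 h))
  rw [if_pos hvT]
  -- the base which is divisible by the prime
  obtain ⟨j0, hj0, hj0c⟩ : ∃ j0 ∈ hun e, cv v (Ideal.span {g j0 s}) ≠ 0 := by
    by_contra hcon
    push Not at hcon
    rw [Finset.sum_eq_zero hcon] at hcsum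
    exact absurd hcsum (by norm_num)
  have hsplit : cv v (Ideal.span {g j0 s}) +
      ∑ j ∈ (hun e).erase j0, cv v (Ideal.span {g j s}) = 1 :=
    (Finset.add_sum_erase (hun e) (fun j => cv v (Ideal.span {g j s})) hj0).trans hcsum
  have hc1 : cv v (Ideal.span {g j0 s}) = 1 := by omega
  have hc0 : ∀ j ∈ (hun e).erase j0, cv v (Ideal.span {g j s}) = 0 := by
    have h1 : ∑ j ∈ (hun e).erase j0, cv v (Ideal.span {g j s}) = 0 := by omega
    exact Finset.sum_eq_zero_iff.1 h1
  have hlhs : ∑ j ∈ hun e, hloss n e j * cv v (Ideal.span {g j s}) = hloss n e j0 := by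
    rw [← Finset.add_sum_erase (hun e) (fun j => hloss n e j * cv v (Ideal.span {g j s})) hj0,
      hc1, mul_one, Finset.sum_eq_zero, add_zero]
    intro j hj
    rw [hc0 j hj, mul_zero]
  set Nv : ℝ := ((Ideal.absNorm v.asIdeal : ℕ) : ℝ) with hNv
  have hNv1 : 1 < Nv := one_lt_Nv v
  have hNv0 : 0 < Nv := by linarith
  -- the sizes of the bases
  have hfg1 : ∀ j ∈ hun e, j ≠ j0 → FinitePlace.mk v (g j s : K) = 1 := by
    intro j hj hjj
    rw [norm_cv v (hg0 j hj), hc0 j (Finset.mem_erase.2 ⟨hjj, hj⟩), pow_zero, inv_one]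
  have hfg0 : FinitePlace.mk v (g j0 s : K) = Nv⁻¹ := by
    rw [norm_cv v (hg0 j0 hj0), hc1, pow_one]
  set q : ℝ := ∏ j, FinitePlace.mk v (g j s : K) ^ hmn e j with hq
  have hli : ∀ i, FinitePlace.mk v (l i : K) = q * (Nv ^ (e i j0 - hmn e j0))⁻¹ := by
    intro i
    have h1 : (l i : K) = (κ i : K) * (μ i : K) ^ s * ∏ j, (g j s : K) ^ e i j := by
      simp only [hl]
      rw [hL i]
      simp only [map_mul, map_pow, map_prod]
    have hκμ : κ i * μ i ∉ v.asIdeal := by
      intro h0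
      apply hvY0
      rw [hY0]
      refine Ideal.mul_mem_left _ _ ?_
      rw [← Finset.mul_prod_erase _ _ (Finset.mem_univ i)]
      exact Ideal.mul_mem_right _ _ h0
    have hκv : FinitePlace.mk v (κ i : K) = 1 :=
      norm_eq_one v fun h0 => hκμ (Ideal.mul_mem_right _ _ h0)
    have hμv : FinitePlace.mk v (μ i : K) = 1 :=
      norm_eq_one v fun h0 => hκμ (Ideal.mul_mem_left _ _ h0)
    rw [h1, map_mul, map_mul, map_pow, map_prod, hκv, hμv, one_pow, one_mul, one_mul]
    simp only [map_pow]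
    have h2 : ∏ j, FinitePlace.mk v (g j s : K) ^ e i j =
        q * ∏ j, FinitePlace.mk v (g j s : K) ^ (e i j - hmn e j) := by
      rw [hq, ← Finset.prod_mul_distrib]
      refine Finset.prod_congr rfl fun j _ => ?_
      rw [← pow_add, Nat.add_sub_cancel' (hmn_le e i j)]
    rw [h2]
    congr 1
    rw [Finset.prod_eq_single j0]
    · rw [hfg0, inv_pow]
    · intro j _ hjj
      by_cases hj : j ∈ hun e
      · rw [hfg1 j hj hjj, one_pow]
      · rw [eq_hmn hj i, Nat.sub_self, pow_zero]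
    · intro h0
      exact absurd (Finset.mem_univ _) h0
  have hq0 : 0 ≤ q := Finset.prod_nonneg fun j _ => pow_nonneg (apply_nonneg _ _) _
  obtain ⟨Bz⟩ : Nonempty (Fin (n + 1) ↪ I) := by
    rw [Function.Embedding.nonempty_iff_card_le, Fintype.card_fin]
    exact hI
  have hne' : Nonempty I := ⟨Bz 0⟩
  -- the size of the point
  have hxq : siz v (fun k => (x k : K)) = q := by
    refine le_antisymm ?_ ?_
    · refine siz_le_of_forms v a x Bz (hdet v hvY0 Bz) hq0 fun i => ?_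
      have h1 := hli (Bz i)
      simp only [hl] at h1
      rw [h1]
      refine mul_le_of_le_one_right hq0 (inv_le_one_of_one_le₀ (one_le_pow₀ hNv1.le))
    · obtain ⟨i0, hi0⟩ := exists_eq_ciInf_of_finite (f := fun i => e i j0)
      have h1 := hlx v i0
      rw [hli i0] at h1
      have h2 : e i0 j0 - hmn e j0 = 0 := by
        have h3 : e i0 j0 = hmn e j0 := hi0
        rw [h3, Nat.sub_self]
      rwa [h2, pow_zero, inv_one, mul_one] at h1
  have hqpos : 0 < q := by
    have h1 : 0 < FinitePlace.mk v (l (Bz 0) : K) :=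
      FinitePlace.pos_iff.2 (RingOfIntegers.coe_ne_zero_iff.mpr (hl0 _))
    rw [← hxq]
    exact lt_of_lt_of_le h1 (hlx v _)
  have hlam : ∀ i, lam v (fun k => (a i k : K)) (fun k => (x k : K)) =
      (e i j0 - hmn e j0 : ℕ) * Real.log Nv := by
    intro i
    unfold lam
    rw [hlK, hxq, hsza v hvY0 i, hli i, mul_one, ← Real.log_pow]
    congr 1
    have h1 : Nv ^ (e i j0 - hmn e j0) ≠ 0 := pow_ne_zero _ hNv0.ne'
    field_simp
  have hFv : F v = (∑ i, min (e i j0 - hmn e j0) n : ℕ) * Real.log Nv := by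
    simp only [hF]
    push_cast
    rw [Finset.sum_mul]
    refine Finset.sum_congr rfl fun i _ => ?_
    have h2 := hlam i
    rw [h2]
    change min (((e i j0 - hmn e j0 : ℕ) : ℝ) * Real.log Nv) ((n : ℝ) * Real.log Nv) = _
    rw [← min_mul_of_nonneg _ _ hlog.le]
  rw [hFv]
  have h5 : ((∑ j ∈ hun e, (hloss n e j * cv v (Ideal.span {g j s}) : ℕ) : ℕ) : ℝ) ≤
      ((∑ i, min (e i j0 - hmn e j0) n : ℕ) : ℝ) := by
    rw [hlhs]
    exact_mod_cast hloss_le_sum e j0
  have h6 := mul_le_mul_of_nonneg_right h5 hlog.le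
  push_cast at h6 ⊢
  exact h6

end Local

end Pool.Agent.Q183.AM
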