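import Pool.Agent.Q183.AM.Mode
import Pool.Agent.Q183.PG.Growth

/-!
Two notions of for most arguments: all arguments of windows up to a small proportion, with a
constant; all large arguments, with a factor `exp (ε s)`.
-/

set_option autoImplicit false

namespace Pool.Agent.Q183.AM

open AddMonoidAlgebra Filter
open Pool.Agent.Q183.AR

/-- for almost all arguments, with a constant which depends on the proportion of exceptions -/
def AA1 (P : ℝ → ℕ → Prop) : Prop :=
  ∀ η : ℝ, 0 < η → ∃ (C : ℝ) (T z : ℕ), 1 ≤ C ∧ ∀ t n : ℕ, z ≤ t → T ≤ n →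
    (({s | t ≤ s ∧ s < t + n ∧ ¬ P C s}.ncard : ℕ) : ℝ) ≤ η * n

theorem AA1.ofAA {P : ℝ → ℕ → Prop} (h : AA P) (hP : MonoC P) : AA1 P := by
  intro η hη
  obtain ⟨C, T, z, hC, h1⟩ := h η hη
  refine ⟨max C 1, T, z, le_max_right _ _, fun t n ht hn => le_trans ?_ (h1 t n ht hn)⟩
  exact_mod_cast fails_mono (P := P (max C 1)) (Q := P C) fun s _ _ hs => hP _ _ s (le_max_left _ _) hs

/-- for all large arguments, with a factor `exp (ε s)` -/
def EE (P : ℝ → ℕ → Prop) : Prop :=
  ∀ ε : ℝ, 0 < ε → ∃ z : ℕ, ∀ s : ℕ, z ≤ s → P (Real.exp (ε * s)) s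

theorem ncard_mono {P Q : ℕ → Prop} {t n : ℕ} (h : ∀ s, t ≤ s → s < t + n → Q s → P s) :
    {s | t ≤ s ∧ s < t + n ∧ ¬ P s}.ncard ≤ {s | t ≤ s ∧ s < t + n ∧ ¬ Q s}.ncard :=
  fails_mono h

/-- almost all arguments -/
def mAA : Mode where
  A := AA1
  imp := by
    intro P Q hP f z0 _ hQ h η hη
    obtain ⟨C, T, z, hC, h1⟩ := hP η hη
    refine ⟨max (f C) 1, T, max z z0, le_max_right _ _, fun t n ht hn => ?_⟩
    refine le_trans ?_ (h1 t n ((le_max_left _ _).trans ht) hn)
    exact_mod_cast ncard_mono fun s hs _ hPs => hQ _ _ s (le_max_left _ _)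
      (h C s hC (((le_max_right _ _).trans ht).trans hs) hPs)
  and := by
    intro P Q hP hQ mP mQ η hη
    obtain ⟨C1, T1, z1, hC1, h1⟩ := hP (η / 2) (by linarith)
    obtain ⟨C2, T2, z2, hC2, h2⟩ := hQ (η / 2) (by linarith)
    refine ⟨max C1 C2, max T1 T2, max z1 z2, le_max_of_le_left hC1, fun t n ht hn => ?_⟩
    have h3 := h1 t n ((le_max_left _ _).trans ht) ((le_max_left _ _).trans hn)
    have h4 := h2 t n ((le_max_right _ _).trans ht) ((le_max_right _ _).trans hn)
    have h5 : fails (fun s => P (max C1 C2) s ∧ Q (max C1 C2) s) t n ≤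
        fails (P C1) t n + fails (Q C2) t n :=
      (fails_and _ _ t n).trans (add_le_add
        (fails_mono fun s _ _ h => mP _ _ _ (le_max_left _ _) h)
        (fails_mono fun s _ _ h => mQ _ _ _ (le_max_right _ _) h))
    have h6 : ((fails (fun s => P (max C1 C2) s ∧ Q (max C1 C2) s) t n : ℕ) : ℝ) ≤
        fails (P C1) t n + fails (Q C2) t n := by exact_mod_cast h5
    calc _ ≤ _ := h6
      _ ≤ η / 2 * n + η / 2 * n := add_le_add h3 h4
      _ = η * n := by ring
  triv := fun η hη => ⟨1, 0, 0, le_refl 1, fun t n _ _ => by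
    have h1 : {s | t ≤ s ∧ s < t + n ∧ ¬ True} = ∅ := by
      ext s
      simp
    rw [h1, Set.ncard_empty]
    push_cast
    positivity⟩
  cls := by
    intro M z ρ hM P Q hP hQ hPQ
    refine AA1.ofAA (AA.cls hM (P := fun C s => P (max C 1) s) (Q := Q) (z := z) ?_
      (fun C => max C 1) (fun C hC => lt_max_of_lt_left hC) (fun C s _ h => ?_)) ?_
    · intro η hη
      obtain ⟨C, T, z, hC, h1⟩ := hP η hη
      refine ⟨C, T, z, by linarith, fun t n ht hn => ?_⟩
      have h2 := h1 t n ht hn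
      simpa only [max_eq_left hC] using h2
    · exact hPQ _ _ (le_max_right _ _) h
    · intro C C' s hCC h1 h2
      exact hQ C C' s hCC (h1 h2)
  low := by
    intro L _ _ r γ hγ τ F l hl
    obtain ⟨⟨m0, hm0, h0⟩, h⟩ := hl
    refine AA1.ofAA ((aa_lower hγ τ F.coeff.support (fun m => τ (F.coeff m)) h hm0 h0 (by
      rw [map_ne_zero]
      exact Finsupp.mem_support_iff.1 hm0)).imp (fun C => C) 0 (fun C hC => hC)
        fun C s _ _ h1 => ?_) (fun C C' s hCC h1 => h1.trans
          (mul_le_mul_of_nonneg_right hCC (norm_nonneg _)))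
    have h3 := map_ev γ τ F s
    rw [h3]
    exact h1

theorem pg_nsmul {L : Type} [Field L] {r : ℕ} (γ : Fin r → Lˣ) (d : ℕ) (v : Fin r → ℤ) :
    pg γ ((d : ℤ) • v) = pg γ v ^ d := by
  unfold pg
  rw [← Finset.prod_pow]
  refine Finset.prod_congr rfl fun i _ => ?_
  rw [Pi.smul_apply, smul_eq_mul, mul_comm, zpow_mul, zpow_natCast]

theorem pg_pow_inj {L : Type} [Field L] {r : ℕ} {γ : Fin r → Lˣ} (hγ : Ind γ) {m n : Fin r → ℤ}
    {d : ℕ} (hd : 1 ≤ d) (h : pg γ m ^ d = pg γ n ^ d) : m = n := by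
  rw [← pg_nsmul, ← pg_nsmul] at h
  have h1 := hγ.inj h
  have hd0 : (d : ℤ) ≠ 0 := by omega
  exact smul_right_injective _ hd0 h1

theorem alg_emb {L : Type} [Field L] [NumberField L] (τ : L →+* ℂ) (x : L) :
    IsAlgebraic ℚ (τ x) := by
  have h1 : IsAlgebraic ℚ x := Algebra.IsAlgebraic.isAlgebraic x
  exact h1.algHom (τ.toRatAlgHom)

/-- lower bounds for all large arguments -/
theorem ee_low {L : Type} [Field L] [NumberField L] {r : ℕ} {γ : Fin r → Lˣ} (hγ : Ind γ)
    (τ : L →+* ℂ) {F : EP L r} {l : ℝ ×ₗ ℝ} (hl : Top (wτ γ τ) F l) :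
    EE fun C s => sz l s ≤ C * ‖τ (ev γ F s)‖ := by
  classical
  intro ε hε
  obtain ⟨⟨m0, hm0, h0⟩, h⟩ := hl
  let S : Finset (Fin r → ℤ) := F.coeff.support.image Prod.fst
  let lam : S → ℂ := fun n => τ (pg γ (n : Fin r → ℤ) : Lˣ)
  let P : S → Polynomial ℂ := fun n => ∑ m ∈ F.coeff.support.filter (fun m => m.1 = (n : Fin r → ℤ)),
    Polynomial.monomial m.2 (τ (F.coeff m))
  have hsum : ∀ s : ℕ, τ (ev γ F s) = ∑ n, (P n).eval (s : ℂ) * lam n ^ s := by
    intro s
    rw [map_ev, ← Finset.sum_fiberwise_of_maps_to (s := F.coeff.support) (t := S)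
      (g := Prod.fst) (fun m hm => Finset.mem_image_of_mem _ hm),
      ← Finset.sum_coe_sort S]
    refine Finset.sum_congr rfl fun n _ => ?_
    simp only [P, lam]
    rw [Polynomial.eval_finsetSum, Finset.sum_mul]
    refine Finset.sum_congr rfl fun m hm => ?_
    rw [Polynomial.eval_monomial, (Finset.mem_filter.1 hm).2]
    ring
  let n0 : S := ⟨m0.1, Finset.mem_image_of_mem _ hm0⟩
  have hcoef : ∀ (n : S) (k : ℕ), (P n).coeff k = ∑ m ∈ F.coeff.support.filter
      (fun m => m.1 = (n : Fin r → ℤ)), if m.2 = k then τ (F.coeff m) else 0 := by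
    intro n k
    simp only [P]
    rw [Polynomial.finsetSum_coeff]
    refine Finset.sum_congr rfl fun m _ => ?_
    rw [Polynomial.coeff_monomial]
  have hlog : (ofLex l).1 = Real.log ‖lam n0‖ ∧ (ofLex l).2 = (m0.2 : ℝ) := by
    rw [← h0]
    exact ⟨rfl, rfl⟩
  have hlam0 : lam n0 ≠ 0 := base_ne γ τ _
  have hn0 : 0 < ‖lam n0‖ := norm_pos_iff.2 hlam0
  obtain ⟨N, hN⟩ := Pool.Agent.Q183.PG.growth lam P (fun n => ⟨alg_emb τ _, base_ne γ τ _, fun k => by
      rw [hcoef]
      refine (IsIntegral.sum _ fun m _ => ?_).isAlgebraic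
      split_ifs
      · exact (alg_emb τ _).isIntegral
      · exact isIntegral_zero⟩) (by
      intro n n' hne t ht heq
      apply hne
      simp only [lam] at heq
      rw [← map_pow, ← map_pow] at heq
      have h3 : pg γ (n : Fin r → ℤ) ^ t = pg γ (n' : Fin r → ℤ) ^ t := Units.ext (by
        rw [Units.val_pow_eq_pow_val, Units.val_pow_eq_pow_val]
        exact τ.injective heq)
      exact Subtype.ext (pg_pow_inj hγ ht h3)) (Real.exp (-(ε / 2)) * ‖lam n0‖)
      (mul_nonneg (Real.exp_pos _).le hn0.le) n0 (by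
      intro hP0
      have h4 := hcoef n0 m0.2
      rw [hP0, Polynomial.coeff_zero, Finset.sum_eq_single m0] at h4
      · rw [if_pos rfl] at h4
        exact Finsupp.mem_support_iff.1 hm0 ((map_eq_zero τ).1 h4.symm)
      · intro m hm hne
        rw [if_neg]
        intro h5
        exact hne (Prod.ext (Finset.mem_filter.1 hm).2 h5)
      · intro h5
        refine absurd ?_ h5
        exact Finset.mem_filter.2 ⟨hm0, rfl⟩) (by
      have h5 : Real.exp (-(ε / 2)) < 1 := by
        rw [Real.exp_lt_one_iff]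
        linarith
      exact mul_lt_of_lt_one_left hn0 h5)
  obtain ⟨m1, hm1⟩ := Pool.Agent.Q183.PG.poly_le_exp m0.2 (δ := ε / 2) (by linarith)
  refine ⟨max N m1, fun s hs => ?_⟩
  have h6 := hN s ((le_max_left _ _).trans hs)
  have h7 := hm1 s ((le_max_right _ _).trans hs) m0.2 (le_refl _)
  rw [← hsum, mul_pow] at h6
  have h8 : sz l s = ‖lam n0‖ ^ s * (s : ℝ) ^ m0.2 := by
    unfold sz
    rw [hlog.1, hlog.2, Real.exp_mul, Real.exp_log hn0, Real.rpow_natCast, Real.rpow_natCast]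
  have h9 : Real.exp (-(ε / 2)) ^ s = Real.exp (-(ε / 2 * s)) := by
    rw [← Real.exp_nat_mul]
    congr 1
    ring
  have h10 : Real.exp (ε * s) = Real.exp (ε / 2 * s) * Real.exp (ε / 2 * s) := by
    rw [← Real.exp_add]
    congr 1
    ring
  show sz l s ≤ Real.exp (ε * s) * ‖τ (ev γ F s)‖
  rw [h8]
  calc ‖lam n0‖ ^ s * (s : ℝ) ^ m0.2 ≤ ‖lam n0‖ ^ s * Real.exp (ε / 2 * s) :=
        mul_le_mul_of_nonneg_left h7 (pow_nonneg hn0.le _)
    _ = Real.exp (ε * s) * (Real.exp (-(ε / 2 * s)) * ‖lam n0‖ ^ s) := by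
        rw [h10, Real.exp_neg]
        have := (Real.exp_pos (ε / 2 * s)).ne'
        field_simp
    _ ≤ Real.exp (ε * s) * ‖τ (ev γ F s)‖ := by
        rw [← h9]
        exact mul_le_mul_of_nonneg_left h6.le (Real.exp_pos _).le

/-- all large arguments -/
def mEE : Mode where
  A := EE
  imp := by
    intro P Q hP f z0 hf hQ h ε hε
    obtain ⟨a, k, ha, hf⟩ := hf
    have hk : (0 : ℝ) < 2 * (k + 1) := by positivity
    obtain ⟨z, hz⟩ := hP (ε / (2 * (k + 1))) (by positivity)
    obtain ⟨z1, hz1⟩ : ∃ z1 : ℕ, ∀ s : ℕ, z1 ≤ s → a ≤ Real.exp (ε / 2 * s) := by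
      obtain ⟨z1, hz1⟩ := exists_nat_ge (Real.log a / (ε / 2))
      refine ⟨z1, fun s hs => ?_⟩
      have h1 : Real.log a ≤ ε / 2 * s := by
        rw [div_le_iff₀ (by linarith)] at hz1
        have h2 : (z1 : ℝ) ≤ s := by exact_mod_cast hs
        nlinarith
      calc a = Real.exp (Real.log a) := (Real.exp_log (by linarith)).symm
        _ ≤ _ := Real.exp_le_exp.2 h1
    refine ⟨max z (max z0 z1), fun s hs => ?_⟩
    have hs1 : z ≤ s := (le_max_left _ _).trans hs
    have hs2 : z0 ≤ s := ((le_max_left _ _).trans (le_max_right _ _)).trans hs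
    have hs3 : z1 ≤ s := ((le_max_right _ _).trans (le_max_right _ _)).trans hs
    have hC : 1 ≤ Real.exp (ε / (2 * (k + 1)) * s) := Real.one_le_exp (by positivity)
    refine hQ _ _ s ?_ (h _ s hC hs2 (hz s hs1))
    refine (hf _ hC).trans ?_
    have h1 : Real.exp (ε / (2 * (k + 1)) * s) ^ k ≤ Real.exp (ε / 2 * s) := by
      rw [← Real.exp_nat_mul]
      refine Real.exp_le_exp.2 ?_
      have h2 : (k : ℝ) * (ε / (2 * (k + 1)) * s) = (k / (k + 1)) * (ε / 2 * s) := by
        field_simp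
      rw [h2]
      refine mul_le_of_le_one_left (by positivity) ?_
      rw [div_le_one (by positivity)]
      linarith
    have h10 : Real.exp (ε * s) = Real.exp (ε / 2 * s) * Real.exp (ε / 2 * s) := by
      rw [← Real.exp_add]
      congr 1
      ring
    rw [h10]
    exact mul_le_mul (hz1 s hs3) h1 (by positivity) (Real.exp_pos _).le
  and := by
    intro P Q hP hQ _ _ ε hε
    obtain ⟨z1, h1⟩ := hP ε hε
    obtain ⟨z2, h2⟩ := hQ ε hε
    exact ⟨max z1 z2, fun s hs => ⟨h1 s ((le_max_left _ _).trans hs),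
      h2 s ((le_max_right _ _).trans hs)⟩⟩
  triv := fun _ _ => ⟨0, fun _ _ => trivial⟩
  cls := by
    intro M z ρ hM P Q hP hQ hPQ ε hε
    obtain ⟨z1, h1⟩ := hP ε hε
    refine ⟨M * (z1 + z) + ρ, fun s hs hsρ => ?_⟩
    have h2 : ρ ≤ s := by
      have : ρ ≤ M * (z1 + z) + ρ := Nat.le_add_left _ _
      omega
    obtain ⟨q, hq⟩ := (Nat.modEq_iff_dvd' h2).1 hsρ.symm
    have h4 : z1 + z ≤ q := by
      have h5 : M * (z1 + z) ≤ M * q := by omega
      exact Nat.le_of_mul_le_mul_left h5 hM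
    have h5 : s = M * ((q - z) + z) + ρ := by
      rw [Nat.sub_add_cancel (by omega)]
      omega
    have h6 := hPQ _ (q - z) (Real.one_le_exp (by positivity)) (h1 (q - z) (by omega))
    rw [← h5] at h6
    refine hQ _ _ s (Real.exp_le_exp.2 ?_) h6
    have h7 : ((q - z : ℕ) : ℝ) ≤ s := by
      have h8 : q - z ≤ s := by
        have h9 : q ≤ M * q := Nat.le_mul_of_pos_left q hM
        omega
      exact_mod_cast h8
    exact mul_le_mul_of_nonneg_left h7 hε.le
  low := fun hγ τ _ _ hl => ee_low hγ τ hl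

end Pool.Agent.Q183.AM
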