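import Pool.Agent.Q183.AM.Cartan4
import Pool.Agent.Q183.AM.Modes

/-!
The truncated inequality for points with coordinates in linear recurrences and hyperplanes in general
position.
-/

set_option autoImplicit false

namespace Pool.Agent.Q183.AM

open Pool.Agent.Q183.AR
open NumberField Height IsDedekindDomain

variable {K : Type} [Field K] [NumberField K] {n : ℕ} {I J : Type} [Fintype I] [Fintype J]

/-- the values of the forms: `κ_i μ_i ^ s ∏ g_j(s) ^ e_ij` -/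
def hval (κ μ : I → 𝓞 K) (g : J → ℕ → 𝓞 K) (e : I → J → ℕ) (i : I) (s : ℕ) : 𝓞 K :=
  κ i * μ i ^ s * ∏ j, g j s ^ e i j

/-- the truncated inequality -/
def TIneq (T : Set (HeightOneSpectrum (𝓞 K))) (a : I → Fin (n + 1) → 𝓞 K) (g : J → ℕ → 𝓞 K)
    (e : I → J → ℕ) (X : Fin (n + 1) → ℕ → 𝓞 K) (C : ℝ) (s : ℕ) : Prop :=
  ((Fintype.card I : ℝ) - (n + 1)) * logHeight (fun k => (X k s : K)) ≤
      ∑ j, hloss n e j * Real.log |((Algebra.norm ℚ (g j s : K) : ℚ) : ℝ)| + Real.log (max C 1) ∧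
    ∀ 𝔞 𝔟 : Ideal (𝓞 K), Ideal.span {∏ j ∈ hun e, g j s} = 𝔞 * 𝔟 → Squarefree 𝔞 →
      IsCoprime 𝔞 𝔟 →
      ((Fintype.card I : ℝ) - (n + 1)) * logHeight (fun k => (X k s : K)) ≤
        Ntr T n (fun i k => (a i k : K)) (fun k => (X k s : K)) +
          ((n + 1).choose 2 : ℕ) * Real.log (Ideal.absNorm 𝔟) + Real.log (max C 1)

theorem tineq_mono (T : Set (HeightOneSpectrum (𝓞 K))) (a : I → Fin (n + 1) → 𝓞 K)
    (g : J → ℕ → 𝓞 K) (e : I → J → ℕ) (X : Fin (n + 1) → ℕ → 𝓞 K) : MonoC (TIneq T a g e X) := by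
  rintro C C' s hCC ⟨h1, h2⟩
  have h7 : Real.log (max C 1) ≤ Real.log (max C' 1) :=
    Real.log_le_log (lt_of_lt_of_le one_pos (le_max_right _ _)) (max_le_max hCC (le_refl _))
  refine ⟨h1.trans (by linarith), fun 𝔞 𝔟 h4 h5 h6 => (h2 𝔞 𝔟 h4 h5 h6).trans (by linarith)⟩

omit [NumberField K] in
/-- the bases with positive multiplicity are not zero, if the values are not zero -/
theorem base_ne {κ μ : I → 𝓞 K} {g : J → ℕ → 𝓞 K} {e : I → J → ℕ} {s : ℕ}
    (h : ∀ i, hval κ μ g e i s ≠ 0) {j : J} (hj : hloss n e j ≠ 0) : g j s ≠ 0 := by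
  intro h0
  obtain ⟨i, hi⟩ := hloss_ne hj
  apply h i
  unfold hval
  rw [Finset.prod_eq_zero (Finset.mem_univ j) (by rw [h0, zero_pow (by omega)]), mul_zero]

theorem one_le_norm {y : 𝓞 K} (hy : y ≠ 0) : 1 ≤ |((Algebra.norm ℚ (y : K) : ℚ) : ℝ)| := by
  rw [norm_span]
  exact_mod_cast Nat.one_le_iff_ne_zero.2 fun h0 => hy (Ideal.span_singleton_eq_bot.1
    (Ideal.absNorm_eq_zero_iff.1 h0))

theorem log_prod_hloss {κ μ : I → 𝓞 K} {g : J → ℕ → 𝓞 K} {e : I → J → ℕ} {s : ℕ}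
    (h : ∀ i, hval κ μ g e i s ≠ 0) :
    Real.log (∏ j, |((Algebra.norm ℚ (g j s : K) : ℚ) : ℝ)| ^ hloss n e j) =
      ∑ j, hloss n e j * Real.log |((Algebra.norm ℚ (g j s : K) : ℚ) : ℝ)| := by
  rw [Real.log_prod]
  · exact Finset.sum_congr rfl fun j _ => Real.log_pow _ _
  · intro j _
    by_cases hj : hloss n e j = 0
    · rw [hj, pow_zero]
      exact one_ne_zero
    · have := one_le_norm (base_ne h hj)
      exact pow_ne_zero _ (by linarith)

theorem sum_nonneg' {κ μ : I → 𝓞 K} {g : J → ℕ → 𝓞 K} {e : I → J → ℕ} {s : ℕ}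
    (h : ∀ i, hval κ μ g e i s ≠ 0) :
    0 ≤ ∑ j, hloss n e j * Real.log |((Algebra.norm ℚ (g j s : K) : ℚ) : ℝ)| := by
  refine Finset.sum_nonneg fun j _ => ?_
  by_cases hj : hloss n e j = 0
  · rw [hj, Nat.cast_zero, zero_mul]
  · exact mul_nonneg (Nat.cast_nonneg _) (Real.log_nonneg (one_le_norm (base_ne h hj)))

theorem prod_pos' {κ μ : I → 𝓞 K} {g : J → ℕ → 𝓞 K} {e : I → J → ℕ} {s : ℕ}
    (h : ∀ i, hval κ μ g e i s ≠ 0) :
    0 < ∏ j, |((Algebra.norm ℚ (g j s : K) : ℚ) : ℝ)| ^ hloss n e j := by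
  refine Finset.prod_pos fun j _ => ?_
  by_cases hj : hloss n e j = 0
  · rw [hj, pow_zero]
    exact one_pos
  · have := one_le_norm (base_ne h hj)
    exact pow_pos (by linarith) _

/-- the truncated inequality from the inequality with heights -/
theorem tineq_of (hI : n + 1 ≤ Fintype.card I) (a : I → Fin (n + 1) → 𝓞 K)
    (hgen : ∀ B : Fin (n + 1) ↪ I, (Matrix.of fun i k => a (B i) k).det ≠ 0)
    (κ μ : I → 𝓞 K) (hμ : ∀ i, μ i ≠ 0) (g : J → ℕ → 𝓞 K) (e : I → J → ℕ)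
    (T : Set (HeightOneSpectrum (𝓞 K))) (hT : T.Finite) (X : Fin (n + 1) → ℕ → 𝓞 K)
    (hL : ∀ i t, ∑ k, a i k * X k t = hval κ μ g e i t) :
    ∃ B : ℝ, 1 ≤ B ∧ ∀ (C : ℝ) (s : ℕ), 1 ≤ C → (∀ i, hval κ μ g e i s ≠ 0) →
      mulHeight (fun k => (X k s : K)) ^ (Fintype.card I - (n + 1)) ≤
        C * ∏ j, |((Algebra.norm ℚ (g j s : K) : ℚ) : ℝ)| ^ hloss n e j →
      TIneq T a g e X (B * C) s := by
  obtain ⟨B, hB0, hB⟩ := near_trunc (n := n) hI a hgen κ μ hμ g e T hT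
  refine ⟨Real.exp B, Real.one_le_exp hB0, fun C s hC hne hh => ?_⟩
  have hC0 : 0 < C := by linarith
  have hP := prod_pos' (n := n) hne
  have h1 : ((Fintype.card I : ℝ) - (n + 1)) * logHeight (fun k => (X k s : K)) ≤
      Real.log C + Real.log (∏ j, |((Algebra.norm ℚ (g j s : K) : ℚ) : ℝ)| ^ hloss n e j) := by
    rw [← Real.log_mul hC0.ne' hP.ne', logHeight_eq_log_mulHeight]
    have h2 : ((Fintype.card I : ℝ) - (n + 1)) = ((Fintype.card I - (n + 1) : ℕ) : ℝ) := by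
      rw [Nat.cast_sub hI]
      push_cast
      ring
    rw [h2, ← Real.log_pow]
    exact Real.log_le_log (pow_pos (lt_of_lt_of_le one_pos (one_le_mulHeight _)) _) hh
  have h7 : Real.log (max (Real.exp B * C) 1) = B + Real.log C := by
    have h1e : 1 ≤ Real.exp B * C := one_le_mul_of_one_le_of_one_le (Real.one_le_exp hB0) hC
    rw [max_eq_left h1e, Real.log_mul (Real.exp_pos _).ne' hC0.ne', Real.log_exp]
  unfold TIneq
  rw [h7]
  refine ⟨?_, fun 𝔞 𝔟 hab hsq hcop => ?_⟩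
  · rw [log_prod_hloss hne] at h1
    linarith
  · have h3 := hB s (fun k => X k s) (fun i => hL i s) hne 𝔞 𝔟 hab hsq hcop
    linarith

/-- **The truncated inequality for hyperplanes in general position**, for most arguments, outside
finitely many hyperplanes. -/
theorem hlog (𝓜 : Mode) (hI : n + 1 ≤ Fintype.card I) (g : J → ℕ → 𝓞 K)
    (hg : ∀ j, ∃ E : LinearRecurrence (𝓞 K), E.IsSolution (g j))
    (X : Fin (n + 1) → ℕ → 𝓞 K) (hX : ∀ k, ∃ E : LinearRecurrence (𝓞 K), E.IsSolution (X k))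
    (a : I → Fin (n + 1) → 𝓞 K)
    (hgen : ∀ B : Fin (n + 1) ↪ I, (Matrix.of fun i k => a (B i) k).det ≠ 0)
    (κ μ : I → 𝓞 K) (hμ : ∀ i, μ i ≠ 0) (e : I → J → ℕ)
    (hL : ∀ i t, ∑ k, a i k * X k t = hval κ μ g e i t)
    (T : Set (HeightOneSpectrum (𝓞 K))) (hT : T.Finite) :
    ∃ Z : Set (Fin (n + 1) → K), Z.Finite ∧ (∀ c ∈ Z, c ≠ 0) ∧
      𝓜.A fun C s => (∀ c ∈ Z, ∑ k, c k * (X k s : K) ≠ 0) →
        (∀ i, hval κ μ g e i s ≠ 0) ∧ TIneq T a g e X C s := by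
  classical
  obtain ⟨M, hM, h⟩ := hheight (n := n) 𝓜 hI g hg X hX a hgen κ μ hμ e hL
  obtain ⟨B, hB1, hB⟩ := tineq_of (n := n) hI a hgen κ μ hμ g e T hT X hL
  -- the hyperplane of a class
  have hcl : ∀ ρ : ℕ, ∃ c : Fin (n + 1) → K, c ≠ 0 ∧
      𝓜.A fun C s => s ≡ ρ [MOD M] → ∑ k, c k * (X k s : K) ≠ 0 →
        (∀ i, hval κ μ g e i s ≠ 0) ∧ TIneq T a g e X C s := by
    intro ρ
    rcases h ρ with ⟨c, z, hc, h1⟩ | h1
    · refine ⟨c, hc, 𝓜.large 1 z (fun C C' s hCC h2 h3 h4 => ⟨(h2 h3 h4).1,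
        tineq_mono T a g e X C C' s hCC (h2 h3 h4).2⟩) fun s hs hsρ h2 => absurd (h1 s hs hsρ) h2⟩
    · refine ⟨fun _ => 1, fun h0 => one_ne_zero (congrFun h0 0), ?_⟩
      refine 𝓜.imp h1 (fun C => B * C) 0 ((PolyB.const _).mul PolyB.id (fun C hC => by linarith))
        (fun C C' s hCC h2 h3 h4 => ⟨(h2 h3 h4).1, tineq_mono T a g e X C C' s hCC (h2 h3 h4).2⟩)
        fun C s hC _ h2 hsρ _ => ?_
      obtain ⟨h3, h4⟩ := h2 hsρ
      exact ⟨h3, hB C s hC h3 h4⟩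
  choose c hc0 hc using hcl
  refine ⟨Set.range fun ρ : Fin M => c ρ, Set.finite_range _, ?_, ?_⟩
  · rintro _ ⟨ρ, rfl⟩
    exact hc0 ρ
  refine 𝓜.imp (𝓜.all (fun ρ : Fin M => hc ρ) (fun ρ C C' s hCC h2 h3 h4 => ⟨(h2 h3 h4).1,
      tineq_mono T a g e X C C' s hCC (h2 h3 h4).2⟩))
    (fun C => C) 0 PolyB.id (fun C C' s hCC h2 h3 => ⟨(h2 h3).1,
      tineq_mono T a g e X C C' s hCC (h2 h3).2⟩) fun C s hC _ h1 h2 => ?_
  exact h1 ⟨s % M, Nat.mod_lt _ hM⟩ (Nat.mod_modEq s M).symm (h2 _ ⟨_, rfl⟩)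

/-- the truncated counting function is not negative -/
theorem Ntr_nonneg (T : Set (HeightOneSpectrum (𝓞 K))) (m : ℕ) (a : I → Fin (n + 1) → K)
    (x : Fin (n + 1) → K) (h : ∀ i, ∑ k, a i k * x k ≠ 0) : 0 ≤ Ntr T m a x := by
  unfold Ntr
  refine finsum_nonneg fun v => finsum_nonneg fun _ => Finset.sum_nonneg fun i _ =>
    le_min (lam_nonneg v (h i)) (mul_nonneg (Nat.cast_nonneg _) (log_Nv_pos v).le)

/-- **The truncated inequality on the projective line**, for most arguments. -/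
theorem hlog1 (𝓜 : Mode) (hI : 2 ≤ Fintype.card I) (g : J → ℕ → 𝓞 K)
    (hg : ∀ j, ∃ E : LinearRecurrence (𝓞 K), E.IsSolution (g j))
    (X : Fin (1 + 1) → ℕ → 𝓞 K) (hX : ∀ k, ∃ E : LinearRecurrence (𝓞 K), E.IsSolution (X k))
    (a : I → Fin (1 + 1) → 𝓞 K)
    (hgen : ∀ B : Fin (1 + 1) ↪ I, (Matrix.of fun i k => a (B i) k).det ≠ 0)
    (κ μ : I → 𝓞 K) (hμ : ∀ i, μ i ≠ 0) (e : I → J → ℕ)
    (hL : ∀ i t, ∑ k, a i k * X k t = hval κ μ g e i t)
    (T : Set (HeightOneSpectrum (𝓞 K))) (hT : T.Finite) :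
    𝓜.A fun C s => (∀ i, hval κ μ g e i s ≠ 0) → TIneq T a g e X C s := by
  classical
  obtain ⟨M, hM, h⟩ := hheight (n := 1) 𝓜 hI g hg X hX a hgen κ μ hμ e hL
  obtain ⟨B, hB1, hB⟩ := tineq_of (n := 1) hI a hgen κ μ hμ g e T hT X hL
  have mono : MonoC fun C s => (∀ i, hval κ μ g e i s ≠ 0) → TIneq T a g e X C s :=
    fun C C' s hCC h2 h3 => tineq_mono T a g e X C C' s hCC (h2 h3)
  refine 𝓜.ofCls hM (fun ρ => ?_) mono
  rcases h ρ with ⟨c, z, hc, h1⟩ | h1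
  · -- the point is constant on the class
    set m : ℝ := ((Fintype.card I : ℝ) - ((1 : ℕ) + 1)) with hm
    have hm0 : 0 ≤ m := by
      have : (2 : ℝ) ≤ Fintype.card I := by exact_mod_cast hI
      rw [hm]
      push_cast
      linarith
    refine 𝓜.large (Real.exp (m * logHeight (![c 1, -c 0] : Fin 2 → K))) z
      (fun C C' s hCC h2 h3 => mono C C' s hCC (h2 h3)) fun s hs hsρ hne => ?_
    have h4 := h1 s hs hsρ
    have h4' : c 0 * (X 0 s : K) + c 1 * (X 1 s : K) = 0 := by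
      rw [Fin.sum_univ_two] at h4
      exact h4
    obtain ⟨B2⟩ : Nonempty (Fin 2 ↪ I) := by
      rw [Function.Embedding.nonempty_iff_card_le, Fintype.card_fin]
      exact hI
    have hXne : ¬ ((X 0 s : K) = 0 ∧ (X 1 s : K) = 0) := by
      rintro ⟨h5, h6⟩
      apply hne (B2 0)
      rw [← hL, Fin.sum_univ_two]
      have h7 : X 0 s = 0 := RingOfIntegers.coe_eq_zero_iff.1 h5
      have h8 : X 1 s = 0 := RingOfIntegers.coe_eq_zero_iff.1 h6
      rw [h7, h8, mul_zero, mul_zero, add_zero]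
    have hlh : logHeight (fun k => (X k s : K)) = logHeight (![c 1, -c 0] : Fin 2 → K) := by
      by_cases hc0 : c 0 = 0
      · have hc1 : c 1 ≠ 0 := by
          intro h5
          apply hc
          funext k
          fin_cases k
          · exact hc0
          · exact h5
        have hX1 : (X 1 s : K) = 0 := by
          rw [hc0, zero_mul, zero_add] at h4'
          exact (mul_eq_zero.1 h4').resolve_left hc1
        have hX0 : (X 0 s : K) ≠ 0 := fun h5 => hXne ⟨h5, hX1⟩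
        have h6 : (fun k => (X k s : K)) = ((X 0 s : K) / c 1) • (![c 1, -c 0] : Fin 2 → K) := by
          funext k
          rw [Pi.smul_apply, smul_eq_mul]
          fin_cases k
          · show (X 0 s : K) = (X 0 s : K) / c 1 * c 1
            field_simp
          · show (X 1 s : K) = (X 0 s : K) / c 1 * (-c 0)
            rw [hX1, hc0, neg_zero, mul_zero]
        rw [h6, logHeight_smul_eq_logHeight _ (div_ne_zero hX0 hc1)]
      · have hX1 : (X 1 s : K) ≠ 0 := by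
          intro h5
          rw [h5, mul_zero, add_zero] at h4'
          exact hXne ⟨(mul_eq_zero.1 h4').resolve_left hc0, h5⟩
        have h6 : (fun k => (X k s : K)) = (-(X 1 s : K) / c 0) • (![c 1, -c 0] : Fin 2 → K) := by
          funext k
          rw [Pi.smul_apply, smul_eq_mul]
          fin_cases k
          · show (X 0 s : K) = -(X 1 s : K) / c 0 * c 1
            field_simp
            linear_combination h4'
          · show (X 1 s : K) = -(X 1 s : K) / c 0 * (-c 0)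
            field_simp
        rw [h6, logHeight_smul_eq_logHeight _ (div_ne_zero (neg_ne_zero.2 hX1) hc0)]
    have hl0 : 0 ≤ logHeight (![c 1, -c 0] : Fin 2 → K) := by
      rw [logHeight_eq_log_mulHeight]
      exact Real.log_nonneg (one_le_mulHeight _)
    have hmax : Real.log (max (Real.exp (m * logHeight (![c 1, -c 0] : Fin 2 → K))) 1) =
        m * logHeight (![c 1, -c 0] : Fin 2 → K) := by
      rw [max_eq_left (Real.one_le_exp (mul_nonneg hm0 hl0)), Real.log_exp]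
    unfold TIneq
    rw [hmax, hlh]
    refine ⟨?_, fun 𝔞 𝔟 hab hsq hcop => ?_⟩
    · have := sum_nonneg' (n := 1) hne
      linarith
    · have h5 := Ntr_nonneg T 1 (fun i k => (a i k : K)) (fun k => (X k s : K)) (fun i => by
        have h6 : ∑ k, (a i k : K) * (X k s : K) = ((∑ k, a i k * X k s : 𝓞 K) : K) := by
          simp only [map_sum, map_mul]
        rw [h6, hL]
        exact RingOfIntegers.coe_ne_zero_iff.mpr (hne i))
      have h6 : 0 ≤ (((1 + 1).choose 2 : ℕ) : ℝ) * Real.log (Ideal.absNorm 𝔟) :=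
        mul_nonneg (Nat.cast_nonneg _) (Real.log_natCast_nonneg _)
      linarith
  · refine 𝓜.imp h1 (fun C => B * C) 0 ((PolyB.const _).mul PolyB.id (fun C hC => by linarith))
      (fun C C' s hCC h2 h3 => mono C C' s hCC (h2 h3)) fun C s hC _ h2 hsρ hne => ?_
    obtain ⟨h3, h4⟩ := h2 hsρ
    exact hB C s hC h3 h4

end Pool.Agent.Q183.AM
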