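import Pool.Agent.Q183.AM.Cartan5

/-!
An abstract form of the bound of nearly squarefree products by counting functions, and the sizes of a
point at a prime which divides exactly one of the bases.
-/

set_option autoImplicit false

namespace Pool.Agent.Q183.AM

open Pool.Agent.Q183.AR
open NumberField Height IsDedekindDomain

variable {K : Type} [Field K] [NumberField K]

open Classical in
/-- **Nearly squarefree products and local terms.** -/
theorem glob {J : Type} (U : Finset J) (G : J → 𝓞 K) (hG : ∀ j ∈ U, G j ≠ 0) (h : J → ℕ) (H : ℕ)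
    (hH : ∀ j ∈ U, h j ≤ H) (Bd : Finset (HeightOneSpectrum (𝓞 K)))
    (w : HeightOneSpectrum (𝓞 K) → ℝ) (hw : ∀ v, 0 ≤ w v) (hfin : (Function.support w).Finite)
    (hloc : ∀ v, v ∉ Bd → ∀ j0 ∈ U, cv v (Ideal.span {G j0}) = 1 →
      (∀ j ∈ U, j ≠ j0 → cv v (Ideal.span {G j}) = 0) →
      h j0 * Real.log (Ideal.absNorm v.asIdeal) ≤ w v) (𝔞 𝔟 : Ideal (𝓞 K))
    (hab : Ideal.span {∏ j ∈ U, G j} = 𝔞 * 𝔟) (hsq : Squarefree 𝔞) (hcop : IsCoprime 𝔞 𝔟) :
    ∑ j ∈ U, h j * Real.log |((Algebra.norm ℚ (G j : K) : ℚ) : ℝ)| ≤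
      (∑ᶠ v, w v) + H * Real.log (Ideal.absNorm 𝔟) +
        H * ∑ v ∈ Bd, Real.log (Ideal.absNorm v.asIdeal) := by
  have hP0 : ∏ j ∈ U, G j ≠ 0 := Finset.prod_ne_zero_iff.2 hG
  have hab0 : 𝔞 * 𝔟 ≠ ⊥ := by
    rw [← hab]
    exact fun h0 => hP0 (Ideal.span_singleton_eq_bot.1 h0)
  have ha0 : 𝔞 ≠ ⊥ := fun h0 => hab0 (by rw [h0, Ideal.bot_mul])
  have hb0 : 𝔟 ≠ ⊥ := fun h0 => hab0 (by rw [h0, Ideal.mul_bot])
  set S0 : Finset (HeightOneSpectrum (𝓞 K)) := (finite_dvd hP0).toFinset ∪ (Bd ∪ hfin.toFinset)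
    with hS0
  have hmemP : ∀ v : HeightOneSpectrum (𝓞 K), ∏ j ∈ U, G j ∈ v.asIdeal → v ∈ S0 := fun v hv =>
    Finset.mem_union_left _ ((finite_dvd hP0).mem_toFinset.2 hv)
  have hBdS : Bd ⊆ S0 := Finset.subset_union_left.trans Finset.subset_union_right
  have hwS : ∑ᶠ v, w v = ∑ v ∈ S0, w v := by
    refine finsum_eq_sum_of_support_subset _ fun v hv => ?_
    exact Finset.mem_union_right _ (Finset.mem_union_right _ (hfin.mem_toFinset.2 hv))
  have hs0 : ∀ j ∈ U, Ideal.span {G j} ≠ ⊥ := fun j hj h0 =>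
    hG j hj (Ideal.span_singleton_eq_bot.1 h0)
  have hgj : ∑ j ∈ U, h j * Real.log |((Algebra.norm ℚ (G j : K) : ℚ) : ℝ)| =
      ∑ v ∈ S0, (∑ j ∈ U, (h j * cv v (Ideal.span {G j}) : ℕ)) *
        Real.log (Ideal.absNorm v.asIdeal) := by
    have h2 : ∀ j ∈ U, h j * Real.log |((Algebra.norm ℚ (G j : K) : ℚ) : ℝ)| =
        ∑ v ∈ S0, ((h j * cv v (Ideal.span {G j}) : ℕ) : ℝ) *
          Real.log (Ideal.absNorm v.asIdeal) := by
      intro j hj
      rw [norm_span, log_cv (hs0 j hj) S0, Finset.mul_sum]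
      · refine Finset.sum_congr rfl fun v _ => ?_
        push_cast
        ring
      · intro v hv
        apply hmemP
        rw [← Finset.mul_prod_erase _ _ hj]
        exact Ideal.mul_mem_right _ _ (Ideal.dvd_span_singleton.1 hv)
    rw [Finset.sum_congr rfl h2, Finset.sum_comm]
    refine Finset.sum_congr rfl fun v _ => ?_
    push_cast
    rw [Finset.sum_mul]
  have hNb : Real.log (Ideal.absNorm 𝔟) =
      ∑ v ∈ S0, cv v 𝔟 * Real.log (Ideal.absNorm v.asIdeal) := by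
    refine log_cv hb0 S0 fun v hv => ?_
    apply hmemP
    rw [← Ideal.dvd_span_singleton, hab]
    exact Dvd.dvd.mul_left hv _
  have hBs : ∑ v ∈ Bd, Real.log (Ideal.absNorm v.asIdeal) =
      ∑ v ∈ S0, if v ∈ Bd then Real.log (Ideal.absNorm v.asIdeal) else 0 := by
    rw [Finset.sum_ite_mem, Finset.inter_eq_right.2 hBdS]
  rw [hgj, hwS, hNb, hBs, Finset.mul_sum, Finset.mul_sum, ← Finset.sum_add_distrib,
    ← Finset.sum_add_distrib]
  refine Finset.sum_le_sum fun v _ => ?_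
  have hlog := log_Nv_pos v
  have hcsum : ∑ j ∈ U, cv v (Ideal.span {G j}) = cv v 𝔞 + cv v 𝔟 := by
    rw [← cv_prod v _ _ hG, hab, cv_mul v ha0 hb0]
  have hle1 : ∑ j ∈ U, h j * cv v (Ideal.span {G j}) ≤ H * (cv v 𝔞 + cv v 𝔟) := by
    rw [← hcsum, Finset.mul_sum]
    exact Finset.sum_le_sum fun j hj => Nat.mul_le_mul_right _ (hH j hj)
  rcases Nat.eq_zero_or_pos (cv v 𝔞) with h𝔞 | h𝔞
  · rw [h𝔞, zero_add] at hle1
    have h1 : ((∑ j ∈ U, (h j * cv v (Ideal.span {G j}) : ℕ)) : ℝ) ≤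
        H * cv v 𝔟 := by exact_mod_cast hle1
    have h2 := mul_le_mul_of_nonneg_right h1 hlog.le
    have h3 : 0 ≤ if v ∈ Bd then Real.log (Ideal.absNorm v.asIdeal) else 0 := by
      split_ifs
      · exact hlog.le
      · exact le_refl 0
    have h4 : 0 ≤ (H : ℝ) * if v ∈ Bd then Real.log (Ideal.absNorm v.asIdeal) else 0 :=
      mul_nonneg (Nat.cast_nonneg _) h3
    have h5 := hw v
    push_cast at h2 ⊢
    linarith
  have h𝔟 : cv v 𝔟 = 0 := cv_coprime v ha0 hb0 hcop h𝔞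
  have h𝔞1 : cv v 𝔞 = 1 := le_antisymm (cv_le_one v ha0 hsq) h𝔞
  rw [h𝔟, h𝔞1, add_zero] at hcsum hle1
  rw [h𝔟, Nat.cast_zero, zero_mul, mul_zero, add_zero]
  by_cases hvB : v ∈ Bd
  · rw [if_pos hvB]
    have h1 : ((∑ j ∈ U, (h j * cv v (Ideal.span {G j}) : ℕ)) : ℝ) ≤
        H * 1 := by exact_mod_cast hle1
    have h2 := mul_le_mul_of_nonneg_right h1 hlog.le
    have h5 := hw v
    push_cast at h2 ⊢
    linarith
  rw [if_neg hvB, mul_zero, add_zero]
  obtain ⟨j0, hj0, hj0c⟩ : ∃ j0 ∈ U, cv v (Ideal.span {G j0}) ≠ 0 := by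
    by_contra hcon
    push Not at hcon
    rw [Finset.sum_eq_zero hcon] at hcsum
    exact absurd hcsum (by norm_num)
  have hsplit : cv v (Ideal.span {G j0}) +
      ∑ j ∈ U.erase j0, cv v (Ideal.span {G j}) = 1 :=
    (Finset.add_sum_erase U (fun j => cv v (Ideal.span {G j})) hj0).trans hcsum
  have hc1 : cv v (Ideal.span {G j0}) = 1 := by omega
  have hc0 : ∀ j ∈ U.erase j0, cv v (Ideal.span {G j}) = 0 := by
    have h1 : ∑ j ∈ U.erase j0, cv v (Ideal.span {G j}) = 0 := by omega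
    exact Finset.sum_eq_zero_iff.1 h1
  have hlhs : ∑ j ∈ U, h j * cv v (Ideal.span {G j}) = h j0 := by
    rw [← Finset.add_sum_erase U (fun j => h j * cv v (Ideal.span {G j})) hj0,
      hc1, mul_one, Finset.sum_eq_zero, add_zero]
    intro j hj
    rw [hc0 j hj, mul_zero]
  have h6 := hloc v hvB j0 hj0 hc1 fun j hj hjj => hc0 j (Finset.mem_erase.2 ⟨hjj, hj⟩)
  have h7 : ((∑ j ∈ U, (h j * cv v (Ideal.span {G j}) : ℕ) : ℕ) : ℝ) = h j0 := by
    rw [hlhs]
  push_cast at h7 ⊢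
  rw [h7]
  exact h6

section Local

variable {n : ℕ} {I J : Type} [Fintype I] [Fintype J]

/-- the product of the determinants and of the units of the forms -/
noncomputable def bad (a : I → Fin (n + 1) → 𝓞 K) (κ μ : I → 𝓞 K) : 𝓞 K :=
  (∏ B : Fin (n + 1) ↪ I, (Matrix.of fun i k => a (B i) k).det) * ∏ i, (κ i * μ i)

theorem bad_ne {a : I → Fin (n + 1) → 𝓞 K}
    (hgen : ∀ B : Fin (n + 1) ↪ I, (Matrix.of fun i k => a (B i) k).det ≠ 0) {κ μ : I → 𝓞 K}
    (hκ : ∀ i, κ i ≠ 0) (hμ : ∀ i, μ i ≠ 0) : bad a κ μ ≠ 0 :=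
  mul_ne_zero (Finset.prod_ne_zero_iff.2 fun B _ => hgen B)
    (Finset.prod_ne_zero_iff.2 fun i _ => mul_ne_zero (hκ i) (hμ i))

theorem det_notMem {a : I → Fin (n + 1) → 𝓞 K} {κ μ : I → 𝓞 K} {v : HeightOneSpectrum (𝓞 K)}
    (hv : bad a κ μ ∉ v.asIdeal) (B : Fin (n + 1) ↪ I) :
    (Matrix.of fun i k => a (B i) k).det ∉ v.asIdeal := by
  classical
  intro h0
  apply hv
  unfold bad
  refine Ideal.mul_mem_right _ _ ?_
  rw [← Finset.mul_prod_erase _ _ (Finset.mem_univ B)]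
  exact Ideal.mul_mem_right _ _ h0

theorem unit_notMem {a : I → Fin (n + 1) → 𝓞 K} {κ μ : I → 𝓞 K} {v : HeightOneSpectrum (𝓞 K)}
    (hv : bad a κ μ ∉ v.asIdeal) (i : I) : κ i ∉ v.asIdeal ∧ μ i ∉ v.asIdeal := by
  classical
  have hκμ : κ i * μ i ∉ v.asIdeal := by
    intro h0
    apply hv
    unfold bad
    refine Ideal.mul_mem_left _ _ ?_
    rw [← Finset.mul_prod_erase _ _ (Finset.mem_univ i)]
    exact Ideal.mul_mem_right _ _ h0
  exact ⟨fun h0 => hκμ (Ideal.mul_mem_right _ _ h0), fun h0 => hκμ (Ideal.mul_mem_left _ _ h0)⟩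

theorem siz_coeff' (hI : n + 1 ≤ Fintype.card I) {a : I → Fin (n + 1) → 𝓞 K} {κ μ : I → 𝓞 K}
    {v : HeightOneSpectrum (𝓞 K)} (hv : bad a κ μ ∉ v.asIdeal) (i : I) :
    siz v (fun k => (a i k : K)) = 1 := by
  obtain ⟨B, hB⟩ := exists_emb hI i
  have := siz_coeff v a B (det_notMem hv B)
  rwa [hB] at this

theorem form_le' (a : I → Fin (n + 1) → 𝓞 K) (v : HeightOneSpectrum (𝓞 K)) (x : Fin (n + 1) → 𝓞 K)
    (i : I) : FinitePlace.mk v ((∑ k, a i k * x k : 𝓞 K) : K) ≤ siz v (fun k => (x k : K)) := by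
  have h1 := form_le v (fun k => (a i k : K)) (fun k => (x k : K))
  have h2 : ∑ k, (a i k : K) * (x k : K) = ((∑ k, a i k * x k : 𝓞 K) : K) := by
    simp only [map_sum, map_mul]
  rw [h2] at h1
  exact h1.trans (mul_le_of_le_one_right (siz_nonneg _ _) (siz_le_one v _))

open Classical in
/-- **The sizes of a point and of the forms** at a prime which divides exactly one base, once, or no
base. -/
theorem loc_sizes (hI : n + 1 ≤ Fintype.card I) {a : I → Fin (n + 1) → 𝓞 K} {κ μ : I → 𝓞 K}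
    {v : HeightOneSpectrum (𝓞 K)} (hv : bad a κ μ ∉ v.asIdeal) {g : J → ℕ → 𝓞 K} {e : I → J → ℕ}
    {s : ℕ} {x : Fin (n + 1) → 𝓞 K} (hL : ∀ i, ∑ k, a i k * x k = hval κ μ g e i s)
    (hne : ∀ i, hval κ μ g e i s ≠ 0) (j0 : J) (c : ℕ) (hc : cv v (Ideal.span {g j0 s}) = c)
    (hj0 : j0 ∈ hun e) (h0 : ∀ j ∈ hun e, j ≠ j0 → cv v (Ideal.span {g j s}) = 0) :
    ∃ q : ℝ, 0 < q ∧ siz v (fun k => (x k : K)) = q ∧
      ∀ i, FinitePlace.mk v (hval κ μ g e i s : K) =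
        q * ((Ideal.absNorm v.asIdeal : ℝ) ^ (c * (e i j0 - hmn e j0)))⁻¹ := by
  have hg0 : ∀ j ∈ hun e, g j s ≠ 0 := by
    intro j hj h0
    obtain ⟨i, i', hii⟩ := (Finset.mem_filter.1 hj).2
    have h1 : ∀ i, e i j = 0 := by
      intro i
      by_contra h2
      apply hne i
      unfold hval
      rw [Finset.prod_eq_zero (Finset.mem_univ j) (by rw [h0, zero_pow h2]), mul_zero]
    exact hii ((h1 i).trans (h1 i').symm)
  set Nv : ℝ := ((Ideal.absNorm v.asIdeal : ℕ) : ℝ) with hNv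
  have hNv1 : 1 < Nv := one_lt_Nv v
  have hNv0 : 0 < Nv := by linarith
  have hfg1 : ∀ j ∈ hun e, j ≠ j0 → FinitePlace.mk v (g j s : K) = 1 := by
    intro j hj hjj
    rw [norm_cv v (hg0 j hj), h0 j hj hjj, pow_zero, inv_one]
  have hfg0 : FinitePlace.mk v (g j0 s : K) = (Nv ^ c)⁻¹ := by
    rw [norm_cv v (hg0 j0 hj0), hc]
  set q : ℝ := ∏ j, FinitePlace.mk v (g j s : K) ^ hmn e j with hq
  have hli : ∀ i, FinitePlace.mk v (hval κ μ g e i s : K) =
      q * (Nv ^ (c * (e i j0 - hmn e j0)))⁻¹ := by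
    intro i
    have h1 : (hval κ μ g e i s : K) = (κ i : K) * (μ i : K) ^ s * ∏ j, (g j s : K) ^ e i j := by
      unfold hval
      simp only [map_mul, map_pow, map_prod]
    obtain ⟨hκv, hμv⟩ := unit_notMem hv i
    rw [h1, map_mul, map_mul, map_pow, map_prod, norm_eq_one v hκv, norm_eq_one v hμv, one_pow,
      one_mul, one_mul]
    simp only [map_pow]
    have h2 : ∏ j, FinitePlace.mk v (g j s : K) ^ e i j =
        q * ∏ j, FinitePlace.mk v (g j s : K) ^ (e i j - hmn e j) := by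
      rw [hq, ← Finset.prod_mul_distrib]
      refine Finset.prod_congr rfl fun j _ => ?_
      rw [← pow_add, Nat.add_sub_cancel' (hmn_le e i j)]
    rw [h2]
    congr 1
    rw [Finset.prod_eq_single j0]
    · rw [hfg0, inv_pow, ← pow_mul]
    · intro j _ hjj
      by_cases hj : j ∈ hun e
      · rw [hfg1 j hj hjj, one_pow]
      · rw [eq_hmn hj i, Nat.sub_self, pow_zero]
    · intro h0
      exact absurd (Finset.mem_univ _) h0
  have hq0 : 0 ≤ q := Finset.prod_nonneg fun j _ => pow_nonneg (apply_nonneg _ _) _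
  obtain ⟨Bz⟩ : Nonempty (Fin (n + 1) ↪ I) := by
    rw [Function.Embedding.nonempty_iff_card_le, Fintype.card_fin]
    exact hI
  have hne' : Nonempty I := ⟨Bz 0⟩
  have hlx : ∀ i, FinitePlace.mk v (hval κ μ g e i s : K) ≤ siz v (fun k => (x k : K)) := by
    intro i
    rw [← hL i]
    exact form_le' a v x i
  have hxq : siz v (fun k => (x k : K)) = q := by
    refine le_antisymm ?_ ?_
    · refine siz_le_of_forms v a x Bz (det_notMem hv Bz) hq0 fun i => ?_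
      have h1 := hli (Bz i)
      rw [hL, h1]
      refine mul_le_of_le_one_right hq0 (inv_le_one_of_one_le₀ (one_le_pow₀ hNv1.le))
    · obtain ⟨i0, hi0⟩ := exists_eq_ciInf_of_finite (f := fun i => e i j0)
      have h1 := hlx i0
      rw [hli i0] at h1
      have h2 : e i0 j0 - hmn e j0 = 0 := by
        have h3 : e i0 j0 = hmn e j0 := hi0
        rw [h3, Nat.sub_self]
      rwa [h2, mul_zero, pow_zero, inv_one, mul_one] at h1
  have hqpos : 0 < q := by
    have h1 : 0 < FinitePlace.mk v (hval κ μ g e (Bz 0) s : K) :=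
      FinitePlace.pos_iff.2 (RingOfIntegers.coe_ne_zero_iff.mpr (hne _))
    rw [← hxq]
    exact lt_of_lt_of_le h1 (hlx _)
  exact ⟨q, hqpos, hxq, hli⟩

/-- the support of the local terms is finite -/
theorem siz_one_of (hI : n + 1 ≤ Fintype.card I) {a : I → Fin (n + 1) → 𝓞 K}
    {v : HeightOneSpectrum (𝓞 K)} {x : Fin (n + 1) → 𝓞 K} (i : I)
    (h : (∑ k, a i k * x k) ∉ v.asIdeal) : siz v (fun k => (x k : K)) = 1 := by
  have h1 := norm_eq_one v h
  have h2 := form_le' a v x i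
  rw [h1] at h2
  exact le_antisymm (siz_le_one v _) h2

end Local

end Pool.Agent.Q183.AM
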