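import Pool.Agent.Q183.AM.Cartan6

/-!
The truncated inequality for pairs of points of the projective line.
-/

set_option autoImplicit false

namespace Pool.Agent.Q183.AM

open Pool.Agent.Q183.AR
open NumberField Height IsDedekindDomain

theorem log_finprod {α : Type} (f : α → ℝ) (hf : ∀ a, 0 < f a)
    (hfin : (Function.mulSupport f).Finite) : Real.log (∏ᶠ a, f a) = ∑ᶠ a, Real.log (f a) := by
  rw [finprod_eq_prod_of_mulSupport_subset (s := hfin.toFinset) f (by simp),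
    finsum_eq_sum_of_support_subset (s := hfin.toFinset) _ ?_, Real.log_prod fun a _ => (hf a).ne']
  intro a ha
  rw [Set.Finite.coe_toFinset]
  intro h1
  apply ha
  show Real.log (f a) = 0
  have h2 : f a = 1 := h1
  rw [h2, Real.log_one]

variable {K : Type} [Field K] [NumberField K]

/-- the height of a point with integral coordinates as a sum of local terms -/
theorem logHeight_sum {n : ℕ} (x : Fin (n + 1) → 𝓞 K) (hx : x ≠ 0) :
    logHeight (fun k => (x k : K)) =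
      ∑ w : InfinitePlace K, (w.mult : ℝ) * Real.log (⨆ k, w (x k : K)) +
        ∑ᶠ v : HeightOneSpectrum (𝓞 K), Real.log (⨆ k, FinitePlace.mk v (x k : K)) := by
  have hxK : (fun k => (x k : K)) ≠ 0 := by
    intro h
    apply hx
    funext i
    have := congrFun h i
    simpa using this
  obtain ⟨k, hk⟩ : ∃ k, x k ≠ 0 := by
    by_contra hcon
    push Not at hcon
    exact hx (funext hcon)
  have hkK : (x k : K) ≠ 0 := RingOfIntegers.coe_ne_zero_iff.mpr hk
  have hpw : ∀ w : InfinitePlace K, 0 < ⨆ k, w (x k : K) := fun w =>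
    lt_of_lt_of_le (InfinitePlace.pos_iff.2 hkK)
      (le_ciSup (f := fun k => w (x k : K)) (Set.finite_range _).bddAbove k)
  have hpv : ∀ v : HeightOneSpectrum (𝓞 K), 0 < ⨆ k, FinitePlace.mk v (x k : K) := fun v =>
    lt_of_lt_of_le (FinitePlace.pos_iff.2 hkK)
      (le_ciSup (f := fun k => FinitePlace.mk v (x k : K)) (Set.finite_range _).bddAbove k)
  have hfin : (Function.mulSupport fun v : HeightOneSpectrum (𝓞 K) =>
      ⨆ k, FinitePlace.mk v (x k : K)).Finite := by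
    refine (finite_dvd hk).subset fun v hv => ?_
    by_contra hcon
    apply hv
    show (⨆ k, FinitePlace.mk v (x k : K)) = 1
    refine le_antisymm (ciSup_le fun k => norm_le_one v (x k)) ?_
    rw [← norm_eq_one v hcon]
    exact le_ciSup (f := fun k => FinitePlace.mk v (x k : K)) (Set.finite_range _).bddAbove k
  rw [logHeight_eq_log_mulHeight, NumberField.mulHeight_eq hxK]
  have h1 : ∏ᶠ v : FinitePlace K, ⨆ k, v (x k : K) =
      ∏ᶠ v : HeightOneSpectrum (𝓞 K), ⨆ k, FinitePlace.mk v (x k : K) := by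
    rw [← finprod_comp_equiv (FinitePlace.equivHeightOneSpectrum (K := K)).symm]
    rfl
  have h2 : 0 < ∏ᶠ v : HeightOneSpectrum (𝓞 K), ⨆ k, FinitePlace.mk v (x k : K) :=
    finprod_induction (fun y : ℝ => 0 < y) one_pos (fun _ _ ha hb => mul_pos ha hb) hpv
  rw [h1, Real.log_mul (Finset.prod_ne_zero_iff.2 fun w _ => pow_ne_zero _ (hpw w).ne') h2.ne',
    log_finprod _ hpv hfin, Real.log_prod fun w _ => pow_ne_zero _ (hpw w).ne']
  congr 1
  exact Finset.sum_congr rfl fun w _ => Real.log_pow _ _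

section Line

variable {I J : Type} [Fintype I] [Fintype J]

theorem hloss_one (e : I → J → ℕ) (j : J) : hloss 1 e j ≤ 1 := by
  have := hloss_le (n := 1) e j
  simpa using this

theorem logHeight_nonneg' {n : ℕ} (x : Fin (n + 1) → K) : 0 ≤ logHeight x := by
  rw [logHeight_eq_log_mulHeight]
  exact Real.log_nonneg (one_le_mulHeight _)

/-- the inequality on the projective line with the product of the bases, for any number of points -/
theorem line (𝓜 : Mode) (g : J → ℕ → 𝓞 K)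
    (hg : ∀ j, ∃ E : LinearRecurrence (𝓞 K), E.IsSolution (g j))
    (X : Fin 2 → ℕ → 𝓞 K) (hX : ∀ k, ∃ E : LinearRecurrence (𝓞 K), E.IsSolution (X k))
    (a : I → Fin 2 → 𝓞 K) (ha : ∀ i i', i ≠ i' → a i 0 * a i' 1 ≠ a i 1 * a i' 0)
    (κ μ : I → 𝓞 K) (hμ : ∀ i, μ i ≠ 0) (e : I → J → ℕ)
    (hL : ∀ i t, a i 0 * X 0 t + a i 1 * X 1 t = hval κ μ g e i t) :
    𝓜.A fun C s => (∀ i, hval κ μ g e i s ≠ 0) →
      ((Fintype.card I : ℝ) - 2) * logHeight (fun k => (X k s : K)) ≤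
        ∑ j ∈ hun e, Real.log |((Algebra.norm ℚ (g j s : K) : ℚ) : ℝ)| + Real.log (max C 1) := by
  classical
  have mono : MonoC fun C s => (∀ i, hval κ μ g e i s ≠ 0) →
      ((Fintype.card I : ℝ) - 2) * logHeight (fun k => (X k s : K)) ≤
        ∑ j ∈ hun e, Real.log |((Algebra.norm ℚ (g j s : K) : ℚ) : ℝ)| + Real.log (max C 1) := by
    intro C C' s hCC h1 h2
    have h7 : Real.log (max C 1) ≤ Real.log (max C' 1) :=
      Real.log_le_log (lt_of_lt_of_le one_pos (le_max_right _ _)) (max_le_max hCC (le_refl _))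
    have := h1 h2
    linarith
  -- the bases are at least one
  have hterm : ∀ s, (∀ i, hval κ μ g e i s ≠ 0) → ∀ j ∈ hun e,
      0 ≤ Real.log |((Algebra.norm ℚ (g j s : K) : ℚ) : ℝ)| := by
    intro s hne j hj
    refine Real.log_nonneg (one_le_norm fun h0 => ?_)
    obtain ⟨i, i', hii⟩ := (Finset.mem_filter.1 hj).2
    have h1 : ∀ i, e i j = 0 := by
      intro i
      by_contra h2
      apply hne i
      unfold hval
      rw [Finset.prod_eq_zero (Finset.mem_univ j) (by rw [h0, zero_pow h2]), mul_zero]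
    exact hii ((h1 i).trans (h1 i').symm)
  by_cases hI : 2 ≤ Fintype.card I
  · have hgen : ∀ B : Fin (1 + 1) ↪ I, (Matrix.of fun i k => a (B i) k).det ≠ 0 := by
      intro B
      have h1 : (Matrix.of fun i k => a (B i) k).det =
          a (B 0) 0 * a (B 1) 1 - a (B 0) 1 * a (B 1) 0 := Matrix.det_fin_two _
      rw [h1, sub_ne_zero]
      exact ha _ _ fun h0 => absurd (B.injective h0) (by decide)
    have hL' : ∀ i t, ∑ k, a i k * X k t = hval κ μ g e i t := by
      intro i t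
      rw [← hL i t]
      exact Fin.sum_univ_two _
    have h := hlog1 𝓜 hI g hg X hX a hgen κ μ hμ e hL' ∅ Set.finite_empty
    refine 𝓜.imp h (fun C => C) 0 PolyB.id mono fun C s hC _ h1 hne => ?_
    obtain ⟨h2, -⟩ := h1 hne
    have e1 : ((Fintype.card I : ℝ) - (((1 : ℕ) : ℝ) + 1)) = (Fintype.card I : ℝ) - 2 := by
      push_cast
      ring
    rw [e1] at h2
    refine h2.trans (add_le_add_left ?_ _)
    have h3 : ∑ j, (hloss 1 e j : ℝ) * Real.log |((Algebra.norm ℚ (g j s : K) : ℚ) : ℝ)| =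
        ∑ j ∈ hun e, (hloss 1 e j : ℝ) * Real.log |((Algebra.norm ℚ (g j s : K) : ℚ) : ℝ)| := by
      refine (Finset.sum_subset (Finset.subset_univ _) fun j _ hj => ?_).symm
      rw [hloss_zero hj, Nat.cast_zero, zero_mul]
    rw [h3]
    refine Finset.sum_le_sum fun j hj => ?_
    refine mul_le_of_le_one_left (hterm s hne j hj) ?_
    exact_mod_cast hloss_one e j
  · refine 𝓜.large 1 0 mono fun s _ hne => ?_
    have h1 : ((Fintype.card I : ℝ) - 2) * logHeight (fun k => (X k s : K)) ≤ 0 := by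
      refine mul_nonpos_of_nonpos_of_nonneg ?_ (logHeight_nonneg' _)
      have : (Fintype.card I : ℝ) ≤ 1 := by
        exact_mod_cast (by omega : Fintype.card I ≤ 1)
      linarith
    have h2 : 0 ≤ ∑ j ∈ hun e, Real.log |((Algebra.norm ℚ (g j s : K) : ℚ) : ℝ)| :=
      Finset.sum_nonneg fun j hj => hterm s hne j hj
    rw [max_self, Real.log_one]
    linarith

end Line

section Grid

variable {I I' J J' : Type} [Fintype I] [Fintype I'] [Fintype J] [Fintype J']

/-- the product of the relative sizes of the forms -/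
noncomputable def rel (v : HeightOneSpectrum (𝓞 K)) (a : I → Fin 2 → 𝓞 K) (x : Fin 2 → 𝓞 K) : ℝ :=
  ∏ i, (FinitePlace.mk v ((a i 0 * x 0 + a i 1 * x 1 : 𝓞 K) : K) /
    siz (n := 1) v (fun k => (x k : K)))

theorem rel_nonneg (v : HeightOneSpectrum (𝓞 K)) (a : I → Fin 2 → 𝓞 K) (x : Fin 2 → 𝓞 K) :
    0 ≤ rel v a x :=
  Finset.prod_nonneg fun i _ => div_nonneg (apply_nonneg _ _) (siz_nonneg (n := 1) _ _)

theorem rel_fac_le (v : HeightOneSpectrum (𝓞 K)) (a : I → Fin 2 → 𝓞 K) (x : Fin 2 → 𝓞 K) (i : I) :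
    FinitePlace.mk v ((a i 0 * x 0 + a i 1 * x 1 : 𝓞 K) : K) /
      siz (n := 1) v (fun k => (x k : K)) ≤ 1 := by
  refine div_le_one_of_le₀ ?_ (siz_nonneg (n := 1) _ _)
  have h1 := form_le' (n := 1) a v x i
  have h2 : ∑ k : Fin (1 + 1), a i k * x k = a i 0 * x 0 + a i 1 * x 1 := Fin.sum_univ_two _
  rwa [h2] at h1

theorem rel_le_one (v : HeightOneSpectrum (𝓞 K)) (a : I → Fin 2 → 𝓞 K) (x : Fin 2 → 𝓞 K) :
    rel v a x ≤ 1 :=
  Finset.prod_le_one (fun i _ => div_nonneg (apply_nonneg _ _) (siz_nonneg (n := 1) _ _))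
    fun i _ => rel_fac_le v a x i

theorem rel_pos (v : HeightOneSpectrum (𝓞 K)) (a : I → Fin 2 → 𝓞 K) (x : Fin 2 → 𝓞 K)
    (h : ∀ i, a i 0 * x 0 + a i 1 * x 1 ≠ 0) : 0 < rel v a x := by
  refine Finset.prod_pos fun i _ => div_pos
    (FinitePlace.pos_iff.2 (RingOfIntegers.coe_ne_zero_iff.mpr (h i))) ?_
  have h1 := form_le' (n := 1) a v x i
  have h2 : ∑ k : Fin (1 + 1), a i k * x k = a i 0 * x 0 + a i 1 * x 1 := Fin.sum_univ_two _
  rw [h2] at h1
  exact lt_of_lt_of_le (FinitePlace.pos_iff.2 (RingOfIntegers.coe_ne_zero_iff.mpr (h i))) h1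

/-- away from the values of the forms the relative sizes are one -/
theorem rel_one (v : HeightOneSpectrum (𝓞 K)) (a : I → Fin 2 → 𝓞 K) (x : Fin 2 → 𝓞 K)
    (h : ∀ i, a i 0 * x 0 + a i 1 * x 1 ∉ v.asIdeal) : rel v a x = 1 := by
  refine Finset.prod_eq_one fun i _ => ?_
  have h1 := norm_eq_one v (h i)
  have h3 := form_le' (n := 1) a v x i
  have h2 : ∑ k : Fin (1 + 1), a i k * x k = a i 0 * x 0 + a i 1 * x 1 := Fin.sum_univ_two _
  rw [h2, h1] at h3
  rw [h1, le_antisymm (siz_le_one (n := 1) v x) h3, div_one]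

/-- at a prime which divides exactly one base, once -/
theorem rel_le (v : HeightOneSpectrum (𝓞 K)) (a : I → Fin 2 → 𝓞 K)
    (κ μ : I → 𝓞 K)
    (hv : bad (n := 1) a κ μ ∉ v.asIdeal) {g : J → ℕ → 𝓞 K} {e : I → J → ℕ} {s : ℕ}
    {x : Fin 2 → 𝓞 K} (hL : ∀ i, a i 0 * x 0 + a i 1 * x 1 = hval κ μ g e i s)
    (hne : ∀ i, hval κ μ g e i s ≠ 0) (j0 : J) (hc : cv v (Ideal.span {g j0 s}) = 1)
    (hj0 : j0 ∈ hun e) (h0 : ∀ j ∈ hun e, j ≠ j0 → cv v (Ideal.span {g j s}) = 0) :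
    rel v a x ≤ (Ideal.absNorm v.asIdeal : ℝ)⁻¹ := by
  classical
  obtain ⟨i, i', hii⟩ := (Finset.mem_filter.1 hj0).2
  have hI : 1 + 1 ≤ Fintype.card I := by
    have h1 : i ≠ i' := fun h => hii (by rw [h])
    exact Fintype.one_lt_card_iff.2 ⟨i, i', h1⟩
  have hL' : ∀ i, ∑ k : Fin (1 + 1), a i k * x k = hval κ μ g e i s := by
    intro i
    rw [← hL i]
    exact Fin.sum_univ_two _
  obtain ⟨q, hq, hxq, hli⟩ := loc_sizes (n := 1) hI hv hL' hne j0 1 hc hj0 h0
  obtain ⟨i1, hi1⟩ : ∃ i1, e i1 j0 - hmn e j0 ≠ 0 := by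
    by_contra hcon
    push Not at hcon
    have h1 := hmn_le e i j0
    have h2 := hmn_le e i' j0
    have h3 := hcon i
    have h4 := hcon i'
    omega
  unfold rel
  rw [← Finset.mul_prod_erase _ _ (Finset.mem_univ i1)]
  have hNv1 : 1 < (Ideal.absNorm v.asIdeal : ℝ) := one_lt_Nv v
  have h5 : FinitePlace.mk v ((a i1 0 * x 0 + a i1 1 * x 1 : 𝓞 K) : K) /
      siz (n := 1) v (fun k => (x k : K)) ≤ (Ideal.absNorm v.asIdeal : ℝ)⁻¹ := by
    rw [hL i1, hli i1]
    have h6 : siz (n := 1) v (fun k => (x k : K)) = q := hxq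
    rw [h6, mul_div_cancel_left₀ _ hq.ne', one_mul]
    refine inv_anti₀ (by linarith) ?_
    exact le_self_pow₀ hNv1.le hi1
  calc _ ≤ (Ideal.absNorm v.asIdeal : ℝ)⁻¹ * 1 := by
        refine mul_le_mul h5 ?_ (Finset.prod_nonneg fun i _ => div_nonneg (apply_nonneg _ _)
          (siz_nonneg (n := 1) _ _)) (by positivity)
        exact Finset.prod_le_one (fun i _ => div_nonneg (apply_nonneg _ _)
          (siz_nonneg (n := 1) _ _)) fun i _ => rel_fac_le v a x i
    _ = _ := mul_one _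

/-- the truncated counting function of the grid -/
noncomputable def NG (a : I → Fin 2 → 𝓞 K) (b : I' → Fin 2 → 𝓞 K) (x y : Fin 2 → 𝓞 K) : ℝ :=
  ∑ᶠ v : HeightOneSpectrum (𝓞 K),
    min (Real.log (Ideal.absNorm v.asIdeal)) (-Real.log (rel v a x * rel v b y))

/-- the inequality for the grid -/
def GIneq (a : I → Fin 2 → 𝓞 K) (b : I' → Fin 2 → 𝓞 K) (g : J → ℕ → 𝓞 K) (g' : J' → ℕ → 𝓞 K)
    (e : I → J → ℕ) (e' : I' → J' → ℕ) (X Y : Fin 2 → ℕ → 𝓞 K) (C : ℝ) (s : ℕ) : Prop :=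
  ∀ 𝔞 𝔟 : Ideal (𝓞 K),
    Ideal.span {(∏ j ∈ hun e, g j s) * ∏ j ∈ hun e', g' j s} = 𝔞 * 𝔟 → Squarefree 𝔞 →
    IsCoprime 𝔞 𝔟 →
    ((Fintype.card I : ℝ) - 2) * logHeight (fun k => (X k s : K)) +
      ((Fintype.card I' : ℝ) - 2) * logHeight (fun k => (Y k s : K)) ≤
      NG a b (fun k => X k s) (fun k => Y k s) + Real.log (Ideal.absNorm 𝔟) + Real.log (max C 1)

theorem gineq_mono (a : I → Fin 2 → 𝓞 K) (b : I' → Fin 2 → 𝓞 K) (g : J → ℕ → 𝓞 K)
    (g' : J' → ℕ → 𝓞 K) (e : I → J → ℕ) (e' : I' → J' → ℕ) (X Y : Fin 2 → ℕ → 𝓞 K) :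
    MonoC (GIneq a b g g' e e' X Y) := by
  intro C C' s hCC h 𝔞 𝔟 h4 h5 h6
  have h7 : Real.log (max C 1) ≤ Real.log (max C' 1) :=
    Real.log_le_log (lt_of_lt_of_le one_pos (le_max_right _ _)) (max_le_max hCC (le_refl _))
  exact (h 𝔞 𝔟 h4 h5 h6).trans (by linarith)

open Classical in
/-- **The truncated inequality for pairs of points of the line and grids.** -/
theorem grid (𝓜 : Mode) (g : J → ℕ → 𝓞 K)
    (hg : ∀ j, ∃ E : LinearRecurrence (𝓞 K), E.IsSolution (g j)) (g' : J' → ℕ → 𝓞 K)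
    (hg' : ∀ j, ∃ E : LinearRecurrence (𝓞 K), E.IsSolution (g' j))
    (X Y : Fin 2 → ℕ → 𝓞 K) (hX : ∀ k, ∃ E : LinearRecurrence (𝓞 K), E.IsSolution (X k))
    (hY : ∀ k, ∃ E : LinearRecurrence (𝓞 K), E.IsSolution (Y k))
    (a : I → Fin 2 → 𝓞 K) (ha : ∀ i i', i ≠ i' → a i 0 * a i' 1 ≠ a i 1 * a i' 0)
    (b : I' → Fin 2 → 𝓞 K) (hb : ∀ i i', i ≠ i' → b i 0 * b i' 1 ≠ b i 1 * b i' 0)
    (κ μ : I → 𝓞 K) (hμ : ∀ i, μ i ≠ 0) (κ' μ' : I' → 𝓞 K) (hμ' : ∀ i, μ' i ≠ 0)
    (e : I → J → ℕ) (e' : I' → J' → ℕ)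
    (hL : ∀ i t, a i 0 * X 0 t + a i 1 * X 1 t = hval κ μ g e i t)
    (hL' : ∀ i t, b i 0 * Y 0 t + b i 1 * Y 1 t = hval κ' μ' g' e' i t) :
    𝓜.A fun C s => (∀ i, hval κ μ g e i s ≠ 0) → (∀ i, hval κ' μ' g' e' i s ≠ 0) →
      GIneq a b g g' e e' X Y C s := by
  have mono : MonoC fun C s => (∀ i, hval κ μ g e i s ≠ 0) → (∀ i, hval κ' μ' g' e' i s ≠ 0) →
      GIneq a b g g' e e' X Y C s :=
    fun C C' s hCC h1 h2 h3 => gineq_mono a b g g' e e' X Y C C' s hCC (h1 h2 h3)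
  by_cases hκ : (∀ i, κ i ≠ 0) ∧ ∀ i, κ' i ≠ 0
  swap
  · refine 𝓜.large 1 0 mono fun s _ h1 h2 => absurd ⟨fun i h0 => h1 i ?_, fun i h0 => h2 i ?_⟩ hκ
    · unfold hval
      rw [h0, zero_mul, zero_mul]
    · unfold hval
      rw [h0, zero_mul, zero_mul]
  obtain ⟨hκ, hκ'⟩ := hκ
  -- the bad primes
  have hbad1 : bad (n := 1) a κ μ ≠ 0 := by
    refine bad_ne (fun B => ?_) hκ hμ
    have h1 : (Matrix.of fun i k => a (B i) k).det =
        a (B 0) 0 * a (B 1) 1 - a (B 0) 1 * a (B 1) 0 := Matrix.det_fin_two _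
    rw [h1, sub_ne_zero]
    exact ha _ _ fun h0 => absurd (B.injective h0) (by decide)
  have hbad2 : bad (n := 1) b κ' μ' ≠ 0 := by
    refine bad_ne (fun B => ?_) hκ' hμ'
    have h1 : (Matrix.of fun i k => b (B i) k).det =
        b (B 0) 0 * b (B 1) 1 - b (B 0) 1 * b (B 1) 0 := Matrix.det_fin_two _
    rw [h1, sub_ne_zero]
    exact hb _ _ fun h0 => absurd (B.injective h0) (by decide)
  set Bd : Finset (HeightOneSpectrum (𝓞 K)) :=
    (finite_dvd hbad1).toFinset ∪ (finite_dvd hbad2).toFinset with hBd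
  set B : ℝ := ∑ v ∈ Bd, Real.log (Ideal.absNorm v.asIdeal) with hB
  have hB0 : 0 ≤ B := Finset.sum_nonneg fun v _ => (log_Nv_pos v).le
  have h1 := line 𝓜 g hg X hX a ha κ μ hμ e hL
  have h2 := line 𝓜 g' hg' Y hY b hb κ' μ' hμ' e' hL'
  have m1 : MonoC fun C s => (∀ i, hval κ μ g e i s ≠ 0) →
      ((Fintype.card I : ℝ) - 2) * logHeight (fun k => (X k s : K)) ≤
        ∑ j ∈ hun e, Real.log |((Algebra.norm ℚ (g j s : K) : ℚ) : ℝ)| + Real.log (max C 1) := by
    intro C C' s hCC h1 h2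
    have h7 : Real.log (max C 1) ≤ Real.log (max C' 1) :=
      Real.log_le_log (lt_of_lt_of_le one_pos (le_max_right _ _)) (max_le_max hCC (le_refl _))
    have := h1 h2
    linarith
  have m2 : MonoC fun C s => (∀ i, hval κ' μ' g' e' i s ≠ 0) →
      ((Fintype.card I' : ℝ) - 2) * logHeight (fun k => (Y k s : K)) ≤
        ∑ j ∈ hun e', Real.log |((Algebra.norm ℚ (g' j s : K) : ℚ) : ℝ)| + Real.log (max C 1) := by
    intro C C' s hCC h1 h2
    have h7 : Real.log (max C 1) ≤ Real.log (max C' 1) :=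
      Real.log_le_log (lt_of_lt_of_le one_pos (le_max_right _ _)) (max_le_max hCC (le_refl _))
    have := h1 h2
    linarith
  refine 𝓜.imp (𝓜.and h1 h2 m1 m2) (fun C => Real.exp B * (C * C)) 0
    ((PolyB.const _).mul (PolyB.id.mul PolyB.id (fun C hC => by linarith))
      (fun C hC => mul_nonneg (by linarith) (by linarith))) mono fun C s hC _ h3 hne hne' => ?_
  obtain ⟨h4, h5⟩ := h3
  have h4 := h4 hne
  have h5 := h5 hne'
  intro 𝔞 𝔟 hab hsq hcop
  have hC0 : 0 < C := by linarith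
  have hgne : ∀ j ∈ hun e, g j s ≠ 0 := by
    intro j hj h0
    obtain ⟨i, i', hii⟩ := (Finset.mem_filter.1 hj).2
    have h1 : ∀ i, e i j = 0 := by
      intro i
      by_contra h2
      apply hne i
      unfold hval
      rw [Finset.prod_eq_zero (Finset.mem_univ j) (by rw [h0, zero_pow h2]), mul_zero]
    exact hii ((h1 i).trans (h1 i').symm)
  have hgne' : ∀ j ∈ hun e', g' j s ≠ 0 := by
    intro j hj h0
    obtain ⟨i, i', hii⟩ := (Finset.mem_filter.1 hj).2
    have h1 : ∀ i, e' i j = 0 := by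
      intro i
      by_contra h2
      apply hne' i
      unfold hval
      rw [Finset.prod_eq_zero (Finset.mem_univ j) (by rw [h0, zero_pow h2]), mul_zero]
    exact hii ((h1 i).trans (h1 i').symm)
  set x : Fin 2 → 𝓞 K := fun k => X k s with hx
  set y : Fin 2 → 𝓞 K := fun k => Y k s with hy
  have hLx : ∀ i, a i 0 * x 0 + a i 1 * x 1 = hval κ μ g e i s := fun i => hL i s
  have hLy : ∀ i, b i 0 * y 0 + b i 1 * y 1 = hval κ' μ' g' e' i s := fun i => hL' i s
  have hrx : ∀ v, 0 < rel v a x := fun v => rel_pos v a x fun i => by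
    rw [hLx]
    exact hne i
  have hry : ∀ v, 0 < rel v b y := fun v => rel_pos v b y fun i => by
    rw [hLy]
    exact hne' i
  set w : HeightOneSpectrum (𝓞 K) → ℝ := fun v =>
    min (Real.log (Ideal.absNorm v.asIdeal)) (-Real.log (rel v a x * rel v b y)) with hw
  have hprod : ∀ v, rel v a x * rel v b y ≤ 1 := fun v =>
    mul_le_one₀ (rel_le_one v a x) (rel_nonneg v b y) (rel_le_one v b y)
  have hw0 : ∀ v, 0 ≤ w v := fun v => le_min (log_Nv_pos v).le (by
    have := Real.log_nonpos (mul_pos (hrx v) (hry v)).le (hprod v)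
    linarith)
  set F : 𝓞 K := (∏ i, hval κ μ g e i s) * ∏ i, hval κ' μ' g' e' i s with hF
  have hF0 : F ≠ 0 := mul_ne_zero (Finset.prod_ne_zero_iff.2 fun i _ => hne i)
    (Finset.prod_ne_zero_iff.2 fun i _ => hne' i)
  have hfin : (Function.support w).Finite := by
    refine (finite_dvd hF0).subset fun v hv => ?_
    by_contra hcon
    apply hv
    have hc1 : ∀ i, a i 0 * x 0 + a i 1 * x 1 ∉ v.asIdeal := by
      intro i h0
      rw [hLx] at h0
      apply hcon
      show F ∈ v.asIdeal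
      rw [hF, ← Finset.mul_prod_erase _ _ (Finset.mem_univ i)]
      exact Ideal.mul_mem_right _ _ (Ideal.mul_mem_right _ _ h0)
    have hc2 : ∀ i, b i 0 * y 0 + b i 1 * y 1 ∉ v.asIdeal := by
      intro i h0
      rw [hLy] at h0
      apply hcon
      show F ∈ v.asIdeal
      rw [hF, ← Finset.mul_prod_erase Finset.univ (fun i => hval κ' μ' g' e' i s)
        (Finset.mem_univ i)]
      exact Ideal.mul_mem_left _ _ (Ideal.mul_mem_right _ _ h0)
    show min (Real.log (Ideal.absNorm v.asIdeal)) (-Real.log (rel v a x * rel v b y)) = 0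
    rw [rel_one v a x hc1, rel_one v b y hc2, mul_one, Real.log_one, neg_zero]
    exact min_eq_right (log_Nv_pos v).le
  -- the abstract lemma
  have h6 := glob ((hun e).disjSum (hun e')) (Sum.elim (fun j => g j s) fun j => g' j s)
    (by
      intro j hj
      rcases Finset.mem_disjSum.1 hj with ⟨j1, hj1, rfl⟩ | ⟨j1, hj1, rfl⟩
      · exact hgne j1 hj1
      · exact hgne' j1 hj1) (fun _ => 1) 1 (fun _ _ => le_refl 1) Bd w hw0 hfin (by
      intro v hv j0 hj0 hc h0
      have hv1 : bad (n := 1) a κ μ ∉ v.asIdeal := fun h => hv (Finset.mem_union_left _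
        ((finite_dvd hbad1).mem_toFinset.2 h))
      have hv2 : bad (n := 1) b κ' μ' ∉ v.asIdeal := fun h => hv (Finset.mem_union_right _
        ((finite_dvd hbad2).mem_toFinset.2 h))
      have hNv1 := one_lt_Nv v
      have key : rel v a x * rel v b y ≤ (Ideal.absNorm v.asIdeal : ℝ)⁻¹ := by
        rcases Finset.mem_disjSum.1 hj0 with ⟨j, hj, rfl⟩ | ⟨j, hj, rfl⟩
        · have h7 := rel_le v a κ μ hv1 hLx hne j hc hj fun j' hj' hjj =>
            h0 (Sum.inl j') (Finset.inl_mem_disjSum.2 hj') fun h => hjj (Sum.inl_injective h)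
          calc rel v a x * rel v b y ≤ (Ideal.absNorm v.asIdeal : ℝ)⁻¹ * 1 :=
                mul_le_mul h7 (rel_le_one v b y) (rel_nonneg v b y) (by positivity)
            _ = _ := mul_one _
        · have h7 := rel_le v b κ' μ' hv2 hLy hne' j hc hj fun j' hj' hjj =>
            h0 (Sum.inr j') (Finset.inr_mem_disjSum.2 hj') fun h => hjj (Sum.inr_injective h)
          calc rel v a x * rel v b y ≤ 1 * (Ideal.absNorm v.asIdeal : ℝ)⁻¹ :=
                mul_le_mul (rel_le_one v a x) h7 (rel_nonneg v b y) zero_le_one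
            _ = _ := one_mul _
      rw [Nat.cast_one, one_mul]
      refine le_min (le_refl _) ?_
      have h8 := Real.log_le_log (mul_pos (hrx v) (hry v)) key
      rw [Real.log_inv] at h8
      linarith) 𝔞 𝔟 (by
      rw [Finset.prod_disjSum]
      exact hab) hsq hcop
  rw [Finset.sum_disjSum] at h6
  simp only [Sum.elim_inl, Sum.elim_inr, Nat.cast_one, one_mul] at h6
  have h7 : Real.log (max (Real.exp B * (C * C)) 1) = B + (Real.log C + Real.log C) := by
    have h1e : 1 ≤ Real.exp B * (C * C) := one_le_mul_of_one_le_of_one_le (Real.one_le_exp hB0)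
      (one_le_mul_of_one_le_of_one_le hC hC)
    rw [max_eq_left h1e, Real.log_mul (Real.exp_pos _).ne' (mul_pos hC0 hC0).ne', Real.log_exp,
      Real.log_mul hC0.ne' hC0.ne']
  rw [max_eq_left hC] at h4 h5
  have h8 : NG a b (fun k => X k s) (fun k => Y k s) = ∑ᶠ v, w v := rfl
  rw [h7, h8]
  linarith

end Grid

end Pool.Agent.Q183.AM
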