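import Pool.Agent.Q183.AM.Modes

/-!
The two notions of for most arguments in explicit form.
-/

set_option autoImplicit false

namespace Pool.Agent.Q183.AM

open Pool.Agent.Q183.AR

theorem aa_form {P : ℝ → ℕ → Prop} (h : mAA.A P) (η : ℝ) (hη : 0 < η) :
    ∃ (X : ℝ) (T z : ℕ), 0 ≤ X ∧ ∀ t n : ℕ, z ≤ t → T ≤ n →
      (({s | t ≤ s ∧ s < t + n ∧ ¬ P (Real.exp X) s}.ncard : ℕ) : ℝ) ≤ η * n := by
  obtain ⟨C, T, z, hC, h1⟩ := h η hη
  refine ⟨Real.log C, T, z, Real.log_nonneg hC, fun t n ht hn => ?_⟩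
  rw [Real.exp_log (by linarith)]
  exact h1 t n ht hn

theorem ee_form {P : ℝ → ℕ → Prop} (h : mEE.A P) (mono : MonoC P) (triv : ∀ s, ∃ C, P C s) (ε : ℝ)
    (hε : 0 < ε) : ∃ X : ℝ, 0 ≤ X ∧ ∀ s : ℕ, P (Real.exp (X + ε * s)) s := by
  obtain ⟨z, h1⟩ := h ε hε
  choose c hc using triv
  set X : ℝ := ∑ s ∈ Finset.range z, Real.log (max (c s) 1) with hX
  have hpos : ∀ s, 0 ≤ Real.log (max (c s) 1) := fun s => Real.log_nonneg (le_max_right _ _)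
  have hX0 : 0 ≤ X := Finset.sum_nonneg fun s _ => hpos s
  refine ⟨X, hX0, fun s => ?_⟩
  by_cases hsz : z ≤ s
  · refine mono _ _ s (Real.exp_le_exp.2 ?_) (h1 s hsz)
    linarith
  · rw [not_le] at hsz
    have h3 : Real.log (max (c s) 1) ≤ X :=
      Finset.single_le_sum (f := fun s => Real.log (max (c s) 1)) (fun s _ => hpos s)
        (Finset.mem_range.2 hsz)
    refine mono _ _ s ?_ (hc s)
    have h4 : max (c s) 1 = Real.exp (Real.log (max (c s) 1)) :=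
      (Real.exp_log (lt_of_lt_of_le one_pos (le_max_right _ _))).symm
    have h5 : c s ≤ max (c s) 1 := le_max_left _ _
    rw [h4] at h5
    refine h5.trans (Real.exp_le_exp.2 ?_)
    have : 0 ≤ ε * s := by positivity
    linarith

theorem ncard_form {P Q : ℕ → Prop} {t n : ℕ} {y : ℝ}
    (h : (({s | t ≤ s ∧ s < t + n ∧ ¬ P s}.ncard : ℕ) : ℝ) ≤ y) (hPQ : ∀ s, Q s → ¬ P s) :
    (({s | t ≤ s ∧ s < t + n ∧ Q s}.ncard : ℕ) : ℝ) ≤ y := by
  refine le_trans ?_ h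
  have h4 : {s | t ≤ s ∧ s < t + n ∧ Q s} ⊆ {s | t ≤ s ∧ s < t + n ∧ ¬ P s} := by
    rintro s ⟨k1, k2, k3⟩
    exact ⟨k1, k2, hPQ s k3⟩
  exact_mod_cast Set.ncard_le_ncard h4
    ((Set.finite_Ico t (t + n)).subset fun _ hs => ⟨hs.1, hs.2.1⟩)

end Pool.Agent.Q183.AM
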