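import Pool.Agent.Q183.AM.Cartan7
import Pool.Agent.Q183.AM.Forms

/-!
The truncated inequality for hyperplanes in general position, with exceptional hyperplanes which do
not depend on the places.
-/

set_option autoImplicit false

namespace Pool.Agent.Q183.AM

open Pool.Agent.Q183.AR
open NumberField Height IsDedekindDomain

variable {K : Type} [Field K] [NumberField K] {n : ℕ} {I J : Type} [Fintype I] [Fintype J]

/-- **The truncated inequality for hyperplanes in general position**, for most arguments, outside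
finitely many hyperplanes. -/
theorem hlog' (𝓜 : Mode) (hI : n + 1 ≤ Fintype.card I) (g : J → ℕ → 𝓞 K)
    (hg : ∀ j, ∃ E : LinearRecurrence (𝓞 K), E.IsSolution (g j))
    (X : Fin (n + 1) → ℕ → 𝓞 K) (hX : ∀ k, ∃ E : LinearRecurrence (𝓞 K), E.IsSolution (X k))
    (a : I → Fin (n + 1) → 𝓞 K)
    (hgen : ∀ B : Fin (n + 1) ↪ I, (Matrix.of fun i k => a (B i) k).det ≠ 0)
    (κ μ : I → 𝓞 K) (hμ : ∀ i, μ i ≠ 0) (e : I → J → ℕ)
    (hL : ∀ i t, ∑ k, a i k * X k t = hval κ μ g e i t) :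
    ∃ Z : Set (Fin (n + 1) → K), Z.Finite ∧ (∀ c ∈ Z, c ≠ 0) ∧
      ∀ T : Set (HeightOneSpectrum (𝓞 K)), T.Finite →
      𝓜.A fun C s => (∀ c ∈ Z, ∑ k, c k * (X k s : K) ≠ 0) →
        (∀ i, hval κ μ g e i s ≠ 0) ∧ TIneq T a g e X C s := by
  classical
  obtain ⟨M, hM, h⟩ := hheight (n := n) 𝓜 hI g hg X hX a hgen κ μ hμ e hL
  have hmon : ∀ (ρ : ℕ) (c : Fin (n + 1) → K), MonoC fun C s => s ≡ ρ [MOD M] →
      ∑ k, c k * (X k s : K) ≠ 0 → (∀ i, hval κ μ g e i s ≠ 0) ∧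
        mulHeight (fun k => (X k s : K)) ^ (Fintype.card I - (n + 1)) ≤
          C * ∏ j, |((Algebra.norm ℚ (g j s : K) : ℚ) : ℝ)| ^ hloss n e j :=
    fun ρ c C C' s hCC h2 h3 h4 => ⟨(h2 h3 h4).1, (h2 h3 h4).2.trans
      (mul_le_mul_of_nonneg_right hCC (Finset.prod_nonneg fun _ _ => pow_nonneg (abs_nonneg _) _))⟩
  have hcl : ∀ ρ : ℕ, ∃ c : Fin (n + 1) → K, c ≠ 0 ∧
      𝓜.A fun C s => s ≡ ρ [MOD M] → ∑ k, c k * (X k s : K) ≠ 0 →
        (∀ i, hval κ μ g e i s ≠ 0) ∧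
        mulHeight (fun k => (X k s : K)) ^ (Fintype.card I - (n + 1)) ≤
          C * ∏ j, |((Algebra.norm ℚ (g j s : K) : ℚ) : ℝ)| ^ hloss n e j := by
    intro ρ
    rcases h ρ with ⟨c, z, hc, h1⟩ | h1
    · exact ⟨c, hc, 𝓜.large 1 z (hmon ρ c) fun s hs hsρ h2 => absurd (h1 s hs hsρ) h2⟩
    · exact ⟨fun _ => 1, fun h0 => one_ne_zero (congrFun h0 0),
        𝓜.imp h1 (fun C => C) 0 PolyB.id (hmon ρ _) fun C s hC _ h2 hsρ _ => h2 hsρ⟩
  choose c hc0 hc using hcl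
  have hall := 𝓜.all (fun ρ : Fin M => hc ρ) (fun ρ => hmon ρ _)
  refine ⟨Set.range fun ρ : Fin M => c ρ, Set.finite_range _, ?_, fun T hT => ?_⟩
  · rintro _ ⟨ρ, rfl⟩
    exact hc0 ρ
  obtain ⟨B, hB1, hB⟩ := tineq_of (n := n) hI a hgen κ μ hμ g e T hT X hL
  refine 𝓜.imp hall (fun C => B * C) 0 ((PolyB.const _).mul PolyB.id (fun C hC => by linarith))
    (fun C C' s hCC h2 h3 => ⟨(h2 h3).1, tineq_mono T a g e X C C' s hCC (h2 h3).2⟩)
    fun C s hC _ h1 h2 => ?_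
  obtain ⟨h3, h4⟩ := h1 ⟨s % M, Nat.mod_lt _ hM⟩ (Nat.mod_modEq s M).symm (h2 _ ⟨_, rfl⟩)
  exact ⟨h3, hB C s hC h3 h4⟩

end Pool.Agent.Q183.AM
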