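import Pool.Agent.Q183.AM.Main
import Pool.Agent.Q183.AR.GCor
import Pool.Agent.Q183.AR.NF

/-!
Corollaries of the inequality for most arguments: maxima of the terms, ideals.
-/

set_option autoImplicit false

namespace Pool.Agent.Q183.AM

open Pool.Agent.Q183.AR
open NumberField

/-- the terms as linear forms in the first `N` terms -/
def rowz (N : ℕ) (i : Fin (N + 1)) (k : Fin N) : ℤ :=
  if i = Fin.last N then -1 else if i = k.castSucc then 1 else 0

theorem rowz_cast {N : ℕ} (i : Fin (N + 1)) (k : Fin N) : ((rowz N i k : ℤ) : ℂ) = row N i k := by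
  unfold rowz row
  split_ifs <;> norm_num

theorem rowz_det {N : ℕ} (i0 : Fin (N + 1)) :
    (Matrix.of fun (j k : Fin N) => rowz N (i0.succAbove j) k).det ≠ 0 := by
  intro h0
  apply row_det i0
  have h1 : (Matrix.of fun (j k : Fin N) => row N (i0.succAbove j) k) =
      (Int.castRingHom ℂ).mapMatrix (Matrix.of fun (j k : Fin N) => rowz N (i0.succAbove j) k) := by
    ext j k
    simp only [Matrix.of_apply, RingHom.mapMatrix_apply, Matrix.map_apply, eq_intCast, rowz_cast]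
  rw [h1, ← RingHom.map_det, h0, map_zero]

/-- **The abc type inequality for linear recurrences**, for most arguments, in the ideal form. -/
theorem mabc (𝓜 : Mode) {R K : Type} [CommRing R] [Algebra.IsIntegral ℤ R] [Field K] [NumberField K]
    [Algebra R K] {N : ℕ} (hN : 0 < N) {J : Type} [Fintype J] (g : J → ℕ → R)
    (hg : ∀ j, ∃ E : LinearRecurrence R, E.IsSolution (g j))
    (κ μ : Fin (N + 1) → R) (hμ : ∀ i, algebraMap R K (μ i) ≠ 0)
    (e : Fin (N + 1) → J → ℕ) (m : J → ℕ) (x : Fin (N + 1) → J → ℕ) (hm : ∀ i j, m j ≤ e i j)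
    (hx : ∀ i0 j, ∀ σ : Equiv.Perm (Fin N),
      ∑ k : Fin N, min (e (i0.succAbove (σ k)) j - m j) k ≤ x i0 j)
    (hsum : ∀ t, algebraMap R K (∑ i, κ i * μ i ^ t * ∏ j, g j t ^ e i j) = 0) :
    ∃ M : ℕ, 0 < M ∧ ∀ ρ : ℕ,
      (∃ (c : Fin (N + 1) → K) (z : ℕ), c (Fin.last N) = 0 ∧ c ≠ 0 ∧ ∀ t, z ≤ t → t ≡ ρ [MOD M] →
        ∑ i, c i * algebraMap R K (κ i * μ i ^ t * ∏ j, g j t ^ e i j) = 0) ∨
      𝓜.A fun C s => s ≡ ρ [MOD M] →
        (∀ i, algebraMap R K (κ i * μ i ^ s * ∏ j, g j s ^ e i j) ≠ 0) ∧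
        ∀ v : Fin (N + 1) → R,
          algebraMap R K (∑ i, v i * (κ i * μ i ^ s * ∏ j, g j s ^ e i j) *
            ∏ j, g j s ^ x i j) ≠ 0 →
          ∀ η : (K →ₐ[ℚ] ℂ) → Fin (N + 1),
            ∏ σ : K →ₐ[ℚ] ℂ, ‖σ (algebraMap R K (κ (η σ) * μ (η σ) ^ s * ∏ j, g j s ^ e (η σ) j))‖ ≤
              C * ∏ σ : K →ₐ[ℚ] ℂ,
                ‖σ (algebraMap R K (∑ i, v i * (κ i * μ i ^ s * ∏ j, g j s ^ e i j) *
                  ∏ j, g j s ^ x i j))‖ := by
  classical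
  obtain ⟨M, hM, h⟩ := mmain 𝓜 (K := K) hN g hg κ μ hμ e m x hm hx hsum
  refine ⟨M, hM, fun ρ => ?_⟩
  rcases h ρ with h1 | h1
  · exact Or.inl h1
  right
  have h2 := 𝓜.all (fun η : (K →ₐ[ℚ] ℂ) → Fin (N + 1) =>
    h1 (fun σ => Matrix.of fun (j k : Fin N) => rowz N ((η σ).succAbove j) k)
      (fun σ => rowz_det (η σ))) (fun η C C' s hCC h hs => ⟨(h hs).1, fun v h3 =>
        ((h hs).2 v h3).trans (mul_le_mul_of_nonneg_right (mul_le_mul_of_nonneg_right hCC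
          (Finset.prod_nonneg fun _ _ => norm_nonneg _))
          (Finset.prod_nonneg fun _ _ => Finset.prod_nonneg fun _ _ => norm_nonneg _))⟩)
  refine 𝓜.imp h2 (fun C => C) 0 PolyB.id (fun C C' s hCC h hs => ⟨(h hs).1, fun v h3 η =>
        ((h hs).2 v h3 η).trans (mul_le_mul_of_nonneg_right hCC
          (Finset.prod_nonneg fun _ _ => norm_nonneg _))⟩) fun C s hC _ h3 hs => ?_
  refine ⟨(h3 (fun _ => 0) hs).1, fun v hδ η => ?_⟩
  obtain ⟨h4, h5⟩ := h3 η hs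
  have h6 := h5 v hδ
  set a : Fin (N + 1) → K := fun i => algebraMap R K (κ i * μ i ^ s * ∏ j, g j s ^ e i j) with ha
  have hasum : ∀ σ : K →ₐ[ℚ] ℂ, ∑ i, σ (a i) = 0 := by
    intro σ
    rw [← map_sum]
    simp only [ha]
    rw [← map_sum, hsum s, map_zero]
  have h7 : ∏ σ : K →ₐ[ℚ] ℂ, ∏ j : Fin N, ‖∑ k : Fin N,
      (((Matrix.of fun (j k : Fin N) => rowz N ((η σ).succAbove j) k) j k : ℤ) : ℂ) *
        σ (a k.castSucc)‖ =
      ∏ σ : K →ₐ[ℚ] ℂ, ∏ j : Fin N, ‖σ (a ((η σ).succAbove j))‖ := by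
    refine Finset.prod_congr rfl fun σ _ => Finset.prod_congr rfl fun j _ => ?_
    simp only [Matrix.of_apply, rowz_cast]
    rw [row_sum (fun i => σ (a i)) (hasum σ)]
  rw [h7, Finset.prod_comm, Finset.prod_congr rfl fun σ _ => Fin.prod_univ_succAbove
    (fun i => ‖σ (a i)‖) (η σ), Finset.prod_mul_distrib] at h6
  set Z := ∏ σ : K →ₐ[ℚ] ℂ, ∏ j : Fin N, ‖σ (a ((η σ).succAbove j))‖ with hZ
  have hZ0 : 0 < Z := Finset.prod_pos fun σ _ => Finset.prod_pos fun j _ => norm_pos_iff.2 (by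
    rw [map_ne_zero]
    exact h4 _)
  exact le_of_mul_le_mul_right h6 hZ0

end Pool.Agent.Q183.AM
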