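import Pool.Agent.Q183.AM.Mode

/-!
The inequality for exponential polynomials over a number field, for most arguments, in the ideal form.
-/

set_option autoImplicit false

namespace Pool.Agent.Q183.AM

open AddMonoidAlgebra Filter
open Pool.Agent.Q183.AR

variable {L : Type} [Field L] [NumberField L] {r N : ℕ}

/-- **The inequality**, for most arguments. -/
theorem mcore (𝓜 : Mode) {γ : Fin r → Lˣ} (hγ : Ind γ) {J : Type} [Fintype J]
    (G : J → EP L r) (U : Fin (N + 1) → EP L r)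
    (hG : ∀ j, G j ∈ Bi γ)
    (hU : ∀ (ℓ : Ex r →+ ℤ) i, ∃ u : ℤ, D ℓ (U i) = (u : EP L r) * U i)
    (e x : Fin (N + 1) → J → ℕ)
    (hx : ∀ i0 j, ∀ σ : Equiv.Perm (Fin N),
      ∑ k : Fin N, min (e (i0.succAbove (σ k)) j) k ≤ x i0 j)
    (hsum : ∑ i, U i * ∏ j, G j ^ e i j = 0)
    (hne : ∀ i, U i * ∏ j, G j ^ e i j ≠ 0)
    (hind : LinearIndependent L fun k : Fin N =>
      U ((Fin.last N).succAbove k) * ∏ j, G j ^ e ((Fin.last N).succAbove k) j)
    (Λ : (L →ₐ[ℚ] ℂ) → Matrix (Fin N) (Fin N) ℤ) (hΛ : ∀ τ, (Λ τ).det ≠ 0) :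
    𝓜.A fun C s => (∀ i, ev γ (U i) s * ∏ j, ev γ (G j) s ^ e i j ≠ 0) ∧
      ∀ v : Fin (N + 1) → L, (∀ i, IsIntegral ℤ (v i)) →
        ∑ i, v i * (ev γ (U i) s * ∏ j, ev γ (G j) s ^ e i j) * ∏ j, ev γ (G j) s ^ x i j ≠ 0 →
          ∏ i, Nt (ev γ (U i) s * ∏ j, ev γ (G j) s ^ e i j) ≤
            C * Nt (∑ i, v i * (ev γ (U i) s * ∏ j, ev γ (G j) s ^ e i j) *
              ∏ j, ev γ (G j) s ^ x i j) *
              ∏ τ : L →ₐ[ℚ] ℂ, ∏ j : Fin N, ‖∑ k : Fin N, (Λ τ j k : ℂ) *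
                τ (ev γ (U k.castSucc) s * ∏ j, ev γ (G j) s ^ e k.castSucc j)‖ := by
  classical
  set A : Fin (N + 1) → EP L r := fun i => U i * ∏ j, G j ^ e i j with hAdef
  set a : Fin (N + 1) → ℕ → L := fun i s => ev γ (U i) s * ∏ j, ev γ (G j) s ^ e i j with ha
  have hev2 : ∀ i s, ev γ (A i) s = a i s := by
    intro i s
    simp only [hAdef, ha, map_mul, map_prod, map_pow, Pi.mul_apply, Finset.prod_apply, Pi.pow_apply]
  -- the Wronskian
  obtain ⟨ℓ, hℓ⟩ := exists_sep (Finset.univ.biUnion fun i => (A i).coeff.support)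
  set W := Wi ℓ A (Fin.last N) with hW
  have hWne : W ≠ 0 := by
    rw [hW, Wi]
    exact wr_ne (A := fun k : Fin N => A ((Fin.last N).succAbove k)) hind
      (S := Finset.univ.biUnion fun i => (A i).coeff.support)
      (fun i => Finset.subset_biUnion_of_mem (fun i => (A i).coeff.support) (Finset.mem_univ _)) hℓ
  choose sg hsg using fun i0 => Wi_sign ℓ (A := A) hsum (Fin.last N) i0
  -- divisibility
  have hH : ∀ i0, ∃ H ∈ Bi γ, (∏ j, G j ^ x i0 j) * Wi ℓ A i0 =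
      (∏ k : Fin N, A (i0.succAbove k)) * H := by
    intro i0
    obtain ⟨H, h1, h2⟩ := Wi_dvd ℓ hG (hU ℓ) e (x i0) (hx i0)
    exact ⟨H, h1, h2⟩
  choose H hHB hH using hH
  choose d hd0 hd using fun i0 => Bi_int (hHB i0)
  set d' : ℤ := ∏ i, d i with hd'
  have hd'0 : d' ≠ 0 := Finset.prod_ne_zero_iff.2 fun i _ => hd0 i
  have hd'' : ∀ i t, IsIntegral ℤ ((d' : L) * ev γ (H i) t) := by
    intro i t
    have h1 : (d' : L) = ((∏ k ∈ Finset.univ.erase i, d k : ℤ) : L) * (d i : L) := by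
      rw [hd', ← Finset.mul_prod_erase _ _ (Finset.mem_univ i)]
      push_cast
      ring
    rw [h1, mul_assoc]
    exact (isIntegral_algebraMap (R := ℤ) (x := (∏ k ∈ Finset.univ.erase i, d k : ℤ))).mul (hd i t)
  have hd'L : (d' : L) ≠ 0 := by exact_mod_cast hd'0
  -- most arguments
  have c1 : 𝓜.A fun _ s => ∀ i, ev γ (A i) s ≠ 0 :=
    𝓜.all (fun i => 𝓜.ne hγ (hne i)) fun i C C' s _ h => h
  have c2 : 𝓜.A fun _ s => ev γ W s ≠ 0 := 𝓜.ne hγ hWne
  have m3 : MonoC fun C s => ∀ τ : L →ₐ[ℚ] ℂ, ‖(τ : L →+* ℂ) (ev γ W s)‖ ≤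
      C * ∏ j, ‖∑ k, (Λ τ j k : ℂ) * (τ : L →+* ℂ) (ev γ (A ((Fin.last N).succAbove k)) s)‖ :=
    fun C C' s hCC h τ => (h τ).trans
      (mul_le_mul_of_nonneg_right hCC (Finset.prod_nonneg fun _ _ => norm_nonneg _))
  have c3 : 𝓜.A fun C s => ∀ τ : L →ₐ[ℚ] ℂ, ‖(τ : L →+* ℂ) (ev γ W s)‖ ≤
      C * ∏ j, ‖∑ k, (Λ τ j k : ℂ) * (τ : L →+* ℂ) (ev γ (A ((Fin.last N).succAbove k)) s)‖ :=
    𝓜.all (fun τ : L →ₐ[ℚ] ℂ => 𝓜.wub hγ (τ : L →+* ℂ)
    (fun k : Fin N => A ((Fin.last N).succAbove k)) ℓ (Λ τ) (hΛ τ)) fun τ C C' s hCC h => h.trans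
      (mul_le_mul_of_nonneg_right hCC (Finset.prod_nonneg fun _ _ => norm_nonneg _))
  have hdim : (Fintype.card (L →ₐ[ℚ] ℂ)) = Fintype.card (L →ₐ[ℚ] ℂ) := rfl
  refine 𝓜.imp (𝓜.and c1 (𝓜.and c2 c3 (fun _ _ _ _ h => h) m3) (fun _ _ _ _ h => h)
      (fun C C' s hCC h => ⟨h.1, m3 C C' s hCC h.2⟩))
    (fun C => Nt (d' : L) * C ^ Fintype.card (L →ₐ[ℚ] ℂ)) 0
    ((PolyB.const _).mul (PolyB.id.pow (fun C hC => by linarith) _)
      (fun C hC => pow_nonneg (by linarith) _)) ?_ ?_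
  · rintro C C' s hCC ⟨h1, h2⟩
    refine ⟨h1, fun v hv hδ => (h2 v hv hδ).trans ?_⟩
    refine mul_le_mul_of_nonneg_right (mul_le_mul_of_nonneg_right hCC (Nt_nonneg _))
      (Finset.prod_nonneg fun _ _ => Finset.prod_nonneg fun _ _ => norm_nonneg _)
  rintro C s hC - ⟨has, hWs, hWub⟩
  have has' : ∀ i, a i s ≠ 0 := fun i => by
    rw [← hev2]
    exact has i
  refine ⟨has', fun v hv hδ => ?_⟩
  set g : J → L := fun j => ev γ (G j) s with hg
  set δ := ∑ i, v i * a i s * ∏ j, g j ^ x i j with hδdef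
  -- the main identity
  set y : L := ∑ i, v i * (sg i • ev γ (H i) s) with hy
  have hid : δ * ev γ W s = (∏ i, a i s) * y := by
    rw [hδdef, Finset.sum_mul, hy, Finset.mul_sum]
    refine Finset.sum_congr rfl fun i _ => ?_
    have h1 := congrArg (fun F => ev γ F s) (hH i)
    simp only [map_mul, map_prod, map_pow, Pi.mul_apply, Finset.prod_apply, Pi.pow_apply,
      hev2] at h1
    have h2 : ev γ W s = sg i • ev γ (Wi ℓ A i) s := by
      rw [hW, hsg i]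
      rcases Int.units_eq_one_or (sg i) with h | h
      · rw [h, one_smul, one_smul]
      · rw [h, Units.neg_smul, one_smul, Units.neg_smul, one_smul, map_neg]
        rfl
    have h3 : ∏ i, a i s = a i s * ∏ k : Fin N, a (i.succAbove k) s :=
      Fin.prod_univ_succAbove _ i
    rw [h2, h3]
    rcases Int.units_eq_one_or (sg i) with h | h
    · rw [h, one_smul, one_smul]
      linear_combination (v i * a i s) * h1
    · rw [h, Units.neg_smul, one_smul, Units.neg_smul, one_smul]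
      linear_combination (-(v i * a i s)) * h1
  have hyne : y ≠ 0 := by
    intro h0
    rw [h0, mul_zero] at hid
    exact mul_ne_zero hδ hWs hid
  have hyint : IsIntegral ℤ ((d' : L) * y) := by
    rw [hy, Finset.mul_sum]
    refine IsIntegral.sum _ fun i _ => ?_
    rcases Int.units_eq_one_or (sg i) with h | h
    · rw [h, one_smul]
      have : (d' : L) * (v i * ev γ (H i) s) = v i * (d' * ev γ (H i) s) := by ring
      rw [this]
      exact (hv i).mul (hd'' i s)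
    · rw [h, Units.neg_smul, one_smul]
      have : (d' : L) * (v i * -ev γ (H i) s) = -(v i * (d' * ev γ (H i) s)) := by ring
      rw [this]
      exact ((hv i).mul (hd'' i s)).neg
  set X := ∏ τ : L →ₐ[ℚ] ℂ, ∏ j : Fin N, ‖∑ k : Fin N, (Λ τ j k : ℂ) *
    τ (ev γ (U k.castSucc) s * ∏ j, ev γ (G j) s ^ e k.castSucc j)‖ with hX
  have hX0 : 0 ≤ X := Finset.prod_nonneg fun _ _ => Finset.prod_nonneg fun _ _ => norm_nonneg _
  have hNW : Nt (ev γ W s) ≤ C ^ Fintype.card (L →ₐ[ℚ] ℂ) * X := by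
    have e1 : C ^ Fintype.card (L →ₐ[ℚ] ℂ) = ∏ _τ : L →ₐ[ℚ] ℂ, C := by
      rw [Finset.prod_const, Finset.card_univ]
    unfold Nt
    rw [e1, hX, ← Finset.prod_mul_distrib]
    refine Finset.prod_le_prod (fun τ _ => norm_nonneg _) fun τ _ => ?_
    refine (hWub τ).trans (le_of_eq ?_)
    congr 1
    refine Finset.prod_congr rfl fun j _ => ?_
    congr 1
    refine Finset.sum_congr rfl fun k _ => ?_
    rw [hev2, Fin.succAbove_last]
    rfl
  have h1 := congrArg (fun z => Nt (z * (d' : L))) hid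
  simp only [Nt_mul, Nt_prod] at h1
  have h2 := one_le_Nt hyint (mul_ne_zero hd'L hyne)
  rw [Nt_mul] at h2
  have h3 : 0 ≤ ∏ i, Nt (a i s) := Finset.prod_nonneg fun i _ => Nt_nonneg _
  have h4 : 0 ≤ Nt δ * Nt (d' : L) := mul_nonneg (Nt_nonneg _) (Nt_nonneg _)
  calc ∏ i, Nt (a i s) ≤ (∏ i, Nt (a i s)) * (Nt (d' : L) * Nt y) :=
        le_mul_of_one_le_right h3 h2
    _ = (∏ i, Nt (a i s)) * Nt y * Nt (d' : L) := by ring
    _ = Nt δ * Nt (d' : L) * Nt (ev γ W s) := by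
      rw [← h1]
      ring
    _ ≤ Nt δ * Nt (d' : L) * (C ^ Fintype.card (L →ₐ[ℚ] ℂ) * X) :=
      mul_le_mul_of_nonneg_left hNW h4
    _ = _ := by ring

end Pool.Agent.Q183.AM
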