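import Pool.Agent.Q183.AM.J3
import Pool.Agent.Q103.SDJ.Glob

/-!
Invariants of elliptic curves given by products of powers of linear recurrences: heights, the
minimal discriminant and the conductor.
-/

set_option autoImplicit false

namespace Pool.Agent.Q183.AM

open Pool.Agent.Q183.AR
open NumberField Height IsDedekindDomain
open Pool.Agent.W223.CV (cc)
open Pool.Agent.Q103.SDV (Bad IsJ scount scount_eq AddP log_mob_le bad_finite)
open Pool.Agent.Y733.FF (discSum multN addN)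
open Pool.Agent.TH876.FH (IsPeriod arch)

variable {K : Type} [Field K] [NumberField K] {J : Type} [Fintype J]

/-- the inequality for the height of the invariant -/
def HIneq (κ μ : Fin 3 → 𝓞 K) (g : J → ℕ → 𝓞 K) (e : Fin 3 → J → ℕ) (C : ℝ) (s : ℕ) : Prop :=
  (∀ i, term κ μ g e i s ≠ 0) ∧ ∀ 𝔞 𝔟 : Ideal (𝓞 K),
    Ideal.span {∏ j ∈ unequal e, g j s} = 𝔞 * 𝔟 → Squarefree 𝔞 → IsCoprime 𝔞 𝔟 →
      logHeight₁ (jv κ μ g e s) ≤ cc ∅ (Bad fun i => term κ μ g e i s) +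
        Real.log (Ideal.absNorm 𝔟) + Real.log (max C 1)

theorem hineq_mono (κ μ : Fin 3 → 𝓞 K) (g : J → ℕ → 𝓞 K) (e : Fin 3 → J → ℕ) :
    MonoC (HIneq κ μ g e) := by
  rintro C C' s hCC ⟨h1, h3⟩
  refine ⟨h1, fun 𝔞 𝔟 h4 h5 h6 => (h3 𝔞 𝔟 h4 h5 h6).trans ?_⟩
  have h7 : Real.log (max C 1) ≤ Real.log (max C' 1) :=
    Real.log_le_log (lt_of_lt_of_le one_pos (le_max_right _ _)) (max_le_max hCC (le_refl _))
  linarith

theorem hcore (𝓜 : Mode) (g : J → ℕ → 𝓞 K)
    (hg : ∀ j, ∃ E : LinearRecurrence (𝓞 K), E.IsSolution (g j)) (κ μ : Fin 3 → 𝓞 K)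
    (hμ : ∀ i, μ i ≠ 0) (e : Fin 3 → J → ℕ) (hsum : ∀ t, ∑ i, term κ μ g e i t = 0) :
    ∃ Λ : Set K, Λ.Finite ∧
      𝓜.A fun C s => term κ μ g e 2 s ≠ 0 → jv κ μ g e s ∉ Λ → HIneq κ μ g e C s := by
  classical
  obtain ⟨M, hM, h⟩ := mheight3 𝓜 g hg κ μ hμ e hsum
  obtain ⟨B, hB0, hB⟩ := near_rad κ μ hμ g e
  set d : ℝ := ((Module.finrank ℚ K : ℕ) : ℝ) with hd
  have hd0 : 0 ≤ d := Nat.cast_nonneg _
  have l1 : 0 ≤ Real.log 1728 := Real.log_nonneg (by norm_num)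
  set D : ℝ := B + d * Real.log 1728 with hD
  have hD0 : 0 ≤ D := by positivity
  -- the value on a class
  have hval : ∀ ρ : ℕ, ∃ w : K, (𝓜.A fun C s => s ≡ ρ [MOD M] → term κ μ g e 2 s ≠ 0 →
      jv κ μ g e s ≠ w → HIneq κ μ g e C s) := by
    intro ρ
    rcases h ρ with ⟨c₀, c₁, z, hc, h1⟩ | h1
    · refine ⟨1728 * c₁ / (c₀ + c₁), 𝓜.large 1 z (fun C C' s hCC h2 h3 h4 h5 =>
        hineq_mono κ μ g e C C' s hCC (h2 h3 h4 h5)) fun s hs hsρ h2 h3 => absurd ?_ h3⟩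
      have h4 := h1 s hs hsρ
      have h5 : (term κ μ g e 0 s : K) + (term κ μ g e 1 s : K) + (term κ μ g e 2 s : K) = 0 := by
        have := hsum s
        rw [Fin.sum_univ_three] at this
        exact_mod_cast congrArg (algebraMap (𝓞 K) K) this
      have h2' : (term κ μ g e 2 s : K) ≠ 0 := RingOfIntegers.coe_ne_zero_iff.mpr h2
      have h6 : (c₀ + c₁) * (term κ μ g e 0 s : K) = -(c₁ * (term κ μ g e 2 s : K)) := by
        linear_combination h4 + c₁ * h5
      have h7 : c₀ + c₁ ≠ 0 := by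
        intro h0
        rw [h0, zero_mul] at h6
        have h8 : c₁ = 0 := (mul_eq_zero.1 (neg_eq_zero.1 h6.symm)).resolve_right h2'
        rw [h8, add_zero] at h0
        rcases hc with hc | hc
        · exact hc h0
        · exact hc h8
      unfold jv
      rw [← neg_div, div_eq_div_iff h2' h7]
      linear_combination (-1728) * h6
    · refine ⟨0, 𝓜.imp h1 (fun C => Real.exp D * C) 0 ((PolyB.const _).mul PolyB.id
        (fun C hC => by linarith)) (fun C C' s hCC h2 h3 h4 h5 =>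
        hineq_mono κ μ g e C C' s hCC (h2 h3 h4 h5)) fun C s hC _ h2 hsρ h4 _ => ?_⟩
      obtain ⟨hne, hh⟩ := h2 hsρ
      set P : Fin 3 → 𝓞 K := fun i => term κ μ g e i s with hP
      set j := jv κ μ g e s with hj
      have hPK : ∀ k, (P k : K) ≠ 0 := fun k => RingOfIntegers.coe_ne_zero_iff.mpr (hne k)
      refine ⟨hne, fun 𝔞 𝔟 hab hsq hcop => ?_⟩
      have k2 := hB s hne 𝔞 𝔟 hab hsq hcop
      have hy : (j / 1728) * (P 2 : K) = -(P 0 : K) := by
        rw [hj]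
        unfold jv
        have := hPK 2
        simp only [hP] at this ⊢
        field_simp
      have k3 := log_mob_le P hne _ hy
      have h1728 : (1728 : K) ≠ 0 := by norm_num
      have k5 : logHeight₁ j ≤ logHeight₁ (j / 1728) + d * Real.log 1728 := by
        have h := logHeight₁_mul_le (j / 1728) (1728 : K)
        rw [div_mul_cancel₀ _ h1728, height_1728] at h
        exact h
      have hC0 : 0 < C := by linarith
      have hhp : 1 ≤ mulHeight (fun i => (P i : K)) := one_le_mulHeight _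
      have hPr : 0 < ∏ j ∈ unequal e, |((Algebra.norm ℚ (g j s : K) : ℚ) : ℝ)| :=
        (mul_pos_iff_of_pos_left hC0).1 (lt_of_lt_of_le (lt_of_lt_of_le one_pos hhp) hh)
      have k6 : logHeight (fun i => (P i : K)) ≤ Real.log C +
          Real.log (∏ j ∈ unequal e, |((Algebra.norm ℚ (g j s : K) : ℚ) : ℝ)|) := by
        rw [logHeight_eq_log_mulHeight, ← Real.log_mul hC0.ne' hPr.ne']
        exact Real.log_le_log (by linarith) hh
      have k7 : Real.log (max (Real.exp D * C) 1) = D + Real.log C := by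
        have h1e : 1 ≤ Real.exp D * C := one_le_mul_of_one_le_of_one_le (Real.one_le_exp hD0) hC
        rw [max_eq_left h1e, Real.log_mul (Real.exp_pos _).ne' hC0.ne', Real.log_exp]
      rw [k7, hD]
      linarith
  choose w hw using hval
  refine ⟨Set.range fun ρ : Fin M => w ρ, Set.finite_range _, ?_⟩
  refine 𝓜.imp (𝓜.all (fun ρ : Fin M => hw ρ) (fun ρ C C' s hCC h1 h2 h3 h4 =>
      hineq_mono κ μ g e C C' s hCC (h1 h2 h3 h4)))
    (fun C => C) 0 PolyB.id (fun C C' s hCC h1 h2 h3 =>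
      hineq_mono κ μ g e C C' s hCC (h1 h2 h3)) fun C s hC _ h1 h2 h3 => ?_
  exact h1 ⟨s % M, Nat.mod_lt _ hM⟩ (Nat.mod_modEq s M).symm h2 fun h4 => h3 ⟨_, h4.symm⟩

end Pool.Agent.Q183.AM

namespace Pool.Agent.Q183.AM.FT

open NumberField IsDedekindDomain Height Pool.Agent.H691R3 Pool.Agent.W223.AK Pool.Agent.Y733.LS
open Pool.Agent.Y733.FF
open Pool.Agent.TH876.FH (GoodAt IsPeriod arch)

/-- all curves -/
theorem frey_trivial : ∃ C : ℝ, 0 < C ∧ ∀ (K : Type) [Field K] [NumberField K]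
    (E : WeierstrassCurve K) (τ : InfinitePlace K → UpperHalfPlane),
    E.Δ ≠ 0 → IsPeriod (E.c₄ ^ 3 / E.Δ) τ →
    discSum E + ∑ w : InfinitePlace K, (w.mult : ℝ) * arch (τ w) ≤
      logHeight₁ (E.c₄ ^ 3 / E.Δ) + 6 * (Real.log (multN E) + Real.log (addN E)) +
        C * Module.finrank ℚ K := by
  obtain ⟨c, hc0, hc⟩ := arch_le
  have l6 : 0 < Real.log 6 := Real.log_pos (by norm_num)
  refine ⟨c + 22 * Real.log 6, by positivity, ?_⟩
  intro K _ _ E τ hE hτ
  have h1 := disc_sum_le E hE (δ := 0) (le_refl 0) (by norm_num)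
  have h2 := hc K _ τ hτ
  have h3 : logHeight₁ (E.c₄ ^ 3 / E.Δ) =
      ∑ w : InfinitePlace K, (w.mult : ℝ) * Real.log (max (w (E.c₄ ^ 3 / E.Δ)) 1) +
      ∑ᶠ v : HeightOneSpectrum (𝓞 K), Real.log (max (FinitePlace.mk v (E.c₄ ^ 3 / E.Δ)) 1) := by
    rw [logHeight_eq]
    rfl
  have h5 : ∑ᶠ v : Pr K, Real.log (max (fv v (E.c₄ ^ 3 / E.Δ)) 1) =
    ∑ᶠ v : HeightOneSpectrum (𝓞 K), Real.log (max (FinitePlace.mk v (E.c₄ ^ 3 / E.Δ)) 1) := rfl
  rw [h5] at h1
  have h6 : 0 ≤ sp (E.c₄ ^ 3 / E.Δ) := by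
    unfold sp
    exact finsum_nonneg fun v => by split_ifs; exacts [Real.log_natCast_nonneg _, le_refl _]
  have h7 := log_multN_nonneg E hE
  have h8 : 0 ≤ Real.log (addN E) := by
    rw [log_addN E hE]
    exact mul_nonneg (by norm_num) (finsum_nonneg fun v => aw_nonneg v E)
  nlinarith

end Pool.Agent.Q183.AM.FT
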