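import Pool.Agent.Q183.AM.H3

/-!
Frey's inequality for the elliptic curves with invariants given by products of powers of linear
recurrences.
-/

set_option autoImplicit false

namespace Pool.Agent.Q183.AM

open Pool.Agent.Q183.AR
open NumberField Height IsDedekindDomain
open Pool.Agent.W223.CV (cc)
open Pool.Agent.Q103.SDV (Bad IsJ)
open Pool.Agent.Y733.FF (discSum multN addN multN_pos addN_pos)
open Pool.Agent.TH876.FH (IsPeriod arch)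

variable {K : Type} [Field K] [NumberField K] {J : Type} [Fintype J]

/-- Frey's inequality with a constant -/
def FIneq (κ μ : Fin 3 → 𝓞 K) (g : J → ℕ → 𝓞 K) (e : Fin 3 → J → ℕ) (C : ℝ) (s : ℕ) : Prop :=
  ∀ (E : WeierstrassCurve K) (τ : InfinitePlace K → UpperHalfPlane), E.Δ ≠ 0 →
    E.c₄ ^ 3 / E.Δ = jv κ μ g e s → IsPeriod (jv κ μ g e s) τ → ∀ 𝔞 𝔟 : Ideal (𝓞 K),
    Ideal.span {∏ j ∈ unequal e, g j s} = 𝔞 * 𝔟 → Squarefree 𝔞 → IsCoprime 𝔞 𝔟 →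
      discSum E + ∑ w : InfinitePlace K, (w.mult : ℝ) * arch (τ w) ≤
        6 * (Real.log (multN E) + Real.log (addN E)) + 6 * Real.log (Ideal.absNorm 𝔟) +
          Real.log (max C 1)

theorem fineq_mono (κ μ : Fin 3 → 𝓞 K) (g : J → ℕ → 𝓞 K) (e : Fin 3 → J → ℕ) :
    MonoC (FIneq κ μ g e) := by
  intro C C' s hCC h1 E τ h2 h3 h4 𝔞 𝔟 h5 h6 h7
  refine (h1 E τ h2 h3 h4 𝔞 𝔟 h5 h6 h7).trans ?_
  have h8 : Real.log (max C 1) ≤ Real.log (max C' 1) :=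
    Real.log_le_log (lt_of_lt_of_le one_pos (le_max_right _ _)) (max_le_max hCC (le_refl _))
  linarith

/-- a bounded invariant -/
theorem fineq_triv : ∃ D : ℝ, 0 ≤ D ∧ ∀ (κ μ : Fin 3 → 𝓞 K) (g : J → ℕ → 𝓞 K)
    (e : Fin 3 → J → ℕ) (s : ℕ) (H : ℝ), 0 ≤ H → logHeight₁ (jv κ μ g e s) ≤ H →
      FIneq κ μ g e (Real.exp (D + H)) s := by
  obtain ⟨C, hC, h⟩ := FT.frey_trivial
  refine ⟨C * Module.finrank ℚ K, by positivity, fun κ μ g e s H hH hj E τ h2 h3 h4 𝔞 𝔟 _ _ _ => ?_⟩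
  have h5 := h K E τ h2 (by rw [h3]; exact h4)
  rw [h3] at h5
  have h6 : 0 ≤ Real.log (Ideal.absNorm 𝔟) := Real.log_natCast_nonneg _
  rw [max_eq_left (Real.one_le_exp (by positivity)), Real.log_exp]
  linarith

theorem fcore (𝓜 : Mode) (g : J → ℕ → 𝓞 K)
    (hg : ∀ j, ∃ E : LinearRecurrence (𝓞 K), E.IsSolution (g j)) (κ μ : Fin 3 → 𝓞 K)
    (hμ : ∀ i, μ i ≠ 0) (e : Fin 3 → J → ℕ) (hsum : ∀ t, ∑ i, term κ μ g e i t = 0) :
    𝓜.A fun C s => term κ μ g e 2 s ≠ 0 → FIneq κ μ g e C s := by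
  classical
  obtain ⟨Λ, hΛ, h1⟩ := hcore 𝓜 g hg κ μ hμ e hsum
  obtain ⟨D, hD, h2⟩ := fineq_triv (K := K) (J := J)
  obtain ⟨C₁, hC₁, h3⟩ := Pool.Agent.Q103.SDJ.frey_sharp
  set d : ℝ := ((Module.finrank ℚ K : ℕ) : ℝ) with hd
  have hd0 : 0 ≤ d := Nat.cast_nonneg _
  obtain ⟨H, hH⟩ : ∃ H : ℝ, ∀ x ∈ Λ, logHeight₁ x ≤ H := by
    obtain ⟨H, hH⟩ := (hΛ.image logHeight₁).bddAbove
    exact ⟨H, fun x hx => hH ⟨x, hx, rfl⟩⟩
  set A : ℝ := D + |H| + C₁ * d with hA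
  have hA0 : 0 ≤ A := by positivity
  refine 𝓜.imp h1 (fun C => Real.exp A * C ^ 6) 0 ((PolyB.const _).mul (PolyB.id.pow
    (fun C hC => by linarith) 6) (fun C hC => pow_nonneg (by linarith) _))
    (fun C C' s hCC h4 h5 => fineq_mono κ μ g e C C' s hCC (h4 h5)) fun C s hC _ h4 h5 => ?_
  have hC0 : 0 < C := by linarith
  have hC6 : 1 ≤ C ^ 6 := one_le_pow₀ hC
  by_cases hj : jv κ μ g e s ∈ Λ
  · refine fineq_mono κ μ g e (Real.exp (D + |H|)) _ s ?_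
      (h2 κ μ g e s |H| (abs_nonneg H) ((hH _ hj).trans (le_abs_self H)))
    calc Real.exp (D + |H|) ≤ Real.exp A := Real.exp_le_exp.2 (by rw [hA]; nlinarith)
      _ = Real.exp A * 1 := (mul_one _).symm
      _ ≤ Real.exp A * C ^ 6 := mul_le_mul_of_nonneg_left hC6 (Real.exp_pos _).le
  · obtain ⟨k1, k2⟩ := h4 h5 hj
    intro E τ hE hEj hτ 𝔞 𝔟 m1 m2 m3
    have k3 := k2 𝔞 𝔟 m1 m2 m3
    have hJ := isJ_jv (hsum s) h5
    have hPK : ∀ k, (term κ μ g e k s : K) ≠ 0 := fun k => RingOfIntegers.coe_ne_zero_iff.mpr (k1 k)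
    have hc4 : E.c₄ ≠ 0 := by
      intro h0
      obtain ⟨w, hw, e0, e1, e2⟩ := hJ
      apply hPK 0
      rw [e0, ← hEj, h0]
      simp
    have hc6 : E.c₆ ≠ 0 := by
      intro h0
      obtain ⟨w, hw, e0, e1, e2⟩ := hJ
      apply hPK 1
      have h1 := Pool.Agent.Q103.SDJ.j_1728 E hE
      rw [h0] at h1
      rw [e1]
      have h2 : (1728 : K) - jv κ μ g e s = 0 := by
        rw [← neg_sub, ← hEj, h1]
        simp
      rw [h2, mul_zero]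
    have k4 := h3 K E τ (fun i => term κ μ g e i s) hE (by rw [hEj]; exact hτ) k1 hc4 hc6
      (by rw [hEj]; exact hJ)
    rw [hEj] at k4
    have k5 : Real.log (max (Real.exp A * C ^ 6) 1) = A + 6 * Real.log C := by
      have h1e : 1 ≤ Real.exp A * C ^ 6 := one_le_mul_of_one_le_of_one_le (Real.one_le_exp hA0) hC6
      rw [max_eq_left h1e, Real.log_mul (Real.exp_pos _).ne' (by positivity), Real.log_exp,
        Real.log_pow]
      push_cast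
      ring
    rw [k5, hA]
    rw [max_eq_left hC] at k3
    have := abs_nonneg H
    linarith

/-- almost all members -/
theorem frey_aa (g : J → ℕ → 𝓞 K)
    (hg : ∀ j, ∃ E : LinearRecurrence (𝓞 K), E.IsSolution (g j)) (κ μ : Fin 3 → 𝓞 K)
    (hμ : ∀ i, μ i ≠ 0) (e : Fin 3 → J → ℕ) (hsum : ∀ t, ∑ i, term κ μ g e i t = 0) (η : ℝ)
    (hη : 0 < η) :
    ∃ (X : ℝ) (T z : ℕ), 0 ≤ X ∧ ∀ t n : ℕ, z ≤ t → T ≤ n →
      (({s | t ≤ s ∧ s < t + n ∧ ¬ (term κ μ g e 2 s ≠ 0 →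
        FIneq κ μ g e (Real.exp X) s)}.ncard : ℕ) : ℝ) ≤ η * n := by
  obtain ⟨C, T, z, hC, h1⟩ := fcore mAA g hg κ μ hμ e hsum η hη
  refine ⟨Real.log C, T, z, Real.log_nonneg hC, fun t n ht hn => ?_⟩
  rw [Real.exp_log (by linarith)]
  exact h1 t n ht hn

/-- all members -/
theorem frey_ee (g : J → ℕ → 𝓞 K)
    (hg : ∀ j, ∃ E : LinearRecurrence (𝓞 K), E.IsSolution (g j)) (κ μ : Fin 3 → 𝓞 K)
    (hμ : ∀ i, μ i ≠ 0) (e : Fin 3 → J → ℕ) (hsum : ∀ t, ∑ i, term κ μ g e i t = 0) (ε : ℝ)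
    (hε : 0 < ε) :
    ∃ X : ℝ, 0 ≤ X ∧ ∀ s : ℕ, term κ μ g e 2 s ≠ 0 → FIneq κ μ g e (Real.exp (X + ε * s)) s := by
  obtain ⟨z, h1⟩ := fcore mEE g hg κ μ hμ e hsum ε hε
  obtain ⟨D, hD, h2⟩ := fineq_triv (K := K) (J := J)
  set H : ℝ := ∑ s ∈ Finset.range z, logHeight₁ (jv κ μ g e s) with hH
  have hH0 : 0 ≤ H := Finset.sum_nonneg fun s _ => zero_le_logHeight₁ _
  refine ⟨D + H, by positivity, fun s hs => ?_⟩
  by_cases hsz : z ≤ s
  · refine fineq_mono κ μ g e _ _ s (Real.exp_le_exp.2 ?_) (h1 s hsz hs)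
    linarith
  · rw [not_le] at hsz
    have h3 : logHeight₁ (jv κ μ g e s) ≤ H :=
      Finset.single_le_sum (f := fun s => logHeight₁ (jv κ μ g e s))
        (fun s _ => zero_le_logHeight₁ _) (Finset.mem_range.2 hsz)
    refine fineq_mono κ μ g e _ _ s (Real.exp_le_exp.2 ?_) (h2 κ μ g e s H hH0 h3)
    have : 0 ≤ ε * s := by positivity
    linarith

end Pool.Agent.Q183.AM
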