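import Pool.Agent.Q183.AM.J3
import Pool.Agent.Q103.SDJ.Stable

/-!
The stable Faltings height for the elliptic curves with invariants given by products of powers of
linear recurrences.
-/

set_option autoImplicit false

namespace Pool.Agent.Q183.AM

open Pool.Agent.Q183.AR
open NumberField Height IsDedekindDomain
open Pool.Agent.TH876.FH (IsPeriod arch GoodAt)

variable {K : Type} [Field K] [NumberField K] {J : Type} [Fintype J]

/-- Frey's inequality for the stable height with a constant -/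
def SIneq (κ μ : Fin 3 → 𝓞 K) (g : J → ℕ → 𝓞 K) (e : Fin 3 → J → ℕ) (C : ℝ) (s : ℕ) : Prop :=
  ∀ (E : WeierstrassCurve K) (τ : InfinitePlace K → UpperHalfPlane), E.Δ ≠ 0 →
    E.c₄ ^ 3 / E.Δ = jv κ μ g e s → IsPeriod (jv κ μ g e s) τ → ∀ 𝔞 𝔟 : Ideal (𝓞 K),
    Ideal.span {∏ j ∈ unequal e, g j s} = 𝔞 * 𝔟 → Squarefree 𝔞 → IsCoprime 𝔞 𝔟 →
      ∑ᶠ v : HeightOneSpectrum (𝓞 K), Real.log (max (FinitePlace.mk v (E.c₄ ^ 3 / E.Δ)) 1) +
        ∑ w : InfinitePlace K, (w.mult : ℝ) * arch (τ w) ≤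
        6 * Real.log (∏ᶠ v ∈ {v : HeightOneSpectrum (𝓞 K) | ¬ GoodAt v E},
          (Ideal.absNorm v.asIdeal : ℝ)) + 6 * Real.log (Ideal.absNorm 𝔟) + Real.log (max C 1)

theorem sineq_mono (κ μ : Fin 3 → 𝓞 K) (g : J → ℕ → 𝓞 K) (e : Fin 3 → J → ℕ) :
    MonoC (SIneq κ μ g e) := by
  intro C C' s hCC h1 E τ h2 h3 h4 𝔞 𝔟 h5 h6 h7
  refine (h1 E τ h2 h3 h4 𝔞 𝔟 h5 h6 h7).trans ?_
  have h8 : Real.log (max C 1) ≤ Real.log (max C' 1) :=
    Real.log_le_log (lt_of_lt_of_le one_pos (le_max_right _ _)) (max_le_max hCC (le_refl _))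
  linarith

theorem log_bad_nonneg (E : WeierstrassCurve K) :
    0 ≤ Real.log (∏ᶠ v ∈ {v : HeightOneSpectrum (𝓞 K) | ¬ GoodAt v E},
      (Ideal.absNorm v.asIdeal : ℝ)) := by
  refine Real.log_nonneg ?_
  refine finprod_mem_induction (fun x : ℝ => 1 ≤ x) (le_refl 1)
    (fun a b ha hb => one_le_mul_of_one_le_of_one_le ha hb) ?_
  intro v _
  exact_mod_cast Nat.one_le_iff_ne_zero.2 fun h0 => v.ne_bot (Ideal.absNorm_eq_zero_iff.1 h0)

theorem ht_split (x : K) : logHeight₁ x =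
    ∑ w : InfinitePlace K, (w.mult : ℝ) * Real.log (max (w x) 1) +
      ∑ᶠ v : HeightOneSpectrum (𝓞 K), Real.log (max (FinitePlace.mk v x) 1) := by
  rw [Pool.Agent.Y733.LS.logHeight_eq]
  rfl

/-- a bounded invariant -/
theorem sineq_triv : ∃ D : ℝ, 0 ≤ D ∧ ∀ (κ μ : Fin 3 → 𝓞 K) (g : J → ℕ → 𝓞 K)
    (e : Fin 3 → J → ℕ) (s : ℕ) (H : ℝ), 0 ≤ H → logHeight₁ (jv κ μ g e s) ≤ H →
      SIneq κ μ g e (Real.exp (D + H)) s := by
  obtain ⟨c, hc0, hc⟩ := Pool.Agent.Y733.FF.arch_le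
  refine ⟨c * Module.finrank ℚ K, by positivity, fun κ μ g e s H hH hj E τ h2 h3 h4 𝔞 𝔟 _ _ _ => ?_⟩
  have h5 := hc K _ τ h4
  have h6 : 0 ≤ Real.log (Ideal.absNorm 𝔟) := Real.log_natCast_nonneg _
  have h7 := log_bad_nonneg E
  have h8 := ht_split (jv κ μ g e s)
  rw [max_eq_left (Real.one_le_exp (by positivity)), Real.log_exp, h3]
  linarith

theorem score (𝓜 : Mode) (g : J → ℕ → 𝓞 K)
    (hg : ∀ j, ∃ E : LinearRecurrence (𝓞 K), E.IsSolution (g j)) (κ μ : Fin 3 → 𝓞 K)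
    (hμ : ∀ i, μ i ≠ 0) (e : Fin 3 → J → ℕ) (hsum : ∀ t, ∑ i, term κ μ g e i t = 0) :
    𝓜.A fun C s => term κ μ g e 2 s ≠ 0 → SIneq κ μ g e C s := by
  classical
  obtain ⟨Λ, hΛ, h1⟩ := jcore 𝓜 g hg κ μ hμ e hsum
  obtain ⟨D, hD, h2⟩ := sineq_triv (K := K) (J := J)
  obtain ⟨c, hc0, hc⟩ := Pool.Agent.Y733.FF.arch_le
  set d : ℝ := ((Module.finrank ℚ K : ℕ) : ℝ) with hd
  have hd0 : 0 ≤ d := Nat.cast_nonneg _
  obtain ⟨H, hH⟩ : ∃ H : ℝ, ∀ x ∈ Λ, logHeight₁ x ≤ H := by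
    obtain ⟨H, hH⟩ := (hΛ.image logHeight₁).bddAbove
    exact ⟨H, fun x hx => hH ⟨x, hx, rfl⟩⟩
  set A : ℝ := D + |H| + c * d with hA
  have hA0 : 0 ≤ A := by positivity
  refine 𝓜.imp h1 (fun C => Real.exp A * C ^ 6) 0 ((PolyB.const _).mul (PolyB.id.pow
    (fun C hC => by linarith) 6) (fun C hC => pow_nonneg (by linarith) _))
    (fun C C' s hCC h4 h5 => sineq_mono κ μ g e C C' s hCC (h4 h5)) fun C s hC _ h4 h5 => ?_
  have hC0 : 0 < C := by linarith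
  have hC6 : 1 ≤ C ^ 6 := one_le_pow₀ hC
  by_cases hj : jv κ μ g e s ∈ Λ
  · refine sineq_mono κ μ g e (Real.exp (D + |H|)) _ s ?_
      (h2 κ μ g e s |H| (abs_nonneg H) ((hH _ hj).trans (le_abs_self H)))
    calc Real.exp (D + |H|) ≤ Real.exp A := Real.exp_le_exp.2 (by rw [hA]; nlinarith)
      _ = Real.exp A * 1 := (mul_one _).symm
      _ ≤ Real.exp A * C ^ 6 := mul_le_mul_of_nonneg_left hC6 (Real.exp_pos _).le
  · obtain ⟨k1, k1', k2⟩ := h4 h5 hj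
    intro E τ hE hEj hτ 𝔞 𝔟 m1 m2 m3
    have k3 := k2 𝔞 𝔟 m1 m2 m3
    have hc4 : E.c₄ ≠ 0 := by
      intro h0
      apply k1
      rw [← hEj, h0]
      simp
    have hc6 : E.c₆ ≠ 0 := by
      intro h0
      apply k1'
      have h1 := Pool.Agent.Q103.SDJ.j_1728 E hE
      rw [h0, hEj] at h1
      have h2 : jv κ μ g e s - 1728 = 0 := by
        rw [h1]
        simp
      exact sub_eq_zero.1 h2
    have k4 := Pool.Agent.Q103.SDJ.count_le_bad E hE hc4 hc6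
    rw [hEj] at k4
    have k6 := hc K _ τ hτ
    have k7 := ht_split (jv κ μ g e s)
    have k5 : Real.log (max (Real.exp A * C ^ 6) 1) = A + 6 * Real.log C := by
      have h1e : 1 ≤ Real.exp A * C ^ 6 := one_le_mul_of_one_le_of_one_le (Real.one_le_exp hA0) hC6
      rw [max_eq_left h1e, Real.log_mul (Real.exp_pos _).ne' (by positivity), Real.log_exp,
        Real.log_pow]
      push_cast
      ring
    rw [k5, hA, hEj]
    rw [max_eq_left hC] at k3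
    have := abs_nonneg H
    linarith

/-- almost all members -/
theorem stab_aa (g : J → ℕ → 𝓞 K)
    (hg : ∀ j, ∃ E : LinearRecurrence (𝓞 K), E.IsSolution (g j)) (κ μ : Fin 3 → 𝓞 K)
    (hμ : ∀ i, μ i ≠ 0) (e : Fin 3 → J → ℕ) (hsum : ∀ t, ∑ i, term κ μ g e i t = 0) (η : ℝ)
    (hη : 0 < η) :
    ∃ (X : ℝ) (T z : ℕ), 0 ≤ X ∧ ∀ t n : ℕ, z ≤ t → T ≤ n →
      (({s | t ≤ s ∧ s < t + n ∧ ¬ (term κ μ g e 2 s ≠ 0 →
        SIneq κ μ g e (Real.exp X) s)}.ncard : ℕ) : ℝ) ≤ η * n := by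
  obtain ⟨C, T, z, hC, h1⟩ := score mAA g hg κ μ hμ e hsum η hη
  refine ⟨Real.log C, T, z, Real.log_nonneg hC, fun t n ht hn => ?_⟩
  rw [Real.exp_log (by linarith)]
  exact h1 t n ht hn

/-- all members -/
theorem stab_ee (g : J → ℕ → 𝓞 K)
    (hg : ∀ j, ∃ E : LinearRecurrence (𝓞 K), E.IsSolution (g j)) (κ μ : Fin 3 → 𝓞 K)
    (hμ : ∀ i, μ i ≠ 0) (e : Fin 3 → J → ℕ) (hsum : ∀ t, ∑ i, term κ μ g e i t = 0) (ε : ℝ)
    (hε : 0 < ε) :
    ∃ X : ℝ, 0 ≤ X ∧ ∀ s : ℕ, term κ μ g e 2 s ≠ 0 → SIneq κ μ g e (Real.exp (X + ε * s)) s := by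
  obtain ⟨z, h1⟩ := score mEE g hg κ μ hμ e hsum ε hε
  obtain ⟨D, hD, h2⟩ := sineq_triv (K := K) (J := J)
  set H : ℝ := ∑ s ∈ Finset.range z, logHeight₁ (jv κ μ g e s) with hH
  have hH0 : 0 ≤ H := Finset.sum_nonneg fun s _ => zero_le_logHeight₁ _
  refine ⟨D + H, by positivity, fun s hs => ?_⟩
  by_cases hsz : z ≤ s
  · refine sineq_mono κ μ g e _ _ s (Real.exp_le_exp.2 ?_) (h1 s hsz hs)
    linarith
  · rw [not_le] at hsz
    have h3 : logHeight₁ (jv κ μ g e s) ≤ H :=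
      Finset.single_le_sum (f := fun s => logHeight₁ (jv κ μ g e s))
        (fun s _ => zero_le_logHeight₁ _) (Finset.mem_range.2 hsz)
    refine sineq_mono κ μ g e _ _ s (Real.exp_le_exp.2 ?_) (h2 κ μ g e s H hH0 h3)
    have : 0 ≤ ε * s := by positivity
    linarith

end Pool.Agent.Q183.AM
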