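import Pool.Agent.Q183.AM.C3
import Pool.Agent.Q128.HD.Fin

/-!
Hyperelliptic curves whose Weierstrass points have differences given by products of powers of
linear recurrences.
-/

set_option autoImplicit false

namespace Pool.Agent.Q183.AM.HC

open Polynomial NumberField IsDedekindDomain Height Pool.Agent.W318 Pool.Agent.Q128.HD
open Pool.Agent.TH905.HS (al be pol pol_eq pol_isHyp det_ne det_eq)
open Pool.Agent.W223.CV (cc)
open Pool.Agent.Q103.SDV (Bad)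
open Pool.Agent.Q183.AR (Rec term unequal MonoC)
open Pool.Agent.Q183.AM

variable {K : Type} [Field K] [NumberField K] {m n : ℕ}

/-- the bases of the exponential factors, with the point at infinity -/
def mx (μ : Fin m → Fin m → 𝓞 K) : Fin (m + 1) → Fin (m + 1) → 𝓞 K := fun x y =>
  Fin.cases (motive := fun _ => 𝓞 K) 1
    (fun i => Fin.cases (motive := fun _ => 𝓞 K) 1 (fun j => μ i j) y) x

theorem mx_ne {μ : Fin m → Fin m → 𝓞 K} (hμ : ∀ i j, μ i j ≠ 0) (x y : Fin (m + 1)) :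
    mx μ x y ≠ 0 := by
  unfold mx
  refine Fin.cases ?_ (fun i' => ?_) x <;> refine Fin.cases ?_ (fun j' => ?_) y
  · exact one_ne_zero
  · exact one_ne_zero
  · exact one_ne_zero
  · exact hμ i' j'

theorem cross_rec (t : ℕ) (g : Fin n → ℕ → 𝓞 K) {κ : K} (hκ : κ ≠ 0) (a : Fin m → K)
    (c μ : Fin m → Fin m → 𝓞 K) (e : Fin m → Fin m → Fin n → ℕ)
    (h : ∀ i j, i ≠ j → a i - a j = κ * ((c i j * μ i j ^ t * ∏ s, g s t ^ e i j s : 𝓞 K) : K))
    (x y : Fin (m + 1)) (hxy : x ≠ y) :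
    al K m x * be a y - al K m y * be a x =
      κ * lx κ x * lx κ y * ((cx c x y * mx μ x y ^ t * ∏ s, g s t ^ ex e x y s : 𝓞 K) : K) := by
  rw [det_eq]
  revert hxy
  refine Fin.cases ?_ (fun i' => ?_) x <;> refine Fin.cases ?_ (fun j' => ?_) y <;> intro hxy
  · exact absurd rfl hxy
  · simp [cx, ex, lx, mx, hκ]
  · simp [cx, ex, lx, mx, hκ]
  · have h1 := h i' j' fun hh => hxy (congrArg Fin.succ hh)
    simp only [cx, ex, lx, mx, Fin.cases_succ, mul_one]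
    exact h1

/-- the coefficients of the three products of a cross ratio -/
def bq (c : Fin m → Fin m → 𝓞 K) (q : Fin (m + 1) × Fin (m + 1) × Fin (m + 1) × Fin (m + 1)) :
    Fin 3 → 𝓞 K :=
  ![cx c q.1 q.2.1 * cx c q.2.2.1 q.2.2.2, cx c q.2.2.1 q.1 * cx c q.2.1 q.2.2.2,
    cx c q.1 q.2.2.2 * cx c q.2.1 q.2.2.1]

/-- the bases of the exponential factors of a cross ratio -/
def mq (μ : Fin m → Fin m → 𝓞 K) (q : Fin (m + 1) × Fin (m + 1) × Fin (m + 1) × Fin (m + 1)) :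
    Fin 3 → 𝓞 K :=
  ![mx μ q.1 q.2.1 * mx μ q.2.2.1 q.2.2.2, mx μ q.2.2.1 q.1 * mx μ q.2.1 q.2.2.2,
    mx μ q.1 q.2.2.2 * mx μ q.2.1 q.2.2.1]

/-- the exponents of a cross ratio -/
def eq' (e : Fin m → Fin m → Fin n → ℕ)
    (q : Fin (m + 1) × Fin (m + 1) × Fin (m + 1) × Fin (m + 1)) : Fin 3 → Fin n → ℕ :=
  ![fun s => ex e q.1 q.2.1 s + ex e q.2.2.1 q.2.2.2 s,
    fun s => ex e q.2.2.1 q.1 s + ex e q.2.1 q.2.2.2 s,
    fun s => ex e q.1 q.2.2.2 s + ex e q.2.1 q.2.2.1 s]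

theorem mq_ne {μ : Fin m → Fin m → 𝓞 K} (hμ : ∀ i j, μ i j ≠ 0)
    (q : Fin (m + 1) × Fin (m + 1) × Fin (m + 1) × Fin (m + 1)) (r : Fin 3) : mq μ q r ≠ 0 := by
  fin_cases r
  · exact mul_ne_zero (mx_ne hμ _ _) (mx_ne hμ _ _)
  · exact mul_ne_zero (mx_ne hμ _ _) (mx_ne hμ _ _)
  · exact mul_ne_zero (mx_ne hμ _ _) (mx_ne hμ _ _)

/-- the three products of a cross ratio -/
theorem cross_terms (t : ℕ) (g : Fin n → ℕ → 𝓞 K) {κ : K} (hκ : κ ≠ 0) (a : Fin m → K)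
    (c μ : Fin m → Fin m → 𝓞 K) (e : Fin m → Fin m → Fin n → ℕ)
    (h : ∀ i j, i ≠ j → a i - a j = κ * ((c i j * μ i j ^ t * ∏ s, g s t ^ e i j s : 𝓞 K) : K))
    {i j k l : Fin (m + 1)} (hD : Dist i j k l) :
    ∃ ν : K, ν ≠ 0 ∧ ∀ r, ![(al K m i * be a j - al K m j * be a i) *
        (al K m k * be a l - al K m l * be a k),
      (al K m k * be a i - al K m i * be a k) * (al K m j * be a l - al K m l * be a j),
      (al K m i * be a l - al K m l * be a i) * (al K m j * be a k - al K m k * be a j)] r =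
      ν * (term (bq c (i, j, k, l)) (mq μ (i, j, k, l)) g (eq' e (i, j, k, l)) r t : K) := by
  obtain ⟨hij, hik, hil, hjk, hjl, hkl⟩ := id hD
  have hce := cross_rec t g hκ a c μ e h
  refine ⟨κ ^ 2 * lx κ i * lx κ j * lx κ k * lx κ l, mul_ne_zero (mul_ne_zero (mul_ne_zero
    (mul_ne_zero (pow_ne_zero 2 hκ) (lx_ne hκ i)) (lx_ne hκ j)) (lx_ne hκ k)) (lx_ne hκ l), ?_⟩
  have hPP : ∀ (x y z w : Fin (m + 1)) (_ : x ≠ y) (_ : z ≠ w),
      (al K m x * be a y - al K m y * be a x) * (al K m z * be a w - al K m w * be a z) =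
        κ ^ 2 * lx κ x * lx κ y * lx κ z * lx κ w *
        (((cx c x y * cx c z w) * (mx μ x y * mx μ z w) ^ t *
          ∏ s, g s t ^ (ex e x y s + ex e z w s) : 𝓞 K) : K) := by
    intro x y z w hxy hzw
    rw [hce x y hxy, hce z w hzw]
    have e1 : (∏ s, g s t ^ (ex e x y s + ex e z w s) : 𝓞 K) =
        (∏ s, g s t ^ ex e x y s) * ∏ s, g s t ^ ex e z w s := by
      rw [← Finset.prod_mul_distrib]
      exact Finset.prod_congr rfl fun s _ => pow_add _ _ _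
    rw [e1, mul_pow]
    push_cast
    ring
  intro r
  fin_cases r
  · exact hPP i j k l hij hkl
  · have := hPP k i j l hik.symm hjl
    refine this.trans ?_
    have h1 : κ ^ 2 * lx κ k * lx κ i * lx κ j * lx κ l =
        κ ^ 2 * lx κ i * lx κ j * lx κ k * lx κ l := by ring
    rw [h1]
    rfl
  · have := hPP i l j k hil hjk
    refine this.trans ?_
    have h1 : κ ^ 2 * lx κ i * lx κ l * lx κ j * lx κ k =
        κ ^ 2 * lx κ i * lx κ j * lx κ k * lx κ l := by ring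
    rw [h1]
    rfl

theorem cross_sum (t : ℕ) (g : Fin n → ℕ → 𝓞 K) {κ : K} (hκ : κ ≠ 0) (a : Fin m → K)
    (c μ : Fin m → Fin m → 𝓞 K) (e : Fin m → Fin m → Fin n → ℕ)
    (h : ∀ i j, i ≠ j → a i - a j = κ * ((c i j * μ i j ^ t * ∏ s, g s t ^ e i j s : 𝓞 K) : K))
    {i j k l : Fin (m + 1)} (hD : Dist i j k l) :
    ∑ r, term (bq c (i, j, k, l)) (mq μ (i, j, k, l)) g (eq' e (i, j, k, l)) r t = 0 := by
  obtain ⟨ν, hν, hy⟩ := cross_terms t g hκ a c μ e h hD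
  have h0 := hy 0
  have h1 := hy 1
  have h2 := hy 2
  simp only [Matrix.cons_val_zero, Matrix.cons_val_one, Matrix.cons_val] at h0 h1 h2
  rw [Fin.sum_univ_three]
  have h4 : ν * ((term (bq c (i, j, k, l)) (mq μ (i, j, k, l)) g (eq' e (i, j, k, l)) 0 t +
      term (bq c (i, j, k, l)) (mq μ (i, j, k, l)) g (eq' e (i, j, k, l)) 1 t +
      term (bq c (i, j, k, l)) (mq μ (i, j, k, l)) g (eq' e (i, j, k, l)) 2 t : 𝓞 K) : K) = 0 := by
    push_cast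
    rw [mul_add, mul_add, ← h0, ← h1, ← h2]
    ring
  have h5 := (mul_eq_zero.mp h4).resolve_left hν
  exact_mod_cast h5

/-- the inequality for one cross ratio -/
def CIneq (a : ℕ → Fin m → K) (g : Fin n → ℕ → 𝓞 K) (S : Finset (Fin n)) (g₀ : ℕ)
    (q : Fin (m + 1) × Fin (m + 1) × Fin (m + 1) × Fin (m + 1)) (C : ℝ) (s : ℕ) : Prop :=
  Function.Injective (a s) → ∀ 𝔞 𝔟 : Ideal (𝓞 K),
    Ideal.span {∏ j ∈ S, g j s} = 𝔞 * 𝔟 → Squarefree 𝔞 → IsCoprime 𝔞 𝔟 → ∀ d : K, d ≠ 0 →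
      qh (fun x y => al K m x * be (a s) y - al K m y * be (a s) x) q.1 q.2.1 q.2.2.1 q.2.2.2 ≤
        (if Dist q.1 q.2.1 q.2.2.1 q.2.2.2 then 1 else 0) *
        (Real.log (badNorm g₀ (pol d (a s))) + Real.log (Ideal.absNorm 𝔟) + Real.log (max C 1))

theorem cineq_mono (a : ℕ → Fin m → K) (g : Fin n → ℕ → 𝓞 K) (S : Finset (Fin n)) (g₀ : ℕ)
    (q : Fin (m + 1) × Fin (m + 1) × Fin (m + 1) × Fin (m + 1)) :
    MonoC (CIneq a g S g₀ q) := by
  intro C C' s hCC h1 h2 𝔞 𝔟 h3 h4 h5 d hd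
  refine (h1 h2 𝔞 𝔟 h3 h4 h5 d hd).trans (mul_le_mul_of_nonneg_left ?_ (by split_ifs <;> norm_num))
  have h7 : Real.log (max C 1) ≤ Real.log (max C' 1) :=
    Real.log_le_log (lt_of_lt_of_le one_pos (le_max_right _ _)) (max_le_max hCC (le_refl _))
  linarith

theorem ccore (𝓜 : Mode) {g₀ : ℕ} (hg₀ : 2 ≤ g₀) (hm : m = 2 * g₀ + 1) (g : Fin n → ℕ → 𝓞 K)
    (hg : ∀ j, ∃ E : LinearRecurrence (𝓞 K), E.IsSolution (g j)) (a : ℕ → Fin m → K) (κ : ℕ → K)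
    (hκ : ∀ t, κ t ≠ 0) (c μ : Fin m → Fin m → 𝓞 K) (hμ : ∀ i j, μ i j ≠ 0)
    (e : Fin m → Fin m → Fin n → ℕ)
    (h : ∀ t i j, i ≠ j →
      a t i - a t j = κ t * ((c i j * μ i j ^ t * ∏ s, g s t ^ e i j s : 𝓞 K) : K))
    (S : Finset (Fin n)) (hS : ∀ s, (∃ i j k l, i ≠ j ∧ k ≠ l ∧ e i j s ≠ e k l s) → s ∈ S)
    (hS' : ∀ s ∈ S, ∃ i j, i ≠ j ∧ e i j s ≠ 0)
    (q : Fin (m + 1) × Fin (m + 1) × Fin (m + 1) × Fin (m + 1)) : 𝓜.A (CIneq a g S g₀ q) := by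
  classical
  obtain ⟨i, j, k, l⟩ := q
  by_cases hD : Dist i j k l
  swap
  · refine 𝓜.large 1 0 (cineq_mono a g S g₀ _) fun s _ h2 𝔞 𝔟 h3 h4 h5 d hd => ?_
    rw [if_neg hD, zero_mul]
    unfold qh
    rw [if_neg hD]
  have h1 := mlog3 𝓜 g hg (bq c (i, j, k, l)) (mq μ (i, j, k, l)) (mq_ne hμ _) (eq' e (i, j, k, l))
    fun t => cross_sum t g (hκ t) (a t) c μ e (h t) hD
  obtain ⟨B, hB0, hB⟩ := near_rad' (bq c (i, j, k, l)) (mq μ (i, j, k, l)) (mq_ne hμ _) g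
    (eq' e (i, j, k, l))
  set dd : ℝ := ((Module.finrank ℚ K : ℕ) : ℝ) with hdd
  have hdd0 : 0 ≤ dd := Nat.cast_nonneg _
  have l2 : 0 ≤ Real.log 2 := Real.log_nonneg (by norm_num)
  set A : ℝ := B + dd * Real.log 2 with hA
  have hA0 : 0 ≤ A := by positivity
  refine 𝓜.imp h1 (fun C => Real.exp A * C) 0 ((PolyB.const _).mul PolyB.id
    (fun C hC => by linarith)) (cineq_mono a g S g₀ _) fun C s hC _ h2 hinj 𝔞 𝔟 hab hsq hcop d hd => ?_
  rw [if_pos hD, one_mul]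
  obtain ⟨ν, hν, hy⟩ := cross_terms s g (hκ s) (a s) c μ e (h s) hD
  set P : Fin 3 → 𝓞 K := fun r =>
    term (bq c (i, j, k, l)) (mq μ (i, j, k, l)) g (eq' e (i, j, k, l)) r s with hP
  have hcrne := fun x y hxy => det_ne hinj x y hxy
  obtain ⟨hij, hik, hil, hjk, hjl, hkl⟩ := id hD
  have hP0 : ∀ r, P r ≠ 0 := by
    intro r h0
    have h1 := hy r
    have h0' : (term (bq c (i, j, k, l)) (mq μ (i, j, k, l)) g (eq' e (i, j, k, l)) r s : K) = 0 := by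
      have : (P r : K) = 0 := by rw [h0]; rfl
      exact this
    rw [h0', mul_zero] at h1
    revert h1
    fin_cases r
    · exact mul_ne_zero (hcrne i j hij) (hcrne k l hkl)
    · exact mul_ne_zero (hcrne k i hik.symm) (hcrne j l hjl)
    · exact mul_ne_zero (hcrne i l hil) (hcrne j k hjk)
  have hgS : ∏ j ∈ S, g j s ≠ 0 := by
    refine Finset.prod_ne_zero_iff.2 fun p hp h0 => ?_
    obtain ⟨x, y, hxy, hexy⟩ := hS' p hp
    have h3 := h s x y hxy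
    have h4 : (∏ s', g s' s ^ e x y s' : 𝓞 K) = 0 :=
      Finset.prod_eq_zero (Finset.mem_univ p) (by rw [h0, zero_pow hexy])
    rw [h4, mul_zero] at h3
    have h5 : a s x - a s y = 0 := by
      rw [h3]
      simp
    exact hxy (hinj (sub_eq_zero.1 h5))
  have hsub : unequal (eq' e (i, j, k, l)) ⊆ S := by
    intro p hp
    by_contra hsS
    have hconst : ∃ ρ, ∀ i j : Fin m, i ≠ j → e i j p = ρ := by
      refine ⟨e ⟨0, by omega⟩ ⟨1, by omega⟩ p, fun i' j' hij' => ?_⟩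
      by_contra hne
      exact hsS (hS p ⟨i', j', _, _, hij', by simp [Fin.ext_iff], hne⟩)
    obtain ⟨ρ, hρ⟩ := hconst
    have hds := dist_sum (fun x y => ex e x y p) ρ (by
      intro x y hxy
      unfold ex
      revert hxy
      refine Fin.cases ?_ (fun i' => ?_) x <;> refine Fin.cases ?_ (fun j' => ?_) y <;> intro hxy
      · exact absurd rfl hxy
      · simp
      · simp
      · rw [if_neg (by simp)]
        exact hρ i' j' (fun hh => hxy (congrArg Fin.succ hh))) hD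
    apply (Finset.mem_filter.1 hp).2
    constructor
    · exact hds.1
    · change ex e k i p + ex e j l p = ex e i l p + ex e j k p
      rw [← hds.1]
      exact hds.2
  have hqh : qh (fun x y => al K m x * be (a s) y - al K m y * be (a s) x) i j k l =
      logHeight (fun r => (P r : K)) := by
    unfold qh
    rw [if_pos hD]
    have h3 : ![(al K m i * be (a s) j - al K m j * be (a s) i) *
        (al K m k * be (a s) l - al K m l * be (a s) k),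
      (al K m k * be (a s) i - al K m i * be (a s) k) *
        (al K m j * be (a s) l - al K m l * be (a s) j),
      (al K m i * be (a s) l - al K m l * be (a s) i) *
        (al K m j * be (a s) k - al K m k * be (a s) j)] = ν • fun r => (P r : K) := by
      funext r
      rw [hy r]
      rfl
    rw [h3, logHeight_smul_eq_logHeight _ hν]
  have k1 := h2 hP0
  have k2 := hB s hP0 S hsub hgS 𝔞 𝔟 hab hsq hcop
  have k3 := cc_le hg₀ hm hd hinj hD P hP0 ν hν hy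
  have k7 : Real.log (max (Real.exp A * C) 1) = A + Real.log C := by
    have h1e : 1 ≤ Real.exp A * C := one_le_mul_of_one_le_of_one_le (Real.one_le_exp hA0) hC
    rw [max_eq_left h1e, Real.log_mul (Real.exp_pos _).ne' (by linarith), Real.log_exp]
  rw [max_eq_left hC] at k1
  rw [k7, hA, hqh]
  linarith

/-- the inequality for the discriminant -/
def DIneq (a : ℕ → Fin m → K) (g : Fin n → ℕ → 𝓞 K) (S : Finset (Fin n)) (g₀ : ℕ) (C : ℝ)
    (s : ℕ) : Prop :=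
  Function.Injective (a s) → ∀ 𝔞 𝔟 : Ideal (𝓞 K),
    Ideal.span {∏ j ∈ S, g j s} = 𝔞 * 𝔟 → Squarefree 𝔞 → IsCoprime 𝔞 𝔟 → ∀ d : K, d ≠ 0 →
      Real.log (discNorm g₀ (pol d (a s))) ≤
        (8 * g₀ ^ 2 + 4 * g₀) * Real.log (badNorm g₀ (pol d (a s))) +
          (8 * g₀ ^ 2 - 2) * Real.log (Ideal.absNorm 𝔟) + Real.log (max C 1)

theorem dineq_mono (a : ℕ → Fin m → K) (g : Fin n → ℕ → 𝓞 K) (S : Finset (Fin n)) (g₀ : ℕ) :
    MonoC (DIneq a g S g₀) := by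
  intro C C' s hCC h1 h2 𝔞 𝔟 h3 h4 h5 d hd
  refine (h1 h2 𝔞 𝔟 h3 h4 h5 d hd).trans ?_
  have h7 : Real.log (max C 1) ≤ Real.log (max C' 1) :=
    Real.log_le_log (lt_of_lt_of_le one_pos (le_max_right _ _)) (max_le_max hCC (le_refl _))
  linarith

theorem sum_dist (g₀ : ℕ) (hm : m = 2 * g₀ + 1) (hg₀ : 2 ≤ g₀) :
    (∑ i : Fin (m + 1), ∑ j : Fin (m + 1), ∑ k : Fin (m + 1), ∑ l : Fin (m + 1),
      (if Dist i j k l then (1 : ℝ) else 0)) = 2 * (((g₀ : ℝ) + 1) * g₀) * (8 * g₀ ^ 2 - 2) := by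
  classical
  have h2 := card_dist (ι := Fin (m + 1)) (m + 1) (by simp)
  have h3 : (∑ i : Fin (m + 1), ∑ j : Fin (m + 1), ∑ k : Fin (m + 1), ∑ l : Fin (m + 1),
      (if Dist i j k l then (1 : ℝ) else 0)) =
      (((m + 1) * (m + 1 - 1) * (m + 1 - 2) * (m + 1 - 3) : ℕ) : ℝ) := by
    rw [← h2]
    push_cast
    rfl
  rw [h3]
  have e1 : m + 1 = 2 * g₀ + 2 := by omega
  have e2 : m + 1 - 1 = 2 * g₀ + 1 := by omega
  have e3 : m + 1 - 2 = 2 * g₀ := by omega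
  have e4 : m + 1 - 3 + 1 = 2 * g₀ := by omega
  have e5 : ((m + 1 - 3 : ℕ) : ℝ) = 2 * g₀ - 1 := by
    have : ((m + 1 - 3 : ℕ) : ℝ) + 1 = 2 * g₀ := by exact_mod_cast e4
    linarith
  rw [Nat.cast_mul, e5, e2, e3, e1]
  push_cast
  ring

/-- the inequality for the discriminant, for a configuration -/
theorem disc_of {g₀ : ℕ} (hg₀ : 2 ≤ g₀) (hm : m = 2 * g₀ + 1) {a : Fin m → K}
    (ha : Function.Injective a) {d : K} (hd : d ≠ 0) {Y : ℝ}
    (h : ∀ i j k l : Fin (m + 1), qh (fun x y => al K m x * be a y - al K m y * be a x) i j k l ≤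
      (if Dist i j k l then 1 else 0) * (Real.log (badNorm g₀ (pol d a)) + Y)) :
    Real.log (discNorm g₀ (pol d a)) ≤ (8 * g₀ ^ 2 + 4 * g₀) * Real.log (badNorm g₀ (pol d a)) +
      (8 * g₀ ^ 2 - 2) * Y + 4 * g₀ * (Module.finrank ℚ K * Real.log 2) := by
  have hgR : (2 : ℝ) ≤ g₀ := by exact_mod_cast hg₀
  have hG : 0 < 2 * (((g₀ : ℝ) + 1) * g₀) := by positivity
  have hgen := general hg₀ hm hd ha
  have h1 := Finset.sum_le_sum fun i (_ : i ∈ (Finset.univ : Finset (Fin (m + 1)))) =>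
    Finset.sum_le_sum fun j (_ : j ∈ (Finset.univ : Finset (Fin (m + 1)))) =>
    Finset.sum_le_sum fun k (_ : k ∈ (Finset.univ : Finset (Fin (m + 1)))) =>
    Finset.sum_le_sum fun l (_ : l ∈ (Finset.univ : Finset (Fin (m + 1)))) => h i j k l
  simp only [← Finset.sum_mul] at h1
  rw [sum_dist g₀ hm hg₀] at h1
  refine le_of_mul_le_mul_left (hgen.trans ?_) hG
  nlinarith

theorem dcore (𝓜 : Mode) {g₀ : ℕ} (hg₀ : 2 ≤ g₀) (hm : m = 2 * g₀ + 1) (g : Fin n → ℕ → 𝓞 K)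
    (hg : ∀ j, ∃ E : LinearRecurrence (𝓞 K), E.IsSolution (g j)) (a : ℕ → Fin m → K) (κ : ℕ → K)
    (hκ : ∀ t, κ t ≠ 0) (c μ : Fin m → Fin m → 𝓞 K) (hμ : ∀ i j, μ i j ≠ 0)
    (e : Fin m → Fin m → Fin n → ℕ)
    (h : ∀ t i j, i ≠ j →
      a t i - a t j = κ t * ((c i j * μ i j ^ t * ∏ s, g s t ^ e i j s : 𝓞 K) : K))
    (S : Finset (Fin n)) (hS : ∀ s, (∃ i j k l, i ≠ j ∧ k ≠ l ∧ e i j s ≠ e k l s) → s ∈ S)
    (hS' : ∀ s ∈ S, ∃ i j, i ≠ j ∧ e i j s ≠ 0) : 𝓜.A (DIneq a g S g₀) := by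
  have hgR : (2 : ℝ) ≤ g₀ := by exact_mod_cast hg₀
  have h1 := 𝓜.all (fun q => ccore 𝓜 hg₀ hm g hg a κ hκ c μ hμ e h S hS hS' q)
    (fun q => cineq_mono a g S g₀ q)
  set dd : ℝ := ((Module.finrank ℚ K : ℕ) : ℝ) with hdd
  have hdd0 : 0 ≤ dd := Nat.cast_nonneg _
  have l2 : 0 ≤ Real.log 2 := Real.log_nonneg (by norm_num)
  set A : ℝ := 4 * g₀ * (dd * Real.log 2) with hA
  have hA0 : 0 ≤ A := by positivity
  refine 𝓜.imp h1 (fun C => Real.exp A * C ^ (8 * g₀ ^ 2)) 0 ((PolyB.const _).mul (PolyB.id.pow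
    (fun C hC => by linarith) _) (fun C hC => pow_nonneg (by linarith) _))
    (dineq_mono a g S g₀) fun C s hC _ h2 hinj 𝔞 𝔟 hab hsq hcop d hd => ?_
  have k1 := disc_of hg₀ hm hinj hd (Y := Real.log (Ideal.absNorm 𝔟) + Real.log (max C 1))
    fun i j k l => by
      have := h2 (i, j, k, l) hinj 𝔞 𝔟 hab hsq hcop d hd
      rw [add_assoc] at this
      exact this
  have hC0 : 0 < C := by linarith
  have hC6 : 1 ≤ C ^ (8 * g₀ ^ 2) := one_le_pow₀ hC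
  have k5 : Real.log (max (Real.exp A * C ^ (8 * g₀ ^ 2)) 1) = A + (8 * g₀ ^ 2) * Real.log C := by
    have h1e : 1 ≤ Real.exp A * C ^ (8 * g₀ ^ 2) :=
      one_le_mul_of_one_le_of_one_le (Real.one_le_exp hA0) hC6
    rw [max_eq_left h1e, Real.log_mul (Real.exp_pos _).ne' (by positivity), Real.log_exp,
      Real.log_pow]
    push_cast
    ring
  rw [max_eq_left hC] at k1
  have hl := Real.log_nonneg hC
  rw [k5, hA]
  linarith

/-- almost all members -/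
theorem disc_aa {g₀ : ℕ} (hg₀ : 2 ≤ g₀) (hm : m = 2 * g₀ + 1) (g : Fin n → ℕ → 𝓞 K)
    (hg : ∀ j, ∃ E : LinearRecurrence (𝓞 K), E.IsSolution (g j)) (a : ℕ → Fin m → K) (κ : ℕ → K)
    (hκ : ∀ t, κ t ≠ 0) (c μ : Fin m → Fin m → 𝓞 K) (hμ : ∀ i j, μ i j ≠ 0)
    (e : Fin m → Fin m → Fin n → ℕ)
    (h : ∀ t i j, i ≠ j →
      a t i - a t j = κ t * ((c i j * μ i j ^ t * ∏ s, g s t ^ e i j s : 𝓞 K) : K))
    (S : Finset (Fin n)) (hS : ∀ s, (∃ i j k l, i ≠ j ∧ k ≠ l ∧ e i j s ≠ e k l s) → s ∈ S)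
    (hS' : ∀ s ∈ S, ∃ i j, i ≠ j ∧ e i j s ≠ 0) (η : ℝ) (hη : 0 < η) :
    ∃ (X : ℝ) (T z : ℕ), 0 ≤ X ∧ ∀ t n : ℕ, z ≤ t → T ≤ n →
      (({s | t ≤ s ∧ s < t + n ∧ ¬ DIneq a g S g₀ (Real.exp X) s}.ncard : ℕ) : ℝ) ≤ η * n := by
  obtain ⟨C, T, z, hC, h1⟩ := dcore mAA hg₀ hm g hg a κ hκ c μ hμ e h S hS hS' η hη
  refine ⟨Real.log C, T, z, Real.log_nonneg hC, fun t n ht hn => ?_⟩
  rw [Real.exp_log (by linarith)]
  exact h1 t n ht hn

/-- all members -/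
theorem disc_ee {g₀ : ℕ} (hg₀ : 2 ≤ g₀) (hm : m = 2 * g₀ + 1) (g : Fin n → ℕ → 𝓞 K)
    (hg : ∀ j, ∃ E : LinearRecurrence (𝓞 K), E.IsSolution (g j)) (a : ℕ → Fin m → K) (κ : ℕ → K)
    (hκ : ∀ t, κ t ≠ 0) (c μ : Fin m → Fin m → 𝓞 K) (hμ : ∀ i j, μ i j ≠ 0)
    (e : Fin m → Fin m → Fin n → ℕ)
    (h : ∀ t i j, i ≠ j →
      a t i - a t j = κ t * ((c i j * μ i j ^ t * ∏ s, g s t ^ e i j s : 𝓞 K) : K))
    (S : Finset (Fin n)) (hS : ∀ s, (∃ i j k l, i ≠ j ∧ k ≠ l ∧ e i j s ≠ e k l s) → s ∈ S)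
    (hS' : ∀ s ∈ S, ∃ i j, i ≠ j ∧ e i j s ≠ 0) (ε : ℝ) (hε : 0 < ε) :
    ∃ X : ℝ, 0 ≤ X ∧ ∀ s : ℕ, DIneq a g S g₀ (Real.exp (X + ε * s)) s := by
  classical
  obtain ⟨z, h1⟩ := dcore mEE hg₀ hm g hg a κ hκ c μ hμ e h S hS hS' ε hε
  have hgR : (2 : ℝ) ≤ g₀ := by exact_mod_cast hg₀
  have hG : 0 < 2 * (((g₀ : ℝ) + 1) * g₀) := by positivity
  have l2 : 0 ≤ Real.log 2 := Real.log_nonneg (by norm_num)
  set D : ℝ := 4 * g₀ * (Module.finrank ℚ K * Real.log 2) with hD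
  have hD0 : 0 ≤ D := by positivity
  set H : ℕ → ℝ := fun s => ∑ i : Fin (m + 1), ∑ j : Fin (m + 1), ∑ k : Fin (m + 1),
    ∑ l : Fin (m + 1), qh (fun x y => al K m x * be (a s) y - al K m y * be (a s) x) i j k l with hH
  have hH0 : ∀ s, 0 ≤ H s := fun s => Finset.sum_nonneg fun i _ => Finset.sum_nonneg fun j _ =>
    Finset.sum_nonneg fun k _ => Finset.sum_nonneg fun l _ => qh_nonneg _ i j k l
  set X : ℝ := ∑ s ∈ Finset.range z, H s with hX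
  have hX0 : 0 ≤ X := Finset.sum_nonneg fun s _ => hH0 s
  refine ⟨D + X, by positivity, fun s => ?_⟩
  by_cases hsz : z ≤ s
  · refine dineq_mono a g S g₀ _ _ s (Real.exp_le_exp.2 ?_) (h1 s hsz)
    linarith
  · rw [not_le] at hsz
    have h3 : H s ≤ X := Finset.single_le_sum (f := H) (fun s _ => hH0 s) (Finset.mem_range.2 hsz)
    intro hinj 𝔞 𝔟 hab hsq hcop d hd
    have k1 := general hg₀ hm hd hinj
    have k2 : 0 ≤ Real.log (badNorm g₀ (pol d (a s))) := Real.log_natCast_nonneg _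
    have k3 : 0 ≤ Real.log (Ideal.absNorm 𝔟) := Real.log_natCast_nonneg _
    have k4 : 0 ≤ ε * s := by positivity
    rw [max_eq_left (Real.one_le_exp (by positivity)), Real.log_exp]
    refine le_of_mul_le_mul_left (k1.trans ?_) hG
    have k5 : H s ≤ 2 * (((g₀ : ℝ) + 1) * g₀) * X := by
      have : (1 : ℝ) ≤ 2 * (((g₀ : ℝ) + 1) * g₀) := by nlinarith
      nlinarith
    have k6 : 0 ≤ (8 * (g₀ : ℝ) ^ 2 - 2) * Real.log (badNorm g₀ (pol d (a s))) :=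
      mul_nonneg (by nlinarith) k2
    have k7 : 0 ≤ (8 * (g₀ : ℝ) ^ 2 - 2) * Real.log (Ideal.absNorm 𝔟) :=
      mul_nonneg (by nlinarith) k3
    have k8 : 2 * (((g₀ : ℝ) + 1) * g₀) * ((4 * g₀ + 2) * Real.log (badNorm g₀ (pol d (a s))) + D) +
        H s ≤ 2 * (((g₀ : ℝ) + 1) * g₀) * ((4 * g₀ + 2) * Real.log (badNorm g₀ (pol d (a s))) + D +
          X) := by
      rw [mul_add _ _ X]
      linarith
    refine k8.trans (mul_le_mul_of_nonneg_left ?_ hG.le)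
    linarith

end Pool.Agent.Q183.AM.HC
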