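import Pool.Agent.Q183.AM.KV
import Pool.Agent.Q183.AM.Modes

/-!
Differences of powers of products of linear recurrences of integers.
-/

set_option autoImplicit false

namespace Pool.Agent.Q183.AM.Hall

open Pool.Agent.Q183.AR (Rec MonoC mn)
open Pool.Agent.Q183.AM

variable {J : Type} [Fintype J]

/-- products of powers of the sequences -/
def X (g : J → ℕ → ℤ) (ξ r : ℤ) (a : J → ℕ) (t : ℕ) : ℤ := ξ * r ^ t * ∏ j, g j t ^ a j

theorem prod_gen {K : Type} [Field K] [NumberField K] (z : ℤ) :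
    ∏ σ : K →ₐ[ℚ] ℂ, ‖σ (algebraMap ℤ K z)‖ = |(z : ℝ)| ^ Module.finrank ℚ K := by
  have h1 : ∀ σ : K →ₐ[ℚ] ℂ, ‖σ (algebraMap ℤ K z)‖ = |(z : ℝ)| := by
    intro σ
    rw [eq_intCast, map_intCast, Complex.norm_intCast]
  rw [Finset.prod_congr rfl fun σ _ => h1 σ, Finset.prod_const, Finset.card_univ, AlgHom.card]

theorem rec_X {g : J → ℕ → ℤ} (hg : ∀ j, ∃ E : LinearRecurrence ℤ, E.IsSolution (g j)) (ξ r : ℤ)
    (a : J → ℕ) : Rec (X g ξ r a) := by
  have h1 : Rec fun t => ξ * r ^ t := (Rec.const _).mul (Rec.geom _)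
  have h2 : Rec fun t => ∏ j, g j t ^ a j := Rec.prod Finset.univ fun j _ => Rec.pow (hg j) _
  exact h1.mul h2

/-- the indices which occur -/
def occ (a b : J → ℕ) : Finset J := Finset.univ.filter fun j => a j + b j ≠ 0

/-- the inequality -/
def Good (g : J → ℕ → ℤ) (ξ ζ r q : ℤ) (a b : J → ℕ) (m n : ℕ) (C : ℝ) (t : ℕ) : Prop :=
  X g ξ r a t ≠ 0 → X g ζ q b t ≠ 0 → X g ξ r a t ^ m ≠ X g ζ q b t ^ n →
    max (|(X g ξ r a t : ℝ)| ^ m) (|(X g ζ q b t : ℝ)| ^ n) ≤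
      C * (|(X g ξ r a t : ℝ) ^ m - (X g ζ q b t : ℝ) ^ n| * ∏ j ∈ occ a b, |(g j t : ℝ)|)

theorem good_mono (g : J → ℕ → ℤ) (ξ ζ r q : ℤ) (a b : J → ℕ) (m n : ℕ) :
    MonoC (Good g ξ ζ r q a b m n) := by
  intro C C' s hCC h h1 h2 h3
  exact (h h1 h2 h3).trans (mul_le_mul_of_nonneg_right hCC (mul_nonneg (abs_nonneg _)
    (Finset.prod_nonneg fun _ _ => abs_nonneg _)))

theorem one_le_occ {g : J → ℕ → ℤ} {ξ ζ r q : ℤ} {a b : J → ℕ} {t : ℕ} (h1 : X g ξ r a t ≠ 0)
    (h2 : X g ζ q b t ≠ 0) : 1 ≤ ∏ j ∈ occ a b, |(g j t : ℝ)| := by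
  refine Finset.prod_induction (fun j => |(g j t : ℝ)|)
    (fun x : ℝ => 1 ≤ x) (fun a b ha hb => one_le_mul_of_one_le_of_one_le ha hb) (le_refl 1)
    fun j hj => ?_
  have hgj : g j t ≠ 0 := by
    intro h0
    have h3 := (Finset.mem_filter.1 hj).2
    by_cases ha : a j = 0
    · have hb : b j ≠ 0 := by omega
      apply h2
      unfold X
      rw [Finset.prod_eq_zero (Finset.mem_univ j) (by rw [h0, zero_pow hb]), mul_zero]
    · apply h1
      unfold X
      rw [Finset.prod_eq_zero (Finset.mem_univ j) (by rw [h0, zero_pow ha]), mul_zero]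
  exact_mod_cast Int.one_le_abs hgj

/-- proportional powers -/
theorem prop_case {m n : ℕ} {c₀ c₁ : ℚ} {x y : ℤ} (hx : x ≠ 0) (hy : y ≠ 0)
    (hxy : x ^ m ≠ y ^ n) (hc : c₀ ≠ 0 ∨ c₁ ≠ 0)
    (h : c₀ * (x : ℚ) ^ m = c₁ * (y : ℚ) ^ n) :
    max (|(x : ℝ)| ^ m) (|(y : ℝ)| ^ n) ≤
      ((|(c₀ : ℝ)| + |(c₁ : ℝ)|) / |(c₁ : ℝ) - c₀|) * |(x : ℝ) ^ m - (y : ℝ) ^ n| := by
  have hR : (c₀ : ℝ) * (x : ℝ) ^ m = c₁ * (y : ℝ) ^ n := by exact_mod_cast h
  have hx' : (x : ℝ) ^ m ≠ 0 := pow_ne_zero _ (by exact_mod_cast hx)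
  have hy' : (y : ℝ) ^ n ≠ 0 := pow_ne_zero _ (by exact_mod_cast hy)
  have hxy' : (x : ℝ) ^ m - (y : ℝ) ^ n ≠ 0 := sub_ne_zero.2 (by exact_mod_cast hxy)
  have hc0 : (c₀ : ℝ) ≠ 0 := by
    intro h0
    rw [h0, zero_mul] at hR
    have h1 := (mul_eq_zero.1 hR.symm).resolve_right hy'
    rcases hc with hc | hc
    · exact hc (by exact_mod_cast h0)
    · exact hc (by exact_mod_cast h1)
  have hcc : (c₁ : ℝ) - c₀ ≠ 0 := by
    intro h0
    have h1 : (c₁ : ℝ) = c₀ := sub_eq_zero.1 h0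
    rw [h1] at hR
    exact hxy' (sub_eq_zero.2 (mul_left_cancel₀ hc0 hR))
  have e1 : (x : ℝ) ^ m = c₁ / (c₁ - c₀) * ((x : ℝ) ^ m - (y : ℝ) ^ n) := by
    field_simp
    linear_combination (-1) * hR
  have e2 : (y : ℝ) ^ n = c₀ / (c₁ - c₀) * ((x : ℝ) ^ m - (y : ℝ) ^ n) := by
    field_simp
    linear_combination (-1) * hR
  have hpos : 0 < |(c₁ : ℝ) - c₀| := abs_pos.2 hcc
  refine max_le ?_ ?_
  · rw [← abs_pow]
    calc |(x : ℝ) ^ m| = |(c₁ : ℝ)| / |(c₁ : ℝ) - c₀| * |(x : ℝ) ^ m - (y : ℝ) ^ n| := by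
          conv_lhs => rw [e1]
          rw [abs_mul, abs_div]
      _ ≤ _ := by
          refine mul_le_mul_of_nonneg_right ?_ (abs_nonneg _)
          rw [div_le_div_iff_of_pos_right hpos]
          have := abs_nonneg (c₀ : ℝ)
          linarith
  · rw [← abs_pow]
    calc |(y : ℝ) ^ n| = |(c₀ : ℝ)| / |(c₁ : ℝ) - c₀| * |(x : ℝ) ^ m - (y : ℝ) ^ n| := by
          conv_lhs => rw [e2]
          rw [abs_mul, abs_div]
      _ ≤ _ := by
          refine mul_le_mul_of_nonneg_right ?_ (abs_nonneg _)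
          rw [div_le_div_iff_of_pos_right hpos]
          have := abs_nonneg (c₁ : ℝ)
          linarith

theorem core (𝓜 : Mode) (g : J → ℕ → ℤ)
    (hg : ∀ j, ∃ E : LinearRecurrence ℤ, E.IsSolution (g j)) (ξ ζ r q : ℤ) (hr : r ≠ 0)
    (hq : q ≠ 0) (a b : J → ℕ) (m n : ℕ) : 𝓜.A (Good g ξ ζ r q a b m n) := by
  classical
  set x := X g ξ r a with hx
  set y := X g ζ q b with hy
  -- the third term is a base
  let g' : Option J → ℕ → ℤ := fun o => o.elim (fun t => x t ^ m - y t ^ n) g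
  have hg' : ∀ o, ∃ E : LinearRecurrence ℤ, E.IsSolution (g' o) := by
    rintro (_ | j)
    · exact (Rec.pow (rec_X hg ξ r a) m).sub (Rec.pow (rec_X hg ζ q b) n)
    · exact hg j
  let e : Fin 3 → Option J → ℕ := ![fun o => o.elim 0 fun j => a j * m,
    fun o => o.elim 0 fun j => b j * n, fun o => o.elim 1 fun _ => 0]
  let κ : Fin 3 → ℤ := ![ξ ^ m, -ζ ^ n, -1]
  let μ : Fin 3 → ℤ := ![r ^ m, q ^ n, 1]
  have t0 : ∀ t, κ 0 * μ 0 ^ t * ∏ o, g' o t ^ e 0 o = x t ^ m := by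
    intro t
    rw [Fintype.prod_option]
    change ξ ^ m * (r ^ m) ^ t * ((x t ^ m - y t ^ n) ^ 0 * ∏ j, g j t ^ (a j * m)) = _
    rw [hx]
    unfold X
    rw [mul_pow, mul_pow, ← Finset.prod_pow, pow_zero, one_mul]
    simp only [← pow_mul]
    rw [mul_comm m t]
  have t1 : ∀ t, κ 1 * μ 1 ^ t * ∏ o, g' o t ^ e 1 o = -y t ^ n := by
    intro t
    rw [Fintype.prod_option]
    change -ζ ^ n * (q ^ n) ^ t * ((x t ^ m - y t ^ n) ^ 0 * ∏ j, g j t ^ (b j * n)) = _
    rw [hy]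
    unfold X
    rw [mul_pow, mul_pow, ← Finset.prod_pow, pow_zero, one_mul]
    simp only [← pow_mul]
    rw [mul_comm n t]
    ring
  have t2 : ∀ t, κ 2 * μ 2 ^ t * ∏ o, g' o t ^ e 2 o = -(x t ^ m - y t ^ n) := by
    intro t
    rw [Fintype.prod_option]
    change -1 * 1 ^ t * ((x t ^ m - y t ^ n) ^ 1 * ∏ j, g j t ^ 0) = _
    simp
  obtain ⟨M, hM, h⟩ := mabc 𝓜 (R := ℤ) (K := ℚ) (N := 2) (by norm_num) g' hg' κ μ (by
      intro i
      rw [eq_intCast, Int.cast_ne_zero]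
      fin_cases i
      · exact pow_ne_zero _ hr
      · exact pow_ne_zero _ hq
      · exact one_ne_zero) e (mn e) (lossI e) (Pool.Agent.Q183.AR.mn_le e)
    (fun i0 j σ => le_lossI e i0 j σ) (fun t => by
      rw [Fin.sum_univ_three, t0, t1, t2]
      have : x t ^ m + -y t ^ n + -(x t ^ m - y t ^ n) = 0 := by ring
      rw [this, map_zero])
  -- the multiplicities
  have hl1 : lossI e 2 none = 0 := by
    refine Nat.le_zero.1 (Finset.sup_le fun σ _ => ?_)
    refine le_of_eq (Finset.sum_eq_zero fun k _ => ?_)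
    have h2 : e ((2 : Fin 3).succAbove (σ k)) none = 0 := by
      have h3 : (2 : Fin 3).succAbove (σ k) ≠ 2 := Fin.succAbove_ne _ _
      generalize (2 : Fin 3).succAbove (σ k) = i at h3
      fin_cases i
      · rfl
      · rfl
      · exact absurd rfl h3
    rw [h2, Nat.zero_sub, Nat.zero_min]
  have hl2 : ∀ j, lossI e 2 (some j) ≤ if j ∈ occ a b then 1 else 0 := by
    intro j
    by_cases hj : j ∈ occ a b
    · rw [if_pos hj]
      have h1 := (lossI_le e 2 (some j)).trans (Pool.Agent.Q183.AR.loss_le (N := 2) e (some j))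
      simpa using h1
    · rw [if_neg hj]
      have hj' : a j + b j = 0 := by
        by_contra hc
        exact hj (Finset.mem_filter.2 ⟨Finset.mem_univ _, hc⟩)
      refine Finset.sup_le fun σ _ => ?_
      refine le_of_eq (Finset.sum_eq_zero fun k _ => ?_)
      have h2 : e ((2 : Fin 3).succAbove (σ k)) (some j) = 0 := by
        have h3 : (2 : Fin 3).succAbove (σ k) ≠ 2 := Fin.succAbove_ne _ _
        generalize (2 : Fin 3).succAbove (σ k) = i at h3
        fin_cases i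
        · change a j * m = 0
          rw [show a j = 0 by omega, zero_mul]
        · change b j * n = 0
          rw [show b j = 0 by omega, zero_mul]
        · exact absurd rfl h3
      rw [h2, Nat.zero_sub, Nat.zero_min]
  refine 𝓜.ofCls hM (fun ρ => ?_) (good_mono g ξ ζ r q a b m n)
  rcases h ρ with ⟨c, z, hc2, hc0, hc⟩ | h1
  · refine 𝓜.large (|((c 0 : ℚ) : ℝ)| + |((c 1 : ℚ) : ℝ)| |> fun w => w / |((c 1 : ℚ) : ℝ) - (c 0 : ℚ)|) z
      (fun C C' s hCC h2 h3 => good_mono g ξ ζ r q a b m n C C' s hCC (h2 h3))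
      fun s hs hsρ h1 h2 h3 => ?_
    have h4 := hc s hs hsρ
    rw [Fin.sum_univ_three, t0, t1, t2] at h4
    have hc2' : c 2 = 0 := hc2
    rw [hc2', zero_mul, add_zero] at h4
    have h5 : c 0 * (x s : ℚ) ^ m = c 1 * (y s : ℚ) ^ n := by
      simp only [eq_intCast] at h4
      push_cast at h4
      linear_combination h4
    have hcc : c 0 ≠ 0 ∨ c 1 ≠ 0 := by
      by_contra hcon
      push Not at hcon
      apply hc0
      funext i
      fin_cases i
      · exact hcon.1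
      · exact hcon.2
      · exact hc2'
    have h6 := prop_case h1 h2 h3 hcc h5
    refine h6.trans (mul_le_mul_of_nonneg_left ?_ (by positivity))
    exact le_mul_of_one_le_right (abs_nonneg _) (one_le_occ h1 h2)
  · refine 𝓜.imp h1 (fun C => C) 0 PolyB.id (fun C C' s hCC h2 h3 =>
      good_mono g ξ ζ r q a b m n C C' s hCC (h2 h3)) fun C s hC _ h2 hsρ h3 h4 h5 => ?_
    obtain ⟨-, h6⟩ := h2 hsρ
    have hsum : ∑ i, (![0, 0, 1] : Fin 3 → ℤ) i * (κ i * μ i ^ s * ∏ j, g' j s ^ e i j) *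
        ∏ j, g' j s ^ lossI e i j = -(x s ^ m - y s ^ n) * ∏ j, g j s ^ lossI e 2 (some j) := by
      rw [Fin.sum_univ_three, t2, Fintype.prod_option (fun j => g' j s ^ lossI e 2 j), hl1]
      simp only [Matrix.cons_val_zero, Matrix.cons_val_one, Matrix.cons_val, zero_mul, zero_add,
        one_mul, pow_zero]
      rfl
    have hg0 : ∀ j ∈ occ a b, g j s ≠ 0 := by
      intro j hj h0
      have h3' := (Finset.mem_filter.1 hj).2
      by_cases ha : a j = 0
      · have hb : b j ≠ 0 := by omega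
        apply h4
        unfold X
        rw [Finset.prod_eq_zero (Finset.mem_univ j) (by rw [h0, zero_pow hb]), mul_zero]
      · apply h3
        unfold X
        rw [Finset.prod_eq_zero (Finset.mem_univ j) (by rw [h0, zero_pow ha]), mul_zero]
    have hpr0 : ∏ j, g j s ^ lossI e 2 (some j) ≠ 0 := by
      refine Finset.prod_ne_zero_iff.2 fun j _ => ?_
      by_cases hj : j ∈ occ a b
      · exact pow_ne_zero _ (hg0 j hj)
      · have := hl2 j
        rw [if_neg hj] at this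
        rw [Nat.le_zero.1 this, pow_zero]
        exact one_ne_zero
    have h7 : ∀ η : Fin 3, |((κ η * μ η ^ s * ∏ j, g' j s ^ e η j : ℤ) : ℝ)| ≤
        C * |((-(x s ^ m - y s ^ n) * ∏ j, g j s ^ lossI e 2 (some j) : ℤ) : ℝ)| := by
      intro η
      have h8 := h6 ![0, 0, 1] (by
        rw [hsum, eq_intCast, Int.cast_ne_zero]
        exact mul_ne_zero (neg_ne_zero.2 (sub_ne_zero.2 h5)) hpr0) (fun _ => η)
      have hfr : Module.finrank ℚ ℚ = 1 := Module.finrank_self ℚ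
      rw [hsum, prod_gen, prod_gen] at h8
      have h8' : |((κ η * μ η ^ s * ∏ j, g' j s ^ e η j : ℤ) : ℝ)| ^ Module.finrank ℚ ℚ ≤
          C * |((-(x s ^ m - y s ^ n) * ∏ j, g j s ^ lossI e 2 (some j) : ℤ) : ℝ)| ^
            Module.finrank ℚ ℚ := by convert h8
      rw [hfr, pow_one, pow_one] at h8'
      exact h8'
    have h9 : |((-(x s ^ m - y s ^ n) * ∏ j, g j s ^ lossI e 2 (some j) : ℤ) : ℝ)| ≤
        |(x s : ℝ) ^ m - (y s : ℝ) ^ n| * ∏ j ∈ occ a b, |(g j s : ℝ)| := by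
      push_cast
      rw [abs_mul, abs_neg, Finset.abs_prod]
      refine mul_le_mul_of_nonneg_left ?_ (abs_nonneg _)
      rw [← Finset.prod_sdiff (Finset.subset_univ (occ a b))]
      have e1 : ∏ j ∈ Finset.univ \ occ a b, |(g j s : ℝ) ^ lossI e 2 (some j)| = 1 :=
        Finset.prod_eq_one fun j hj => by
          have := hl2 j
          rw [if_neg (Finset.mem_sdiff.1 hj).2] at this
          rw [Nat.le_zero.1 this, pow_zero, abs_one]
      rw [e1, one_mul]
      refine Finset.prod_le_prod (fun _ _ => abs_nonneg _) fun j hj => ?_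
      have h10 : (1 : ℝ) ≤ |(g j s : ℝ)| := by exact_mod_cast Int.one_le_abs (hg0 j hj)
      rw [abs_pow]
      have := hl2 j
      rw [if_pos hj] at this
      calc |(g j s : ℝ)| ^ lossI e 2 (some j) ≤ |(g j s : ℝ)| ^ 1 :=
            pow_le_pow_right₀ h10 this
        _ = _ := pow_one _
    have hC0 : 0 ≤ C := by linarith
    refine max_le ?_ ?_
    · have h10 := h7 0
      rw [t0] at h10
      push_cast at h10 h9
      rw [abs_pow] at h10
      exact h10.trans (mul_le_mul_of_nonneg_left h9 hC0)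
    · have h10 := h7 1
      rw [t1] at h10
      push_cast at h10 h9
      rw [abs_neg, abs_pow] at h10
      exact h10.trans (mul_le_mul_of_nonneg_left h9 hC0)

end Pool.Agent.Q183.AM.Hall
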