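import Pool.Agent.Q183.AM.Hall

/-!
Differences of powers of linear recurrences of integers: almost all members, all members.
-/

set_option autoImplicit false

namespace Pool.Agent.Q183.AM.Hall

open Pool.Agent.Q183.AR (Rec MonoC mn)
open Pool.Agent.Q183.AM

variable {J : Type} [Fintype J]

theorem one_le_X {g : J → ℕ → ℤ} {ξ r : ℤ} {a : J → ℕ} {t : ℕ} (h : X g ξ r a t ≠ 0) :
    ∏ j, |(g j t : ℝ)| ^ a j ≤ |(X g ξ r a t : ℝ)| := by
  have h1 : ξ * r ^ t ≠ 0 := left_ne_zero_of_mul h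
  have h2 : (1 : ℝ) ≤ |((ξ * r ^ t : ℤ) : ℝ)| := by exact_mod_cast Int.one_le_abs h1
  have h3 : |(X g ξ r a t : ℝ)| = |((ξ * r ^ t : ℤ) : ℝ)| * ∏ j, |(g j t : ℝ)| ^ a j := by
    unfold X
    push_cast
    rw [abs_mul, Finset.abs_prod]
    simp only [abs_pow]
  rw [h3]
  exact le_mul_of_one_le_left (Finset.prod_nonneg fun j _ => pow_nonneg (abs_nonneg _) _) h2

/-- the bases are bounded by the numbers -/
theorem occ_le {g : J → ℕ → ℤ} {ξ ζ r q : ℤ} {a b : J → ℕ} {t : ℕ} (h1 : X g ξ r a t ≠ 0)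
    (h2 : X g ζ q b t ≠ 0) :
    ∏ j ∈ occ a b, |(g j t : ℝ)| ≤ |(X g ξ r a t : ℝ)| * |(X g ζ q b t : ℝ)| := by
  classical
  have h3 : ∀ j, a j + b j ≠ 0 → g j t ≠ 0 := by
    intro j hj h0
    by_cases ha : a j = 0
    · have hb : b j ≠ 0 := by omega
      apply h2
      unfold X
      rw [Finset.prod_eq_zero (Finset.mem_univ j) (by rw [h0, zero_pow hb]), mul_zero]
    · apply h1
      unfold X
      rw [Finset.prod_eq_zero (Finset.mem_univ j) (by rw [h0, zero_pow ha]), mul_zero]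
  have h4 : ∏ j ∈ occ a b, |(g j t : ℝ)| ≤ ∏ j, |(g j t : ℝ)| ^ (a j + b j) := by
    rw [← Finset.prod_sdiff (Finset.subset_univ (occ a b))]
    have e1 : ∏ j ∈ Finset.univ \ occ a b, |(g j t : ℝ)| ^ (a j + b j) = 1 :=
      Finset.prod_eq_one fun j hj => by
        have h5 : a j + b j = 0 := by
          by_contra hc
          exact (Finset.mem_sdiff.1 hj).2 (Finset.mem_filter.2 ⟨Finset.mem_univ _, hc⟩)
        rw [h5, pow_zero]
    rw [e1, one_mul]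
    refine Finset.prod_le_prod (fun _ _ => abs_nonneg _) fun j hj => ?_
    have h5 := (Finset.mem_filter.1 hj).2
    have h6 : (1 : ℝ) ≤ |(g j t : ℝ)| := by exact_mod_cast Int.one_le_abs (h3 j h5)
    calc |(g j t : ℝ)| = |(g j t : ℝ)| ^ 1 := (pow_one _).symm
      _ ≤ _ := pow_le_pow_right₀ h6 (Nat.one_le_iff_ne_zero.2 h5)
  refine h4.trans ?_
  simp only [pow_add]
  rw [Finset.prod_mul_distrib]
  exact mul_le_mul (one_le_X h1) (one_le_X h2)
    (Finset.prod_nonneg fun j _ => pow_nonneg (abs_nonneg _) _) (abs_nonneg _)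

/-- the inequality between the powers -/
theorem pow_bound {x y D P C : ℝ} {m n : ℕ} (hm : 0 < m) (hn : 0 < n) (hx : 1 ≤ |x|) (hy : 1 ≤ |y|)
    (hC : 0 ≤ C) (hD : 0 ≤ D) (hP : P ≤ |x| * |y|)
    (h : max (|x| ^ m) (|y| ^ n) ≤ C * (D * P)) :
    (max (|x| ^ m) (|y| ^ n)) ^ (1 - 1 / (m : ℝ) - 1 / n) ≤ C * D := by
  set M : ℝ := max (|x| ^ m) (|y| ^ n) with hM
  have hM1 : 1 ≤ M := (one_le_pow₀ hx).trans (le_max_left _ _)
  have hM0 : 0 < M := by linarith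
  have hm' : (m : ℝ) ≠ 0 := by positivity
  have hn' : (n : ℝ) ≠ 0 := by positivity
  have e1 : |x| ≤ M ^ (1 / (m : ℝ)) := by
    calc |x| = (|x| ^ m) ^ (1 / (m : ℝ)) := by
          rw [← Real.rpow_natCast, ← Real.rpow_mul (abs_nonneg x), mul_one_div_cancel hm',
            Real.rpow_one]
      _ ≤ _ := Real.rpow_le_rpow (by positivity) (le_max_left _ _) (by positivity)
  have e2 : |y| ≤ M ^ (1 / (n : ℝ)) := by
    calc |y| = (|y| ^ n) ^ (1 / (n : ℝ)) := by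
          rw [← Real.rpow_natCast, ← Real.rpow_mul (abs_nonneg y), mul_one_div_cancel hn',
            Real.rpow_one]
      _ ≤ _ := Real.rpow_le_rpow (by positivity) (le_max_right _ _) (by positivity)
  have e3 : |x| * |y| ≤ M ^ (1 / (m : ℝ) + 1 / n) := by
    rw [Real.rpow_add hM0]
    exact mul_le_mul e1 e2 (abs_nonneg _) (by positivity)
  have e4 : M ≤ C * D * M ^ (1 / (m : ℝ) + 1 / n) := by
    calc M ≤ C * (D * P) := h
      _ ≤ C * (D * (|x| * |y|)) := by gcongr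
      _ ≤ C * (D * M ^ (1 / (m : ℝ) + 1 / n)) := by gcongr
      _ = _ := by ring
  have e5 : M ^ (1 - 1 / (m : ℝ) - 1 / n) * M ^ (1 / (m : ℝ) + 1 / n) = M := by
    rw [← Real.rpow_add hM0]
    conv_rhs => rw [← Real.rpow_one M]
    congr 1
    ring
  have hpos : 0 < M ^ (1 / (m : ℝ) + 1 / n) := Real.rpow_pos_of_pos hM0 _
  exact le_of_mul_le_mul_right (le_trans (le_of_eq e5) e4) hpos

/-- the two inequalities -/
def Full (g : J → ℕ → ℤ) (ξ ζ r q : ℤ) (a b : J → ℕ) (m n : ℕ) (C : ℝ) (t : ℕ) : Prop :=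
  X g ξ r a t ^ m ≠ X g ζ q b t ^ n →
    (max (|(X g ξ r a t : ℝ)| ^ m) (|(X g ζ q b t : ℝ)| ^ n)) ^ (1 - 1 / (m : ℝ) - 1 / n) ≤
      C * |(X g ξ r a t : ℝ) ^ m - (X g ζ q b t : ℝ) ^ n| ∧
    (X g ξ r a t ≠ 0 → X g ζ q b t ≠ 0 →
      max (|(X g ξ r a t : ℝ)| ^ m) (|(X g ζ q b t : ℝ)| ^ n) ≤
      C * (|(X g ξ r a t : ℝ) ^ m - (X g ζ q b t : ℝ) ^ n| * ∏ j ∈ occ a b, |(g j t : ℝ)|))

theorem full_of {g : J → ℕ → ℤ} {ξ ζ r q : ℤ} {a b : J → ℕ} {m n : ℕ} (hm : 0 < m) (hn : 0 < n)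
    {C : ℝ} (hC : 1 ≤ C) {t : ℕ} (h : Good g ξ ζ r q a b m n C t) : Full g ξ ζ r q a b m n C t := by
  intro hne
  refine ⟨?_, fun h1 h2 => h h1 h2 hne⟩
  have hD : (1 : ℝ) ≤ |(X g ξ r a t : ℝ) ^ m - (X g ζ q b t : ℝ) ^ n| := by
    exact_mod_cast Int.one_le_abs (sub_ne_zero.2 hne)
  have hexp : 1 - 1 / (m : ℝ) - 1 / n ≤ 1 := by
    have : 0 < 1 / (m : ℝ) := by positivity
    have : 0 < 1 / (n : ℝ) := by positivity
    linarith
  by_cases h1 : X g ξ r a t = 0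
  · rw [h1] at hD ⊢
    simp only [Int.cast_zero, abs_zero, zero_pow hm.ne', zero_sub, abs_neg, abs_pow] at hD ⊢
    rw [max_eq_right (by positivity)]
    calc (|(X g ζ q b t : ℝ)| ^ n) ^ (1 - 1 / (m : ℝ) - 1 / n) ≤
          (|(X g ζ q b t : ℝ)| ^ n) ^ (1 : ℝ) := Real.rpow_le_rpow_of_exponent_le hD hexp
      _ = |(X g ζ q b t : ℝ)| ^ n := Real.rpow_one _
      _ ≤ _ := le_mul_of_one_le_left (by positivity) hC
  by_cases h2 : X g ζ q b t = 0
  · rw [h2] at hD ⊢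
    simp only [Int.cast_zero, abs_zero, zero_pow hn.ne', sub_zero, abs_pow] at hD ⊢
    rw [max_eq_left (by positivity)]
    calc (|(X g ξ r a t : ℝ)| ^ m) ^ (1 - 1 / (m : ℝ) - 1 / n) ≤
          (|(X g ξ r a t : ℝ)| ^ m) ^ (1 : ℝ) := Real.rpow_le_rpow_of_exponent_le hD hexp
      _ = |(X g ξ r a t : ℝ)| ^ m := Real.rpow_one _
      _ ≤ _ := le_mul_of_one_le_left (by positivity) hC
  · exact pow_bound hm hn (by exact_mod_cast Int.one_le_abs h1) (by exact_mod_cast Int.one_le_abs h2)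
      (by linarith) (abs_nonneg _) (occ_le h1 h2) (h h1 h2 hne)

theorem full_mono (g : J → ℕ → ℤ) (ξ ζ r q : ℤ) (a b : J → ℕ) (m n : ℕ) :
    MonoC (Full g ξ ζ r q a b m n) := by
  intro C C' s hCC h h3
  obtain ⟨h4, h5⟩ := h h3
  exact ⟨h4.trans (mul_le_mul_of_nonneg_right hCC (abs_nonneg _)), fun h1 h2 =>
    (h5 h1 h2).trans (mul_le_mul_of_nonneg_right hCC (mul_nonneg (abs_nonneg _)
    (Finset.prod_nonneg fun _ _ => abs_nonneg _)))⟩

/-- almost all members -/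
theorem full_aa (g : J → ℕ → ℤ)
    (hg : ∀ j, ∃ E : LinearRecurrence ℤ, E.IsSolution (g j)) (ξ ζ r q : ℤ) (hr : r ≠ 0)
    (hq : q ≠ 0) (a b : J → ℕ) (m n : ℕ) (hm : 0 < m) (hn : 0 < n) (η : ℝ) (hη : 0 < η) :
    ∃ (C : ℝ) (T z : ℕ), ∀ t N : ℕ, z ≤ t → T ≤ N →
      (({s | t ≤ s ∧ s < t + N ∧ ¬ Full g ξ ζ r q a b m n C s}.ncard : ℕ) : ℝ) ≤ η * N := by
  have h1 := mAA.imp (core mAA g hg ξ ζ r q hr hq a b m n) (fun C => C) 0 PolyB.id
    (full_mono g ξ ζ r q a b m n) (fun C s hC _ h => full_of hm hn hC h)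
  obtain ⟨C, T, z, -, h2⟩ := h1 η hη
  exact ⟨C, T, z, h2⟩

/-- all members -/
theorem full_ee (g : J → ℕ → ℤ)
    (hg : ∀ j, ∃ E : LinearRecurrence ℤ, E.IsSolution (g j)) (ξ ζ r q : ℤ) (hr : r ≠ 0)
    (hq : q ≠ 0) (a b : J → ℕ) (m n : ℕ) (hm : 0 < m) (hn : 0 < n) (ε : ℝ) (hε : 0 < ε) :
    ∃ C : ℝ, 1 ≤ C ∧ ∀ s : ℕ, Full g ξ ζ r q a b m n (C * Real.exp (ε * s)) s := by
  classical
  have h1 := mEE.imp (core mEE g hg ξ ζ r q hr hq a b m n) (fun C => C) 0 PolyB.id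
    (full_mono g ξ ζ r q a b m n) (fun C s hC _ h => full_of hm hn hC h)
  obtain ⟨z, h2⟩ := h1 ε hε
  set H : ℕ → ℝ := fun s => max (|(X g ξ r a s : ℝ)| ^ m) (|(X g ζ q b s : ℝ)| ^ n) with hH
  have hH0 : ∀ s, 0 ≤ H s := fun s => le_max_of_le_left (by positivity)
  refine ⟨1 + ∑ s ∈ Finset.range z, H s, ?_, fun s => ?_⟩
  · have : 0 ≤ ∑ s ∈ Finset.range z, H s := Finset.sum_nonneg fun s _ => hH0 s
    linarith
  · have hs0 : 0 ≤ ∑ s ∈ Finset.range z, H s := Finset.sum_nonneg fun s _ => hH0 s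
    by_cases hsz : z ≤ s
    · refine full_mono g ξ ζ r q a b m n _ _ s ?_ (h2 s hsz)
      exact le_mul_of_one_le_left (Real.exp_pos _).le (by linarith)
    · rw [not_le] at hsz
      refine full_of hm hn ?_ ?_
      · exact one_le_mul_of_one_le_of_one_le (by linarith) (Real.one_le_exp (by positivity))
      · intro h3 h4 h5
        have h6 : H s ≤ ∑ s ∈ Finset.range z, H s :=
          Finset.single_le_sum (f := H) (fun s _ => hH0 s) (Finset.mem_range.2 hsz)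
        have hD : (1 : ℝ) ≤ |(X g ξ r a s : ℝ) ^ m - (X g ζ q b s : ℝ) ^ n| := by
          exact_mod_cast Int.one_le_abs (sub_ne_zero.2 h5)
        have hP := one_le_occ h3 h4
        have h7 : 1 ≤ |(X g ξ r a s : ℝ) ^ m - (X g ζ q b s : ℝ) ^ n| *
            ∏ j ∈ occ a b, |(g j s : ℝ)| := one_le_mul_of_one_le_of_one_le hD hP
        calc H s ≤ (1 + ∑ s ∈ Finset.range z, H s) * Real.exp (ε * s) := by
              have h8 : 1 ≤ Real.exp (ε * s) := Real.one_le_exp (by positivity)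
              nlinarith
          _ ≤ _ := le_mul_of_one_le_right (by positivity) h7

end Pool.Agent.Q183.AM.Hall
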