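import Pool.Agent.Q183.AM.KV
import Pool.Agent.Q183.AM.Modes
import Pool.Agent.Q183.AR.JInv

/-!
Invariants of elliptic curves given by products of powers of linear recurrences.
-/

set_option autoImplicit false

namespace Pool.Agent.Q183.AM

open Pool.Agent.Q183.AR
open NumberField Height IsDedekindDomain
open Pool.Agent.W223.CV (cc)
open Pool.Agent.Q103.SDV (Bad IsJ scount scount_eq AddP rad_le_J log_mob_le log_rat bad_finite)

variable {K : Type} [Field K] [NumberField K] {J : Type} [Fintype J]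

theorem loss_three (e : Fin 3 → J → ℕ) (j : J) : loss (N := 2) e j ≤ 1 := by
  have := loss_le (N := 2) e j
  simpa using this

theorem loss_three_eq {e : Fin 3 → J → ℕ} {j : J} (hj : j ∉ unequal e) :
    loss (N := 2) e j = 0 := by
  classical
  refine loss_eq_zero fun h => hj ?_
  obtain ⟨i, i', h1⟩ := (Finset.mem_filter.1 h).2
  refine Finset.mem_filter.2 ⟨Finset.mem_univ _, fun h2 => h1 ?_⟩
  have h3 : ∀ i, e i j = e 0 j := by
    intro i
    fin_cases i
    · rfl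
    · exact h2.1.symm
    · exact (h2.1.trans h2.2).symm
  exact (h3 i).trans (h3 i').symm

/-- three terms -/
theorem mheight3 (𝓜 : Mode) (g : J → ℕ → 𝓞 K)
    (hg : ∀ j, ∃ E : LinearRecurrence (𝓞 K), E.IsSolution (g j)) (κ μ : Fin 3 → 𝓞 K)
    (hμ : ∀ i, μ i ≠ 0) (e : Fin 3 → J → ℕ) (hsum : ∀ t, ∑ i, term κ μ g e i t = 0) :
    ∃ M : ℕ, 0 < M ∧ ∀ ρ : ℕ,
      (∃ (c₀ c₁ : K) (z : ℕ), (c₀ ≠ 0 ∨ c₁ ≠ 0) ∧ ∀ t, z ≤ t → t ≡ ρ [MOD M] →
        c₀ * (term κ μ g e 0 t : K) = c₁ * (term κ μ g e 1 t : K)) ∨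
      𝓜.A fun C s => s ≡ ρ [MOD M] → (∀ i, term κ μ g e i s ≠ 0) ∧
        mulHeight (fun i => (term κ μ g e i s : K)) ≤
          C * ∏ j ∈ unequal e, |((Algebra.norm ℚ (g j s : K) : ℚ) : ℝ)| := by
  classical
  obtain ⟨M, hM, h⟩ := mheight (N := 2) 𝓜 (by norm_num) g hg κ μ hμ e hsum
  refine ⟨M, hM, fun ρ => ?_⟩
  rcases h ρ with ⟨c, z, hc0, hc1, hc2⟩ | h1
  · left
    have h3 : c 2 = 0 := hc0
    refine ⟨c 0, -c 1, z, ?_, fun t ht htm => ?_⟩
    · by_contra hcon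
      push Not at hcon
      apply hc1
      funext i
      fin_cases i
      · exact hcon.1
      · exact neg_eq_zero.1 hcon.2
      · exact hc0
    · have h4 := hc2 t ht htm
      have h5 : ∑ i : Fin 3, c i * (trm (N := 2) κ μ g e i t : K) =
          c 0 * (term κ μ g e 0 t : K) + c 1 * (term κ μ g e 1 t : K) +
            c 2 * (term κ μ g e 2 t : K) := Fin.sum_univ_three _
      have h6 := h5.symm.trans h4
      rw [h3, zero_mul, add_zero] at h6
      linear_combination h6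
  · right
    refine 𝓜.imp h1 (fun C => C) 0 PolyB.id (fun C C' s hCC h hs => ⟨(h hs).1, (h hs).2.trans
      (mul_le_mul_of_nonneg_right hCC (Finset.prod_nonneg fun _ _ => abs_nonneg _))⟩)
      fun C s hC _ h2 hs => ?_
    obtain ⟨h3, h4⟩ := h2 hs
    refine ⟨h3, ?_⟩
    refine h4.trans (mul_le_mul_of_nonneg_left ?_ (by linarith))
    rw [← Finset.prod_sdiff (Finset.subset_univ (unequal e))]
    have h5 : ∏ j ∈ Finset.univ \ unequal e,
        |((Algebra.norm ℚ (g j s : K) : ℚ) : ℝ)| ^ loss (N := 2) e j = 1 :=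
      Finset.prod_eq_one fun j hj => by
        rw [loss_three_eq (Finset.mem_sdiff.1 hj).2, pow_zero]
    rw [h5, one_mul]
    refine Finset.prod_le_prod (fun _ _ => pow_nonneg (abs_nonneg _) _) fun j hj => ?_
    -- the norm of the base is at least one, since the terms are not zero
    have hgj : g j s ≠ 0 := by
      intro h0
      have h6 := (Finset.mem_filter.1 hj).2
      have h7 : ∀ i, e i j = 0 := by
        intro i
        by_contra h8
        apply h3 i
        show κ i * μ i ^ s * ∏ j, g j s ^ e i j = 0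
        rw [Finset.prod_eq_zero (Finset.mem_univ j) (by rw [h0, zero_pow h8]), mul_zero]
      exact h6 ⟨(h7 0).trans (h7 1).symm, (h7 1).trans (h7 2).symm⟩
    have h1n : 1 ≤ |((Algebra.norm ℚ (g j s : K) : ℚ) : ℝ)| := by
      rw [norm_span]
      exact_mod_cast Nat.one_le_iff_ne_zero.2 fun h0 => hgj (Ideal.span_singleton_eq_bot.1
        (Ideal.absNorm_eq_zero_iff.1 h0))
    calc |((Algebra.norm ℚ (g j s : K) : ℚ) : ℝ)| ^ loss (N := 2) e j ≤
          |((Algebra.norm ℚ (g j s : K) : ℚ) : ℝ)| ^ 1 := pow_le_pow_right₀ h1n (loss_three e j)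
      _ = _ := pow_one _

/-- the invariant -/
noncomputable def jv (κ μ : Fin 3 → 𝓞 K) (g : J → ℕ → 𝓞 K) (e : Fin 3 → J → ℕ) (t : ℕ) : K :=
  -(1728 * (term κ μ g e 0 t : K) / (term κ μ g e 2 t : K))

theorem isJ_jv {κ μ : Fin 3 → 𝓞 K} {g : J → ℕ → 𝓞 K} {e : Fin 3 → J → ℕ} {t : ℕ}
    (hsum : ∑ i, term κ μ g e i t = 0) (h2 : term κ μ g e 2 t ≠ 0) :
    IsJ (fun i => term κ μ g e i t) (jv κ μ g e t) := by
  have h2' : (term κ μ g e 2 t : K) ≠ 0 := RingOfIntegers.coe_ne_zero_iff.mpr h2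
  have h3 : (term κ μ g e 0 t : K) + (term κ μ g e 1 t : K) + (term κ μ g e 2 t : K) = 0 := by
    rw [Fin.sum_univ_three] at hsum
    exact_mod_cast congrArg (algebraMap (𝓞 K) K) hsum
  refine ⟨-((term κ μ g e 2 t : K) / 1728), neg_ne_zero.2 (div_ne_zero h2' (by norm_num)), ?_, ?_, ?_⟩
  · unfold jv
    field_simp
  · unfold jv
    field_simp
    linear_combination h3
  · field_simp

theorem height_1728 : logHeight₁ (1728 : K) = Module.finrank ℚ K * Real.log 1728 := by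
  have h := log_rat (K := K) 1728
  push_cast at h
  rw [h]
  congr 1
  have h3 : mulHeight₁ (1728 : ℚ) = 1728 := by
    have := Rat.mulHeight₁_eq_max (1728 : ℚ)
    rw [this]
    norm_num
  show Real.log (mulHeight₁ (1728 : ℚ)) = _
  rw [h3]

/-- the inequality for the invariant -/
def JIneq (κ μ : Fin 3 → 𝓞 K) (g : J → ℕ → 𝓞 K) (e : Fin 3 → J → ℕ) (C : ℝ) (s : ℕ) : Prop :=
  jv κ μ g e s ≠ 0 ∧ jv κ μ g e s ≠ 1728 ∧ ∀ 𝔞 𝔟 : Ideal (𝓞 K),
    Ideal.span {∏ j ∈ unequal e, g j s} = 𝔞 * 𝔟 → Squarefree 𝔞 → IsCoprime 𝔞 𝔟 →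
      1 / 6 * logHeight₁ (jv κ μ g e s) ≤ scount (fun v => 1 < FinitePlace.mk v (jv κ μ g e s)) +
        scount (AddP (jv κ μ g e s)) + Real.log (Ideal.absNorm 𝔟) + Real.log (max C 1)

theorem jineq_mono (κ μ : Fin 3 → 𝓞 K) (g : J → ℕ → 𝓞 K) (e : Fin 3 → J → ℕ) :
    MonoC (JIneq κ μ g e) := by
  rintro C C' s hCC ⟨h1, h2, h3⟩
  refine ⟨h1, h2, fun 𝔞 𝔟 h4 h5 h6 => (h3 𝔞 𝔟 h4 h5 h6).trans ?_⟩
  have h7 : Real.log (max C 1) ≤ Real.log (max C' 1) :=
    Real.log_le_log (lt_of_lt_of_le one_pos (le_max_right _ _)) (max_le_max hCC (le_refl _))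
  linarith

theorem jcore (𝓜 : Mode) (g : J → ℕ → 𝓞 K)
    (hg : ∀ j, ∃ E : LinearRecurrence (𝓞 K), E.IsSolution (g j)) (κ μ : Fin 3 → 𝓞 K)
    (hμ : ∀ i, μ i ≠ 0) (e : Fin 3 → J → ℕ) (hsum : ∀ t, ∑ i, term κ μ g e i t = 0) :
    ∃ Λ : Set K, Λ.Finite ∧
      𝓜.A fun C s => term κ μ g e 2 s ≠ 0 → jv κ μ g e s ∉ Λ → JIneq κ μ g e C s := by
  classical
  obtain ⟨M, hM, h⟩ := mheight3 𝓜 g hg κ μ hμ e hsum
  obtain ⟨B, hB0, hB⟩ := near_rad κ μ hμ g e
  set d : ℝ := ((Module.finrank ℚ K : ℕ) : ℝ) with hd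
  have hd0 : 0 ≤ d := Nat.cast_nonneg _
  have l1 : 0 ≤ Real.log 1728 := Real.log_nonneg (by norm_num)
  have l2 : 0 ≤ Real.log 2 := Real.log_nonneg (by norm_num)
  have l3 : 0 ≤ Real.log 3 := Real.log_nonneg (by norm_num)
  set D : ℝ := B + d * (2 * Real.log 1728 + 2 * Real.log 2 + Real.log 3) with hD
  have hD0 : 0 ≤ D := by positivity
  -- the value on a class
  have hval : ∀ ρ : ℕ, ∃ w : K, (𝓜.A fun C s => s ≡ ρ [MOD M] → term κ μ g e 2 s ≠ 0 →
      jv κ μ g e s ≠ w → JIneq κ μ g e C s) := by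
    intro ρ
    rcases h ρ with ⟨c₀, c₁, z, hc, h1⟩ | h1
    · refine ⟨1728 * c₁ / (c₀ + c₁), 𝓜.large 1 z (fun C C' s hCC h2 h3 h4 h5 =>
        jineq_mono κ μ g e C C' s hCC (h2 h3 h4 h5)) fun s hs hsρ h2 h3 => absurd ?_ h3⟩
      have h4 := h1 s hs hsρ
      have h5 : (term κ μ g e 0 s : K) + (term κ μ g e 1 s : K) + (term κ μ g e 2 s : K) = 0 := by
        have := hsum s
        rw [Fin.sum_univ_three] at this
        exact_mod_cast congrArg (algebraMap (𝓞 K) K) this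
      have h2' : (term κ μ g e 2 s : K) ≠ 0 := RingOfIntegers.coe_ne_zero_iff.mpr h2
      have h6 : (c₀ + c₁) * (term κ μ g e 0 s : K) = -(c₁ * (term κ μ g e 2 s : K)) := by
        linear_combination h4 + c₁ * h5
      have h7 : c₀ + c₁ ≠ 0 := by
        intro h0
        rw [h0, zero_mul] at h6
        have h8 : c₁ = 0 := (mul_eq_zero.1 (neg_eq_zero.1 h6.symm)).resolve_right h2'
        rw [h8, add_zero] at h0
        rcases hc with hc | hc
        · exact hc h0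
        · exact hc h8
      unfold jv
      rw [← neg_div, div_eq_div_iff h2' h7]
      linear_combination (-1728) * h6
    · refine ⟨0, 𝓜.imp h1 (fun C => Real.exp D * C) 0 ((PolyB.const _).mul PolyB.id
        (fun C hC => by linarith)) (fun C C' s hCC h2 h3 h4 h5 =>
        jineq_mono κ μ g e C C' s hCC (h2 h3 h4 h5)) fun C s hC _ h2 hsρ h4 h5 => ?_⟩
      obtain ⟨hne, hh⟩ := h2 hsρ
      have hJ := isJ_jv (hsum s) h4
      set P : Fin 3 → 𝓞 K := fun i => term κ μ g e i s with hP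
      set j := jv κ μ g e s with hj
      have hPK : ∀ k, (P k : K) ≠ 0 := fun k => RingOfIntegers.coe_ne_zero_iff.mpr (hne k)
      have hj1 : j ≠ 1728 := by
        intro h0
        obtain ⟨w, hw, e0, e1, e2⟩ := hJ
        apply hPK 1
        rw [e1, h0, sub_self, mul_zero]
      refine ⟨h5, hj1, fun 𝔞 𝔟 hab hsq hcop => ?_⟩
      have k1 := rad_le_J P hne h5 hj1 hJ
      have k2 := hB s hne 𝔞 𝔟 hab hsq hcop
      have hy : (j / 1728) * (P 2 : K) = -(P 0 : K) := by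
        rw [hj]
        unfold jv
        have := hPK 2
        simp only [hP] at this ⊢
        field_simp
      have k3 := log_mob_le P hne _ hy
      have h1728 : (1728 : K) ≠ 0 := by norm_num
      have k5 : logHeight₁ j ≤ logHeight₁ (j / 1728) + d * Real.log 1728 := by
        have h := logHeight₁_mul_le (j / 1728) (1728 : K)
        rw [div_mul_cancel₀ _ h1728, height_1728] at h
        exact h
      have hC0 : 0 < C := by linarith
      have hhp : 1 ≤ mulHeight (fun i => (P i : K)) := one_le_mulHeight _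
      have hPr : 0 < ∏ j ∈ unequal e, |((Algebra.norm ℚ (g j s : K) : ℚ) : ℝ)| :=
        (mul_pos_iff_of_pos_left hC0).1 (lt_of_lt_of_le (lt_of_lt_of_le one_pos hhp) hh)
      have k6 : logHeight (fun i => (P i : K)) ≤ Real.log C +
          Real.log (∏ j ∈ unequal e, |((Algebra.norm ℚ (g j s : K) : ℚ) : ℝ)|) := by
        rw [logHeight_eq_log_mulHeight, ← Real.log_mul hC0.ne' hPr.ne']
        exact Real.log_le_log (by linarith) hh
      have k7 : Real.log (max (Real.exp D * C) 1) = D + Real.log C := by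
        have h1e : 1 ≤ Real.exp D * C := one_le_mul_of_one_le_of_one_le (Real.one_le_exp hD0) hC
        rw [max_eq_left h1e, Real.log_mul (Real.exp_pos _).ne' hC0.ne', Real.log_exp]
      rw [k7, hD]
      linarith
  choose w hw using hval
  refine ⟨Set.range fun ρ : Fin M => w ρ, Set.finite_range _, ?_⟩
  refine 𝓜.imp (𝓜.all (fun ρ : Fin M => hw ρ) (fun ρ C C' s hCC h1 h2 h3 h4 =>
      jineq_mono κ μ g e C C' s hCC (h1 h2 h3 h4)))
    (fun C => C) 0 PolyB.id (fun C C' s hCC h1 h2 h3 =>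
      jineq_mono κ μ g e C C' s hCC (h1 h2 h3)) fun C s hC _ h1 h2 h3 => ?_
  exact h1 ⟨s % M, Nat.mod_lt _ hM⟩ (Nat.mod_modEq s M).symm h2 fun h4 => h3 ⟨_, h4.symm⟩

end Pool.Agent.Q183.AM
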