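import Pool.Agent.Q183.AM.J3

/-!
Invariants of elliptic curves given by products of powers of linear recurrences: almost all members,
and all large members whose height grows linearly.
-/

set_option autoImplicit false

namespace Pool.Agent.Q183.AM

open Pool.Agent.Q183.AR
open NumberField Height IsDedekindDomain
open Pool.Agent.Q103.SDV (scount AddP)

variable {K : Type} [Field K] [NumberField K] {J : Type} [Fintype J]

theorem rec_term {g : J → ℕ → 𝓞 K} (hg : ∀ j, ∃ E : LinearRecurrence (𝓞 K), E.IsSolution (g j))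
    (κ μ : Fin 3 → 𝓞 K) (e : Fin 3 → J → ℕ) (i : Fin 3) : Rec (term κ μ g e i) := by
  have h1 : Rec fun t => κ i * μ i ^ t := (Rec.const _).mul (Rec.geom _)
  have h2 : Rec fun t => ∏ j, g j t ^ e i j := Rec.prod Finset.univ fun j _ => Rec.pow (hg j) _
  exact h1.mul h2

/-- the heights of the invariants tend to infinity, except for finitely many values -/
theorem jheight (g : J → ℕ → 𝓞 K)
    (hg : ∀ j, ∃ E : LinearRecurrence (𝓞 K), E.IsSolution (g j)) (κ μ : Fin 3 → 𝓞 K)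
    (e : Fin 3 → J → ℕ) :
    ∃ Λ : Set K, Λ.Finite ∧ ∀ H : ℝ,
      mAA.A fun _ s => term κ μ g e 2 s ≠ 0 → jv κ μ g e s ∉ Λ → H ≤ logHeight₁ (jv κ μ g e s) := by
  classical
  obtain ⟨M, hM, h⟩ := dichU (R := 𝓞 K) (K := K) (N := 2)
    (fun k => if k = 0 then term κ μ g e 0 else term κ μ g e 2) (fun k => by
      split_ifs
      · exact rec_term hg κ μ e 0
      · exact rec_term hg κ μ e 2)
  -- the relation of a value
  have hrel : ∀ (w : K) (s : ℕ), ∑ k : Fin 2, (fun k : Fin 2 => if k = 0 then (1728 : K) else w) k *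
      algebraMap (𝓞 K) K ((fun k : Fin 2 => if k = 0 then term κ μ g e 0 else term κ μ g e 2) k s) =
      1728 * (term κ μ g e 0 s : K) + w * (term κ μ g e 2 s : K) := by
    intro w s
    rw [Fin.sum_univ_two]
    simp
  have hval : ∀ (w : K) (s : ℕ), term κ μ g e 2 s ≠ 0 → (jv κ μ g e s = w ↔
      1728 * (term κ μ g e 0 s : K) + w * (term κ μ g e 2 s : K) = 0) := by
    intro w s h2
    have h2' : (term κ μ g e 2 s : K) ≠ 0 := RingOfIntegers.coe_ne_zero_iff.mpr h2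
    unfold jv
    rw [neg_eq_iff_eq_neg, div_eq_iff h2']
    constructor
    · intro h3
      linear_combination h3
    · intro h3
      linear_combination h3
  -- the values taken on a class
  have hex : ∀ ρ : ℕ, ∃ w0 : K, ∀ w : K, w ≠ w0 →
      mAA.A fun _ s => s ≡ ρ [MOD M] → term κ μ g e 2 s ≠ 0 → jv κ μ g e s ≠ w := by
    intro ρ
    by_cases hcase : ∃ w0 z, (∀ t, z ≤ t → t ≡ ρ [MOD M] →
        1728 * (term κ μ g e 0 t : K) + w0 * (term κ μ g e 2 t : K) = 0)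
    · obtain ⟨w0, z, h0⟩ := hcase
      refine ⟨w0, fun w hw => mAA.large 1 z (fun _ _ _ _ h => h) fun s hs hsρ h2 h3 => hw ?_⟩
      rw [← h3, (hval w0 s h2).2 (h0 s hs hsρ)]
    · push Not at hcase
      refine ⟨0, fun w _ => ?_⟩
      rcases h ρ (fun k => if k = 0 then (1728 : K) else w) with ⟨z, h1⟩ | h1
      · obtain ⟨t, ht, htρ, h2⟩ := hcase w z
        exact absurd ((hrel w t).symm.trans (h1 t ht htρ)) h2
      · refine AA1.ofAA (h1.imp (fun C => C) 0 (fun C hC => hC) fun C s _ _ h2 hsρ h3 h4 => ?_)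
          (fun _ _ _ _ h => h)
        refine h2 hsρ ((hrel w s).trans ((hval w s h3).1 h4))
  choose w0 hw0 using hex
  refine ⟨Set.range fun ρ : Fin M => w0 ρ, Set.finite_range _, fun H => ?_⟩
  have hfin : {x : K | logHeight₁ x ≤ H}.Finite := Northcott.finite_le H
  have hfin2 : Finite {x : K // logHeight₁ x ≤ H ∧ x ∉ Set.range fun ρ : Fin M => w0 ρ} := by
    refine Set.finite_coe_iff.2 (hfin.subset fun x hx => hx.1)
  have h1 := mAA.all (α := {x : K // logHeight₁ x ≤ H ∧ x ∉ Set.range fun ρ : Fin M => w0 ρ} × Fin M)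
    (P := fun a _ s => s ≡ a.2 [MOD M] → term κ μ g e 2 s ≠ 0 → jv κ μ g e s ≠ a.1)
    (fun a => hw0 a.2 a.1 fun h3 => a.1.2.2 ⟨a.2, h3.symm⟩) (fun _ _ _ _ _ h => h)
  refine mAA.imp h1 (fun C => C) 0 PolyB.id (fun _ _ _ _ h => h) fun C s _ _ h2 h3 h4 => ?_
  by_contra hcon
  rw [not_le] at hcon
  exact h2 (⟨jv κ μ g e s, hcon.le, h4⟩, ⟨s % M, Nat.mod_lt _ hM⟩) (Nat.mod_modEq s M).symm h3 rfl

/-- the product of the bases with unequal exponents is nearly squarefree -/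
def NearSqf (κ μ : Fin 3 → 𝓞 K) (g : J → ℕ → 𝓞 K) (e : Fin 3 → J → ℕ) (ρ : ℝ) (s : ℕ) : Prop :=
  ∃ 𝔞 𝔟 : Ideal (𝓞 K), Ideal.span {∏ j ∈ unequal e, g j s} = 𝔞 * 𝔟 ∧ Squarefree 𝔞 ∧
    IsCoprime 𝔞 𝔟 ∧ Real.log (Ideal.absNorm 𝔟) ≤ ρ * logHeight₁ (jv κ μ g e s)

/-- the final inequality -/
def JGood (κ μ : Fin 3 → 𝓞 K) (g : J → ℕ → 𝓞 K) (e : Fin 3 → J → ℕ) (θ H : ℝ) (s : ℕ) : Prop :=
  jv κ μ g e s ≠ 0 ∧ jv κ μ g e s ≠ 1728 ∧ H ≤ logHeight₁ (jv κ μ g e s) ∧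
    θ * logHeight₁ (jv κ μ g e s) ≤ scount (fun v => 1 < FinitePlace.mk v (jv κ μ g e s)) +
      scount (AddP (jv κ μ g e s))

/-- **Invariants along recurrences**: almost all members, and all large members with heights of
linear growth. -/
theorem jfinal (g : J → ℕ → 𝓞 K)
    (hg : ∀ j, ∃ E : LinearRecurrence (𝓞 K), E.IsSolution (g j)) (κ μ : Fin 3 → 𝓞 K)
    (hμ : ∀ i, μ i ≠ 0) (e : Fin 3 → J → ℕ) (hsum : ∀ t, ∑ i, term κ μ g e i t = 0) :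
    ∃ Λ : Set K, Λ.Finite ∧ ∀ ρ θ : ℝ, ρ + θ < 1 / 6 → ∀ H : ℝ,
      (∀ η : ℝ, 0 < η → ∃ T z : ℕ, ∀ t n : ℕ, z ≤ t → T ≤ n →
        (({s | t ≤ s ∧ s < t + n ∧ term κ μ g e 2 s ≠ 0 ∧ jv κ μ g e s ∉ Λ ∧
          NearSqf κ μ g e ρ s ∧ ¬ JGood κ μ g e θ H s}.ncard : ℕ) : ℝ) ≤ η * n) ∧
      ∀ c : ℝ, 0 < c → ∃ z : ℕ, ∀ s : ℕ, z ≤ s → term κ μ g e 2 s ≠ 0 → jv κ μ g e s ∉ Λ →
        NearSqf κ μ g e ρ s → c * s ≤ logHeight₁ (jv κ μ g e s) → JGood κ μ g e θ H s := by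
  classical
  obtain ⟨Λ₁, hΛ₁, h1⟩ := jcore mAA g hg κ μ hμ e hsum
  obtain ⟨Λ₂, hΛ₂, h2⟩ := jcore mEE g hg κ μ hμ e hsum
  obtain ⟨Λ₃, hΛ₃, h3⟩ := jheight g hg κ μ e
  refine ⟨Λ₁ ∪ Λ₂ ∪ Λ₃, (hΛ₁.union hΛ₂).union hΛ₃, fun ρ θ hρθ H => ⟨fun η hη => ?_, fun c hc => ?_⟩⟩
  · obtain ⟨C, T, z, hC, h4⟩ := h1 (η / 2) (by linarith)
    set δ : ℝ := 1 / 6 - ρ - θ with hδ
    have hδ0 : 0 < δ := by rw [hδ]; linarith
    obtain ⟨C', T', z', hC', h5⟩ := h3 (max H (Real.log (max C 1) / δ)) (η / 2) (by linarith)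
    refine ⟨max T T', max z z', fun t n ht hn => ?_⟩
    have h6 := h4 t n ((le_max_left _ _).trans ht) ((le_max_left _ _).trans hn)
    have h7 := h5 t n ((le_max_right _ _).trans ht) ((le_max_right _ _).trans hn)
    have h8 : {s | t ≤ s ∧ s < t + n ∧ term κ μ g e 2 s ≠ 0 ∧ jv κ μ g e s ∉ Λ₁ ∪ Λ₂ ∪ Λ₃ ∧
          NearSqf κ μ g e ρ s ∧ ¬ JGood κ μ g e θ H s} ⊆
        {s | t ≤ s ∧ s < t + n ∧ ¬ (term κ μ g e 2 s ≠ 0 → jv κ μ g e s ∉ Λ₁ →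
          JIneq κ μ g e C s)} ∪
        {s | t ≤ s ∧ s < t + n ∧ ¬ (term κ μ g e 2 s ≠ 0 → jv κ μ g e s ∉ Λ₃ →
          max H (Real.log (max C 1) / δ) ≤ logHeight₁ (jv κ μ g e s))} := by
      rintro s ⟨k1, k2, k3, k4, k5, k6⟩
      by_contra hcon
      simp only [Set.mem_union, not_or] at hcon k4
      obtain ⟨⟨k7, k8⟩, k9⟩ := k4
      obtain ⟨m1, m2⟩ := hcon
      have m1' : JIneq κ μ g e C s := by
        by_contra hc
        exact m1 ⟨k1, k2, fun hh => hc (hh k3 k7)⟩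
      have m2' : max H (Real.log (max C 1) / δ) ≤ logHeight₁ (jv κ μ g e s) := by
        by_contra hc
        exact m2 ⟨k1, k2, fun hh => hc (hh k3 k9)⟩
      obtain ⟨𝔞, 𝔟, n1, n2, n3, n4⟩ := k5
      obtain ⟨n5, n6, n7⟩ := m1'
      refine k6 ⟨n5, n6, (le_max_left _ _).trans m2', ?_⟩
      have n8 := n7 𝔞 𝔟 n1 n2 n3
      have n9 : Real.log (max C 1) ≤ δ * logHeight₁ (jv κ μ g e s) := by
        have := (le_max_right _ _).trans m2'
        rw [div_le_iff₀ hδ0] at this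
        linarith
      rw [hδ] at n9
      linarith
    have h9 : ({s | t ≤ s ∧ s < t + n ∧ term κ μ g e 2 s ≠ 0 ∧ jv κ μ g e s ∉ Λ₁ ∪ Λ₂ ∪ Λ₃ ∧
          NearSqf κ μ g e ρ s ∧ ¬ JGood κ μ g e θ H s}).ncard ≤ _ + _ :=
      (Set.ncard_le_ncard h8 (((Set.finite_Ico t (t + n)).subset fun _ hs => ⟨hs.1, hs.2.1⟩).union
        ((Set.finite_Ico t (t + n)).subset fun _ hs => ⟨hs.1, hs.2.1⟩))).trans
        (Set.ncard_union_le _ _)
    have h10 : (({s | t ≤ s ∧ s < t + n ∧ term κ μ g e 2 s ≠ 0 ∧ jv κ μ g e s ∉ Λ₁ ∪ Λ₂ ∪ Λ₃ ∧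
          NearSqf κ μ g e ρ s ∧ ¬ JGood κ μ g e θ H s}.ncard : ℕ) : ℝ) ≤ η / 2 * n + η / 2 * n :=
      le_trans (by exact_mod_cast h9) (add_le_add h6 h7)
    linarith
  · set δ : ℝ := 1 / 6 - ρ - θ with hδ
    have hδ0 : 0 < δ := by rw [hδ]; linarith
    obtain ⟨z, h4⟩ := h2 (δ * c) (mul_pos hδ0 hc)
    obtain ⟨z', hz'⟩ := exists_nat_ge (H / c)
    refine ⟨max z z', fun s hs k3 k4 k5 k6 => ?_⟩
    simp only [Set.mem_union, not_or] at k4
    obtain ⟨⟨k7, k8⟩, k9⟩ := k4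
    obtain ⟨𝔞, 𝔟, n1, n2, n3, n4⟩ := k5
    obtain ⟨n5, n6, n7⟩ := h4 s ((le_max_left _ _).trans hs) k3 k8
    have hsR : (0 : ℝ) ≤ s := Nat.cast_nonneg s
    refine ⟨n5, n6, ?_, ?_⟩
    · refine le_trans ?_ k6
      have h5 : (z' : ℝ) ≤ s := by exact_mod_cast (le_max_right _ _).trans hs
      have h6 := hz'.trans h5
      rw [div_le_iff₀ hc] at h6
      linarith
    · have n8 := n7 𝔞 𝔟 n1 n2 n3
      have n9 : Real.log (max (Real.exp (δ * c * s)) 1) ≤ δ * logHeight₁ (jv κ μ g e s) := by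
        rw [max_eq_left (Real.one_le_exp (by positivity)), Real.log_exp, mul_assoc]
        exact mul_le_mul_of_nonneg_left k6 hδ0.le
      rw [hδ] at n9 n8
      linarith

end Pool.Agent.Q183.AM
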