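import Pool.Agent.Q183.AM.Core

/-!
The inequality for linear recurrences over number fields, for most arguments, in the ideal form.
-/

set_option autoImplicit false

namespace Pool.Agent.Q183.AM

open Polynomial
open Pool.Agent.Q183.AR

theorem int_mul {L : Type} [Field L] {v : L} (hv : IsIntegral ℤ v) {w : L} (hw : IsIntegral ℤ w) :
    IsIntegral ℤ (v * w) := hv.mul hw

/-- **The inequality for linear recurrences**, for most arguments, in the ideal form. -/
theorem mmain (𝓜 : Mode) {R K : Type} [CommRing R] [Algebra.IsIntegral ℤ R] [Field K] [NumberField K]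
    [Algebra R K] {N : ℕ} (hN : 0 < N) {J : Type} [Fintype J] (g : J → ℕ → R)
    (hg : ∀ j, ∃ E : LinearRecurrence R, E.IsSolution (g j))
    (κ μ : Fin (N + 1) → R) (hμ : ∀ i, algebraMap R K (μ i) ≠ 0)
    (e : Fin (N + 1) → J → ℕ) (m : J → ℕ) (x : Fin (N + 1) → J → ℕ) (hm : ∀ i j, m j ≤ e i j)
    (hx : ∀ i0 j, ∀ σ : Equiv.Perm (Fin N),
      ∑ k : Fin N, min (e (i0.succAbove (σ k)) j - m j) k ≤ x i0 j)
    (hsum : ∀ t, algebraMap R K (∑ i, κ i * μ i ^ t * ∏ j, g j t ^ e i j) = 0) :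
    ∃ M : ℕ, 0 < M ∧ ∀ ρ : ℕ,
      (∃ (c : Fin (N + 1) → K) (z : ℕ), c (Fin.last N) = 0 ∧ c ≠ 0 ∧ ∀ t, z ≤ t → t ≡ ρ [MOD M] →
        ∑ i, c i * algebraMap R K (κ i * μ i ^ t * ∏ j, g j t ^ e i j) = 0) ∨
      ∀ Λ : (K →ₐ[ℚ] ℂ) → Matrix (Fin N) (Fin N) ℤ, (∀ σ, (Λ σ).det ≠ 0) →
      𝓜.A fun C s => s ≡ ρ [MOD M] →
        (∀ i, algebraMap R K (κ i * μ i ^ s * ∏ j, g j s ^ e i j) ≠ 0) ∧
        ∀ v : Fin (N + 1) → R,
          algebraMap R K (∑ i, v i * (κ i * μ i ^ s * ∏ j, g j s ^ e i j) *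
            ∏ j, g j s ^ x i j) ≠ 0 →
            ∏ i, ∏ σ : K →ₐ[ℚ] ℂ, ‖σ (algebraMap R K (κ i * μ i ^ s * ∏ j, g j s ^ e i j))‖ ≤
              C * (∏ σ : K →ₐ[ℚ] ℂ,
                ‖σ (algebraMap R K (∑ i, v i * (κ i * μ i ^ s * ∏ j, g j s ^ e i j) *
                  ∏ j, g j s ^ x i j))‖) *
                ∏ σ : K →ₐ[ℚ] ℂ, ∏ j : Fin N, ‖∑ k : Fin N, (Λ σ j k : ℂ) * σ (algebraMap R K
                  (κ k.castSucc * μ k.castSucc ^ s * ∏ j, g j s ^ e k.castSucc j))‖ := by
  classical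
  choose E hE using hg
  set P : K[X] := ∏ j, (E j).charPoly.map (algebraMap R K) with hP
  have hP0 : P ≠ 0 := (monic_prod_of_monic _ _ fun j _ => ((E j).charPoly_monic.map _)).ne_zero
  obtain ⟨L, iF, iN, iG, iA, hsplit⟩ := exists_gal K P
  let ι : R →+* L := (algebraMap K L).comp (algebraMap R K)
  have hsplit' : ∀ j, ((E j).charPoly.map ι).Splits := by
    intro j
    have h1 : (E j).charPoly.map ι = ((E j).charPoly.map (algebraMap R K)).map (algebraMap K L) := by
      rw [Polynomial.map_map]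
    rw [h1]
    refine hsplit.of_dvd (Polynomial.map_ne_zero hP0) (Polynomial.map_dvd _ ?_)
    exact Finset.dvd_prod_of_mem _ (Finset.mem_univ j)
  have hμL : ∀ i, ι (μ i) ≠ 0 := fun i => (_root_.map_ne_zero (algebraMap K L)).2 (hμ i)
  obtain ⟨z, M, r, γ, n, hM, hγ, hn, hrep⟩ := rep
    (ι := J) (κ := Fin (N + 1))
    (fun j t => ι (g j t)) (fun j => (E j).charPoly.map ι)
    (fun j => ((E j).charPoly_monic.map _).ne_zero) hsplit'
    (fun j y hy => root_int _ (E j).charPoly_monic hy)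
    (fun j => kill ι (E j) (hE j))
    (fun i => ι (μ i)) hμL
  refine ⟨M, hM, fun ρ => ?_⟩
  obtain ⟨G, hGB, hG⟩ := hrep (ρ + (M - 1) * z)
  have hs : ∀ t, M * t + (ρ + (M - 1) * z + z) = M * (t + z) + ρ := by
    intro t
    have h1 : (M - 1) * z + z = M * z := by
      have h2 : M = (M - 1) + 1 := by omega
      conv_rhs => rw [h2]
      ring
    rw [mul_add, ← h1]
    ring
  simp only [hs] at hG
  let U : Fin (N + 1) → EP L r := fun i =>
    AddMonoidAlgebra.single (n i, 0) (ι (κ i * μ i ^ (M * z + ρ)))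
  have hU : ∀ i t, ev γ (U i) t = ι (κ i * μ i ^ (M * (t + z) + ρ)) := by
    intro i t
    simp only [U]
    rw [ev_single, pow_zero, one_mul, hn]
    rw [← map_pow, ← map_pow, ← map_mul]
    congr 1
    rw [← pow_mul, mul_assoc, ← pow_add]
    congr 2
    ring
  let A : Fin (N + 1) → EP L r := fun i => U i * ∏ j, G j ^ e i j
  have hA : ∀ i t, ev γ (A i) t =
      ι (κ i * μ i ^ (M * (t + z) + ρ) * ∏ j, g j (M * (t + z) + ρ) ^ e i j) := by
    intro i t
    simp only [A, map_mul, map_prod, map_pow, Pi.mul_apply, Finset.prod_apply, Pi.pow_apply, hG, hU]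
  let τ0 : L →ₐ[ℚ] ℂ := IsAlgClosed.lift
  have hsumA : ∑ i, A i = 0 := by
    refine ev_eq_zero hγ (τ0 : L →+* ℂ) fun t => ?_
    rw [map_sum, Finset.sum_apply]
    simp only [hA]
    rw [← map_sum]
    change algebraMap K L (algebraMap R K _) = 0
    rw [hsum, map_zero]
  by_cases hind : LinearIndependent L fun k : Fin N => A ((Fin.last N).succAbove k)
  · -- independent case
    right
    intro Λ hΛ
    have hne : ∀ i, A i ≠ 0 := by
      intro i
      rcases eq_or_ne i (Fin.last N) with rfl | hi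
      · intro h0
        rw [Fin.sum_univ_succAbove _ (Fin.last N), h0, zero_add] at hsumA
        have h1 := Fintype.linearIndependent_iff.1 hind (fun _ => 1) (by
          simpa using hsumA) ⟨0, hN⟩
        exact one_ne_zero h1
      · obtain ⟨k, rfl⟩ := Fin.exists_succAbove_eq hi
        exact hind.ne_zero k
    -- the common factor
    let Q : EP L r := ∏ j, G j ^ m j
    let A' : Fin (N + 1) → EP L r := fun i => U i * ∏ j, G j ^ (e i j - m j)
    have hQA : ∀ i, A i = Q * A' i := by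
      intro i
      simp only [A, A', Q]
      have h1 : ∏ j, G j ^ e i j = (∏ j, G j ^ m j) * ∏ j, G j ^ (e i j - m j) := by
        rw [← Finset.prod_mul_distrib]
        refine Finset.prod_congr rfl fun j _ => ?_
        rw [← pow_add, Nat.add_sub_cancel' (hm i j)]
      rw [h1]
      ring
    have hQ0 : Q ≠ 0 := by
      intro h0
      exact hne (Fin.last N) (by rw [hQA, h0, zero_mul])
    have hA'0 : ∀ i, A' i ≠ 0 := by
      intro i h0
      exact hne i (by rw [hQA, h0, mul_zero])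
    have hsum' : ∑ i, A' i = 0 := by
      by_contra h0
      refine ep_mul_ne hQ0 h0 ?_
      rw [Finset.mul_sum, ← hsumA]
      exact Finset.sum_congr rfl fun i _ => (hQA i).symm
    have hind' : LinearIndependent L fun k : Fin N => A' ((Fin.last N).succAbove k) := by
      rw [Fintype.linearIndependent_iff] at hind ⊢
      intro c hc
      refine hind c ?_
      have h1 : ∑ k, c k • A ((Fin.last N).succAbove k) =
          Q * ∑ k, c k • A' ((Fin.last N).succAbove k) := by
        rw [Finset.mul_sum]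
        refine Finset.sum_congr rfl fun k _ => ?_
        rw [hQA, mul_smul_comm]
      rw [h1, hc, mul_zero]
    have hcore := mcore 𝓜 hγ G U hGB (fun ℓ i => ⟨_, D_single_U ℓ _ _⟩)
      (fun i j => e i j - m j) x hx hsum' hA'0 hind'
      (fun τ => Λ (τ.domRestrict K)) (fun τ => hΛ _)
    have hQne : 𝓜.A fun _ s => ev γ Q s ≠ 0 := 𝓜.ne hγ hQ0
    refine 𝓜.cls (z := z) hM (𝓜.and hcore hQne ?_ (fun _ _ _ _ h => h)) ?_ ?_
    · intro C C' s hCC h
      refine ⟨h.1, fun v h1 h2 => (h.2 v h1 h2).trans ?_⟩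
      exact mul_le_mul_of_nonneg_right (mul_le_mul_of_nonneg_right hCC (Nt_nonneg _))
        (Finset.prod_nonneg fun _ _ => Finset.prod_nonneg fun _ _ => norm_nonneg _)
    · intro C C' s hCC h
      refine ⟨h.1, fun v h1 => (h.2 v h1).trans ?_⟩
      exact mul_le_mul_of_nonneg_right (mul_le_mul_of_nonneg_right hCC
        (Finset.prod_nonneg fun _ _ => norm_nonneg _))
        (Finset.prod_nonneg fun _ _ => Finset.prod_nonneg fun _ _ => norm_nonneg _)
    rintro C s' hC ⟨⟨h3, h4⟩, hq⟩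
    set s := M * (s' + z) + ρ with hsdef
    set p := ev γ Q s' with hp
    have hgv : ∀ j, ev γ (G j) s' = ι (g j s) := fun j => hG j s'
    simp only [hgv] at h3 h4
    set a' : Fin (N + 1) → L := fun i =>
      ev γ (U i) s' * ∏ j, ι (g j s) ^ (e i j - m j) with ha'
    have hval : ∀ i, ι (κ i * μ i ^ s * ∏ j, g j s ^ e i j) = p * a' i := by
      intro i
      rw [hsdef, ← hA i s', hQA, map_mul, Pi.mul_apply]
      simp only [A', ha', map_mul, map_prod, map_pow, Pi.mul_apply, Finset.prod_apply, Pi.pow_apply,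
        hp, hgv]
    refine ⟨fun i h0 => ?_, fun v hδ => ?_⟩
    · have h5 : ι (κ i * μ i ^ s * ∏ j, g j s ^ e i j) = 0 := by
        change algebraMap K L (algebraMap R K _) = 0
        rw [h0, map_zero]
      rw [hval] at h5
      exact mul_ne_zero hq (h3 i) h5
    · have h6 : ι (∑ i, v i * (κ i * μ i ^ s * ∏ j, g j s ^ e i j) * ∏ j, g j s ^ x i j) =
          p * ∑ i, ι (v i) * a' i * ∏ j, ι (g j s) ^ x i j := by
        rw [map_sum, Finset.mul_sum]
        refine Finset.sum_congr rfl fun i _ => ?_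
        rw [map_mul, map_mul, hval, map_prod]
        simp only [map_pow]
        ring
      have h7 : ι (∑ i, v i * (κ i * μ i ^ s * ∏ j, g j s ^ e i j) * ∏ j, g j s ^ x i j) ≠ 0 := by
        change algebraMap K L (algebraMap R K _) ≠ 0
        rw [_root_.map_ne_zero]
        exact hδ
      have h8 : ∑ i, ι (v i) * a' i * ∏ j, ι (g j s) ^ x i j ≠ 0 := by
        intro h0
        rw [h6, h0, mul_zero] at h7
        exact h7 rfl
      have h5 := h4 (fun i => ι (v i)) (fun i => (Algebra.IsIntegral.isIntegral (R := ℤ) (v i)).map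
          (ι : R →+* L).toIntAlgHom) h8
      set d := Module.finrank K L with hd
      have hd0 : 0 < d := by
        have : FiniteDimensional K L := FiniteDimensional.right ℚ K L
        exact Module.finrank_pos
      have hNt : ∀ y : R, Nt (ι y) = (∏ σ : K →ₐ[ℚ] ℂ, ‖σ (algebraMap R K y)‖) ^ d := by
        intro y
        rw [← prod_restrict (L := L) (fun σ => ‖σ (algebraMap R K y)‖)]
        rfl
      -- multiplication by the common factor
      have hp0 : 0 < Nt p := Nt_pos hq
      set X1 := ∏ i, ∏ σ : K →ₐ[ℚ] ℂ,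
        ‖σ (algebraMap R K (κ i * μ i ^ s * ∏ j, g j s ^ e i j))‖ with hX1
      set Y1 := ∏ σ : K →ₐ[ℚ] ℂ,
        ‖σ (algebraMap R K (∑ i, v i * (κ i * μ i ^ s * ∏ j, g j s ^ e i j) *
          ∏ j, g j s ^ x i j))‖ with hY1
      set Y3 := ∏ σ : K →ₐ[ℚ] ℂ, ∏ j : Fin N, ‖∑ k : Fin N, (Λ σ j k : ℂ) * σ (algebraMap R K
        (κ k.castSucc * μ k.castSucc ^ s * ∏ j, g j s ^ e k.castSucc j))‖ with hY3
      have hY10 : 0 ≤ Y1 := Finset.prod_nonneg fun _ _ => norm_nonneg _
      have hY30 : 0 ≤ Y3 := Finset.prod_nonneg fun _ _ => Finset.prod_nonneg fun _ _ => norm_nonneg _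
      have e1 : Nt p ^ (N + 1) * ∏ i, Nt (a' i) = X1 ^ d := by
        rw [hX1, ← Finset.prod_pow]
        have : ∀ i, (∏ σ : K →ₐ[ℚ] ℂ,
            ‖σ (algebraMap R K (κ i * μ i ^ s * ∏ j, g j s ^ e i j))‖) ^ d = Nt p * Nt (a' i) := by
          intro i
          rw [← hNt, hval, Nt_mul]
        simp only [this]
        rw [Finset.prod_mul_distrib, Finset.prod_const, Finset.card_univ, Fintype.card_fin]
      have e2 : Nt p * Nt (∑ i, ι (v i) * a' i * ∏ j, ι (g j s) ^ x i j) = Y1 ^ d := by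
        rw [← Nt_mul, ← h6, hNt]
      have e4 : Nt p ^ N * (∏ τ : L →ₐ[ℚ] ℂ, ∏ j : Fin N,
          ‖∑ k : Fin N, (Λ (τ.domRestrict K) j k : ℂ) * τ (a' k.castSucc)‖) = Y3 ^ d := by
        rw [hY3, ← prod_restrict (L := L) (fun σ => ∏ j : Fin N, ‖∑ k : Fin N, (Λ σ j k : ℂ) *
          σ (algebraMap R K (κ k.castSucc * μ k.castSucc ^ s * ∏ j, g j s ^ e k.castSucc j))‖)]
        unfold Nt
        rw [← Finset.prod_pow, ← Finset.prod_mul_distrib]
        refine Finset.prod_congr rfl fun τ _ => ?_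
        have e5 : ∀ j, ‖∑ k : Fin N, (Λ (τ.domRestrict K) j k : ℂ) * (τ.domRestrict K) (algebraMap R K
            (κ k.castSucc * μ k.castSucc ^ s * ∏ j, g j s ^ e k.castSucc j))‖ =
            ‖τ p‖ * ‖∑ k : Fin N, (Λ (τ.domRestrict K) j k : ℂ) * τ (a' k.castSucc)‖ := by
          intro j
          rw [← norm_mul, Finset.mul_sum]
          congr 1
          refine Finset.sum_congr rfl fun k _ => ?_
          have e6 : (τ.domRestrict K) (algebraMap R K
              (κ k.castSucc * μ k.castSucc ^ s * ∏ j, g j s ^ e k.castSucc j)) =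
              τ (ι (κ k.castSucc * μ k.castSucc ^ s * ∏ j, g j s ^ e k.castSucc j)) := rfl
          rw [e6, hval, map_mul]
          ring
        simp only [e5]
        rw [Finset.prod_mul_distrib, Finset.prod_const, Finset.card_univ, Fintype.card_fin]
      set Z := ∏ τ : L →ₐ[ℚ] ℂ, ∏ j : Fin N,
        ‖∑ k : Fin N, (Λ (τ.domRestrict K) j k : ℂ) * τ (a' k.castSucc)‖ with hZ
      have h9 : X1 ^ d ≤ C * Y1 ^ d * Y3 ^ d := by
        rw [← e1, ← e2, ← e4]
        calc Nt p ^ (N + 1) * ∏ i, Nt (a' i) ≤ Nt p ^ (N + 1) *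
              (C * Nt (∑ i, ι (v i) * a' i * ∏ j, ι (g j s) ^ x i j) * Z) :=
              mul_le_mul_of_nonneg_left h5 (pow_nonneg hp0.le _)
          _ = _ := by ring
      have h10 : X1 ^ d ≤ (C * Y1 * Y3) ^ d := by
        refine h9.trans ?_
        rw [mul_pow, mul_pow]
        refine mul_le_mul_of_nonneg_right (mul_le_mul_of_nonneg_right ?_
          (pow_nonneg hY10 _)) (pow_nonneg hY30 _)
        exact le_self_pow₀ hC hd0.ne'
      exact le_of_pow_le_pow_left₀ hd0.ne' (by positivity) h10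
  · -- dependent case
    left
    rw [Fintype.linearIndependent_iff] at hind
    push Not at hind
    obtain ⟨c, hc, k0, hk0⟩ := hind
    have : ∃ f : L →ₗ[K] K, f (c k0) ≠ 0 := by
      by_contra hcon
      push Not at hcon
      exact hk0 ((Module.forall_dual_apply_eq_zero_iff K (c k0)).1 hcon)
    obtain ⟨f, hf⟩ := this
    refine ⟨Fin.snoc (fun k => f (c k)) 0, M * z + ρ, Fin.snoc_last _ _, ?_, fun t ht htm => ?_⟩
    · intro h0
      apply hf
      have h1 := congrFun h0 (Fin.castSucc k0)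
      rwa [Fin.snoc_castSucc] at h1
    · obtain ⟨t', ht'⟩ : ∃ t', t = M * (t' + z) + ρ := by
        have h1 : (M * z + ρ) ≡ t [MOD M] := by
          refine Nat.ModEq.trans ?_ htm.symm
          have : M * z + ρ ≡ 0 + ρ [MOD M] :=
            Nat.ModEq.add_right ρ ((Nat.modEq_zero_iff_dvd).2 (dvd_mul_right M _))
          rwa [zero_add] at this
        obtain ⟨t', ht'⟩ := (Nat.modEq_iff_dvd' ht).1 h1
        refine ⟨t', ?_⟩
        rw [mul_add]
        omega
      rw [Fin.sum_univ_castSucc, Fin.snoc_last, zero_mul, add_zero]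
      simp only [Fin.snoc_castSucc]
      have h1 := congrArg (fun F : EP L r => ev γ F t') hc
      simp only [map_sum, map_smul, map_zero, Finset.sum_apply, Pi.smul_apply, Pi.zero_apply, hA,
        ← ht', smul_eq_mul, Fin.succAbove_last] at h1
      have h2 := congrArg f h1
      rw [map_sum, map_zero] at h2
      rw [← h2]
      refine Finset.sum_congr rfl fun k _ => ?_
      have h3 : c k * ι (κ k.castSucc * μ k.castSucc ^ t * ∏ j, g j t ^ e k.castSucc j) =
          (algebraMap R K (κ k.castSucc * μ k.castSucc ^ t * ∏ j, g j t ^ e k.castSucc j)) • c k := by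
        rw [Algebra.smul_def, mul_comm]
        rfl
      rw [h3, map_smul, smul_eq_mul, mul_comm]

end Pool.Agent.Q183.AM
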