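import Pool.Agent.Q183.AR.GMain
import Pool.Agent.Q183.AR.Szp

/-!
Notions of for most arguments, for properties which depend on a constant.
-/

set_option autoImplicit false

namespace Pool.Agent.Q183.AM

open AddMonoidAlgebra Filter
open Pool.Agent.Q183.AR

/-- polynomial upper bounds -/
def PolyB (f : ℝ → ℝ) : Prop := ∃ (a : ℝ) (k : ℕ), 1 ≤ a ∧ ∀ C : ℝ, 1 ≤ C → f C ≤ a * C ^ k

theorem PolyB.id : PolyB fun C => C := ⟨1, 1, le_refl 1, fun C _ => by rw [one_mul, pow_one]⟩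

theorem PolyB.const (c : ℝ) : PolyB fun _ => c := ⟨max c 1, 0, le_max_right _ _, fun C _ => by
  rw [pow_zero, mul_one]
  exact le_max_left _ _⟩

theorem PolyB.mul {f g : ℝ → ℝ} (hf : PolyB f) (hg : PolyB g) (hg0 : ∀ C, 1 ≤ C → 0 ≤ g C) :
    PolyB fun C => f C * g C := by
  obtain ⟨a, k, ha, h1⟩ := hf
  obtain ⟨b, l, hb, h2⟩ := hg
  refine ⟨a * b, k + l, one_le_mul_of_one_le_of_one_le ha hb, fun C hC => ?_⟩
  have hC0 : 0 ≤ C := by linarith
  calc f C * g C ≤ (a * C ^ k) * g C := mul_le_mul_of_nonneg_right (h1 C hC) (hg0 C hC)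
    _ ≤ (a * C ^ k) * (b * C ^ l) :=
        mul_le_mul_of_nonneg_left (h2 C hC) (mul_nonneg (by linarith) (pow_nonneg hC0 _))
    _ = a * b * C ^ (k + l) := by rw [pow_add]; ring

theorem PolyB.add {f g : ℝ → ℝ} (hf : PolyB f) (hg : PolyB g) : PolyB fun C => f C + g C := by
  obtain ⟨a, k, ha, h1⟩ := hf
  obtain ⟨b, l, hb, h2⟩ := hg
  refine ⟨a + b, max k l, by linarith, fun C hC => ?_⟩
  have e1 : C ^ k ≤ C ^ max k l := pow_le_pow_right₀ hC (le_max_left _ _)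
  have e2 : C ^ l ≤ C ^ max k l := pow_le_pow_right₀ hC (le_max_right _ _)
  have e3 := mul_le_mul_of_nonneg_left e1 (by linarith : 0 ≤ a)
  have e4 := mul_le_mul_of_nonneg_left e2 (by linarith : 0 ≤ b)
  have := h1 C hC
  have := h2 C hC
  show f C + g C ≤ (a + b) * C ^ max k l
  linarith

theorem PolyB.pow {f : ℝ → ℝ} (hf : PolyB f) (h0 : ∀ C, 1 ≤ C → 0 ≤ f C) (n : ℕ) :
    PolyB fun C => f C ^ n := by
  induction n with
  | zero => simpa using PolyB.const 1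
  | succ n ih => simpa only [pow_succ] using ih.mul hf h0

/-- a notion of for most arguments -/
structure Mode where
  /-- the property holds for most arguments -/
  A : (ℝ → ℕ → Prop) → Prop
  imp : ∀ {P Q : ℝ → ℕ → Prop}, A P → ∀ (f : ℝ → ℝ) (z0 : ℕ), PolyB f → MonoC Q →
    (∀ C s, 1 ≤ C → z0 ≤ s → P C s → Q (f C) s) → A Q
  and : ∀ {P Q : ℝ → ℕ → Prop}, A P → A Q → MonoC P → MonoC Q → A fun C s => P C s ∧ Q C s
  triv : A fun _ _ => True
  cls : ∀ {M z ρ : ℕ}, 0 < M → ∀ {P Q : ℝ → ℕ → Prop}, A P → MonoC Q →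
    (∀ C s, 1 ≤ C → P C s → Q C (M * (s + z) + ρ)) → A fun C s => s ≡ ρ [MOD M] → Q C s
  low : ∀ {L : Type} [Field L] [NumberField L] {r : ℕ} {γ : Fin r → Lˣ}, Ind γ →
    ∀ (τ : L →+* ℂ) {F : EP L r} {l : ℝ ×ₗ ℝ}, Top (wτ γ τ) F l →
    A fun C s => sz l s ≤ C * ‖τ (ev γ F s)‖

namespace Mode

variable (𝓜 : Mode)

theorem all {α : Type} [Finite α] {P : α → ℝ → ℕ → Prop} (h : ∀ a, 𝓜.A (P a))
    (m : ∀ a, MonoC (P a)) : 𝓜.A fun C s => ∀ a, P a C s := by
  classical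
  have := Fintype.ofFinite α
  have h1 : ∀ S : Finset α, 𝓜.A fun C s => ∀ a ∈ S, P a C s := by
    intro S
    induction S using Finset.induction_on with
    | empty =>
      exact 𝓜.imp 𝓜.triv (fun C => C) 0 PolyB.id (fun _ _ _ _ _ a ha =>
        absurd ha (Finset.notMem_empty a)) fun C s _ _ _ a ha => absurd ha (Finset.notMem_empty a)
    | insert a S ha ih =>
      refine 𝓜.imp (𝓜.and (h a) ih (m a) (fun C C' s hCC h1 b hb => m b C C' s hCC (h1 b hb)))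
        (fun C => C) 0 PolyB.id (fun C C' s hCC h1 b hb => m b C C' s hCC (h1 b hb))
        fun C s _ _ hab b hb => ?_
      rcases Finset.mem_insert.1 hb with rfl | hb
      · exact hab.1
      · exact hab.2 b hb
  exact 𝓜.imp (h1 Finset.univ) (fun C => C) 0 PolyB.id (fun C C' s hCC h2 a =>
    m a C C' s hCC (h2 a)) fun C s _ _ h2 a => h2 a (Finset.mem_univ a)

theorem large {P : ℝ → ℕ → Prop} (C0 : ℝ) (z0 : ℕ) (hP : MonoC P)
    (h : ∀ s, z0 ≤ s → P C0 s) : 𝓜.A P :=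
  𝓜.imp 𝓜.triv (fun _ => C0) z0 (PolyB.const C0) hP fun _ s _ hs _ => h s hs

theorem ofCls {P : ℝ → ℕ → Prop} {M : ℕ} (hM : 0 < M)
    (h : ∀ ρ : ℕ, 𝓜.A fun C s => s ≡ ρ [MOD M] → P C s) (hP : MonoC P) : 𝓜.A P :=
  𝓜.imp (𝓜.all (fun ρ : Fin M => h ρ) (fun ρ C C' s hCC h1 h2 => hP C C' s hCC (h1 h2)))
    (fun C => C) 0 PolyB.id hP fun C s _ _ h1 => h1 ⟨s % M, Nat.mod_lt _ hM⟩ (Nat.mod_modEq s M).symm

variable {L : Type} [Field L] [NumberField L] {r : ℕ}

theorem ne {γ : Fin r → Lˣ} (hγ : Ind γ) {F : EP L r} (hF : F ≠ 0) :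
    𝓜.A fun _ s => ev γ F s ≠ 0 := by
  let τ : L →ₐ[ℚ] ℂ := IsAlgClosed.lift
  obtain ⟨l, hl⟩ := exists_top (wτ γ (τ : L →+* ℂ)) hF
  refine 𝓜.imp (𝓜.low hγ (τ : L →+* ℂ) hl) (fun C => C) 1 PolyB.id (fun _ _ _ _ h => h)
    fun C s _ hs h1 h2 => ?_
  rw [h2, map_zero, norm_zero, mul_zero] at h1
  exact absurd (sz_pos l hs) (not_lt.2 h1)

/-- **Upper bounds of Wronskians by linear forms.** -/
theorem wub {γ : Fin r → Lˣ} (hγ : Ind γ) (τ : L →+* ℂ) {N : ℕ} (x : Fin N → EP L r)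
    (ℓ : Ex r →+ ℤ) (Λ : Matrix (Fin N) (Fin N) ℤ) (hΛ : Λ.det ≠ 0) :
    𝓜.A fun C s => ‖τ (ev γ (Matrix.of fun (i k : Fin N) => (D ℓ)^[(k : ℕ)] (x i)).det s)‖ ≤
      C * ∏ j, ‖∑ k, (Λ j k : ℂ) * τ (ev γ (x k) s)‖ := by
  classical
  set W := (Matrix.of fun (i k : Fin N) => (D ℓ)^[(k : ℕ)] (x i)).det with hW
  let F : Fin N → EP L r := fun j => ∑ k, ((Λ j k : ℤ) : L) • x k
  have hev : ∀ j s, τ (ev γ (F j) s) = ∑ k, (Λ j k : ℂ) * τ (ev γ (x k) s) := by
    intro j s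
    simp only [F, map_sum, map_smul, Finset.sum_apply, Pi.smul_apply, smul_eq_mul, map_mul,
      map_intCast]
  have hDF : ∀ (i : ℕ) j, (D ℓ)^[i] (F j) = ∑ k, ((Λ j k : ℤ) : L) • (D ℓ)^[i] (x k) := by
    intro i j
    simp only [F]
    rw [D_iter_sum]
    refine Finset.sum_congr rfl fun k _ => ?_
    ext m
    rw [coeff_D_iter, AddMonoidAlgebra.coeff_smul, Finsupp.smul_apply,
      AddMonoidAlgebra.coeff_smul, Finsupp.smul_apply, coeff_D_iter]
    simp only [smul_eq_mul]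
    ring
  have hdet : ∀ s, (Λ.det : ℂ) * τ (ev γ W s) =
      (Matrix.of fun (j i : Fin N) => τ (ev γ ((D ℓ)^[(i : ℕ)] (F j)) s)).det := by
    intro s
    have h1 : τ (ev γ W s) = (Matrix.of fun (k i : Fin N) => τ (ev γ ((D ℓ)^[(i : ℕ)] (x k)) s)).det := by
      let ψ : EP L r →+* ℂ := (τ.comp (Pi.evalRingHom (fun _ : ℕ => L) s)).comp
        (ev γ : EP L r →+* (ℕ → L))
      change ψ W = _
      rw [hW, RingHom.map_det]
      rfl
    have h2 : (Λ.det : ℂ) = (Λ.map (Int.castRingHom ℂ)).det := by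
      rw [← RingHom.mapMatrix_apply, ← RingHom.map_det]
      rfl
    rw [h1, h2, ← Matrix.det_mul]
    congr 1
    ext j i
    rw [Matrix.mul_apply]
    simp only [Matrix.map_apply, Matrix.of_apply, hDF, map_sum, map_smul, Finset.sum_apply,
      Pi.smul_apply, smul_eq_mul, map_mul, map_intCast]
    rfl
  have hΛ1 : 1 ≤ ‖(Λ.det : ℂ)‖ := by
    rw [Complex.norm_intCast]
    exact_mod_cast Int.one_le_abs hΛ
  have hle : ∀ s, ‖τ (ev γ W s)‖ ≤
      ‖(Matrix.of fun (j i : Fin N) => τ (ev γ ((D ℓ)^[(i : ℕ)] (F j)) s)).det‖ := by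
    intro s
    rw [← hdet, norm_mul]
    exact le_mul_of_one_le_left (norm_nonneg _) hΛ1
  simp only [← hev]
  by_cases hz : ∃ j, F j = 0
  · obtain ⟨j, hj⟩ := hz
    refine 𝓜.imp 𝓜.triv (fun C => C) 0 PolyB.id (fun C C' s hCC h => h.trans
      (mul_le_mul_of_nonneg_right hCC (Finset.prod_nonneg fun _ _ => norm_nonneg _)))
      fun C s hC _ _ => ?_
    have h1 : (Matrix.of fun (j i : Fin N) => τ (ev γ ((D ℓ)^[(i : ℕ)] (F j)) s)).det = 0 := by
      refine Matrix.det_eq_zero_of_row_eq_zero j fun i => ?_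
      have h2 : (D ℓ)^[(i : ℕ)] (0 : EP L r) = 0 := by
        ext m
        rw [coeff_D_iter]
        simp
      rw [Matrix.of_apply, hj, h2, map_zero]
      simp
    have h2 := hle s
    rw [h1, norm_zero] at h2
    exact h2.trans (mul_nonneg (by linarith) (Finset.prod_nonneg fun _ _ => norm_nonneg _))
  · push Not at hz
    choose l hl using fun j => exists_top (wτ γ τ) (hz j)
    have hup : ∀ j (i : Fin N), ∃ C : ℝ, 0 < C ∧ ∀ s : ℕ, 1 ≤ s →
        ‖τ (ev γ ((D ℓ)^[(i : ℕ)] (F j)) s)‖ ≤ C * sz (l j) s := fun j i =>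
      ev_upper γ τ fun m hm => (hl j).2 m (supp_D_iter _ _ _ hm)
    choose Cu hCu0 hCu using hup
    have hCs : ∀ j, 1 ≤ ∑ i, Cu j i + 1 := fun j => by
      have : 0 ≤ ∑ i, Cu j i := Finset.sum_nonneg fun i _ => (hCu0 j i).le
      linarith
    refine 𝓜.imp (𝓜.all (fun j => 𝓜.low hγ τ (hl j)) (fun j C C' s hCC h => h.trans
      (mul_le_mul_of_nonneg_right hCC (norm_nonneg _))))
      (fun C => ((N.factorial : ℝ) * ∏ j, (∑ i, Cu j i + 1)) * C ^ N) 1
      ((PolyB.const _).mul (PolyB.id.pow (fun C hC => by linarith) N)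
        (fun C hC => pow_nonneg (by linarith) _)) (fun C C' s hCC h => h.trans
      (mul_le_mul_of_nonneg_right hCC (Finset.prod_nonneg fun _ _ => norm_nonneg _)))
      fun C s hC hs h1 => ?_
    refine (hle s).trans ((det_bound _ (fun j => (∑ i, Cu j i + 1) * sz (l j) s)
      fun j i => ?_).trans ?_)
    · rw [Matrix.of_apply]
      refine (hCu j i s hs).trans (mul_le_mul_of_nonneg_right ?_ (sz_nonneg _ _))
      have := Finset.single_le_sum (f := fun i => Cu j i) (fun i _ => (hCu0 j i).le)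
        (Finset.mem_univ i)
      linarith
    · rw [mul_assoc, mul_assoc]
      refine mul_le_mul_of_nonneg_left ?_ (by positivity)
      have e1 : C ^ N = ∏ _j : Fin N, C := by rw [Finset.prod_const, Finset.card_univ, Fintype.card_fin]
      rw [e1, ← Finset.prod_mul_distrib, ← Finset.prod_mul_distrib]
      refine Finset.prod_le_prod (fun j _ => mul_nonneg (by linarith [hCs j]) (sz_nonneg _ _))
        fun j _ => ?_
      exact mul_le_mul_of_nonneg_left (h1 j) (by linarith [hCs j])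

end Mode

end Pool.Agent.Q183.AM
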